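import Pool.Agent.H842R4.QSmall

/-!
The tangential part of the second order term.

PROOF. Let `E = h X X`, `F = h X Y`, `G = h Y Y` (elements of `𝒜`), `X, Y` commute, so
`η(X,X,X) = (1/2) D_X E`, `η(X,X,Y) = D_X F - (1/2) D_Y E`, `η(X,Y,X) = (1/2) D_Y E`,
`η(X,Y,Y) = (1/2) D_X G`, `η(Y,Y,X) = D_Y F - (1/2) D_X G`, `η(Y,Y,Y) = (1/2) D_Y G` and
`Q = K.Q h X Y = D_X D_Y F - (1/2) D_X D_X G - (1/2) D_Y D_Y E`.
Let `A f = K.Av X (K.Av Y f)`. Integrating by parts (`Av_Av_parts` with `(a,b) = (1,0), (0,1)`):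
(1) `A (η(X,Y,X)² - η(X,X,X) η(Y,Y,X)) = (1/2) A (E Q)`:
  both are `A ((1/4) E_Y² - (1/2) E_X F_Y + (1/4) E_X G_X)`;
(2) `A (η(X,Y,Y)² - η(X,X,Y) η(Y,Y,Y)) = (1/2) A (G Q)`;
(3) `A (2 η(X,Y,X) η(X,Y,Y) - η(X,X,X) η(Y,Y,Y) - η(X,X,Y) η(Y,Y,X)) = A (F Q)`: the left side is
  `A ((1/4) E_Y G_X - (1/4) E_X G_Y - F_X F_Y + (1/2) F_X G_X + (1/2) E_Y F_Y)` and
  `A (E_Y G_X) = A (E_X G_Y)` (by parts twice, `D_X D_Y = D_Y D_X`).
`Q` is small (`S.Q_small₁`), `E, F, G` are bounded (`S.bd_h []`), so all three are small.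
-/

open MeasureTheory Filter Topology

noncomputable section

set_option linter.unusedSimpArgs false
set_option linter.unusedSectionVars false

namespace Pool.Agent.H842R4

variable {P 𝔤 : Type} [NormedAddCommGroup 𝔤] [InnerProductSpace ℝ 𝔤] [FiniteDimensional ℝ 𝔤]

namespace TangAux

variable {P 𝔤 : Type} [NormedAddCommGroup 𝔤] [InnerProductSpace ℝ 𝔤]
variable (K : Calc P 𝔤)

/-- double average as a linear map -/
def T (X Y : 𝔤) : K.𝒜 →ₗ[ℝ] K.𝒜 := (K.Av X).comp (K.Av Y)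

lemma T_apply (X Y : 𝔤) (f : K.𝒜) : T K X Y f = K.Av X (K.Av Y f) := rfl

lemma partsX (X Y : 𝔤) (hXY : K.br X Y = 0) (hX : K.Cl X) (hY : K.Cl Y) (f g : K.𝒜) :
    T K X Y (f * K.D X g) = - T K X Y (K.D X f * g) := by
  have h := K.Av_Av_parts X Y hXY hX hY 1 0 f g
  simpa [T_apply] using h

lemma partsY (X Y : 𝔤) (hXY : K.br X Y = 0) (hX : K.Cl X) (hY : K.Cl Y) (f g : K.𝒜) :
    T K X Y (f * K.D Y g) = - T K X Y (K.D Y f * g) := by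
  have h := K.Av_Av_parts X Y hXY hX hY 0 1 f g
  simpa [T_apply] using h

section eta

variable (h : 𝔤 →ₗ[ℝ] 𝔤 →ₗ[ℝ] K.𝒜) (hs : ∀ A B, h A B = h B A) (X Y : 𝔤)
  (hXY : K.br X Y = 0)

include hXY in
lemma brYX : K.br Y X = 0 := by rw [K.br_anti, hXY, neg_zero]

lemma eXXX : K.eta h X X X = (1 / 2 : ℝ) • K.D X (h X X) := by
  simp only [Calc.eta, K.br_self, LinearMap.zero_apply, map_zero]; module

lemma eYYY : K.eta h Y Y Y = (1 / 2 : ℝ) • K.D Y (h Y Y) := eXXX K h Y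

include hs hXY in
lemma eXXY : K.eta h X X Y = K.D X (h X Y) - (1 / 2 : ℝ) • K.D Y (h X X) := by
  simp only [Calc.eta, K.br_self, hXY, brYX K X Y hXY, LinearMap.zero_apply, map_zero, hs Y X]
  module

include hs hXY in
lemma eXYX : K.eta h X Y X = (1 / 2 : ℝ) • K.D Y (h X X) := by
  simp only [Calc.eta, K.br_self, hXY, brYX K X Y hXY, LinearMap.zero_apply, map_zero, hs Y X]
  module

include hs hXY in
lemma eXYY : K.eta h X Y Y = (1 / 2 : ℝ) • K.D X (h Y Y) := by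
  simp only [Calc.eta, K.br_self, hXY, brYX K X Y hXY, LinearMap.zero_apply, map_zero, hs Y X]
  module

include hs hXY in
lemma eYYX : K.eta h Y Y X = K.D Y (h X Y) - (1 / 2 : ℝ) • K.D X (h Y Y) := by
  simp only [Calc.eta, K.br_self, hXY, brYX K X Y hXY, LinearMap.zero_apply, map_zero, hs Y X]
  module

include hs hXY in
lemma Q_eq : K.Q h X Y = K.D X (K.D Y (h X Y)) - (1 / 2 : ℝ) • K.D X (K.D X (h Y Y))
    - (1 / 2 : ℝ) • K.D Y (K.D Y (h X X)) := by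
  rw [Calc.Q, eYYX K h hs X Y hXY, eXYX K h hs X Y hXY, map_sub, map_smul, map_smul]

variable (hX : K.Cl X) (hY : K.Cl Y)

include hs hXY hX hY in
lemma id1 : T K X Y (K.eta h X Y X ^ 2 - K.eta h X X X * K.eta h Y Y X) =
    (1 / 2 : ℝ) • T K X Y (h X X * K.Q h X Y) := by
  rw [eXXX, eXYX K h hs X Y hXY, eYYX K h hs X Y hXY, Q_eq K h hs X Y hXY]
  have p1 := partsX K X Y hXY hX hY (h X X) (K.D Y (h X Y))
  have p2 := partsX K X Y hXY hX hY (h X X) (K.D X (h Y Y))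
  have p3 := partsY K X Y hXY hX hY (h X X) (K.D Y (h X X))
  have e1 : ((1 / 2 : ℝ) • K.D Y (h X X)) ^ 2 - (1 / 2 : ℝ) • K.D X (h X X) *
      (K.D Y (h X Y) - (1 / 2 : ℝ) • K.D X (h Y Y)) =
      (1 / 4 : ℝ) • (K.D Y (h X X) * K.D Y (h X X)) - (1 / 2 : ℝ) • (K.D X (h X X) * K.D Y (h X Y))
      + (1 / 4 : ℝ) • (K.D X (h X X) * K.D X (h Y Y)) := by
    rw [sq, mul_sub, smul_mul_smul_comm, smul_mul_smul_comm, smul_mul_assoc]
    module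
  have e2 : h X X * (K.D X (K.D Y (h X Y)) - (1 / 2 : ℝ) • K.D X (K.D X (h Y Y))
    - (1 / 2 : ℝ) • K.D Y (K.D Y (h X X))) = h X X * K.D X (K.D Y (h X Y))
      - (1 / 2 : ℝ) • (h X X * K.D X (K.D X (h Y Y)))
      - (1 / 2 : ℝ) • (h X X * K.D Y (K.D Y (h X X))) := by
    rw [mul_sub, mul_sub, mul_smul_comm, mul_smul_comm]
  rw [e1, e2]
  simp only [map_add, map_sub, map_smul, p1, p2, p3]
  module

include hs hXY hX hY in
lemma id2 : T K X Y (K.eta h X Y Y ^ 2 - K.eta h X X Y * K.eta h Y Y Y) =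
    (1 / 2 : ℝ) • T K X Y (h Y Y * K.Q h X Y) := by
  rw [eYYY, eXYY K h hs X Y hXY, eXXY K h hs X Y hXY, Q_eq K h hs X Y hXY, K.D_comm_of X Y hXY]
  have p1 := partsY K X Y hXY hX hY (h Y Y) (K.D X (h X Y))
  have p2 := partsX K X Y hXY hX hY (h Y Y) (K.D X (h Y Y))
  have p3 := partsY K X Y hXY hX hY (h Y Y) (K.D Y (h X X))
  have e1 : ((1 / 2 : ℝ) • K.D X (h Y Y)) ^ 2 - (K.D X (h X Y) - (1 / 2 : ℝ) • K.D Y (h X X)) *
      (1 / 2 : ℝ) • K.D Y (h Y Y) =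
      (1 / 4 : ℝ) • (K.D X (h Y Y) * K.D X (h Y Y)) - (1 / 2 : ℝ) • (K.D Y (h Y Y) * K.D X (h X Y))
      + (1 / 4 : ℝ) • (K.D Y (h Y Y) * K.D Y (h X X)) := by
    rw [sq, sub_mul, smul_mul_smul_comm, smul_mul_smul_comm, mul_smul_comm,
      mul_comm (K.D X (h X Y)), mul_comm (K.D Y (h X X))]
    module
  have e2 : h Y Y * (K.D Y (K.D X (h X Y)) - (1 / 2 : ℝ) • K.D X (K.D X (h Y Y))
    - (1 / 2 : ℝ) • K.D Y (K.D Y (h X X))) = h Y Y * K.D Y (K.D X (h X Y))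
      - (1 / 2 : ℝ) • (h Y Y * K.D X (K.D X (h Y Y)))
      - (1 / 2 : ℝ) • (h Y Y * K.D Y (K.D Y (h X X))) := by
    rw [mul_sub, mul_sub, mul_smul_comm, mul_smul_comm]
  rw [e1, e2]
  simp only [map_add, map_sub, map_smul, p1, p2, p3]
  module

include hs hXY hX hY in
lemma id3 : T K X Y ((2 : ℝ) • (K.eta h X Y X * K.eta h X Y Y)
      - K.eta h X X X * K.eta h Y Y Y - K.eta h X X Y * K.eta h Y Y X) =
    T K X Y (h X Y * K.Q h X Y) := by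
  rw [eXXX, eYYY, eXYX K h hs X Y hXY, eXYY K h hs X Y hXY, eXXY K h hs X Y hXY,
    eYYX K h hs X Y hXY, Q_eq K h hs X Y hXY]
  have p1 := partsX K X Y hXY hX hY (h X Y) (K.D Y (h X Y))
  have p2 := partsX K X Y hXY hX hY (h X Y) (K.D X (h Y Y))
  have p3 := partsY K X Y hXY hX hY (h X Y) (K.D Y (h X X))
  have q1 := partsY K X Y hXY hX hY (h X X) (K.D X (h Y Y))
  have q2 := partsX K X Y hXY hX hY (h X X) (K.D Y (h Y Y))
  rw [K.D_comm_of X Y hXY (h Y Y)] at q2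
  have q3 : T K X Y (K.D Y (h X X) * K.D X (h Y Y)) = T K X Y (K.D X (h X X) * K.D Y (h Y Y)) := by
    rw [q1] at q2
    exact neg_injective q2
  have e1 : (2 : ℝ) • ((1 / 2 : ℝ) • K.D Y (h X X) * (1 / 2 : ℝ) • K.D X (h Y Y)) -
      (1 / 2 : ℝ) • K.D X (h X X) * (1 / 2 : ℝ) • K.D Y (h Y Y) -
      (K.D X (h X Y) - (1 / 2 : ℝ) • K.D Y (h X X)) *
      (K.D Y (h X Y) - (1 / 2 : ℝ) • K.D X (h Y Y)) =
      (1 / 4 : ℝ) • (K.D Y (h X X) * K.D X (h Y Y)) - (1 / 4 : ℝ) • (K.D X (h X X) * K.D Y (h Y Y))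
      - K.D X (h X Y) * K.D Y (h X Y) + (1 / 2 : ℝ) • (K.D X (h X Y) * K.D X (h Y Y))
      + (1 / 2 : ℝ) • (K.D Y (h X Y) * K.D Y (h X X)) := by
    rw [sub_mul, mul_sub, mul_sub]
    simp only [smul_mul_assoc, mul_smul_comm]
    rw [mul_comm (K.D Y (h X X)) (K.D Y (h X Y))]
    module
  have e2 : h X Y * (K.D X (K.D Y (h X Y)) - (1 / 2 : ℝ) • K.D X (K.D X (h Y Y))
    - (1 / 2 : ℝ) • K.D Y (K.D Y (h X X))) = h X Y * K.D X (K.D Y (h X Y))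
      - (1 / 2 : ℝ) • (h X Y * K.D X (K.D X (h Y Y)))
      - (1 / 2 : ℝ) • (h X Y * K.D Y (K.D Y (h X X))) := by
    rw [mul_sub, mul_sub, mul_smul_comm, mul_smul_comm]
  rw [e1, e2]
  simp only [map_add, map_sub, map_smul, p1, p2, p3, q3]
  module

end eta

lemma sm_T (X Y : 𝔤) {f : ℕ → K.𝒜} (hf : K.sm f) : K.sm (fun j => T K X Y (f j)) :=
  Calc.sm_Av X (Calc.sm_Av Y hf)

end TangAux

namespace Pert

variable {K : Calc P 𝔤} (S : Pert K)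

private lemma tang_bd_h (A B : 𝔤) : K.bd (fun j => S.h j A B) := by
  simpa [Calc.Dl] using S.bd_h [] (by simp) A B

theorem tang1 (X Y : 𝔤) (hXY : K.br X Y = 0) (hX : K.Cl X) (hY : K.Cl Y)
    (hi : LinearIndependent ℝ ![X, Y]) :
    K.sm (fun j => K.Av X (K.Av Y (K.eta (S.h j) X Y X ^ 2
      - K.eta (S.h j) X X X * K.eta (S.h j) Y Y X))) := by
  have h1 := (TangAux.sm_T K X Y
    (Calc.sm.bd_mul (S.tang_bd_h X X) (S.Q_small₁ X Y hXY hX hY hi))).smul (1 / 2 : ℝ)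
  exact h1.congr fun j => TangAux.id1 K (S.h j) (S.symm j) X Y hXY hX hY

theorem tang2 (X Y : 𝔤) (hXY : K.br X Y = 0) (hX : K.Cl X) (hY : K.Cl Y)
    (hi : LinearIndependent ℝ ![X, Y]) :
    K.sm (fun j => K.Av X (K.Av Y (K.eta (S.h j) X Y Y ^ 2
      - K.eta (S.h j) X X Y * K.eta (S.h j) Y Y Y))) := by
  have h1 := (TangAux.sm_T K X Y
    (Calc.sm.bd_mul (S.tang_bd_h Y Y) (S.Q_small₁ X Y hXY hX hY hi))).smul (1 / 2 : ℝ)
  exact h1.congr fun j => TangAux.id2 K (S.h j) (S.symm j) X Y hXY hX hY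

theorem tang3 (X Y : 𝔤) (hXY : K.br X Y = 0) (hX : K.Cl X) (hY : K.Cl Y)
    (hi : LinearIndependent ℝ ![X, Y]) :
    K.sm (fun j => K.Av X (K.Av Y ((2 : ℝ) • (K.eta (S.h j) X Y X * K.eta (S.h j) X Y Y)
      - K.eta (S.h j) X X X * K.eta (S.h j) Y Y Y
      - K.eta (S.h j) X X Y * K.eta (S.h j) Y Y X))) := by
  have h1 := TangAux.sm_T K X Y
    (Calc.sm.bd_mul (S.tang_bd_h X Y) (S.Q_small₁ X Y hXY hX hY hi))
  exact h1.congr fun j => TangAux.id3 K (S.h j) (S.symm j) X Y hXY hX hY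

end Pert

end Pool.Agent.H842R4
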