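import Pool.Agent.H842R4.Lim

/-!
Landau's inequality `|φ'| ≤ 2 sup|φ| / τ + τ sup|φ''|` for functions on the line, for sequences.

PROOF. By the mean value theorem (or Taylor) for `s`, `τ > 0`:
`φ(s+τ) - φ(s) = τ φ'(ξ)`, `|φ'(ξ) - φ'(s)| ≤ τ sup |φ''|`, so
`|φ'(s)| ≤ 2 sup|φ| / τ + τ sup|φ''|`.  `landau`: given `ε`, take `τ` with `τ C ≤ ε/2`
(`|φ''| ≤ C`) and then `j` with `2 sup|φ| ≤ τ ε / 2`.  `landau'`: given `ε` take `τ` with
`2 C / τ ≤ ε/2` and then `j` with `τ sup|φ''| ≤ ε/2`.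
`sm_D`, `sm_D'`: apply to `φ j p s = K.ev (K.fl A s p) (f j)` (derivative: `K.der_ev`),
and use `K.fl_zero` at `s = 0`.
-/

open MeasureTheory Filter Topology

noncomputable section

namespace Pool.Agent.H842R4

/-- Landau's inequality at one point. -/
theorem landau_pt {φ φ' φ'' : ℝ → ℝ} (h1 : ∀ s, HasDerivAt φ (φ' s) s)
    (h2 : ∀ s, HasDerivAt φ' (φ'' s) s) {a b : ℝ} (ha : ∀ s, |φ s| ≤ a) (hb : ∀ s, |φ'' s| ≤ b)
    {τ : ℝ} (hτ : 0 < τ) (s : ℝ) : |φ' s| ≤ 2 * a / τ + τ * b := by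
  obtain ⟨ξ, hξ, hξ2⟩ := exists_hasDerivAt_eq_slope φ φ' (show s < s + τ by linarith)
    (fun x _ => (h1 x).continuousAt.continuousWithinAt) (fun x _ => h1 x)
  obtain ⟨η, hη, hη2⟩ := exists_hasDerivAt_eq_slope φ' φ'' hξ.1
    (fun x _ => (h2 x).continuousAt.continuousWithinAt) (fun x _ => h2 x)
  have hb0 : 0 ≤ b := (abs_nonneg _).trans (hb 0)
  have e1 : s + τ - s = τ := by ring
  rw [e1] at hξ2
  have hξs : 0 < ξ - s := by linarith [hξ.1]
  have hξτ : ξ - s ≤ τ := by linarith [hξ.2]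
  have h3 : |φ' ξ| ≤ 2 * a / τ := by
    rw [hξ2, abs_div, abs_of_pos hτ]
    apply div_le_div_of_nonneg_right _ hτ.le
    have := abs_sub (φ (s + τ)) (φ s)
    linarith [ha (s + τ), ha s]
  have h4 : |φ' ξ - φ' s| ≤ τ * b := by
    have h5 : φ' ξ - φ' s = φ'' η * (ξ - s) := by
      rw [hη2]; field_simp
    rw [h5, abs_mul, abs_of_pos hξs, mul_comm]
    exact mul_le_mul hξτ (hb η) (abs_nonneg _) hτ.le
  have h6 : φ' s = φ' ξ - (φ' ξ - φ' s) := by ring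
  rw [h6]
  exact (abs_sub _ _).trans (add_le_add h3 h4)

theorem landau {ι : Type} (φ φ' φ'' : ℕ → ι → ℝ → ℝ)
    (h1 : ∀ j i s, HasDerivAt (φ j i) (φ' j i s) s)
    (h2 : ∀ j i s, HasDerivAt (φ' j i) (φ'' j i s) s)
    (hs : Sm (fun j (x : ι × ℝ) => φ j x.1 x.2)) (hb : Bd (fun j (x : ι × ℝ) => φ'' j x.1 x.2)) :
    Sm (fun j (x : ι × ℝ) => φ' j x.1 x.2) := by
  obtain ⟨C, hC0, hC⟩ := hb.exists_pos
  intro ε hε
  have hτ : 0 < ε / (2 * C) := by positivity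
  filter_upwards [hs (ε / (2 * C) * ε / 4) (by positivity)] with j hj x
  have h3 := landau_pt (h1 j x.1) (h2 j x.1) (fun s => hj (x.1, s)) (fun s => hC j (x.1, s)) hτ x.2
  refine h3.trans (le_of_eq ?_)
  field_simp
  ring

theorem landau' {ι : Type} (φ φ' φ'' : ℕ → ι → ℝ → ℝ)
    (h1 : ∀ j i s, HasDerivAt (φ j i) (φ' j i s) s)
    (h2 : ∀ j i s, HasDerivAt (φ' j i) (φ'' j i s) s)
    (hs : Bd (fun j (x : ι × ℝ) => φ j x.1 x.2)) (hb : Sm (fun j (x : ι × ℝ) => φ'' j x.1 x.2)) :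
    Sm (fun j (x : ι × ℝ) => φ' j x.1 x.2) := by
  obtain ⟨C, hC0, hC⟩ := hs.exists_pos
  intro ε hε
  have hτ : 0 < 4 * C / ε := by positivity
  filter_upwards [hb (ε * ε / (8 * C)) (by positivity)] with j hj x
  have h3 := landau_pt (h1 j x.1) (h2 j x.1) (fun s => hC j (x.1, s)) (fun s => hj (x.1, s)) hτ x.2
  refine h3.trans (le_of_eq ?_)
  field_simp
  ring

variable {P 𝔤 : Type} [NormedAddCommGroup 𝔤] [InnerProductSpace ℝ 𝔤]

namespace Calc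

variable {K : Calc P 𝔤}

theorem sm_D (A : 𝔤) (f : ℕ → K.𝒜) (hs : K.sm f) (hb : K.bd (fun j => K.D A (K.D A (f j)))) :
    K.sm (fun j => K.D A (f j)) := by
  have h := landau (ι := P) (fun j p s => K.ev (K.fl A s p) (f j))
    (fun j p s => K.ev (K.fl A s p) (K.D A (f j)))
    (fun j p s => K.ev (K.fl A s p) (K.D A (K.D A (f j))))
    (fun j p s => K.der_ev A (f j) p s) (fun j p s => K.der_ev A (K.D A (f j)) p s)
    (Sm.comp hs (fun x : P × ℝ => K.fl A x.2 x.1)) (Bd.comp hb (fun x : P × ℝ => K.fl A x.2 x.1))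
  have h2 := Sm.comp h (fun p : P => (p, (0:ℝ)))
  simp only [K.fl_zero] at h2
  exact h2

theorem sm_D' (A : 𝔤) (f : ℕ → K.𝒜) (hs : K.bd f) (hb : K.sm (fun j => K.D A (K.D A (f j)))) :
    K.sm (fun j => K.D A (f j)) := by
  have h := landau' (ι := P) (fun j p s => K.ev (K.fl A s p) (f j))
    (fun j p s => K.ev (K.fl A s p) (K.D A (f j)))
    (fun j p s => K.ev (K.fl A s p) (K.D A (K.D A (f j))))
    (fun j p s => K.der_ev A (f j) p s) (fun j p s => K.der_ev A (K.D A (f j)) p s)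
    (Bd.comp hs (fun x : P × ℝ => K.fl A x.2 x.1)) (Sm.comp hb (fun x : P × ℝ => K.fl A x.2 x.1))
  have h2 := Sm.comp h (fun p : P => (p, (0:ℝ)))
  simp only [K.fl_zero] at h2
  exact h2

end Calc

end Pool.Agent.H842R4
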