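import Pool.Agent.H842R4.Lim

/-!
Averages over closed one-parameter groups. `K.Av A`, `K.Pr A` are linear maps `𝒜 → 𝒜` with
`K.ev_Av`, `K.ev_Pr`. Everything is proved pointwise (`K.ext_ev`).

PROOFS.
* `Av_mono`, `Av_algebraMap`, `abs_Av_le`, `abs_Pr_le`: monotonicity of the interval integral
  (`∫_0^{2π} s ds = 2π²`).
* `Av_D`: fundamental theorem of calculus (`K.der_ev`), `K.fl A (2π) p = p = K.fl A 0 p`.
* `D_wInt_comm`: differentiate `∫_0^{2π} w(s) K.ev (K.fl A s (K.fl C u p)) f ds` in `u` at `0`: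
  `K.fl A s (K.fl C u p) = K.fl C u (K.fl A s p)` (`K.fl_comm`), the derivative in `u` is
  `w(s) K.ev (K.fl C u (K.fl A s p)) (K.D C f)`, bounded by `K.bdd`; use
  `intervalIntegral.hasDerivAt_integral_of_dominated_loc_of_deriv_le`, then uniqueness of the
  derivative (`K.der_ev` for the element `K.wInt A w hw f` of `𝒜`).
* `Av_comm`: Fubini (`intervalIntegral_integral_interchange` or
  `MeasureTheory.integral_integral_swap`), continuity `K.cont₂`.
* `ev_fl_Av`: `∫_0^{2π} K.ev (K.fl A (s + u) p) f ds` does not depend on `u` by periodicity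
  (`Function.Periodic.intervalIntegral_add_eq`).
* `Av_mul_inv`: pull the constant out of the integral.
* `D_Pr_self`: integration by parts: `d/du ∫ s F(s+u) ds` ... or directly:
  by `D_wInt_comm` (with `C = A`, `br A A = 0`) `D A (Pr A f) = Pr A (D A f)`, and
  `∫_0^{2π} s F'(s) ds = 2π F(2π) - ∫_0^{2π} F`, `F(2π) = F(0)`.
* `Av_Av_Av`: for `W = a X + b Y` in the torus: by `Av_comm` (`W` commutes with `X`, `Y`)
  `Av X (Av Y (Av W f)) = Av W (Av X (Av Y f))`, and `g = Av X (Av Y f)` is invariant under the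
  flow of `W`: `K.fl W s p = K.fl X (a s) (K.fl Y (b s) p)` (`K.fl_comb`), `g` is invariant under
  the flow of `X` (`ev_fl_Av`) and of `Y` (swap by `Av_comm`).
* `Av_Av_D`: linearity, `Av_D`, `Av_comm`.
-/

open MeasureTheory Filter Topology

noncomputable section

namespace Pool.Agent.H842R4

variable {P 𝔤 : Type} [NormedAddCommGroup 𝔤] [InnerProductSpace ℝ 𝔤]

namespace Calc

variable (K : Calc P 𝔤)

private lemma tp_pos : (0 : ℝ) < 2 * Real.pi := by positivity

private lemma tp_ne : (2 * Real.pi : ℝ) ≠ 0 := tp_pos.ne'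

lemma cont_fl (A B : 𝔤) (f : K.𝒜) (p : P) (u : ℝ) :
    Continuous (fun s : ℝ => K.ev (K.fl A u (K.fl B s p)) f) := by
  have h : Continuous (fun s : ℝ => ((u, s) : ℝ × ℝ)) := by fun_prop
  exact (K.cont₂ A B f p).comp h

theorem Av_mono (A : 𝔤) (f g : K.𝒜) (h : ∀ p, K.ev p f ≤ K.ev p g) (p : P) :
    K.ev p (K.Av A f) ≤ K.ev p (K.Av A g) := by
  rw [ev_Av, ev_Av]
  apply mul_le_mul_of_nonneg_left _ (by positivity)
  exact intervalIntegral.integral_mono_on tp_pos.le ((K.cont_ev A f p).intervalIntegrable _ _)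
    ((K.cont_ev A g p).intervalIntegrable _ _) (fun s _ => h _)

theorem Av_algebraMap (A : 𝔤) (c : ℝ) :
    K.Av A (algebraMap ℝ K.𝒜 c) = algebraMap ℝ K.𝒜 c := by
  apply K.ext_ev
  intro p
  rw [ev_Av]
  simp only [AlgHom.commutes, intervalIntegral.integral_const, smul_eq_mul, sub_zero,
    Algebra.algebraMap_self, RingHom.id_apply]
  field_simp

theorem abs_Av_le (A : 𝔤) (f : K.𝒜) (C : ℝ) (h : ∀ p, |K.ev p f| ≤ C) (p : P) :
    |K.ev p (K.Av A f)| ≤ C := by
  have h1 := K.Av_mono A f (algebraMap ℝ K.𝒜 C)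
    (fun q => by simpa using (abs_le.1 (h q)).2) p
  have h2 := K.Av_mono A (algebraMap ℝ K.𝒜 (-C)) f
    (fun q => by
      have := (abs_le.1 (h q)).1
      rw [AlgHom.commutes]
      simpa using this) p
  rw [Av_algebraMap, AlgHom.commutes] at h1 h2
  rw [abs_le]
  exact ⟨by simpa using h2, by simpa using h1⟩

theorem abs_Pr_le (A : 𝔤) (f : K.𝒜) (C : ℝ) (h : ∀ p, |K.ev p f| ≤ C) (p : P) :
    |K.ev p (K.Pr A f)| ≤ Real.pi * C := by
  have hC : 0 ≤ C := (abs_nonneg _).trans (h p)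
  have h1 : |∫ s in (0 : ℝ)..(2 * Real.pi), s * K.ev (K.fl A s p) f| ≤
      ∫ s in (0 : ℝ)..(2 * Real.pi), s * C := by
    rw [← Real.norm_eq_abs]
    refine intervalIntegral.norm_integral_le_of_norm_le tp_pos.le
      (Filter.Eventually.of_forall fun s hs => ?_)
      ((continuous_id.mul continuous_const).intervalIntegrable _ _)
    rw [norm_mul, Real.norm_eq_abs, Real.norm_eq_abs, abs_of_pos hs.1]
    exact mul_le_mul_of_nonneg_left (h _) hs.1.le
  rw [intervalIntegral.integral_mul_const, integral_id] at h1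
  rw [ev_Pr, abs_mul, abs_of_pos (by positivity : (0 : ℝ) < 1 / (2 * Real.pi))]
  calc 1 / (2 * Real.pi) * |∫ s in (0 : ℝ)..(2 * Real.pi), s * K.ev (K.fl A s p) f|
      ≤ 1 / (2 * Real.pi) * (((2 * Real.pi) ^ 2 - 0 ^ 2) / 2 * C) :=
        mul_le_mul_of_nonneg_left h1 (by positivity)
    _ = Real.pi * C := by
        have := Real.pi_ne_zero
        field_simp
        ring

theorem Av_D (A : 𝔤) (hA : K.Cl A) (f : K.𝒜) : K.Av A (K.D A f) = 0 := by
  apply K.ext_ev
  intro p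
  rw [ev_Av, intervalIntegral.integral_eq_sub_of_hasDerivAt (fun s _ => K.der_ev A f p s)
    ((K.cont_ev A (K.D A f) p).intervalIntegrable _ _), hA p, K.fl_zero, sub_self, mul_zero,
    map_zero]

theorem D_wInt_comm (A C : 𝔤) (h : K.br A C = 0) (w : ℝ → ℝ) (hw : Continuous w) (f : K.𝒜) :
    K.D C (K.wInt A w hw f) = K.wInt A w hw (K.D C f) := by
  apply K.ext_ev
  intro p
  obtain ⟨b, hb⟩ := K.bdd (K.D C f)
  have hb' : ∀ q, |K.ev q (K.D C f)| ≤ b := hb
  have h1 := K.der_ev C (K.wInt A w hw f) p 0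
  have h2 := (intervalIntegral.hasDerivAt_integral_of_dominated_loc_of_deriv_le
    (𝕜 := ℝ) (μ := volume) (a := 0) (b := 2 * Real.pi) (x₀ := (0 : ℝ)) (s := Set.univ)
    (F := fun u s => w s * K.ev (K.fl C u (K.fl A s p)) f)
    (F' := fun u s => w s * K.ev (K.fl C u (K.fl A s p)) (K.D C f))
    (bound := fun s => |w s| * b) Filter.univ_mem
    (Filter.Eventually.of_forall fun u => (hw.mul (K.cont_fl C A f p u)).aestronglyMeasurable)
    ((hw.mul (K.cont_fl C A f p 0)).intervalIntegrable _ _)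
    (hw.mul (K.cont_fl C A (K.D C f) p 0)).aestronglyMeasurable
    (Filter.Eventually.of_forall fun s _ u _ => by
      rw [norm_mul, Real.norm_eq_abs, Real.norm_eq_abs]
      exact mul_le_mul_of_nonneg_left (hb' _) (abs_nonneg _))
    ((hw.abs.mul continuous_const).intervalIntegrable _ _)
    (Filter.Eventually.of_forall fun s _ u _ =>
      (K.der_ev C f (K.fl A s p) u).const_mul (w s))).2
  have h3 : (fun u => K.ev (K.fl C u p) (K.wInt A w hw f)) =
      fun u => ∫ s in (0 : ℝ)..(2 * Real.pi), w s * K.ev (K.fl C u (K.fl A s p)) f := by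
    funext u
    rw [ev_wInt]
    simp only [K.fl_comm A C h]
  rw [h3] at h1
  have h4 := h1.unique h2
  rw [K.fl_zero] at h4
  rw [h4, ev_wInt]
  simp only [K.fl_zero]

theorem D_Av_comm (A C : 𝔤) (h : K.br A C = 0) (f : K.𝒜) :
    K.D C (K.Av A f) = K.Av A (K.D C f) := by
  have := K.D_wInt_comm A C h (fun _ => 1) continuous_const f
  simp only [Av, LinearMap.smul_apply, map_smul]
  congr 1

theorem D_Pr_comm (A C : 𝔤) (h : K.br A C = 0) (f : K.𝒜) :
    K.D C (K.Pr A f) = K.Pr A (K.D C f) := by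
  have := K.D_wInt_comm A C h (fun s => s) continuous_id f
  simp only [Pr, LinearMap.smul_apply, map_smul]
  congr 1

theorem D_Av_self (A : 𝔤) (hA : K.Cl A) (f : K.𝒜) : K.D A (K.Av A f) = 0 := by
  rw [K.D_Av_comm A A (K.br_self A), K.Av_D A hA]

theorem Av_comm (A B : 𝔤) (h : K.br A B = 0) (f : K.𝒜) :
    K.Av A (K.Av B f) = K.Av B (K.Av A f) := by
  apply K.ext_ev
  intro p
  rw [ev_Av, ev_Av]
  simp only [ev_Av]
  rw [intervalIntegral.integral_const_mul, intervalIntegral.integral_const_mul,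
    intervalIntegral_intervalIntegral_swap]
  · simp only [K.fl_comm A B h]
  · have hc : Continuous (Function.uncurry fun (s t : ℝ) => K.ev (K.fl B t (K.fl A s p)) f) := by
      have := (K.cont₂ B A f p).comp continuous_swap
      exact this
    have hK : IsCompact (Set.uIcc (0 : ℝ) (2 * Real.pi) ×ˢ Set.uIcc (0 : ℝ) (2 * Real.pi)) :=
      isCompact_uIcc.prod isCompact_uIcc
    exact (hc.continuousOn.integrableOn_compact hK).mono_set
      (Set.prod_mono Set.uIoc_subset_uIcc Set.uIoc_subset_uIcc)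

theorem ev_fl_Av (A : 𝔤) (hA : K.Cl A) (f : K.𝒜) (s : ℝ) (p : P) :
    K.ev (K.fl A s p) (K.Av A f) = K.ev p (K.Av A f) := by
  rw [ev_Av, ev_Av]
  congr 1
  have hper : Function.Periodic (fun u => K.ev (K.fl A u p) f) (2 * Real.pi) := by
    intro u
    simp only
    rw [K.fl_add, hA p]
  have h1 := hper.intervalIntegral_add_eq s 0
  rw [zero_add] at h1
  rw [← h1]
  have h2 := intervalIntegral.integral_comp_add_right
    (a := 0) (b := 2 * Real.pi) (fun u => K.ev (K.fl A u p) f) s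
  rw [zero_add, add_comm (2 * Real.pi) s] at h2
  rw [← h2]
  simp only [K.fl_add]

theorem Av_mul_inv (A : 𝔤) (f g : K.𝒜) (hg : ∀ s p, K.ev (K.fl A s p) g = K.ev p g) :
    K.Av A (g * f) = g * K.Av A f := by
  apply K.ext_ev
  intro p
  rw [map_mul (K.ev p), ev_Av, ev_Av]
  simp only [map_mul, hg]
  rw [intervalIntegral.integral_const_mul]
  ring

theorem Av_mul_Av (A : 𝔤) (hA : K.Cl A) (f g : K.𝒜) :
    K.Av A (K.Av A g * f) = K.Av A g * K.Av A f := by
  exact K.Av_mul_inv A f (K.Av A g) (fun s p => K.ev_fl_Av A hA g s p)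

theorem Av_Av_self (A : 𝔤) (hA : K.Cl A) (f : K.𝒜) : K.Av A (K.Av A f) = K.Av A f := by
  have h1 := K.Av_mul_Av A hA 1 f
  have h2 : K.Av A (1 : K.𝒜) = 1 := by
    have := K.Av_algebraMap A 1
    simpa using this
  rwa [mul_one, h2, mul_one] at h1

theorem D_Pr_self (A : 𝔤) (hA : K.Cl A) (f : K.𝒜) : K.D A (K.Pr A f) = f - K.Av A f := by
  rw [K.D_Pr_comm A A (K.br_self A)]
  apply K.ext_ev
  intro p
  rw [ev_Pr, intervalIntegral.integral_mul_deriv_eq_deriv_mul (u := fun s => s) (u' := fun _ => 1)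
    (v := fun s => K.ev (K.fl A s p) f) (fun s _ => hasDerivAt_id s)
    (fun s _ => K.der_ev A f p s) (continuous_const.intervalIntegrable _ _)
    ((K.cont_ev A (K.D A f) p).intervalIntegrable _ _), map_sub, ev_Av, hA p, K.fl_zero]
  simp only [one_mul, zero_mul, sub_zero]
  have := Real.pi_ne_zero
  field_simp

/-- consequence of `D_Pr_comm` and `D_Pr_self` -/
theorem Pr_D_self (A : 𝔤) (hA : K.Cl A) (f : K.𝒜) : K.Pr A (K.D A f) = f - K.Av A f := by
  rw [← K.D_Pr_comm A A (K.br_self A), K.D_Pr_self A hA]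

theorem Av_Av_Av (X Y : 𝔤) (hXY : K.br X Y = 0) (hX : K.Cl X) (hY : K.Cl Y) (a b : ℝ) (f : K.𝒜) :
    K.Av X (K.Av Y (K.Av (a • X + b • Y) f)) = K.Av X (K.Av Y f) := by
  have hW : K.br Y (a • X + b • Y) = 0 := by
    rw [map_add, map_smul, map_smul, K.br_self, K.br_anti Y X, hXY]
    simp
  have hW' : K.br X (a • X + b • Y) = 0 := by
    rw [map_add, map_smul, map_smul, K.br_self, hXY]
    simp
  rw [K.Av_comm Y (a • X + b • Y) hW, K.Av_comm X (a • X + b • Y) hW']
  have hinv : ∀ s p, K.ev (K.fl (a • X + b • Y) s p) (K.Av X (K.Av Y f)) =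
      K.ev p (K.Av X (K.Av Y f)) := by
    intro s p
    rw [K.fl_comb X Y hXY, K.ev_fl_Av X hX, K.Av_comm X Y hXY, K.ev_fl_Av Y hY]
  have h1 := K.Av_mul_inv (a • X + b • Y) 1 _ hinv
  have h2 : K.Av (a • X + b • Y) (1 : K.𝒜) = 1 := by
    have := K.Av_algebraMap (a • X + b • Y) 1
    simpa using this
  rwa [mul_one, h2, mul_one] at h1

theorem Av_Av_D (X Y : 𝔤) (hXY : K.br X Y = 0) (hX : K.Cl X) (hY : K.Cl Y) (a b : ℝ) (f : K.𝒜) :
    K.Av X (K.Av Y (K.D (a • X + b • Y) f)) = 0 := by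
  have h1 : K.D (a • X + b • Y) f = a • K.D X f + b • K.D Y f := by
    rw [map_add, map_smul, map_smul]
    rfl
  rw [h1, map_add, map_smul, map_smul, K.Av_D Y hY, smul_zero, add_zero, map_smul,
    K.Av_comm X Y hXY, K.Av_D X hX, map_zero, smul_zero]

/-- integration by parts on the torus -/
theorem Av_Av_parts (X Y : 𝔤) (hXY : K.br X Y = 0) (hX : K.Cl X) (hY : K.Cl Y) (a b : ℝ)
    (f g : K.𝒜) :
    K.Av X (K.Av Y (f * K.D (a • X + b • Y) g)) = - K.Av X (K.Av Y (K.D (a • X + b • Y) f * g)) := by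
  have h1 := K.Av_Av_D X Y hXY hX hY a b (f * g)
  rw [K.D_mul, map_add, map_add] at h1
  rw [mul_comm (K.D (a • X + b • Y) f) g]
  exact eq_neg_of_add_eq_zero_left h1

variable {K}

theorem sm_Av (A : 𝔤) {f : ℕ → K.𝒜} (hf : K.sm f) : K.sm (fun j => K.Av A (f j)) := by
  intro ε hε
  filter_upwards [hf ε hε] with j hj p
  exact K.abs_Av_le A (f j) ε hj p

theorem bd_Av (A : 𝔤) {f : ℕ → K.𝒜} (hf : K.bd f) : K.bd (fun j => K.Av A (f j)) := by
  obtain ⟨C, hC⟩ := hf
  exact ⟨C, fun j p => K.abs_Av_le A (f j) C (hC j) p⟩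

theorem sm_Pr (A : 𝔤) {f : ℕ → K.𝒜} (hf : K.sm f) : K.sm (fun j => K.Pr A (f j)) := by
  intro ε hε
  filter_upwards [hf (ε / Real.pi) (by positivity)] with j hj p
  have h1 := K.abs_Pr_le A (f j) (ε / Real.pi) hj p
  have h2 : Real.pi * (ε / Real.pi) = ε := by
    have := Real.pi_ne_zero
    field_simp
  rw [h2] at h1
  exact h1

theorem bd_Pr (A : 𝔤) {f : ℕ → K.𝒜} (hf : K.bd f) : K.bd (fun j => K.Pr A (f j)) := by
  obtain ⟨C, hC⟩ := hf
  exact ⟨Real.pi * C, fun j p => K.abs_Pr_le A (f j) C (hC j) p⟩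

end Calc

end Pool.Agent.H842R4
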