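import Pool.Agent.H842R4.Lim

/-!
A function on a 2-torus with zero average, bounded below by a small negative number and with
bounded derivatives is uniformly small.

PROOF. Let `L ≥ 1` bound `|f|`, `|D_A f|`, `|D_B f|`. Fix `j`, `i`, `p`, `δ = max (δ j) 0` and
suppose `|K.ev p f| = M > 0` with `K.ev p f > 0` (the other sign: `K.ev p f ≥ -δ`).
`φ(x,y) = K.ev (K.fl A x (K.fl B y p)) f` is continuous (`K.cont₂`), `φ(0,0) = M`
(`K.fl_zero`), and `|φ(x,y) - φ(0,0)| ≤ L (x + y)` for `x, y ≥ 0` (mean value inequality in each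
variable, `K.der_ev`; for the `y` variable use `x = 0`). With `r = M / (4 L) ≤ 1/4`:
`φ ≥ M / 2` on `[0,r]²` and `φ ≥ -δ` everywhere.  Now
`K.ev p (K.Av B (K.Av A f)) = (1/(2π))² ∫_0^{2π} ∫_0^{2π} φ(x,y) dx dy` (`K.ev_Av`; to have
this order the hypothesis `hav` is stated for `Av B (Av A f)`), so
`0 ≥ r² (M/2) - δ (2π)²`, i.e. `M³ ≤ 32 · 4 π² · L² δ`. So `M ≤ ε` as soon as
`128 π² L² δ j < ε³`.
(Write the double integral of `φ + δ ≥ 0` and bound it below by the integral over `[0,r]²`, with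
`intervalIntegral.integral_mono_interval`-type lemmas; inner integral first, for every `y`.)
-/

open MeasureTheory Filter Topology

noncomputable section

namespace Pool.Agent.H842R4

variable {P 𝔤 : Type} [NormedAddCommGroup 𝔤] [InnerProductSpace ℝ 𝔤]

/-- Lower bound for an integral. -/
theorem SA_int_ge {g : ℝ → ℝ} {a b c : ℝ} (hab : a ≤ b)
    (hg : IntervalIntegrable g volume a b) (h : ∀ x, a ≤ x → x ≤ b → c ≤ g x) :
    (b - a) * c ≤ ∫ x in a..b, g x := by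
  have h1 : ∫ _ in a..b, c = (b - a) * c := by
    rw [intervalIntegral.integral_const, smul_eq_mul]
  rw [← h1]
  exact intervalIntegral.integral_mono_on hab intervalIntegrable_const hg
    (fun x hx => h x hx.1 hx.2)

/-- Lower bound for the integral of a function which is `≥ -δ` everywhere and `≥ c` on
`[0, r]`. -/
theorem SA_int_two {g : ℝ → ℝ} {r T c δ : ℝ} (hr : 0 ≤ r) (hrT : r ≤ T) (hδ : 0 ≤ δ)
    (hg : Continuous g) (h : ∀ x, 0 ≤ x → x ≤ T → -δ ≤ g x) (h' : ∀ x, 0 ≤ x → x ≤ r → c ≤ g x) :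
    r * c - T * δ ≤ ∫ x in (0:ℝ)..T, g x := by
  rw [← intervalIntegral.integral_add_adjacent_intervals (hg.intervalIntegrable 0 r)
    (hg.intervalIntegrable r T)]
  have h1 := SA_int_ge hr (hg.intervalIntegrable 0 r) h'
  have h2 := SA_int_ge hrT (hg.intervalIntegrable r T)
    (fun x hx hx2 => h x (hr.trans hx) hx2)
  rw [sub_zero] at h1
  nlinarith

variable (K : Calc P 𝔤)

theorem SA_lip (A : 𝔤) (f : K.𝒜) {L : ℝ} (hA : ∀ p, |K.ev p (K.D A f)| ≤ L) (p : P) {x : ℝ}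
    (hx : 0 ≤ x) : |K.ev (K.fl A x p) f - K.ev p f| ≤ L * x := by
  rcases eq_or_lt_of_le hx with h | h
  · rw [← h, K.fl_zero, sub_self, abs_zero, mul_zero]
  · obtain ⟨c, _, hc2⟩ := exists_hasDerivAt_eq_slope (fun u => K.ev (K.fl A u p) f)
      (fun u => K.ev (K.fl A u p) (K.D A f)) h (K.cont_ev A f p).continuousOn
      (fun u _ => K.der_ev A f p u)
    rw [sub_zero, K.fl_zero] at hc2
    have h1 : K.ev (K.fl A x p) f - K.ev p f = K.ev (K.fl A c p) (K.D A f) * x := by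
      rw [hc2]; field_simp
    rw [h1, abs_mul, abs_of_pos h]
    exact mul_le_mul_of_nonneg_right (hA _) h.le

theorem SA_pt (A B : 𝔤) (f : K.𝒜) (p : P) {δ L : ℝ} (hδ : 0 ≤ δ) (hL : 1 ≤ L)
    (hlow : ∀ p, -δ ≤ K.ev p f) (hav : K.ev p (K.Av B (K.Av A f)) = 0)
    (hb : ∀ p, |K.ev p f| ≤ L) (hA : ∀ p, |K.ev p (K.D A f)| ≤ L)
    (hB : ∀ p, |K.ev p (K.D B f)| ≤ L) (hM : 0 < K.ev p f) :
    (K.ev p f) ^ 3 ≤ 256 * Real.pi ^ 2 * L ^ 2 * δ := by
  obtain ⟨M, hMe⟩ : ∃ M : ℝ, M = K.ev p f := ⟨_, rfl⟩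
  rw [← hMe] at hM ⊢
  have hL0 : 0 < L := by linarith
  have hML : M ≤ L := by
    rw [hMe]; exact (le_abs_self _).trans (hb p)
  have hπ := Real.pi_gt_three
  obtain ⟨r, hr⟩ : ∃ r : ℝ, r = M / (4 * L) := ⟨_, rfl⟩
  have hr0 : 0 < r := by rw [hr]; positivity
  have hrL : 4 * L * r = M := by rw [hr]; field_simp
  have hr1 : r ≤ 2 * Real.pi := by
    have h1 : r ≤ 1 / 4 := by
      rw [hr, div_le_div_iff₀ (by positivity) (by norm_num)]
      linarith
    linarith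
  -- the inner integral
  have hin : ∀ y, 2 * Real.pi * K.ev (K.fl B y p) (K.Av A f) =
      ∫ x in (0:ℝ)..(2 * Real.pi), K.ev (K.fl A x (K.fl B y p)) f := by
    intro y
    rw [K.ev_Av]
    field_simp
  have hin1 : ∀ y, 0 ≤ y → y ≤ 2 * Real.pi →
      -(2 * Real.pi * δ) ≤ 2 * Real.pi * K.ev (K.fl B y p) (K.Av A f) := by
    intro y _ _
    rw [hin y]
    have h1 := SA_int_ge (show (0:ℝ) ≤ 2 * Real.pi by positivity)
      ((K.cont_ev A f (K.fl B y p)).intervalIntegrable _ _) (fun x _ _ => hlow (K.fl A x (K.fl B y p)))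
    linarith
  have hin2 : ∀ y, 0 ≤ y → y ≤ r →
      r * (M / 2) - 2 * Real.pi * δ ≤ 2 * Real.pi * K.ev (K.fl B y p) (K.Av A f) := by
    intro y hy0 hyr
    rw [hin y]
    refine SA_int_two hr0.le hr1 hδ (K.cont_ev A f (K.fl B y p))
      (fun x _ _ => hlow (K.fl A x (K.fl B y p))) ?_
    intro x hx0 hxr
    have h1 := (abs_le.mp (SA_lip K A f hA (K.fl B y p) hx0)).1
    have h2 := (abs_le.mp (SA_lip K B f hB p hy0)).1
    have h3 : L * x ≤ L * r := mul_le_mul_of_nonneg_left hxr hL0.le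
    have h4 : L * y ≤ L * r := mul_le_mul_of_nonneg_left hyr hL0.le
    rw [← hMe] at h2
    linarith
  -- the outer integral
  have hout : ∫ y in (0:ℝ)..(2 * Real.pi), 2 * Real.pi * K.ev (K.fl B y p) (K.Av A f) = 0 := by
    rw [K.ev_Av] at hav
    rw [intervalIntegral.integral_const_mul]
    have h1 : (1 / (2 * Real.pi)) ≠ 0 := by positivity
    rw [(mul_eq_zero.mp hav).resolve_left h1, mul_zero]
  have hcont : Continuous (fun y => 2 * Real.pi * K.ev (K.fl B y p) (K.Av A f)) :=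
    continuous_const.mul (K.cont_ev B (K.Av A f) p)
  have h5 := SA_int_two (g := fun y => 2 * Real.pi * K.ev (K.fl B y p) (K.Av A f))
    (T := 2 * Real.pi) hr0.le hr1 (show 0 ≤ 2 * Real.pi * δ by positivity)
    hcont hin1 hin2
  rw [hout] at h5
  -- r^2 M / 2 ≤ 4 π^2 δ + 2 π δ r
  have h6 : r * (r * (M / 2)) ≤ (2 * Real.pi) * (2 * Real.pi * δ) + r * (2 * Real.pi * δ) := by
    linarith
  have h7 : r * (2 * Real.pi * δ) ≤ (2 * Real.pi) * (2 * Real.pi * δ) :=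
    mul_le_mul_of_nonneg_right hr1 (by positivity)
  have h8 : r * (r * (M / 2)) ≤ 8 * Real.pi ^ 2 * δ := by nlinarith
  have h9 : M ^ 3 = 32 * L ^ 2 * (r * (r * (M / 2))) := by
    rw [hr]; field_simp; ring
  rw [h9]
  calc 32 * L ^ 2 * (r * (r * (M / 2))) ≤ 32 * L ^ 2 * (8 * Real.pi ^ 2 * δ) :=
        mul_le_mul_of_nonneg_left h8 (by positivity)
    _ = 256 * Real.pi ^ 2 * L ^ 2 * δ := by ring

theorem Calc.sm_of_av (K : Calc P 𝔤) {ι : Type} (A B : ι → 𝔤)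
    (f : ℕ → ι → K.𝒜) (δ : ℕ → ℝ) (hδ : Tendsto δ atTop (𝓝 0))
    (hlow : ∀ᶠ j in atTop, ∀ i p, - δ j ≤ K.ev p (f j i))
    (hav : ∀ j i p, K.ev p (K.Av (B i) (K.Av (A i) (f j i))) = 0)
    (hb : Bd (fun j (x : ι × P) => K.ev x.2 (f j x.1)))
    (hA : Bd (fun j (x : ι × P) => K.ev x.2 (K.D (A x.1) (f j x.1))))
    (hB : Bd (fun j (x : ι × P) => K.ev x.2 (K.D (B x.1) (f j x.1)))) :
    Sm (fun j (x : ι × P) => K.ev x.2 (f j x.1)) := by
  obtain ⟨C1, hC1, h1⟩ := hb.exists_pos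
  obtain ⟨C2, hC2, h2⟩ := hA.exists_pos
  obtain ⟨C3, hC3, h3⟩ := hB.exists_pos
  obtain ⟨L, hL⟩ : ∃ L : ℝ, L = C1 + C2 + C3 + 1 := ⟨_, rfl⟩
  have hL1 : 1 ≤ L := by rw [hL]; linarith
  intro ε hε
  have hQ : 0 < 256 * Real.pi ^ 2 * L ^ 2 := by positivity
  have e1 := (Sm.of_tendsto (ι := Unit) hδ) ε hε
  have e2 := (Sm.of_tendsto (ι := Unit) hδ) (ε ^ 3 / (256 * Real.pi ^ 2 * L ^ 2) / 2)
    (by positivity)
  filter_upwards [hlow, e1, e2] with j hl h4 h5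
  rintro ⟨i, p⟩
  show |K.ev p (f j i)| ≤ ε
  have h4 := h4 ()
  have h5 := h5 ()
  have hle : δ j ≤ |δ j| := le_abs_self _
  refine abs_le.mpr ⟨?_, ?_⟩
  · have := hl i p
    linarith
  · by_contra hcon
    push Not at hcon
    have h6 := SA_pt K (A i) (B i) (f j i) p (abs_nonneg (δ j)) hL1
      (fun q => le_trans (by linarith) (hl i q)) (hav j i p)
      (fun q => (h1 j (i, q)).trans (by rw [hL]; linarith))
      (fun q => (h2 j (i, q)).trans (by rw [hL]; linarith))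
      (fun q => (h3 j (i, q)).trans (by rw [hL]; linarith)) (hε.trans hcon)
    have h7 : ε ^ 3 < (K.ev p (f j i)) ^ 3 := by
      have := pow_lt_pow_left₀ hcon hε.le (n := 3) (by norm_num)
      exact this
    have h8 : 256 * Real.pi ^ 2 * L ^ 2 * |δ j| ≤ ε ^ 3 / 2 := by
      calc 256 * Real.pi ^ 2 * L ^ 2 * |δ j|
          ≤ 256 * Real.pi ^ 2 * L ^ 2 * (ε ^ 3 / (256 * Real.pi ^ 2 * L ^ 2) / 2) :=
            mul_le_mul_of_nonneg_left h5 hQ.le
        _ = ε ^ 3 / 2 := by field_simp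
    have h9 : 0 < ε ^ 3 := by positivity
    linarith

end Pool.Agent.H842R4
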