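import Pool.Agent.H842R4.Nabla
import Pool.Agent.H842R4.SmallAvg
import Pool.Agent.H842R4.Avg

/-!
The linearised curvature of closed commuting pairs is uniformly small.

PROOF. Apply `K.sm_of_av` to `f j i = K.Q (S.h j) (A i) (B i)`, `δ j = C * S.t j * M^2 * M^2` with
`C` from `S.Q_low`. `hav`: `Q = D A (η B B A) - D B (η A B A)`;
`Av B (Av A (D A _)) = 0` (`Av_D`), `Av B (Av A (D B _)) = Av A (Av B (D B _)) = 0`
(`Av_comm`, `br A B = 0`). The bounds: `S.Q_bound` with `L = []`, `[A i]`, `[B i]`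
and `‖A i‖, ‖B i‖ ≤ M`.
`Q_small₁` is the case of one pair.
-/

open MeasureTheory Filter Topology

noncomputable section

namespace Pool.Agent.H842R4

variable {P 𝔤 : Type} [NormedAddCommGroup 𝔤] [InnerProductSpace ℝ 𝔤] [FiniteDimensional ℝ 𝔤]

namespace Pert

variable {K : Calc P 𝔤} (S : Pert K)

theorem Q_small {ι : Type} (A B : ι → 𝔤) (M : ℝ) (hAB : ∀ i, K.br (A i) (B i) = 0)
    (hA : ∀ i, K.Cl (A i)) (hB : ∀ i, K.Cl (B i)) (hi : ∀ i, LinearIndependent ℝ ![A i, B i])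
    (hMA : ∀ i, ‖A i‖ ≤ M) (hMB : ∀ i, ‖B i‖ ≤ M) :
    Sm (fun j (x : ι × P) => K.ev x.2 (K.Q (S.h j) (A x.1) (B x.1))) := by
  obtain ⟨C, hC, hlow⟩ := S.Q_low
  obtain ⟨C', hC', hbd⟩ := S.Q_bound
  have hA2 : ∀ i, ‖A i‖ ^ 2 ≤ M ^ 2 := fun i => pow_le_pow_left₀ (norm_nonneg _) (hMA i) 2
  have hB2 : ∀ i, ‖B i‖ ^ 2 ≤ M ^ 2 := fun i => pow_le_pow_left₀ (norm_nonneg _) (hMB i) 2
  have hprod : ∀ i, ‖A i‖ ^ 2 * ‖B i‖ ^ 2 ≤ M ^ 2 * M ^ 2 := fun i =>
    mul_le_mul (hA2 i) (hB2 i) (by positivity) (by positivity)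
  refine K.sm_of_av A B (fun j i => K.Q (S.h j) (A i) (B i))
    (fun j => C * S.t j * (M ^ 2 * M ^ 2)) ?_ ?_ ?_ ?_ ?_ ?_
  · have := (S.t_lim.const_mul C).mul_const (M ^ 2 * M ^ 2)
    simpa using this
  · filter_upwards [hlow] with j hj i p
    have h1 := hj p (A i) (B i) (hi i) (hAB i)
    have h2 : C * S.t j * ‖A i‖ ^ 2 * ‖B i‖ ^ 2 ≤ C * S.t j * (M ^ 2 * M ^ 2) := by
      rw [mul_assoc (C * S.t j)]
      exact mul_le_mul_of_nonneg_left (hprod i) (mul_nonneg hC.le (S.t_pos j).le)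
    linarith
  · intro j i p
    have hBA : K.br (B i) (A i) = 0 := by rw [K.br_anti, hAB i, neg_zero]
    have e : K.Av (B i) (K.Av (A i) (K.Q (S.h j) (A i) (B i))) = 0 := by
      unfold Calc.Q
      rw [map_sub, K.Av_D _ (hA i), zero_sub, map_neg, K.Av_comm _ _ hBA, K.Av_D _ (hB i),
        map_zero, neg_zero]
    rw [e, map_zero]
  · refine ⟨C' * (M ^ 2 * M ^ 2), fun j x => ?_⟩
    have h1 := hbd j [] (by simp) (A x.1) (B x.1) x.2
    simp only [Calc.Dl, List.foldr_nil, List.map_nil, List.prod_nil, mul_one] at h1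
    refine h1.trans ?_
    rw [mul_assoc]
    exact mul_le_mul_of_nonneg_left (hprod x.1) hC'.le
  · refine ⟨C' * |M| * (M ^ 2 * M ^ 2), fun j x => ?_⟩
    have h1 := hbd j [A x.1] (by simp) (A x.1) (B x.1) x.2
    simp only [Calc.Dl, List.foldr_cons, List.foldr_nil, List.map_cons, List.map_nil,
      List.prod_cons, List.prod_nil, mul_one] at h1
    refine h1.trans ?_
    rw [mul_assoc (C' * ‖A x.1‖)]
    have h2 : C' * ‖A x.1‖ ≤ C' * |M| :=
      mul_le_mul_of_nonneg_left ((hMA x.1).trans (le_abs_self M)) hC'.le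
    exact mul_le_mul h2 (hprod x.1) (by positivity) (by positivity)
  · refine ⟨C' * |M| * (M ^ 2 * M ^ 2), fun j x => ?_⟩
    have h1 := hbd j [B x.1] (by simp) (A x.1) (B x.1) x.2
    simp only [Calc.Dl, List.foldr_cons, List.foldr_nil, List.map_cons, List.map_nil,
      List.prod_cons, List.prod_nil, mul_one] at h1
    refine h1.trans ?_
    rw [mul_assoc (C' * ‖B x.1‖)]
    have h2 : C' * ‖B x.1‖ ≤ C' * |M| :=
      mul_le_mul_of_nonneg_left ((hMB x.1).trans (le_abs_self M)) hC'.le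
    exact mul_le_mul h2 (hprod x.1) (by positivity) (by positivity)

theorem Q_small₁ (A B : 𝔤) (hAB : K.br A B = 0) (hA : K.Cl A) (hB : K.Cl B)
    (hi : LinearIndependent ℝ ![A, B]) : K.sm (fun j => K.Q (S.h j) A B) := by
  have h := S.Q_small (ι := Unit) (fun _ => A) (fun _ => B) (max ‖A‖ ‖B‖) (fun _ => hAB)
    (fun _ => hA) (fun _ => hB) (fun _ => hi) (fun _ => le_max_left _ _)
    (fun _ => le_max_right _ _)
  exact h.comp (fun p : P => ((), p))

end Pert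

end Pool.Agent.H842R4
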