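import Pool.Agent.H842R4.ZeroCore
import Pool.Agent.H842R4.QSmall
import Pool.Agent.H842R4.Landau

/-!
Zero weight directions `C` (commuting with the torus).
-/

open MeasureTheory Filter Topology

noncomputable section

set_option linter.unusedSimpArgs false

namespace Pool.Agent.H842R4

variable {P 𝔤 : Type} [NormedAddCommGroup 𝔤] [InnerProductSpace ℝ 𝔤] [FiniteDimensional ℝ 𝔤]

omit [FiniteDimensional ℝ 𝔤] in
theorem Calc.cl_add (K : Calc P 𝔤) (A B : 𝔤) (h : K.br A B = 0) (hA : K.Cl A) (hB : K.Cl B) :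
    K.Cl (A + B) := by
  intro p
  have h1 := K.fl_comb A B h 1 1 (2 * Real.pi) p
  rw [one_smul, one_smul, one_mul] at h1
  rw [h1, hB p, hA p]

omit [FiniteDimensional ℝ 𝔤] in
theorem Calc.Q_comm_formula (K : Calc P 𝔤) (h : 𝔤 →ₗ[ℝ] 𝔤 →ₗ[ℝ] K.𝒜)
    (hs : ∀ A B, h A B = h B A) (A B : 𝔤) (hAB : K.br A B = 0) :
    K.Q h A B = K.D A (K.D B (h A B)) - (1 / 2 : ℝ) • K.D A (K.D A (h B B))
      - (1 / 2 : ℝ) • K.D B (K.D B (h A A)) := by
  have hBA : K.br B A = 0 := by rw [K.br_anti, hAB, neg_zero]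
  simp only [Calc.Q, Calc.eta, hAB, hBA, K.br_self, map_zero, LinearMap.zero_apply, map_smul,
    map_add, map_sub, hs B A, add_zero, sub_zero]
  module

omit [FiniteDimensional ℝ 𝔤] in
theorem Calc.polar (K : Calc P 𝔤) (h : 𝔤 →ₗ[ℝ] 𝔤 →ₗ[ℝ] K.𝒜)
    (hs : ∀ A B, h A B = h B A) (A A' B : 𝔤) (hAB : K.br A B = 0) (hA'B : K.br A' B = 0)
    (hAA' : K.br A A' = 0) :
    K.D A (K.eta h B B A') - K.D B (K.eta h A B A') =
      (1 / 2 : ℝ) • (K.Q h (A + A') B - K.Q h A B - K.Q h A' B) := by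
  have hBA : K.br B A = 0 := by rw [K.br_anti, hAB, neg_zero]
  have hBA' : K.br B A' = 0 := by rw [K.br_anti, hA'B, neg_zero]
  have hA'A : K.br A' A = 0 := by rw [K.br_anti, hAA', neg_zero]
  have hS : K.br (A + A') B = 0 := by simp [hAB, hA'B]
  rw [K.Q_comm_formula h hs (A + A') B hS, K.Q_comm_formula h hs A B hAB,
    K.Q_comm_formula h hs A' B hA'B]
  have c1 : K.D A' (K.D A (h B B)) = K.D A (K.D A' (h B B)) :=
    (K.D_comm_of A A' hAA' (h B B)).symm
  have c2 : K.D A' (K.D B (h A B)) = K.D B (K.D A' (h A B)) := K.D_comm_of A' B hA'B (h A B)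
  have c3 : K.D A (K.D B (h A' B)) = K.D B (K.D A (h A' B)) := K.D_comm_of A B hAB (h A' B)
  simp only [Calc.eta, hAB, hBA, hA'B, hBA', hAA', hA'A, K.br_self, map_zero,
    LinearMap.zero_apply, map_smul, map_add, map_sub, LinearMap.add_apply, hs B A', hs B A,
    hs A' A, add_zero, sub_zero, c1, c2, c3]
  module

namespace Pert

variable {K : Calc P 𝔤} (S : Pert K)

theorem avg_small (X Y C V : 𝔤) (a b : ℝ) (hV : V = a • X + b • Y) (hXY : K.br X Y = 0)
    (hXC : K.br X C = 0) (hYC : K.br Y C = 0) (hX : K.Cl X) (hY : K.Cl Y) (hC : K.Cl C)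
    (cV : K.Cl V) (hi : LinearIndependent ℝ ![V, C]) :
    K.sm (fun j => K.D C (K.Av X (K.Av Y (S.h j V V)))) := by
  have hVC : K.br V C = 0 := by rw [hV]; simp [hXC, hYC]
  apply Calc.sm_D' C (fun j => K.Av X (K.Av Y (S.h j V V)))
  · exact Calc.bd_Av X (Calc.bd_Av Y (S.bd_h [] (by simp) V V))
  · have hQ := Calc.sm_Av X (Calc.sm_Av Y (S.Q_small₁ V C hVC cV hC hi))
    refine (hQ.smul (-2)).congr ?_
    intro j
    have e1 : K.Q (S.h j) V C = K.D V (K.D C (S.h j V C)) - (1 / 2 : ℝ) • K.D V (K.D V (S.h j C C))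
      - (1 / 2 : ℝ) • K.D C (K.D C (S.h j V V)) :=
      K.Q_comm_formula (S.h j) (S.symm j) V C hVC
    have e2 : ∀ f, K.Av X (K.Av Y (K.D V f)) = 0 := by
      intro f
      rw [hV]
      exact K.Av_Av_D X Y hXY hX hY a b f
    have e3 : ∀ f, K.D C (K.Av X (K.Av Y f)) = K.Av X (K.Av Y (K.D C f)) := by
      intro f
      rw [K.D_Av_comm X C hXC, K.D_Av_comm Y C hYC]
    rw [e3, e3, e1]
    simp only [map_sub, map_smul, e2]
    module

theorem zero_small (X Y C : 𝔤) (hXY : K.br X Y = 0) (hXC : K.br X C = 0) (hYC : K.br Y C = 0)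
    (hX : K.Cl X) (hY : K.Cl Y) (hC : K.Cl C) (hi : LinearIndependent ℝ ![X, Y, C]) :
    K.sm (fun j => K.Av X (K.Av Y (K.eta (S.h j) X Y C ^ 2
      - K.eta (S.h j) X X C * K.eta (S.h j) Y Y C))) := by
  have hYX : K.br Y X = 0 := by rw [K.br_anti, hXY, neg_zero]
  have hCX : K.br C X = 0 := by rw [K.br_anti, hXC, neg_zero]
  have hCY : K.br C Y = 0 := by rw [K.br_anti, hYC, neg_zero]
  have hi3 : ∀ a b c : ℝ, a • X + b • Y + c • C = 0 → a = 0 ∧ b = 0 ∧ c = 0 := by
    intro a b c h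
    have h' := Fintype.linearIndependent_iff.1 hi ![a, b, c] (by
      rw [Fin.sum_univ_three]
      simpa using h)
    exact ⟨h' 0, h' 1, h' 2⟩
  have pair : ∀ U V : 𝔤, (∀ s t : ℝ, s • U + t • V = 0 → s = 0 ∧ t = 0) →
      LinearIndependent ℝ ![U, V] := fun U V h => LinearIndependent.pair_iff.2 h
  have iXC : LinearIndependent ℝ ![X, C] := pair _ _ (fun s t h => by
    have := hi3 s 0 t (by rw [← h]; module)
    exact ⟨this.1, this.2.2⟩)
  have iYC : LinearIndependent ℝ ![Y, C] := pair _ _ (fun s t h => by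
    have := hi3 0 s t (by rw [← h]; module)
    exact ⟨this.2.1, this.2.2⟩)
  have iCX : LinearIndependent ℝ ![C, X] := pair _ _ (fun s t h => by
    have := hi3 t 0 s (by rw [← h]; module)
    exact ⟨this.2.2, this.1⟩)
  have iCY : LinearIndependent ℝ ![C, Y] := pair _ _ (fun s t h => by
    have := hi3 0 t s (by rw [← h]; module)
    exact ⟨this.2.2, this.2.1⟩)
  have iXY : LinearIndependent ℝ ![X, Y] := pair _ _ (fun s t h => by
    have := hi3 s t 0 (by rw [← h]; module)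
    exact ⟨this.1, this.2.1⟩)
  have iYX : LinearIndependent ℝ ![Y, X] := pair _ _ (fun s t h => by
    have := hi3 t s 0 (by rw [← h]; module)
    exact ⟨this.2.1, this.1⟩)
  have iXCY : LinearIndependent ℝ ![X + C, Y] := pair _ _ (fun s t h => by
    have := hi3 s t s (by rw [← h]; module)
    exact ⟨this.1, this.2.1⟩)
  have iYCX : LinearIndependent ℝ ![Y + C, X] := pair _ _ (fun s t h => by
    have := hi3 t s s (by rw [← h]; module)
    exact ⟨this.2.1, this.1⟩)
  have iXYC : LinearIndependent ℝ ![X + Y, C] := pair _ _ (fun s t h => by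
    have := hi3 s s t (by rw [← h]; module)
    exact ⟨this.1, this.2.2⟩)
  have cXC : K.Cl (X + C) := K.cl_add X C hXC hX hC
  have cYC : K.Cl (Y + C) := K.cl_add Y C hYC hY hC
  have cXY : K.Cl (X + Y) := K.cl_add X Y hXY hX hY
  have aX := S.avg_small X Y C X 1 0 (by module) hXY hXC hYC hX hY hC hX iXC
  have aY := S.avg_small X Y C Y 0 1 (by module) hXY hXC hYC hX hY hC hY iYC
  have aXY := S.avg_small X Y C (X + Y) 1 1 (by module) hXY hXC hYC hX hY hC cXY iXYC
  have eX : ∀ f, K.Av X (K.Av Y (K.D X f)) = 0 := by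
    intro f
    have := K.Av_Av_D X Y hXY hX hY 1 0 f
    rwa [one_smul, zero_smul, add_zero] at this
  have eY : ∀ f, K.Av X (K.Av Y (K.D Y f)) = 0 := by
    intro f
    have := K.Av_Av_D X Y hXY hX hY 0 1 f
    rwa [one_smul, zero_smul, zero_add] at this
  have e3 : ∀ f, K.Av X (K.Av Y (K.D C f)) = K.D C (K.Av X (K.Av Y f)) := by
    intro f
    rw [K.D_Av_comm X C hXC, K.D_Av_comm Y C hYC]
  refine K.zero_core X Y hXY hX hY (fun j => K.eta (S.h j) X X C) (fun j => K.eta (S.h j) X Y C)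
    (fun j => K.eta (S.h j) Y Y C) (S.bd_eta [] (by simp) X X C) (S.bd_eta [] (by simp) X Y C)
    (S.bd_eta [] (by simp) Y Y C) ?_ ?_ ?_ ?_
  · -- D Y (eta X X C) - D X (eta X Y C)
    have q1 := S.Q_small₁ (Y + C) X (by simp [hYX, hCX]) cYC hX iYCX
    have q2 := S.Q_small₁ Y X hYX hY hX iYX
    have q3 := S.Q_small₁ C X hCX hC hX iCX
    refine (((q1.sub q2).sub q3).smul (1 / 2)).congr ?_
    intro j
    rw [← K.polar (S.h j) (S.symm j) Y C X hYX hCX hYC,
      K.eta_comm_of (S.h j) X Y C (S.symm j) hXY]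
  · -- D Y (eta X Y C) - D X (eta Y Y C)
    have q1 := S.Q_small₁ (X + C) Y (by simp [hXY, hCY]) cXC hY iXCY
    have q2 := S.Q_small₁ X Y hXY hX hY iXY
    have q3 := S.Q_small₁ C Y hCY hC hY iCY
    refine (((q1.sub q2).sub q3).smul (-(1 / 2))).congr ?_
    intro j
    have := K.polar (S.h j) (S.symm j) X C Y hXY hCY hXC
    have h2 : K.D Y (K.eta (S.h j) X Y C) - K.D X (K.eta (S.h j) Y Y C) =
        -(K.D X (K.eta (S.h j) Y Y C) - K.D Y (K.eta (S.h j) X Y C)) := by abel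
    rw [h2, this]
    module
  · -- average of eta X X C
    refine (aX.smul (-(1 / 2))).congr ?_
    intro j
    have : K.eta (S.h j) X X C = K.D X (S.h j X C) - (1 / 2 : ℝ) • K.D C (S.h j X X) := by
      simp only [Calc.eta, hXC, K.br_self, map_zero, LinearMap.zero_apply]
      module
    simp only [this, map_sub, map_smul, eX, e3]
    module
  · -- average of eta X Y C
    refine (((aXY.sub aX).sub aY).smul (-(1 / 4))).congr ?_
    intro j
    have h1 : K.eta (S.h j) X Y C = (1 / 2 : ℝ) • (K.D X (S.h j Y C) + K.D Y (S.h j X C)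
        - K.D C (S.h j X Y)) := by
      simp only [Calc.eta, hXY, hXC, hYC, map_zero, LinearMap.zero_apply, add_zero, sub_zero]
    have h2 : S.h j (X + Y) (X + Y) = S.h j X X + S.h j Y Y + (2 : ℝ) • S.h j X Y := by
      simp only [map_add, LinearMap.add_apply, S.symm j Y X]
      module
    rw [h1, h2]
    simp only [map_sub, map_add, map_smul, eX, eY, e3]
    module

end Pert

end Pool.Agent.H842R4
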