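import Pool.Agent.H842R4.JAlpha
import Pool.Agent.H842R4.Tang
import Pool.Agent.H842R4.ZeroW

/-!
Assembly, part 1: the second order function and its average.
-/

open MeasureTheory Filter Topology

noncomputable section

namespace Pool.Agent.H842R4

attribute [instance] TorusDatum.fC TorusDatum.fR

variable {P 𝔤 : Type} [NormedAddCommGroup 𝔤] [InnerProductSpace ℝ 𝔤]

namespace TorusDatum

variable {K : Calc P 𝔤} (T : TorusDatum K)

/-- the direction `B = r X + s Y` of a root -/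
def B (a : T.ιR) : 𝔤 := (T.r a : ℝ) • T.X + (T.s a : ℝ) • T.Y

/-- the direction `W = n X - m Y` of a root -/
def W (a : T.ιR) : 𝔤 := (T.n a : ℝ) • T.X + (-(T.m a : ℝ)) • T.Y

lemma unim' (a : T.ιR) : (T.r a : ℝ) * T.m a + T.s a * T.n a = 1 := by
  exact_mod_cast T.unim a

lemma brBW (a : T.ιR) : K.br (T.B a) (T.W a) = 0 := by
  have h : K.br T.Y T.X = 0 := by rw [K.br_anti, T.brXY, neg_zero]
  simp [B, W, T.brXY, h, K.br_self]

lemma brW1 (a : T.ιR) : K.br (T.W a) (T.Z1 a) = 0 := by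
  simp only [W, map_add, map_smul, LinearMap.add_apply, LinearMap.smul_apply, T.brX1, T.brY1]
  module

lemma brW2 (a : T.ιR) : K.br (T.W a) (T.Z2 a) = 0 := by
  simp only [W, map_add, map_smul, LinearMap.add_apply, LinearMap.smul_apply, T.brX2, T.brY2]
  module

lemma brB1 (a : T.ιR) : K.br (T.B a) (T.Z1 a) = T.Z2 a := by
  simp only [B, map_add, map_smul, LinearMap.add_apply, LinearMap.smul_apply, T.brX1, T.brY1]
  rw [smul_smul, smul_smul, ← add_smul, T.unim' a, one_smul]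

lemma brB2 (a : T.ιR) : K.br (T.B a) (T.Z2 a) = - T.Z1 a := by
  simp only [B, map_add, map_smul, LinearMap.add_apply, LinearMap.smul_apply, T.brX2, T.brY2]
  rw [smul_neg, smul_neg, smul_smul, smul_smul, ← neg_add, ← add_smul, T.unim' a, one_smul]

lemma fl_int (A : 𝔤) (hA : K.Cl A) (m : ℤ) (p : P) : K.fl A ((m : ℝ) * (2 * Real.pi)) p = p := by
  have hn : ∀ (k : ℕ) (q : P), K.fl A ((k : ℝ) * (2 * Real.pi)) q = q := by
    intro k
    induction k with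
    | zero => intro q; simpa using K.fl_zero A q
    | succ k ih =>
      intro q
      have : ((k + 1 : ℕ) : ℝ) * (2 * Real.pi) = (k : ℝ) * (2 * Real.pi) + 2 * Real.pi := by
        push_cast; ring
      rw [this, K.fl_add, hA, ih]
  obtain ⟨k, rfl | rfl⟩ := Int.eq_nat_or_neg m
  · simpa using hn k p
  · have h1 := K.fl_add A (((-(k : ℤ) : ℤ) : ℝ) * (2 * Real.pi)) ((k : ℝ) * (2 * Real.pi)) p
    rw [hn k p] at h1
    rw [← h1]
    have : ((-(k : ℤ) : ℤ) : ℝ) * (2 * Real.pi) + (k : ℝ) * (2 * Real.pi) = 0 := by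
      push_cast; ring
    rw [this, K.fl_zero]

lemma cl_comb (a b : ℤ) : K.Cl ((a : ℝ) • T.X + (b : ℝ) • T.Y) := by
  intro p
  rw [K.fl_comb _ _ T.brXY, fl_int T.Y T.clY, fl_int T.X T.clX]

lemma clB (a : T.ιR) : K.Cl (T.B a) := T.cl_comb _ _

lemma clW (a : T.ιR) : K.Cl (T.W a) := by
  have := T.cl_comb (T.n a) (-T.m a)
  simpa [W] using this

lemma indBW (a : T.ιR) : LinearIndependent ℝ ![T.B a, T.W a] := by
  have hi := LinearIndependent.pair_iff.1 T.ind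
  rw [LinearIndependent.pair_iff]
  intro x y hxy
  have h := T.unim' a
  have h1 : (x * T.r a + y * T.n a) • T.X + (x * T.s a - y * T.m a) • T.Y = 0 := by
    rw [← hxy, B, W]
    module
  obtain ⟨h2, h3⟩ := hi _ _ h1
  constructor
  · have : x * ((T.r a : ℝ) * T.m a + T.s a * T.n a) = 0 := by
      linear_combination (T.m a : ℝ) * h2 + (T.n a : ℝ) * h3
    rwa [h, mul_one] at this
  · have : y * ((T.r a : ℝ) * T.m a + T.s a * T.n a) = 0 := by
      linear_combination (T.s a : ℝ) * h2 - (T.r a : ℝ) * h3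
    rwa [h, mul_one] at this

/-- the tangential part -/
def F0 (h : 𝔤 →ₗ[ℝ] 𝔤 →ₗ[ℝ] K.𝒜) : K.𝒜 :=
  T.q11 • (K.eta h T.X T.Y T.X ^ 2 - K.eta h T.X T.X T.X * K.eta h T.Y T.Y T.X)
  + T.q12 • ((2 : ℝ) • (K.eta h T.X T.Y T.X * K.eta h T.X T.Y T.Y)
      - K.eta h T.X T.X T.X * K.eta h T.Y T.Y T.Y - K.eta h T.X T.X T.Y * K.eta h T.Y T.Y T.X)
  + T.q22 • (K.eta h T.X T.Y T.Y ^ 2 - K.eta h T.X T.X T.Y * K.eta h T.Y T.Y T.Y)

/-- the zero weight part -/
def F1 (h : 𝔤 →ₗ[ℝ] 𝔤 →ₗ[ℝ] K.𝒜) (i : T.ιC) : K.𝒜 :=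
  K.eta h T.X T.Y (T.C i) ^ 2 - K.eta h T.X T.X (T.C i) * K.eta h T.Y T.Y (T.C i)

/-- the part of a root -/
def F2 (h : 𝔤 →ₗ[ℝ] 𝔤 →ₗ[ℝ] K.𝒜) (a : T.ιR) : K.𝒜 :=
  K.eta h (T.B a) (T.W a) (T.Z1 a) ^ 2 + K.eta h (T.B a) (T.W a) (T.Z2 a) ^ 2
    - K.eta h (T.B a) (T.B a) (T.Z1 a) * K.eta h (T.W a) (T.W a) (T.Z1 a)
    - K.eta h (T.B a) (T.B a) (T.Z2 a) * K.eta h (T.W a) (T.W a) (T.Z2 a)
    - (4 : ℝ) • (K.R1 h (T.W a) (T.B a) (T.B a) (T.Z1 a) ^ 2
      + K.R1 h (T.W a) (T.B a) (T.B a) (T.Z2 a) ^ 2)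

/-- the second order function -/
def F (h : 𝔤 →ₗ[ℝ] 𝔤 →ₗ[ℝ] K.𝒜) : K.𝒜 :=
  T.F0 h + ∑ i, T.w i • T.F1 h i + ∑ a, T.F2 h a

end TorusDatum

lemma sm_sum {K : Calc P 𝔤} {ι : Type} [Fintype ι] (f : ι → ℕ → K.𝒜) (hf : ∀ i, K.sm (f i)) :
    K.sm (fun j => ∑ i, f i j) := by
  classical
  have : ∀ s : Finset ι, K.sm (fun j => ∑ i ∈ s, f i j) := by
    intro s
    induction s using Finset.induction_on with
    | empty => simpa using Calc.sm.zero
    | insert i s hi ih =>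
      have := (hf i).add ih
      refine this.congr fun j => ?_
      rw [Finset.sum_insert hi]
  exact this _

variable [FiniteDimensional ℝ 𝔤]

namespace Pert

variable {K : Calc P 𝔤} (S : Pert K) (T : TorusDatum K)

lemma F0_small : K.sm (fun j => K.Av T.X (K.Av T.Y (T.F0 (S.h j)))) := by
  have h1 := S.tang1 T.X T.Y T.brXY T.clX T.clY T.ind
  have h2 := S.tang2 T.X T.Y T.brXY T.clX T.clY T.ind
  have h3 := S.tang3 T.X T.Y T.brXY T.clX T.clY T.ind
  refine (((h1.smul T.q11).add (h3.smul T.q12)).add (h2.smul T.q22)).congr fun j => ?_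
  simp only [TorusDatum.F0, map_add, map_smul]

lemma F1_small : K.sm (fun j => K.Av T.X (K.Av T.Y (∑ i, T.w i • T.F1 (S.h j) i))) := by
  have h1 : ∀ i, K.sm (fun j => K.Av T.X (K.Av T.Y (T.w i • T.F1 (S.h j) i))) := by
    intro i
    have := S.zero_small T.X T.Y (T.C i) T.brXY (T.brXC i) (T.brYC i) T.clX T.clY (T.clC i)
      (T.indC i)
    refine (this.smul (T.w i)).congr fun j => ?_
    simp only [TorusDatum.F1, map_smul]
  refine (sm_sum _ h1).congr fun j => ?_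
  simp only [map_sum]

lemma F2_le (ε' : ℝ) (hε : 0 < ε') : ∀ᶠ j in atTop, ∀ p,
    K.ev p (K.Av T.X (K.Av T.Y (∑ a, T.F2 (S.h j) a))) ≤ ε' := by
  have h1 : ∀ a, ∀ᶠ j in atTop, ∀ p, K.ev p (K.Av T.X (K.Av T.Y (T.F2 (S.h j) a))) ≤
      ε' / (Fintype.card T.ιR + 1) := by
    intro a
    exact S.J_le T.X T.Y (T.B a) (T.W a) (T.Z1 a) (T.Z2 a) _ _ _ _ T.brXY T.clX T.clY rfl rfl
      (T.clB a) (T.clW a) (T.indBW a) (T.brW1 a) (T.brB1 a) (T.brB2 a) _ (by positivity)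
  have h2 := Filter.eventually_all.2 h1
  filter_upwards [h2] with j hj p
  rw [map_sum, map_sum, map_sum]
  calc ∑ a, K.ev p (K.Av T.X (K.Av T.Y (T.F2 (S.h j) a)))
      ≤ ∑ a : T.ιR, ε' / (Fintype.card T.ιR + 1) := Finset.sum_le_sum fun a _ => hj a p
    _ = Fintype.card T.ιR * (ε' / (Fintype.card T.ιR + 1)) := by
        rw [Finset.sum_const, Finset.card_univ, nsmul_eq_mul]
    _ ≤ ε' := by
        have : (0 : ℝ) ≤ Fintype.card T.ιR := Nat.cast_nonneg _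
        rw [mul_div_assoc', div_le_iff₀ (by positivity)]
        nlinarith

/-- the average of the second order function is at most `ε'`, eventually -/
theorem F_le (ε' : ℝ) (hε : 0 < ε') : ∀ᶠ j in atTop, ∀ p,
    K.ev p (K.Av T.X (K.Av T.Y (T.F (S.h j)))) ≤ ε' := by
  have h0 := S.F0_small T (ε' / 3) (by positivity)
  have h1 := S.F1_small T (ε' / 3) (by positivity)
  have h2 := S.F2_le T (ε' / 3) (by positivity)
  filter_upwards [h0, h1, h2] with j a0 a1 a2 p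
  have b0 := (abs_le.1 (a0 p)).2
  have b1 := (abs_le.1 (a1 p)).2
  have b2 := a2 p
  simp only [TorusDatum.F, map_add]
  linarith

end Pert

end Pool.Agent.H842R4
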