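import Pool.Agent.H842R4.ExpA

/-!
Second order expansion of the curvature numerator for the tilted plane `(X + t U, Y + t V)`,
`X`, `Y` commuting.

PROOF. `u = X + t U`, `v = Y + t V`, `br u v = t (br X V + br U Y) + t² br U V =: t w₁ + t² w₂`, so
`‖br u v‖ ≤ M' t` and `ExpA.num_expA` applies with a larger `M'` (`t ≤ 1`). It remains to expand:
(a) `Φ(u,v) := D_u η(v,v,u) - D_v η(u,v,u) - η(br u v, v, u)`:
   `Φ = Q(X,Y) + t (2 R1 X Y Y U + 2 R1 Y X X V) + O(t²)`. By `multi4` below for the 4-linear forms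
   `(a,b,c,d) ↦ K.ev p (K.D a (K.eta h b c d))` at `(X,Y,Y,X) + t (U,V,V,U)` and
   `(Y,X,Y,X) + t (V,U,V,U)`, and `η(br u v, v, u) = t η(w₁, Y, X) + O(t²)`. The `t`-terms are
   `[D_U η(Y,Y,X) + D_X η(V,Y,X) + D_X η(Y,V,X) + D_X η(Y,Y,U)]
    - [D_V η(X,Y,X) + D_Y η(U,Y,X) + D_Y η(X,V,X) + D_Y η(X,Y,U)] - η(br X V, Y, X) - η(br U Y, Y, X)`
   `= 2 R1 X Y Y U + 2 R1 Y X X V` by `K.id1` and `K.id2`.
(b) `(1/4) ‖br u v‖² = (1/4) t² ‖w₁‖² + O(t³)`.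
(c) `⟪Euv, Evu⟫ - ⟪Evv, Euu⟫ = ⟪EXY, EXY⟫ - ⟪EYY, EXX⟫ + O(t)`: by `IsEta` and trilinearity
   `‖Euv - EXY‖ ≤ C t` (test with `C' = Euv - EXY`), `‖Evu - EXY‖ ≤ C t`
   (`η(Y,X,·) = η(X,Y,·)`, `K.eta_comm_of`), etc.
Bounds for `η`, `D η`: `S.eta_bound` with `L = []` and `L = [a]` (`K.Dl [a] f = K.D a f` by `rfl`).
-/

open MeasureTheory Filter Topology

noncomputable section

namespace Pool.Agent.H842R4

/-- first order expansion of a bounded 4-linear form -/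
theorem multi4 {V : Type} [NormedAddCommGroup V] [NormedSpace ℝ V] (T : V → V → V → V → ℝ) (C : ℝ)
    (h1 : ∀ a a' b c d, ∀ s : ℝ, T (a + s • a') b c d = T a b c d + s * T a' b c d)
    (h2 : ∀ a b b' c d, ∀ s : ℝ, T a (b + s • b') c d = T a b c d + s * T a b' c d)
    (h3 : ∀ a b c c' d, ∀ s : ℝ, T a b (c + s • c') d = T a b c d + s * T a b c' d)
    (h4 : ∀ a b c d d', ∀ s : ℝ, T a b c (d + s • d') = T a b c d + s * T a b c d')
    (hC : ∀ a b c d, |T a b c d| ≤ C * ‖a‖ * ‖b‖ * ‖c‖ * ‖d‖) (hC0 : 0 ≤ C)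
    (a b c d a' b' c' d' : V) (M t : ℝ) (ht : 0 ≤ t) (ht1 : t ≤ 1) (ha : ‖a‖ ≤ M) (hb : ‖b‖ ≤ M)
    (hc : ‖c‖ ≤ M) (hd : ‖d‖ ≤ M) (ha' : ‖a'‖ ≤ M) (hb' : ‖b'‖ ≤ M) (hc' : ‖c'‖ ≤ M)
    (hd' : ‖d'‖ ≤ M) :
    |T (a + t • a') (b + t • b') (c + t • c') (d + t • d') -
      (T a b c d + t * (T a' b c d + T a b' c d + T a b c' d + T a b c d'))| ≤
      11 * C * M ^ 4 * t ^ 2 := by
  have hM0 : 0 ≤ M := (norm_nonneg a).trans ha
  have hT : ∀ x y z w : V, ‖x‖ ≤ M → ‖y‖ ≤ M → ‖z‖ ≤ M → ‖w‖ ≤ M → |T x y z w| ≤ C * M ^ 4 := by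
    intro x y z w hx hy hz hw
    calc |T x y z w| ≤ C * ‖x‖ * ‖y‖ * ‖z‖ * ‖w‖ := hC x y z w
      _ ≤ C * M * M * M * M := by gcongr
      _ = C * M ^ 4 := by ring
  set Q : ℝ := C * M ^ 4 with hQ
  have hQ0 : 0 ≤ Q := by positivity
  have e : T (a + t • a') (b + t • b') (c + t • c') (d + t • d') -
      (T a b c d + t * (T a' b c d + T a b' c d + T a b c' d + T a b c d')) =
      t ^ 2 * (T a' b' c d + T a' b c' d + T a' b c d' + T a b' c' d + T a b' c d' + T a b c' d')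
      + t ^ 3 * (T a' b' c' d + T a' b' c d' + T a' b c' d' + T a b' c' d')
      + t ^ 4 * T a' b' c' d' := by
    simp only [h1, h2, h3, h4]
    ring
  rw [e]
  have b1 : |T a' b' c d + T a' b c' d + T a' b c d' + T a b' c' d + T a b' c d' + T a b c' d'|
      ≤ 6 * Q := by
    have k1 := abs_le.1 (hT a' b' c d ha' hb' hc hd)
    have k2 := abs_le.1 (hT a' b c' d ha' hb hc' hd)
    have k3 := abs_le.1 (hT a' b c d' ha' hb hc hd')
    have k4 := abs_le.1 (hT a b' c' d ha hb' hc' hd)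
    have k5 := abs_le.1 (hT a b' c d' ha hb' hc hd')
    have k6 := abs_le.1 (hT a b c' d' ha hb hc' hd')
    rw [abs_le]
    constructor <;> linarith [k1.1, k1.2, k2.1, k2.2, k3.1, k3.2, k4.1, k4.2, k5.1, k5.2, k6.1, k6.2]
  have b2 : |T a' b' c' d + T a' b' c d' + T a' b c' d' + T a b' c' d'| ≤ 4 * Q := by
    have k1 := abs_le.1 (hT a' b' c' d ha' hb' hc' hd)
    have k2 := abs_le.1 (hT a' b' c d' ha' hb' hc hd')
    have k3 := abs_le.1 (hT a' b c' d' ha' hb hc' hd')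
    have k4 := abs_le.1 (hT a b' c' d' ha hb' hc' hd')
    rw [abs_le]
    constructor <;> linarith [k1.1, k1.2, k2.1, k2.2, k3.1, k3.2, k4.1, k4.2]
  have b3 : |T a' b' c' d'| ≤ Q := hT a' b' c' d' ha' hb' hc' hd'
  have t2 : 0 ≤ t ^ 2 := by positivity
  have t3 : 0 ≤ t ^ 3 := by positivity
  have t4 : 0 ≤ t ^ 4 := by positivity
  have t32 : t ^ 3 ≤ t ^ 2 := pow_le_pow_of_le_one ht ht1 (by norm_num)
  have t42 : t ^ 4 ≤ t ^ 2 := pow_le_pow_of_le_one ht ht1 (by norm_num)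
  calc _ ≤ t ^ 2 * (6 * Q) + t ^ 3 * (4 * Q) + t ^ 4 * Q := by
        refine (abs_add_le _ _).trans (add_le_add ((abs_add_le _ _).trans (add_le_add ?_ ?_)) ?_)
        · rw [abs_mul, abs_of_nonneg t2]; exact mul_le_mul_of_nonneg_left b1 t2
        · rw [abs_mul, abs_of_nonneg t3]; exact mul_le_mul_of_nonneg_left b2 t3
        · rw [abs_mul, abs_of_nonneg t4]; exact mul_le_mul_of_nonneg_left b3 t4
    _ ≤ t ^ 2 * (6 * Q) + t ^ 2 * (4 * Q) + t ^ 2 * Q := by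
        gcongr
    _ = 11 * C * M ^ 4 * t ^ 2 := by rw [hQ]; ring

variable {P 𝔤 : Type} [NormedAddCommGroup 𝔤] [InnerProductSpace ℝ 𝔤] [FiniteDimensional ℝ 𝔤]

namespace ExpBAux

variable {K : Calc P 𝔤} (S : Pert K)

theorem eta0 {Cη : ℝ} (Hη : ∀ j (L : List 𝔤), L.length ≤ 3 → ∀ A B E p,
    |K.ev p (K.Dl L (K.eta (S.h j) A B E))| ≤ Cη * (L.map norm).prod * ‖A‖ * ‖B‖ * ‖E‖)
    (j : ℕ) (p : P) (A B E : 𝔤) :
    |K.ev p (K.eta (S.h j) A B E)| ≤ Cη * ‖A‖ * ‖B‖ * ‖E‖ := by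
  have := Hη j [] (by simp) A B E p
  simpa [Calc.Dl] using this

theorem eta1 {Cη : ℝ} (Hη : ∀ j (L : List 𝔤), L.length ≤ 3 → ∀ A B E p,
    |K.ev p (K.Dl L (K.eta (S.h j) A B E))| ≤ Cη * (L.map norm).prod * ‖A‖ * ‖B‖ * ‖E‖)
    (j : ℕ) (p : P) (D A B E : 𝔤) :
    |K.ev p (K.D D (K.eta (S.h j) A B E))| ≤ Cη * ‖D‖ * ‖A‖ * ‖B‖ * ‖E‖ := by
  have := Hη j [D] (by simp) A B E p
  simpa [Calc.Dl] using this

theorem E_norm {Cη : ℝ} (hη : ∀ (j : ℕ) (p : P) (A B E : 𝔤),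
    |K.ev p (K.eta (S.h j) A B E)| ≤ Cη * ‖A‖ * ‖B‖ * ‖E‖) (hC0 : 0 ≤ Cη)
    (j : ℕ) (p : P) (A B E : 𝔤) (hE : K.IsEta (S.h j) p A B E) : ‖E‖ ≤ Cη * ‖A‖ * ‖B‖ := by
  by_contra hcon
  push Not at hcon
  have h1 := hE E
  have h2 := (le_abs_self _).trans (hη j p A B E)
  rw [← h1, real_inner_self_eq_norm_sq] at h2
  have h3 : 0 ≤ Cη * ‖A‖ * ‖B‖ := by positivity
  nlinarith

/-- difference of two representing vectors -/
theorem E_diff {Cη : ℝ} (hη : ∀ (j : ℕ) (p : P) (A B E : 𝔤),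
    |K.ev p (K.eta (S.h j) A B E)| ≤ Cη * ‖A‖ * ‖B‖ * ‖E‖) (hC0 : 0 ≤ Cη)
    (j : ℕ) (p : P) (A B A' B' E E' : 𝔤) (t N : ℝ) (ht : 0 ≤ t) (ht1 : t ≤ 1)
    (hA : ‖A‖ ≤ N) (hB : ‖B‖ ≤ N) (hA' : ‖A'‖ ≤ N) (hB' : ‖B'‖ ≤ N)
    (hE : K.IsEta (S.h j) p A B E) (hE' : K.IsEta (S.h j) p (A + t • A') (B + t • B') E') :
    ‖E' - E‖ ≤ 3 * Cη * N ^ 2 * t := by
  have hN : 0 ≤ N := (norm_nonneg _).trans hA
  have hb : ∀ x y z : 𝔤, ‖x‖ ≤ N → ‖y‖ ≤ N → |K.ev p (K.eta (S.h j) x y z)| ≤ Cη * N ^ 2 * ‖z‖ := by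
    intro x y z hx hy
    calc _ ≤ Cη * ‖x‖ * ‖y‖ * ‖z‖ := hη j p x y z
      _ ≤ Cη * N * N * ‖z‖ := by gcongr
      _ = _ := by ring
  set Z := E' - E with hZ
  have h1 : inner ℝ Z Z = t * K.ev p (K.eta (S.h j) A' B Z) + t * K.ev p (K.eta (S.h j) A B' Z)
      + t * (t * K.ev p (K.eta (S.h j) A' B' Z)) := by
    have e1 : inner ℝ Z Z = inner ℝ E' Z - inner ℝ E Z := by
      conv_lhs => rw [hZ, inner_sub_left]
    rw [e1, hE Z, hE' Z]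
    simp only [K.eta_add_left, K.eta_add_mid, K.eta_smul_left, K.eta_smul_mid, map_add, map_smul,
      smul_eq_mul]
    ring
  have k1 := abs_le.1 (hb A' B Z hA' hB)
  have k2 := abs_le.1 (hb A B' Z hA hB')
  have k3 := abs_le.1 (hb A' B' Z hA' hB')
  rw [real_inner_self_eq_norm_sq] at h1
  have h4 : ‖Z‖ ^ 2 ≤ t * (3 * (Cη * N ^ 2 * ‖Z‖)) := by
    have k0 : 0 ≤ Cη * N ^ 2 * ‖Z‖ := by positivity
    have k4 : t * K.ev p (K.eta (S.h j) A' B' Z) ≤ Cη * N ^ 2 * ‖Z‖ := by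
      calc t * K.ev p (K.eta (S.h j) A' B' Z) ≤ t * (Cη * N ^ 2 * ‖Z‖) :=
            mul_le_mul_of_nonneg_left k3.2 ht
        _ ≤ 1 * (Cη * N ^ 2 * ‖Z‖) := mul_le_mul_of_nonneg_right ht1 k0
        _ = _ := one_mul _
    have := mul_le_mul_of_nonneg_left (add_le_add (add_le_add k1.2 k2.2) k4) ht
    linarith
  by_contra hcon
  push Not at hcon
  have h5 : 0 ≤ 3 * Cη * N ^ 2 * t := by positivity
  have h6 : 0 < ‖Z‖ := lt_of_le_of_lt h5 hcon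
  nlinarith

theorem inner_diff (a a' b b' : 𝔤) (x y δ : ℝ) (ha : ‖a‖ ≤ x) (hb' : ‖b'‖ ≤ y)
    (hda : ‖a' - a‖ ≤ δ) (hdb : ‖b' - b‖ ≤ δ) :
    |inner ℝ a' b' - inner ℝ a b| ≤ (x + y) * δ := by
  have e : inner ℝ a' b' - inner ℝ a b = inner ℝ (a' - a) b' + inner ℝ a (b' - b) := by
    rw [inner_sub_left, inner_sub_right]; ring
  have hx : 0 ≤ x := (norm_nonneg _).trans ha
  have hδ : 0 ≤ δ := (norm_nonneg _).trans hda
  rw [e]
  calc _ ≤ |inner ℝ (a' - a) b'| + |inner ℝ a (b' - b)| := abs_add_le _ _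
    _ ≤ ‖a' - a‖ * ‖b'‖ + ‖a‖ * ‖b' - b‖ :=
        add_le_add (abs_real_inner_le_norm _ _) (abs_real_inner_le_norm _ _)
    _ ≤ δ * y + x * δ := by gcongr
    _ = _ := by ring

/-- part (a) : the `D η` terms -/
theorem partA {Cη : ℝ} (hC0 : 0 ≤ Cη) (hη : ∀ (j : ℕ) (p : P) (A B E : 𝔤),
    |K.ev p (K.eta (S.h j) A B E)| ≤ Cη * ‖A‖ * ‖B‖ * ‖E‖)
    (hη1 : ∀ (j : ℕ) (p : P) (D A B E : 𝔤),
    |K.ev p (K.D D (K.eta (S.h j) A B E))| ≤ Cη * ‖D‖ * ‖A‖ * ‖B‖ * ‖E‖)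
    (X Y : 𝔤) (hXY : K.br X Y = 0)
    (j : ℕ) (p : P) (U V : 𝔤) (t N W : ℝ) (ht : 0 ≤ t) (ht1 : t ≤ 1)
    (hX : ‖X‖ ≤ N) (hY : ‖Y‖ ≤ N) (hU : ‖U‖ ≤ N) (hV : ‖V‖ ≤ N)
    (hW1 : ‖K.br X V + K.br U Y‖ ≤ W) (hW2 : ‖K.br U V‖ ≤ W) :
    |(K.ev p (K.D (X + t • U) (K.eta (S.h j) (Y + t • V) (Y + t • V) (X + t • U)))
      - K.ev p (K.D (Y + t • V) (K.eta (S.h j) (X + t • U) (Y + t • V) (X + t • U)))
      - K.ev p (K.eta (S.h j) (t • (K.br X V + K.br U Y) + t ^ 2 • K.br U V) (Y + t • V)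
        (X + t • U)))
      - (K.ev p (K.Q (S.h j) X Y)
        + t * (2 * K.ev p (K.R1 (S.h j) X Y Y U) + 2 * K.ev p (K.R1 (S.h j) Y X X V)))| ≤
      (22 * Cη * N ^ 4 + 7 * Cη * W * N ^ 2) * t ^ 2 := by
  have hN : 0 ≤ N := (norm_nonneg _).trans hX
  have hW : 0 ≤ W := (norm_nonneg _).trans hW1
  have m1 := multi4 (fun a b c d => K.ev p (K.D a (K.eta (S.h j) b c d))) Cη
    (fun a a' b c d s => by
      simp only [map_add, map_smul, LinearMap.add_apply, LinearMap.smul_apply, smul_eq_mul])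
    (fun a b b' c d s => by
      simp only [K.eta_add_left, K.eta_smul_left, map_add, map_smul, smul_eq_mul])
    (fun a b c c' d s => by
      simp only [K.eta_add_mid, K.eta_smul_mid, map_add, map_smul, smul_eq_mul])
    (fun a b c d d' s => by
      simp only [K.eta_add_right, K.eta_smul_right, map_add, map_smul, smul_eq_mul])
    (fun a b c d => hη1 j p a b c d) hC0 X Y Y X U V V U N t ht ht1 hX hY hY hX hU hV hV hU
  have m2 := multi4 (fun a b c d => K.ev p (K.D a (K.eta (S.h j) b c d))) Cη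
    (fun a a' b c d s => by
      simp only [map_add, map_smul, LinearMap.add_apply, LinearMap.smul_apply, smul_eq_mul])
    (fun a b b' c d s => by
      simp only [K.eta_add_left, K.eta_smul_left, map_add, map_smul, smul_eq_mul])
    (fun a b c c' d s => by
      simp only [K.eta_add_mid, K.eta_smul_mid, map_add, map_smul, smul_eq_mul])
    (fun a b c d d' s => by
      simp only [K.eta_add_right, K.eta_smul_right, map_add, map_smul, smul_eq_mul])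
    (fun a b c d => hη1 j p a b c d) hC0 Y X Y X V U V U N t ht ht1 hY hX hY hX hV hU hV hU
  have i1 := congrArg (K.ev p) (K.id1 (S.h j) (S.symm j) X Y U hXY)
  have i2 := congrArg (K.ev p) (K.id2 (S.h j) (S.symm j) X Y V hXY)
  simp only [map_add, map_sub, map_smul, smul_eq_mul] at i1 i2
  set w1 := K.br X V + K.br U Y with hw1
  set w2 := K.br U V with hw2
  have e3 : K.ev p (K.eta (S.h j) (t • w1 + t ^ 2 • w2) (Y + t • V) (X + t • U)) =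
      t * K.ev p (K.eta (S.h j) w1 Y X) + t ^ 2 * (K.ev p (K.eta (S.h j) w1 V X)
        + K.ev p (K.eta (S.h j) w1 (Y + t • V) U)
        + K.ev p (K.eta (S.h j) w2 (Y + t • V) (X + t • U))) := by
    rw [K.eta_add_left, K.eta_smul_left, K.eta_smul_left, map_add, map_smul, map_smul,
      K.eta_add_right (S.h j) w1, K.eta_smul_right (S.h j) w1, K.eta_add_mid (S.h j) w1 Y (t • V) X,
      K.eta_smul_mid (S.h j) w1 V X]
    simp only [map_add, map_smul, smul_eq_mul]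
    ring
  have e4 : K.ev p (K.eta (S.h j) w1 Y X) = K.ev p (K.eta (S.h j) (K.br X V) Y X)
      + K.ev p (K.eta (S.h j) (K.br U Y) Y X) := by
    rw [hw1, K.eta_add_left, map_add]
  have hQ : K.ev p (K.Q (S.h j) X Y) = K.ev p (K.D X (K.eta (S.h j) Y Y X))
      - K.ev p (K.D Y (K.eta (S.h j) X Y X)) := by
    simp only [Calc.Q, map_sub]
  have hv : ‖Y + t • V‖ ≤ 2 * N := by
    calc ‖Y + t • V‖ ≤ ‖Y‖ + ‖t • V‖ := norm_add_le _ _
      _ = ‖Y‖ + t * ‖V‖ := by rw [norm_smul, Real.norm_eq_abs, abs_of_nonneg ht]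
      _ ≤ N + 1 * N := by gcongr
      _ = _ := by ring
  have hu : ‖X + t • U‖ ≤ 2 * N := by
    calc ‖X + t • U‖ ≤ ‖X‖ + ‖t • U‖ := norm_add_le _ _
      _ = ‖X‖ + t * ‖U‖ := by rw [norm_smul, Real.norm_eq_abs, abs_of_nonneg ht]
      _ ≤ N + 1 * N := by gcongr
      _ = _ := by ring
  have r1 : |K.ev p (K.eta (S.h j) w1 V X)| ≤ Cη * W * N ^ 2 := by
    calc _ ≤ Cη * ‖w1‖ * ‖V‖ * ‖X‖ := hη j p w1 V X
      _ ≤ Cη * W * N * N := by gcongr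
      _ = _ := by ring
  have r2 : |K.ev p (K.eta (S.h j) w1 (Y + t • V) U)| ≤ 2 * (Cη * W * N ^ 2) := by
    calc _ ≤ Cη * ‖w1‖ * ‖Y + t • V‖ * ‖U‖ := hη j p _ _ _
      _ ≤ Cη * W * (2 * N) * N := by gcongr
      _ = _ := by ring
  have r3 : |K.ev p (K.eta (S.h j) w2 (Y + t • V) (X + t • U))| ≤ 4 * (Cη * W * N ^ 2) := by
    calc _ ≤ Cη * ‖w2‖ * ‖Y + t • V‖ * ‖X + t • U‖ := hη j p _ _ _
      _ ≤ Cη * W * (2 * N) * (2 * N) := by gcongr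
      _ = _ := by ring
  have r4 : |t ^ 2 * (K.ev p (K.eta (S.h j) w1 V X)
        + K.ev p (K.eta (S.h j) w1 (Y + t • V) U)
        + K.ev p (K.eta (S.h j) w2 (Y + t • V) (X + t • U)))| ≤
      7 * (Cη * W * N ^ 2) * t ^ 2 := by
    rw [abs_mul, abs_of_nonneg (by positivity : (0:ℝ) ≤ t ^ 2), mul_comm]
    refine mul_le_mul_of_nonneg_right ?_ (by positivity)
    refine (abs_add_le _ _).trans ?_
    have := abs_add_le (K.ev p (K.eta (S.h j) w1 V X)) (K.ev p (K.eta (S.h j) w1 (Y + t • V) U))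
    linarith
  have key : (K.ev p (K.D (X + t • U) (K.eta (S.h j) (Y + t • V) (Y + t • V) (X + t • U)))
      - K.ev p (K.D (Y + t • V) (K.eta (S.h j) (X + t • U) (Y + t • V) (X + t • U)))
      - K.ev p (K.eta (S.h j) (t • w1 + t ^ 2 • w2) (Y + t • V) (X + t • U)))
      - (K.ev p (K.Q (S.h j) X Y)
        + t * (2 * K.ev p (K.R1 (S.h j) X Y Y U) + 2 * K.ev p (K.R1 (S.h j) Y X X V))) =
      (K.ev p (K.D (X + t • U) (K.eta (S.h j) (Y + t • V) (Y + t • V) (X + t • U))) -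
      (K.ev p (K.D X (K.eta (S.h j) Y Y X)) + t * (K.ev p (K.D U (K.eta (S.h j) Y Y X))
        + K.ev p (K.D X (K.eta (S.h j) V Y X)) + K.ev p (K.D X (K.eta (S.h j) Y V X))
        + K.ev p (K.D X (K.eta (S.h j) Y Y U)))))
      - (K.ev p (K.D (Y + t • V) (K.eta (S.h j) (X + t • U) (Y + t • V) (X + t • U))) -
      (K.ev p (K.D Y (K.eta (S.h j) X Y X)) + t * (K.ev p (K.D V (K.eta (S.h j) X Y X))
        + K.ev p (K.D Y (K.eta (S.h j) U Y X)) + K.ev p (K.D Y (K.eta (S.h j) X V X))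
        + K.ev p (K.D Y (K.eta (S.h j) X Y U)))))
      - t ^ 2 * (K.ev p (K.eta (S.h j) w1 V X)
        + K.ev p (K.eta (S.h j) w1 (Y + t • V) U)
        + K.ev p (K.eta (S.h j) w2 (Y + t • V) (X + t • U))) := by
    rw [e3, hQ, e4]
    linear_combination t * i1 + t * i2
  rw [key]
  have n1 := abs_sub (K.ev p (K.D (X + t • U) (K.eta (S.h j) (Y + t • V) (Y + t • V) (X + t • U))) -
      (K.ev p (K.D X (K.eta (S.h j) Y Y X)) + t * (K.ev p (K.D U (K.eta (S.h j) Y Y X))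
        + K.ev p (K.D X (K.eta (S.h j) V Y X)) + K.ev p (K.D X (K.eta (S.h j) Y V X))
        + K.ev p (K.D X (K.eta (S.h j) Y Y U))))) (K.ev p (K.D (Y + t • V) (K.eta (S.h j) (X + t • U) (Y + t • V) (X + t • U))) -
      (K.ev p (K.D Y (K.eta (S.h j) X Y X)) + t * (K.ev p (K.D V (K.eta (S.h j) X Y X))
        + K.ev p (K.D Y (K.eta (S.h j) U Y X)) + K.ev p (K.D Y (K.eta (S.h j) X V X))
        + K.ev p (K.D Y (K.eta (S.h j) X Y U)))))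
  refine (abs_sub _ _).trans ?_
  refine (add_le_add (n1.trans (add_le_add m1 m2)) r4).trans (le_of_eq ?_)
  ring

end ExpBAux

namespace Pert

variable {K : Calc P 𝔤} (S : Pert K)

open ExpBAux in
theorem num_expB (X Y : 𝔤) (hXY : K.br X Y = 0) (M : ℝ) : ∃ C : ℝ, 0 < C ∧ ∀ᶠ j in atTop,
    ∀ p U V, ‖U‖ ≤ M → ‖V‖ ≤ M → ∀ Vuu Vuv Vvu Vvv EXX EXY EYY,
    K.IsNabla (K.met (S.t j) (S.h j)) p (X + S.t j • U) (X + S.t j • U) Vuu →
    K.IsNabla (K.met (S.t j) (S.h j)) p (X + S.t j • U) (Y + S.t j • V) Vuv →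
    K.IsNabla (K.met (S.t j) (S.h j)) p (Y + S.t j • V) (X + S.t j • U) Vvu →
    K.IsNabla (K.met (S.t j) (S.h j)) p (Y + S.t j • V) (Y + S.t j • V) Vvv →
    K.IsEta (S.h j) p X X EXX → K.IsEta (S.h j) p X Y EXY → K.IsEta (S.h j) p Y Y EYY →
    |K.num (K.met (S.t j) (S.h j)) p (X + S.t j • U) (Y + S.t j • V) Vuu Vuv Vvu Vvv -
      (S.t j * K.ev p (K.Q (S.h j) X Y)
        + S.t j ^ 2 * (inner ℝ EXY EXY - inner ℝ EXX EYY
          + 2 * K.ev p (K.R1 (S.h j) X Y Y U) + 2 * K.ev p (K.R1 (S.h j) Y X X V)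
          + (1 / 4) * ‖K.br X V + K.br U Y‖ ^ 2))| ≤ C * S.t j ^ 3 := by
  obtain ⟨Cη, hCη, Hη⟩ := S.eta_bound
  obtain ⟨B, hB, HB⟩ := K.br_bound
  set N : ℝ := ‖X‖ + ‖Y‖ + |M| + 1 with hN
  have hN0 : 0 < N := by positivity
  set W : ℝ := 2 * B * N ^ 2 with hW
  have hW0 : 0 < W := by positivity
  obtain ⟨C1, hC1, H1⟩ := S.num_expA (2 * N + 2 * W)
  have hη := eta0 S Hη
  have hη1 := eta1 S Hη
  refine ⟨C1 + (22 * Cη * N ^ 4 + 7 * Cη * W * N ^ 2) + W ^ 2 + 30 * Cη ^ 2 * N ^ 4, by positivity,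
    ?_⟩
  have ht1 : ∀ᶠ j in atTop, S.t j ≤ 1 := S.t_lim.eventually_le_const one_pos
  filter_upwards [H1, ht1] with j H1 ht1
  intro p U V hU hV Vuu Vuv Vvu Vvv EXX EXY EYY n1 n2 n3 n4 hXX hXY' hYY
  set t := S.t j with htdef
  have ht : 0 < t := S.t_pos j
  have hX : ‖X‖ ≤ N := by
    have := norm_nonneg Y; have := abs_nonneg M; linarith
  have hY : ‖Y‖ ≤ N := by
    have := norm_nonneg X; have := abs_nonneg M; linarith
  have hU' : ‖U‖ ≤ N := by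
    have := norm_nonneg X; have := norm_nonneg Y; have := le_abs_self M; linarith
  have hV' : ‖V‖ ≤ N := by
    have := norm_nonneg X; have := norm_nonneg Y; have := le_abs_self M; linarith
  have hW1 : ‖K.br X V + K.br U Y‖ ≤ W := by
    calc _ ≤ ‖K.br X V‖ + ‖K.br U Y‖ := norm_add_le _ _
      _ ≤ B * ‖X‖ * ‖V‖ + B * ‖U‖ * ‖Y‖ := add_le_add (HB _ _) (HB _ _)
      _ ≤ B * N * N + B * N * N := by gcongr
      _ = W := by rw [hW]; ring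
  have hW2 : ‖K.br U V‖ ≤ W := by
    calc _ ≤ B * ‖U‖ * ‖V‖ := HB _ _
      _ ≤ B * N * N := by gcongr
      _ ≤ W := by rw [hW]; nlinarith [mul_pos hB (pow_pos hN0 2)]
  have hbr : K.br (X + t • U) (Y + t • V) =
      t • (K.br X V + K.br U Y) + t ^ 2 • K.br U V := by
    simp only [map_add, map_smul, LinearMap.add_apply, LinearMap.smul_apply, hXY]
    module
  have hv : ‖Y + t • V‖ ≤ 2 * N := by
    calc ‖Y + t • V‖ ≤ ‖Y‖ + ‖t • V‖ := norm_add_le _ _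
      _ = ‖Y‖ + t * ‖V‖ := by rw [norm_smul, Real.norm_eq_abs, abs_of_nonneg ht.le]
      _ ≤ N + 1 * N := by gcongr
      _ = _ := by ring
  have hu : ‖X + t • U‖ ≤ 2 * N := by
    calc ‖X + t • U‖ ≤ ‖X‖ + ‖t • U‖ := norm_add_le _ _
      _ = ‖X‖ + t * ‖U‖ := by rw [norm_smul, Real.norm_eq_abs, abs_of_nonneg ht.le]
      _ ≤ N + 1 * N := by gcongr
      _ = _ := by ring
  have hbrn : ‖K.br (X + t • U) (Y + t • V)‖ ≤ (2 * N + 2 * W) * t := by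
    rw [hbr]
    calc _ ≤ ‖t • (K.br X V + K.br U Y)‖ + ‖t ^ 2 • K.br U V‖ := norm_add_le _ _
      _ = t * ‖K.br X V + K.br U Y‖ + t ^ 2 * ‖K.br U V‖ := by
          rw [norm_smul, norm_smul, Real.norm_eq_abs, Real.norm_eq_abs, abs_of_nonneg ht.le,
            abs_of_nonneg (by positivity : (0:ℝ) ≤ t ^ 2)]
      _ ≤ t * W + t * W := by
          have : t ^ 2 ≤ t := by nlinarith
          gcongr
      _ ≤ _ := by nlinarith [mul_pos hN0 ht]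
  obtain ⟨Euu, hEuu⟩ := K.exists_eta (S.h j) p (X + t • U) (X + t • U)
  obtain ⟨Euv, hEuv⟩ := K.exists_eta (S.h j) p (X + t • U) (Y + t • V)
  obtain ⟨Evu, hEvu⟩ := K.exists_eta (S.h j) p (Y + t • V) (X + t • U)
  obtain ⟨Evv, hEvv⟩ := K.exists_eta (S.h j) p (Y + t • V) (Y + t • V)
  have A0 := H1 p (X + t • U) (Y + t • V) (by linarith) (by linarith) hbrn Vuu Vuv Vvu Vvv
    Euu Euv Evu Evv n1 n2 n3 n4 hEuu hEuv hEvu hEvv
  have A1 := partA S hCη.le hη hη1 X Y hXY j p U V t N W ht.le ht1 hX hY hU' hV' hW1 hW2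
  rw [← hbr] at A1
  have hYX' : K.IsEta (S.h j) p Y X EXY := by
    intro C
    rw [hXY' C, K.eta_comm_of (S.h j) X Y C (S.symm j) hXY]
  have d1 := E_diff S hη hCη.le j p X Y U V EXY Euv t N ht.le ht1 hX hY hU' hV' hXY' hEuv
  have d2 := E_diff S hη hCη.le j p Y X V U EXY Evu t N ht.le ht1 hY hX hV' hU' hYX' hEvu
  have d3 := E_diff S hη hCη.le j p X X U U EXX Euu t N ht.le ht1 hX hX hU' hU' hXX hEuu
  have d4 := E_diff S hη hCη.le j p Y Y V V EYY Evv t N ht.le ht1 hY hY hV' hV' hYY hEvv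
  have b1 : ‖EXY‖ ≤ Cη * N ^ 2 := by
    calc _ ≤ Cη * ‖X‖ * ‖Y‖ := E_norm S hη hCη.le j p _ _ _ hXY'
      _ ≤ Cη * N * N := by gcongr
      _ = _ := by ring
  have b2 : ‖EYY‖ ≤ Cη * N ^ 2 := by
    calc _ ≤ Cη * ‖Y‖ * ‖Y‖ := E_norm S hη hCη.le j p _ _ _ hYY
      _ ≤ Cη * N * N := by gcongr
      _ = _ := by ring
  have b3 : ‖Evu‖ ≤ 4 * (Cη * N ^ 2) := by
    calc _ ≤ Cη * ‖Y + t • V‖ * ‖X + t • U‖ := E_norm S hη hCη.le j p _ _ _ hEvu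
      _ ≤ Cη * (2 * N) * (2 * N) := by gcongr
      _ = _ := by ring
  have b4 : ‖Euu‖ ≤ 4 * (Cη * N ^ 2) := by
    calc _ ≤ Cη * ‖X + t • U‖ * ‖X + t • U‖ := E_norm S hη hCη.le j p _ _ _ hEuu
      _ ≤ Cη * (2 * N) * (2 * N) := by gcongr
      _ = _ := by ring
  have c1 := inner_diff EXY Euv EXY Evu _ _ _ b1 b3 d1 d2
  have c2 := inner_diff EYY Evv EXX Euu _ _ _ b2 b4 d4 d3
  have hc : inner ℝ EYY EXX = inner ℝ EXX EYY := real_inner_comm _ _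
  rw [hc] at c2
  have A2 : |(1 / 4) * ‖K.br (X + t • U) (Y + t • V)‖ ^ 2
      - t ^ 2 * ((1 / 4) * ‖K.br X V + K.br U Y‖ ^ 2)| ≤ W ^ 2 * t ^ 3 := by
    set w1 := K.br X V + K.br U Y with hw1
    set w2 := K.br U V with hw2
    have e1 : ‖K.br (X + t • U) (Y + t • V)‖ ^ 2 =
        t ^ 2 * ‖w1‖ ^ 2 + 2 * t ^ 3 * inner ℝ w1 w2 + t ^ 4 * ‖w2‖ ^ 2 := by
      rw [hbr, norm_add_sq_real, norm_smul, norm_smul, inner_smul_left, inner_smul_right,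
        Real.norm_eq_abs, Real.norm_eq_abs, mul_pow, mul_pow, sq_abs, sq_abs]
      simp only [conj_trivial]
      ring
    have e2 : (1 / 4) * ‖K.br (X + t • U) (Y + t • V)‖ ^ 2 - t ^ 2 * ((1 / 4) * ‖w1‖ ^ 2) =
        t ^ 3 * ((1 / 4) * (2 * inner ℝ w1 w2 + t * ‖w2‖ ^ 2)) := by
      rw [e1]; ring
    rw [e2, abs_mul, abs_of_pos (pow_pos ht 3), mul_comm]
    refine mul_le_mul_of_nonneg_right ?_ (pow_pos ht 3).le
    have i1 : |inner ℝ w1 w2| ≤ W * W :=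
      (abs_real_inner_le_norm _ _).trans (mul_le_mul hW1 hW2 (norm_nonneg _) hW0.le)
    have i2 : ‖w2‖ ^ 2 ≤ W ^ 2 := pow_le_pow_left₀ (norm_nonneg _) hW2 2
    have i3 : 0 ≤ ‖w2‖ ^ 2 := by positivity
    have i4 : t * ‖w2‖ ^ 2 ≤ W ^ 2 := by nlinarith
    have i5 : 0 ≤ t * ‖w2‖ ^ 2 := by positivity
    rw [abs_le] at i1 ⊢
    constructor
    · nlinarith only [i1.1, i4, i5, i3]
    · nlinarith only [i1.2, i4, i5, i3, mul_pos hW0 hW0]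
  set Φ : ℝ := K.ev p (K.D (X + t • U) (K.eta (S.h j) (Y + t • V) (Y + t • V) (X + t • U)))
      - K.ev p (K.D (Y + t • V) (K.eta (S.h j) (X + t • U) (Y + t • V) (X + t • U)))
      - K.ev p (K.eta (S.h j) (K.br (X + t • U) (Y + t • V)) (Y + t • V) (X + t • U)) with hΦ
  set q : ℝ := K.ev p (K.Q (S.h j) X Y) with hq
  set r1 : ℝ := K.ev p (K.R1 (S.h j) X Y Y U) with hr1
  set r2 : ℝ := K.ev p (K.R1 (S.h j) Y X X V) with hr2
  set nn : ℝ := K.num (K.met t (S.h j)) p (X + t • U) (Y + t • V) Vuu Vuv Vvu Vvv with hnn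
  have A1' : |t * (Φ - (q + t * (2 * r1 + 2 * r2)))| ≤
      (22 * Cη * N ^ 4 + 7 * Cη * W * N ^ 2) * t ^ 3 := by
    rw [abs_mul, abs_of_pos ht]
    calc _ ≤ t * ((22 * Cη * N ^ 4 + 7 * Cη * W * N ^ 2) * t ^ 2) :=
          mul_le_mul_of_nonneg_left A1 ht.le
      _ = _ := by ring
  have A3 : |t ^ 2 * ((inner ℝ Euv Evu - inner ℝ Evv Euu)
      - (inner ℝ EXY EXY - inner ℝ EXX EYY))| ≤ 30 * Cη ^ 2 * N ^ 4 * t ^ 3 := by
    rw [abs_mul, abs_of_pos (pow_pos ht 2)]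
    have k : |(inner ℝ Euv Evu - inner ℝ Evv Euu) - (inner ℝ EXY EXY - inner ℝ EXX EYY)| ≤
        30 * Cη ^ 2 * N ^ 4 * t := by
      have e : (Cη * N ^ 2 + 4 * (Cη * N ^ 2)) * (3 * Cη * N ^ 2 * t) =
          15 * Cη ^ 2 * N ^ 4 * t := by ring
      rw [e] at c1 c2
      have e2 : (inner ℝ Euv Evu - inner ℝ Evv Euu) - (inner ℝ EXY EXY - inner ℝ EXX EYY) =
          (inner ℝ Euv Evu - inner ℝ EXY EXY) - (inner ℝ Evv Euu - inner ℝ EXX EYY) := by ring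
      rw [e2]
      refine (abs_sub _ _).trans ((add_le_add c1 c2).trans (le_of_eq ?_))
      ring
    calc _ ≤ t ^ 2 * (30 * Cη ^ 2 * N ^ 4 * t) := mul_le_mul_of_nonneg_left k (pow_pos ht 2).le
      _ = _ := by ring
  rw [abs_le] at A0 A1' A2 A3 ⊢
  constructor <;> linarith [A0.1, A0.2, A1'.1, A1'.2, A2.1, A2.2, A3.1, A3.2]

end Pert

end Pool.Agent.H842R4
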