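import Pool.Agent.H842R4.Asm1
import Pool.Agent.H842R4.ExpB

/-!
Assembly, part 2: pointwise identity for the optimal tilt.
-/

open MeasureTheory Filter Topology

noncomputable section

namespace Pool.Agent.H842R4

variable {P 𝔤 : Type} [NormedAddCommGroup 𝔤] [InnerProductSpace ℝ 𝔤]

namespace TorusDatum

variable {K : Calc P 𝔤} (T : TorusDatum K) (h : 𝔤 →ₗ[ℝ] 𝔤 →ₗ[ℝ] K.𝒜)

/-- tilt vector of a root at `p` -/
def V (p : P) (a : T.ιR) : 𝔤 :=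
  (-4 * K.ev p (K.R1 h (T.W a) (T.B a) (T.B a) (T.Z1 a))) • T.Z1 a
    + (-4 * K.ev p (K.R1 h (T.W a) (T.B a) (T.B a) (T.Z2 a))) • T.Z2 a

/-- tilt of `X` -/
def UX (p : P) : 𝔤 := ∑ a, (T.s a : ℝ) • T.V h p a

/-- tilt of `Y` -/
def UY (p : P) : 𝔤 := ∑ a, (-(T.r a : ℝ)) • T.V h p a

lemma R1_add_left (A A' B C Z : 𝔤) : K.R1 h (A + A') B C Z = K.R1 h A B C Z + K.R1 h A' B C Z := by
  simp only [Calc.R1, map_add, LinearMap.add_apply, K.eta_add_left, K.eta_add_right]; module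

lemma R1_smul_left (c : ℝ) (A B C Z : 𝔤) : K.R1 h (c • A) B C Z = c • K.R1 h A B C Z := by
  simp only [Calc.R1, map_smul, LinearMap.smul_apply, K.eta_smul_left, K.eta_smul_right]; module

lemma R1_add_third (A B C C' Z : 𝔤) : K.R1 h A B (C + C') Z = K.R1 h A B C Z + K.R1 h A B C' Z := by
  simp only [Calc.R1, map_add, K.eta_add_mid]; module

lemma R1_smul_third (c : ℝ) (A B C Z : 𝔤) : K.R1 h A B (c • C) Z = c • K.R1 h A B C Z := by
  simp only [Calc.R1, map_smul, K.eta_smul_mid]; module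

lemma R1_add_second (A B B' C Z : 𝔤) : K.R1 h A (B + B') C Z = K.R1 h A B C Z + K.R1 h A B' C Z := by
  rw [K.R1_anti, R1_add_left, K.R1_anti h B, K.R1_anti h B']; abel

lemma R1_smul_second (c : ℝ) (A B C Z : 𝔤) : K.R1 h A (c • B) C Z = c • K.R1 h A B C Z := by
  rw [K.R1_anti, R1_smul_left, K.R1_anti h B]; module

lemma R1_self (A C Z : 𝔤) : K.R1 h A A C Z = 0 := by
  simp only [Calc.R1]; abel

lemma R1_WBB (a : T.ιR) (Z : 𝔤) :
    K.R1 h (T.W a) (T.B a) (T.B a) Z =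
      (T.s a : ℝ) • K.R1 h T.X T.Y T.Y Z - (T.r a : ℝ) • K.R1 h T.Y T.X T.X Z := by
  have hu := T.unim' a
  have h1 : K.R1 h T.Y T.X T.Y Z = - K.R1 h T.X T.Y T.Y Z := K.R1_anti h _ _ _ _
  have h2 : K.R1 h T.X T.Y T.X Z = - K.R1 h T.Y T.X T.X Z := K.R1_anti h _ _ _ _
  simp only [TorusDatum.W, TorusDatum.B, R1_add_left, R1_smul_left, R1_add_second, R1_smul_second,
    R1_add_third, R1_smul_third, R1_self, h1, h2, smul_zero, smul_smul, smul_add, smul_neg]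
  have e : ∀ u v : K.𝒜, (T.s a : ℝ) • u - (T.r a : ℝ) • v =
    ((T.s a : ℝ) * (T.r a * T.m a + T.s a * T.n a)) • u -
      ((T.r a : ℝ) * (T.r a * T.m a + T.s a * T.n a)) • v := by
    intro u v
    rw [hu, mul_one, mul_one]
  rw [e]
  module

/-- `br X UY + br UX Y = ∑ [V, B]` -/
lemma br_tilt (p : P) : K.br T.X (T.UY h p) + K.br (T.UX h p) T.Y =
    ∑ a, ((4 * K.ev p (K.R1 h (T.W a) (T.B a) (T.B a) (T.Z1 a))) • T.Z2 a
      + (-4 * K.ev p (K.R1 h (T.W a) (T.B a) (T.B a) (T.Z2 a))) • T.Z1 a) := by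
  rw [K.br_anti (T.UX h p) T.Y, UX, UY, map_sum, map_sum, ← Finset.sum_neg_distrib,
    ← Finset.sum_add_distrib]
  refine Finset.sum_congr rfl fun a _ => ?_
  have h1 := T.brB1 a
  have h2 := T.brB2 a
  have h3 : K.br (T.B a) (T.V h p a) =
      (-4 * K.ev p (K.R1 h (T.W a) (T.B a) (T.B a) (T.Z1 a))) • T.Z2 a
    + (-4 * K.ev p (K.R1 h (T.W a) (T.B a) (T.B a) (T.Z2 a))) • (- T.Z1 a) := by
    rw [V, map_add, map_smul, map_smul, h1, h2]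
  have h4 : K.br T.X ((-(T.r a : ℝ)) • T.V h p a) + - K.br T.Y ((T.s a : ℝ) • T.V h p a) =
      - K.br (T.B a) (T.V h p a) := by
    rw [TorusDatum.B, map_add, LinearMap.add_apply, map_smul, map_smul, map_smul, map_smul]
    simp only [LinearMap.smul_apply]
    module
  rw [h4, h3]
  module

lemma norm_tilt (p : P) : ‖K.br T.X (T.UY h p) + K.br (T.UX h p) T.Y‖ ^ 2 =
    ∑ a, 16 * (K.ev p (K.R1 h (T.W a) (T.B a) (T.B a) (T.Z1 a)) ^ 2
      + K.ev p (K.R1 h (T.W a) (T.B a) (T.B a) (T.Z2 a)) ^ 2) := by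
  classical
  rw [T.br_tilt h p]
  set c : T.ιR ⊕ T.ιR → ℝ := Sum.elim
    (fun a => -4 * K.ev p (K.R1 h (T.W a) (T.B a) (T.B a) (T.Z2 a)))
    (fun a => 4 * K.ev p (K.R1 h (T.W a) (T.B a) (T.B a) (T.Z1 a))) with hc
  have h1 : ∑ a, ((4 * K.ev p (K.R1 h (T.W a) (T.B a) (T.B a) (T.Z1 a))) • T.Z2 a
      + (-4 * K.ev p (K.R1 h (T.W a) (T.B a) (T.B a) (T.Z2 a))) • T.Z1 a) =
      ∑ x, c x • (Sum.elim T.Z1 T.Z2 : T.ιR ⊕ T.ιR → 𝔤) x := by
    rw [Fintype.sum_sum_type, ← Finset.sum_add_distrib]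
    refine Finset.sum_congr rfl fun a _ => ?_
    simp only [hc, Sum.elim_inl, Sum.elim_inr]
    rw [add_comm]
  rw [h1, ← real_inner_self_eq_norm_sq, T.orth.inner_sum]
  rw [Fintype.sum_sum_type, ← Finset.sum_add_distrib]
  refine Finset.sum_congr rfl fun a _ => ?_
  simp only [hc, Sum.elim_inl, Sum.elim_inr, conj_trivial]
  ring

lemma R1_tilt (p : P) : 2 * K.ev p (K.R1 h T.X T.Y T.Y (T.UX h p))
    + 2 * K.ev p (K.R1 h T.Y T.X T.X (T.UY h p)) =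
    ∑ a, -8 * (K.ev p (K.R1 h (T.W a) (T.B a) (T.B a) (T.Z1 a)) ^ 2
      + K.ev p (K.R1 h (T.W a) (T.B a) (T.B a) (T.Z2 a)) ^ 2) := by
  have h1 : K.R1 h T.X T.Y T.Y (T.UX h p) = ∑ a, (T.s a : ℝ) • K.R1 h T.X T.Y T.Y (T.V h p a) := by
    have := map_sum (K.R1L h T.X T.Y T.Y) (fun a => (T.s a : ℝ) • T.V h p a) Finset.univ
    simp only [map_smul] at this
    exact this
  have h2 : K.R1 h T.Y T.X T.X (T.UY h p) =
      ∑ a, (-(T.r a : ℝ)) • K.R1 h T.Y T.X T.X (T.V h p a) := by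
    have := map_sum (K.R1L h T.Y T.X T.X) (fun a => (-(T.r a : ℝ)) • T.V h p a) Finset.univ
    simp only [map_smul] at this
    exact this
  rw [h1, h2, map_sum, map_sum, Finset.mul_sum, Finset.mul_sum, ← Finset.sum_add_distrib]
  refine Finset.sum_congr rfl fun a _ => ?_
  have h3 := congrArg (K.ev p) (T.R1_WBB h a (T.V h p a))
  have h4 : K.R1 h (T.W a) (T.B a) (T.B a) (T.V h p a) =
    (-4 * K.ev p (K.R1 h (T.W a) (T.B a) (T.B a) (T.Z1 a))) •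
        K.R1 h (T.W a) (T.B a) (T.B a) (T.Z1 a)
      + (-4 * K.ev p (K.R1 h (T.W a) (T.B a) (T.B a) (T.Z2 a))) •
        K.R1 h (T.W a) (T.B a) (T.B a) (T.Z2 a) := by
    rw [V, K.R1_add_right, K.R1_smul_right, K.R1_smul_right]
  rw [h4] at h3
  simp only [map_add, map_sub, map_smul, smul_eq_mul] at h3 ⊢
  linear_combination (-2 : ℝ) * h3

lemma det_inv (hs : ∀ A B, h A B = h B A) (a : T.ιR) (Z : 𝔤) :
    K.eta h (T.B a) (T.W a) Z ^ 2 - K.eta h (T.B a) (T.B a) Z * K.eta h (T.W a) (T.W a) Z =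
      K.eta h T.X T.Y Z ^ 2 - K.eta h T.X T.X Z * K.eta h T.Y T.Y Z := by
  have hu := T.unim' a
  have hc : K.eta h T.Y T.X Z = K.eta h T.X T.Y Z :=
    (K.eta_comm_of h T.X T.Y Z hs T.brXY).symm
  have e1 : ∀ (c : ℝ) (f : K.𝒜), c • f = algebraMap ℝ K.𝒜 c * f := fun c f => Algebra.smul_def c f
  have hu' : algebraMap ℝ K.𝒜 (T.r a) * algebraMap ℝ K.𝒜 (T.m a)
      + algebraMap ℝ K.𝒜 (T.s a) * algebraMap ℝ K.𝒜 (T.n a) = 1 := by
    rw [← map_mul, ← map_mul, ← map_add, hu, map_one]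
  simp only [TorusDatum.B, TorusDatum.W, K.eta_add_left, K.eta_add_mid, K.eta_smul_left,
    K.eta_smul_mid, hc, e1, map_neg]
  generalize algebraMap ℝ K.𝒜 (T.r a) = r at *
  generalize algebraMap ℝ K.𝒜 (T.s a) = s at *
  generalize algebraMap ℝ K.𝒜 (T.m a) = m at *
  generalize algebraMap ℝ K.𝒜 (T.n a) = n at *
  generalize K.eta h T.X T.Y Z = y
  generalize K.eta h T.X T.X Z = x
  generalize K.eta h T.Y T.Y Z = z
  linear_combination ((y ^ 2 - x * z) * (r * m + s * n + 1)) * hu'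

/-- the second order term of the optimal tilt is `F` -/
theorem tilt_identity (hs : ∀ A B, h A B = h B A) (p : P) (EXX EXY EYY : 𝔤)
    (h1 : K.IsEta h p T.X T.X EXX) (h2 : K.IsEta h p T.X T.Y EXY) (h3 : K.IsEta h p T.Y T.Y EYY) :
    inner ℝ EXY EXY - inner ℝ EXX EYY + 2 * K.ev p (K.R1 h T.X T.Y T.Y (T.UX h p))
      + 2 * K.ev p (K.R1 h T.Y T.X T.X (T.UY h p))
      + (1 / 4) * ‖K.br T.X (T.UY h p) + K.br (T.UX h p) T.Y‖ ^ 2 = K.ev p (T.F h) := by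
  have e1 := T.R1_tilt h p
  have e2 := T.norm_tilt h p
  have e3 := T.parseval EXY EXY
  have e4 := T.parseval EXX EYY
  have d1 : ∀ a, K.ev p (T.F2 h a) =
      (K.ev p (K.eta h T.X T.Y (T.Z1 a)) ^ 2
        - K.ev p (K.eta h T.X T.X (T.Z1 a)) * K.ev p (K.eta h T.Y T.Y (T.Z1 a)))
      + (K.ev p (K.eta h T.X T.Y (T.Z2 a)) ^ 2
        - K.ev p (K.eta h T.X T.X (T.Z2 a)) * K.ev p (K.eta h T.Y T.Y (T.Z2 a)))
      - 4 * (K.ev p (K.R1 h (T.W a) (T.B a) (T.B a) (T.Z1 a)) ^ 2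
      + K.ev p (K.R1 h (T.W a) (T.B a) (T.B a) (T.Z2 a)) ^ 2) := by
    intro a
    have f1 := congrArg (K.ev p) (T.det_inv h hs a (T.Z1 a))
    have f2 := congrArg (K.ev p) (T.det_inv h hs a (T.Z2 a))
    simp only [map_sub, map_mul, map_pow] at f1 f2
    simp only [F2, map_sub, map_add, map_mul, map_pow, map_smul, smul_eq_mul]
    linear_combination f1 + f2
  have d2 : ∀ i, K.ev p (T.w i • T.F1 h i) = T.w i * (K.ev p (K.eta h T.X T.Y (T.C i)) ^ 2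
        - K.ev p (K.eta h T.X T.X (T.C i)) * K.ev p (K.eta h T.Y T.Y (T.C i))) := by
    intro i
    simp only [F1, map_sub, map_mul, map_pow, map_smul, smul_eq_mul]
  have d0 : K.ev p (T.F h) = K.ev p (T.F0 h)
      + ∑ i, T.w i * (K.ev p (K.eta h T.X T.Y (T.C i)) ^ 2
        - K.ev p (K.eta h T.X T.X (T.C i)) * K.ev p (K.eta h T.Y T.Y (T.C i)))
      + ∑ a, ((K.ev p (K.eta h T.X T.Y (T.Z1 a)) ^ 2
        - K.ev p (K.eta h T.X T.X (T.Z1 a)) * K.ev p (K.eta h T.Y T.Y (T.Z1 a)))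
      + (K.ev p (K.eta h T.X T.Y (T.Z2 a)) ^ 2
        - K.ev p (K.eta h T.X T.X (T.Z2 a)) * K.ev p (K.eta h T.Y T.Y (T.Z2 a)))
      - 4 * (K.ev p (K.R1 h (T.W a) (T.B a) (T.B a) (T.Z1 a)) ^ 2
      + K.ev p (K.R1 h (T.W a) (T.B a) (T.B a) (T.Z2 a)) ^ 2)) := by
    simp only [F, map_add, map_sum, d1, d2]
  rw [add_assoc (inner ℝ EXY EXY - inner ℝ EXX EYY), e1, e2, d0, e3, e4]
  have h1' : ∀ C, inner ℝ EXX C = K.ev p (K.eta h T.X T.X C) := h1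
  have h2' : ∀ C, inner ℝ EXY C = K.ev p (K.eta h T.X T.Y C) := h2
  have h3' : ∀ C, inner ℝ EYY C = K.ev p (K.eta h T.Y T.Y C) := h3
  have g1 : ∑ i, T.w i * (K.ev p (K.eta h T.X T.Y (T.C i)) ^ 2
        - K.ev p (K.eta h T.X T.X (T.C i)) * K.ev p (K.eta h T.Y T.Y (T.C i))) =
      ∑ i, T.w i * (inner ℝ EXY (T.C i) * inner ℝ EXY (T.C i))
      - ∑ i, T.w i * (inner ℝ EXX (T.C i) * inner ℝ EYY (T.C i)) := by
    rw [← Finset.sum_sub_distrib]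
    refine Finset.sum_congr rfl fun i _ => ?_
    rw [h1', h2', h3']
    ring
  have g2 : ∑ a, ((K.ev p (K.eta h T.X T.Y (T.Z1 a)) ^ 2
        - K.ev p (K.eta h T.X T.X (T.Z1 a)) * K.ev p (K.eta h T.Y T.Y (T.Z1 a)))
      + (K.ev p (K.eta h T.X T.Y (T.Z2 a)) ^ 2
        - K.ev p (K.eta h T.X T.X (T.Z2 a)) * K.ev p (K.eta h T.Y T.Y (T.Z2 a)))
      - 4 * (K.ev p (K.R1 h (T.W a) (T.B a) (T.B a) (T.Z1 a)) ^ 2
      + K.ev p (K.R1 h (T.W a) (T.B a) (T.B a) (T.Z2 a)) ^ 2)) =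
      ∑ a, (inner ℝ EXY (T.Z1 a) * inner ℝ EXY (T.Z1 a)
        + inner ℝ EXY (T.Z2 a) * inner ℝ EXY (T.Z2 a))
      - ∑ a, (inner ℝ EXX (T.Z1 a) * inner ℝ EYY (T.Z1 a)
        + inner ℝ EXX (T.Z2 a) * inner ℝ EYY (T.Z2 a))
      + ∑ a, -8 * (K.ev p (K.R1 h (T.W a) (T.B a) (T.B a) (T.Z1 a)) ^ 2
      + K.ev p (K.R1 h (T.W a) (T.B a) (T.B a) (T.Z2 a)) ^ 2)
      + (1 / 4) * ∑ a, 16 * (K.ev p (K.R1 h (T.W a) (T.B a) (T.B a) (T.Z1 a)) ^ 2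
      + K.ev p (K.R1 h (T.W a) (T.B a) (T.B a) (T.Z2 a)) ^ 2) := by
    rw [Finset.mul_sum, ← Finset.sum_sub_distrib, ← Finset.sum_add_distrib,
      ← Finset.sum_add_distrib]
    refine Finset.sum_congr rfl fun a _ => ?_
    rw [h1', h2', h3', h1', h2', h3']
    ring
  rw [g1, g2, F0]
  simp only [h1', h2', h3', map_add, map_sub, map_mul, map_pow, map_smul, smul_eq_mul]
  ring

end TorusDatum

end Pool.Agent.H842R4
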