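import Pool.Agent.H842R4.Asm2

/-!
Assembly, part 3: the contradiction.
-/

open MeasureTheory Filter Topology

noncomputable section

namespace Pool.Agent.H842R4

variable {P 𝔤 : Type} [NormedAddCommGroup 𝔤] [InnerProductSpace ℝ 𝔤]

lemma gram_pos {X Y : 𝔤} (hi : LinearIndependent ℝ ![X, Y]) :
    0 < ‖X‖ ^ 2 * ‖Y‖ ^ 2 - inner ℝ X Y ^ 2 := by
  have hp := LinearIndependent.pair_iff.1 hi
  have hY : Y ≠ 0 := by
    rintro rfl
    have := hp 0 1 (by simp)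
    exact one_ne_zero this.2
  have hY2 : 0 < ‖Y‖ ^ 2 := by positivity
  have hv : ‖Y‖ ^ 2 • X + (-(inner ℝ X Y : ℝ)) • Y ≠ 0 := by
    intro h0
    have := (hp _ _ h0).1
    exact hY2.ne' this
  have h1 : 0 < ‖‖Y‖ ^ 2 • X + (-(inner ℝ X Y : ℝ)) • Y‖ ^ 2 := by
    have := norm_pos_iff.2 hv
    positivity
  have h2 : ‖‖Y‖ ^ 2 • X + (-(inner ℝ X Y : ℝ)) • Y‖ ^ 2 =
      ‖Y‖ ^ 2 * (‖X‖ ^ 2 * ‖Y‖ ^ 2 - inner ℝ X Y ^ 2) := by
    rw [← real_inner_self_eq_norm_sq]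
    simp only [inner_add_left, inner_add_right, real_inner_smul_left, real_inner_smul_right,
      real_inner_comm X Y]
    rw [real_inner_self_eq_norm_sq X, real_inner_self_eq_norm_sq Y]
    ring
  rw [h2] at h1
  exact (pos_iff_pos_of_mul_pos h1).1 hY2

namespace Pert

variable {K : Calc P 𝔤} (S : Pert K)

lemma ev_met (j : ℕ) (p : P) (u v : 𝔤) :
    K.ev p (K.met (S.t j) (S.h j) u v) = inner ℝ u v + S.t j * K.ev p (S.h j u v) := by
  simp only [Calc.met, LinearMap.add_apply, LinearMap.smul_apply, map_add, map_smul, smul_eq_mul,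
    Calc.base_apply, AlgHom.commutes]
  rfl

lemma ev_h_le (j : ℕ) (p : P) (u v : 𝔤) : |K.ev p (S.h j u v)| ≤ ‖u‖ * ‖v‖ := by
  have := S.bound j [] (by simp) u v p
  simpa [Calc.Dl] using this

lemma indep_of_gram (j : ℕ) (p : P) (u v : 𝔤)
    (hg : 0 < K.gram (K.met (S.t j) (S.h j)) p u v) : LinearIndependent ℝ ![u, v] := by
  rw [LinearIndependent.pair_iff]
  intro a b hab
  have hs : K.ev p (K.met (S.t j) (S.h j) v u) = K.ev p (K.met (S.t j) (S.h j) u v) := by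
    rw [ev_met, ev_met, S.symm, real_inner_comm]
  have h1 : a * K.ev p (K.met (S.t j) (S.h j) u u) + b * K.ev p (K.met (S.t j) (S.h j) u v) = 0 := by
    have : K.ev p (K.met (S.t j) (S.h j) u (a • u + b • v)) = 0 := by rw [hab]; simp
    simpa using this
  have h2 : a * K.ev p (K.met (S.t j) (S.h j) u v) + b * K.ev p (K.met (S.t j) (S.h j) v v) = 0 := by
    have : K.ev p (K.met (S.t j) (S.h j) v (a • u + b • v)) = 0 := by rw [hab]; simp
    simpa [hs] using this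
  simp only [Calc.gram] at hg
  generalize K.ev p (K.met (S.t j) (S.h j) u u) = x at *
  generalize K.ev p (K.met (S.t j) (S.h j) u v) = y at *
  generalize K.ev p (K.met (S.t j) (S.h j) v v) = z at *
  constructor
  · have : a * (x * z - y ^ 2) = 0 := by linear_combination z * h1 - y * h2
    exact (mul_eq_zero.1 this).resolve_right hg.ne'
  · have : b * (x * z - y ^ 2) = 0 := by linear_combination x * h2 - y * h1
    exact (mul_eq_zero.1 this).resolve_right hg.ne'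

lemma ev_met_close (j : ℕ) (p : P) (X Y U V : 𝔤) (R : ℝ) (hX : ‖X‖ ≤ R) (hY : ‖Y‖ ≤ R)
    (hU : ‖U‖ ≤ R) (hV : ‖V‖ ≤ R) (ht : S.t j ≤ 1) :
    |K.ev p (K.met (S.t j) (S.h j) (X + S.t j • U) (Y + S.t j • V)) - inner ℝ X Y| ≤
      7 * R ^ 2 * S.t j := by
  have t0 := S.t_pos j
  have hR : 0 ≤ R := (norm_nonneg _).trans hX
  rw [ev_met]
  have hu : ‖X + S.t j • U‖ ≤ 2 * R := by
    refine (norm_add_le _ _).trans ?_
    rw [norm_smul, Real.norm_of_nonneg t0.le]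
    nlinarith [norm_nonneg U]
  have hv : ‖Y + S.t j • V‖ ≤ 2 * R := by
    refine (norm_add_le _ _).trans ?_
    rw [norm_smul, Real.norm_of_nonneg t0.le]
    nlinarith [norm_nonneg V]
  have e1 : |K.ev p (S.h j (X + S.t j • U) (Y + S.t j • V))| ≤ 4 * R ^ 2 := by
    refine (S.ev_h_le j p _ _).trans ?_
    calc _ ≤ (2 * R) * (2 * R) := mul_le_mul hu hv (norm_nonneg _) (by positivity)
      _ = 4 * R ^ 2 := by ring
  have e2 : |(inner ℝ X V : ℝ)| ≤ R ^ 2 := (abs_real_inner_le_norm _ _).trans (by nlinarith [norm_nonneg X, norm_nonneg V])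
  have e3 : |(inner ℝ U Y : ℝ)| ≤ R ^ 2 := (abs_real_inner_le_norm _ _).trans (by nlinarith [norm_nonneg U, norm_nonneg Y])
  have e4 : |(inner ℝ U V : ℝ)| ≤ R ^ 2 := (abs_real_inner_le_norm _ _).trans (by nlinarith [norm_nonneg U, norm_nonneg V])
  simp only [inner_add_left, inner_add_right, real_inner_smul_left, real_inner_smul_right]
  rw [abs_le] at e1 e2 e3 e4 ⊢
  generalize K.ev p (S.h j (X + S.t j • U) (Y + S.t j • V)) = a at *
  generalize (inner ℝ X V : ℝ) = b at *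
  generalize (inner ℝ U Y : ℝ) = c at *
  generalize (inner ℝ U V : ℝ) = d at *
  generalize S.t j = t at *
  have hR2 : 0 ≤ R ^ 2 := sq_nonneg R
  have f1 : t * a ≤ t * (4 * R ^ 2) := mul_le_mul_of_nonneg_left e1.2 t0.le
  have f1' : t * (-(4 * R ^ 2)) ≤ t * a := mul_le_mul_of_nonneg_left e1.1 t0.le
  have f2 : t * b ≤ t * (R ^ 2) := mul_le_mul_of_nonneg_left e2.2 t0.le
  have f2' : t * (-(R ^ 2)) ≤ t * b := mul_le_mul_of_nonneg_left e2.1 t0.le
  have f3 : t * c ≤ t * (R ^ 2) := mul_le_mul_of_nonneg_left e3.2 t0.le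
  have f3' : t * (-(R ^ 2)) ≤ t * c := mul_le_mul_of_nonneg_left e3.1 t0.le
  have tt : t * t ≤ t := by nlinarith
  have f4 : t * (t * d) ≤ t * (R ^ 2) := by
    have g1 : t * d ≤ t * R ^ 2 := mul_le_mul_of_nonneg_left e4.2 t0.le
    have g2 : t * (t * d) ≤ t * (t * R ^ 2) := mul_le_mul_of_nonneg_left g1 t0.le
    nlinarith [mul_le_mul_of_nonneg_right tt hR2]
  have f4' : t * (-(R ^ 2)) ≤ t * (t * d) := by
    have g1 : t * (-(R ^ 2)) ≤ t * d := mul_le_mul_of_nonneg_left e4.1 t0.le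
    have g2 : t * (t * (-(R ^ 2))) ≤ t * (t * d) := mul_le_mul_of_nonneg_left g1 t0.le
    nlinarith [mul_le_mul_of_nonneg_right tt hR2]
  constructor <;> nlinarith

lemma gram_low (X Y : 𝔤) (hi : LinearIndependent ℝ ![X, Y]) (M : ℝ) :
    ∀ᶠ j in atTop, ∀ p U V, ‖U‖ ≤ M → ‖V‖ ≤ M →
      (‖X‖ ^ 2 * ‖Y‖ ^ 2 - inner ℝ X Y ^ 2) / 2 ≤
        K.gram (K.met (S.t j) (S.h j)) p (X + S.t j • U) (Y + S.t j • V) := by
  set R : ℝ := ‖X‖ + ‖Y‖ + |M| + 1 with hR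
  have hR1 : 1 ≤ R := by
    have := norm_nonneg X; have := norm_nonneg Y; have := abs_nonneg M; linarith
  have hg := gram_pos hi
  set g0 := ‖X‖ ^ 2 * ‖Y‖ ^ 2 - inner ℝ X Y ^ 2 with hg0
  have h1 : ∀ᶠ j in atTop, S.t j < min 1 (g0 / (400 * R ^ 4)) :=
    (tendsto_order.1 S.t_lim).2 _ (by positivity)
  filter_upwards [h1] with j hj p U V hU hV
  have t0 := S.t_pos j
  have ht1 : S.t j ≤ 1 := (hj.trans_le (min_le_left _ _)).le
  have ht2 : S.t j < g0 / (400 * R ^ 4) := hj.trans_le (min_le_right _ _)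
  have hXR : ‖X‖ ≤ R := by
    have := norm_nonneg Y; have := abs_nonneg M; linarith
  have hYR : ‖Y‖ ≤ R := by
    have := norm_nonneg X; have := abs_nonneg M; linarith
  have hUR : ‖U‖ ≤ R := by
    have := norm_nonneg X; have := norm_nonneg Y; have := le_abs_self M; linarith
  have hVR : ‖V‖ ≤ R := by
    have := norm_nonneg X; have := norm_nonneg Y; have := le_abs_self M; linarith
  have a1 := S.ev_met_close j p X X U U R hXR hXR hUR hUR ht1
  have a2 := S.ev_met_close j p X Y U V R hXR hYR hUR hVR ht1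
  have a3 := S.ev_met_close j p Y Y V V R hYR hYR hVR hVR ht1
  rw [real_inner_self_eq_norm_sq] at a1 a3
  have b1 : ‖X‖ ^ 2 ≤ R ^ 2 := pow_le_pow_left₀ (norm_nonneg _) hXR 2
  have b3 : ‖Y‖ ^ 2 ≤ R ^ 2 := pow_le_pow_left₀ (norm_nonneg _) hYR 2
  have b2 : |(inner ℝ X Y : ℝ)| ≤ R ^ 2 :=
    (abs_real_inner_le_norm _ _).trans (by nlinarith [norm_nonneg X, norm_nonneg Y])
  have b1' : 0 ≤ ‖X‖ ^ 2 := sq_nonneg _
  have b3' : 0 ≤ ‖Y‖ ^ 2 := sq_nonneg _
  rw [lt_div_iff₀ (by positivity)] at ht2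
  simp only [Calc.gram]
  generalize K.ev p (K.met (S.t j) (S.h j) (X + S.t j • U) (X + S.t j • U)) = x at *
  generalize K.ev p (K.met (S.t j) (S.h j) (X + S.t j • U) (Y + S.t j • V)) = y at *
  generalize K.ev p (K.met (S.t j) (S.h j) (Y + S.t j • V) (Y + S.t j • V)) = z at *
  generalize ‖X‖ ^ 2 = x0 at *
  generalize ‖Y‖ ^ 2 = z0 at *
  generalize (inner ℝ X Y : ℝ) = y0 at *
  generalize S.t j = t at *
  set δ := 7 * R ^ 2 * t with hδ
  have hR2 : 1 ≤ R ^ 2 := one_le_pow₀ hR1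
  have hδ0 : 0 ≤ δ := by positivity
  have hδ7 : δ ≤ 7 * R ^ 2 := by
    rw [hδ]
    have : 7 * R ^ 2 * t ≤ 7 * R ^ 2 * 1 := mul_le_mul_of_nonneg_left ht1 (by positivity)
    linarith
  -- write `x = x0 + α` etc.
  obtain ⟨α, rfl⟩ : ∃ α, x = x0 + α := ⟨x - x0, by ring⟩
  obtain ⟨β, rfl⟩ : ∃ β, y = y0 + β := ⟨y - y0, by ring⟩
  obtain ⟨γ, rfl⟩ : ∃ γ, z = z0 + γ := ⟨z - z0, by ring⟩
  simp only [add_sub_cancel_left] at a1 a2 a3
  have c1 : |x0 * γ| ≤ R ^ 2 * δ := by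
    rw [abs_mul, abs_of_nonneg b1']
    exact mul_le_mul b1 a3 (abs_nonneg _) (by positivity)
  have c2 : |z0 * α| ≤ R ^ 2 * δ := by
    rw [abs_mul, abs_of_nonneg b3']
    exact mul_le_mul b3 a1 (abs_nonneg _) (by positivity)
  have c3 : |α * γ| ≤ δ * δ := by
    rw [abs_mul]
    exact mul_le_mul a1 a3 (abs_nonneg _) hδ0
  have c4 : |y0 * β| ≤ R ^ 2 * δ := by
    rw [abs_mul]
    exact mul_le_mul b2 a2 (abs_nonneg _) (by positivity)
  have c5 : |β * β| ≤ δ * δ := by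
    rw [abs_mul]
    exact mul_le_mul a2 a2 (abs_nonneg _) hδ0
  have c6 : δ * δ ≤ 7 * R ^ 2 * δ := mul_le_mul_of_nonneg_right hδ7 hδ0
  have c7 : R ^ 2 * δ * 18 ≤ g0 / 2 := by
    have e : R ^ 2 * δ * 18 = 126 * (t * R ^ 4) := by rw [hδ]; ring
    have e' : t * (400 * R ^ 4) = 400 * (t * R ^ 4) := by ring
    have e0 : 0 ≤ t * R ^ 4 := by positivity
    rw [e]
    rw [e'] at ht2
    linarith
  have d1 := (abs_le.1 c1).1
  have d2 := (abs_le.1 c2).1
  have d3 := (abs_le.1 c3).1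
  have d4 := (abs_le.1 c4).2
  have d5 := (abs_le.1 c5).2
  have hgg : g0 = x0 * z0 - y0 ^ 2 := hg0
  have e : (x0 + α) * (z0 + γ) - (y0 + β) ^ 2 =
      g0 + x0 * γ + z0 * α + α * γ - 2 * (y0 * β) - β * β := by rw [hgg]; ring
  rw [e]
  clear_value δ
  linarith

end Pert

end Pool.Agent.H842R4
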