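import Pool.Agent.H842R4.Asm3

/-!
Assembly, part 4: the contradiction.
-/

open MeasureTheory Filter Topology

noncomputable section

namespace Pool.Agent.H842R4

variable {P 𝔤 : Type} [NormedAddCommGroup 𝔤] [InnerProductSpace ℝ 𝔤] [FiniteDimensional ℝ 𝔤]

namespace Pert

variable {K : Calc P 𝔤} (S : Pert K) (T : TorusDatum K)

lemma exists_tilt_bound : ∃ M : ℝ, ∀ j p, ‖T.UX (S.h j) p‖ ≤ M ∧ ‖T.UY (S.h j) p‖ ≤ M := by
  obtain ⟨C, hC, hb⟩ := S.R1_bound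
  have h1 : ∀ j p a Z, |K.ev p (K.R1 (S.h j) (T.W a) (T.B a) (T.B a) Z)| ≤
      C * ‖T.W a‖ * ‖T.B a‖ * ‖T.B a‖ * ‖Z‖ := by
    intro j p a Z
    have := hb j [] (by simp) (T.W a) (T.B a) (T.B a) Z p
    simpa [Calc.Dl] using this
  set D : T.ιR → ℝ := fun a => 4 * (C * ‖T.W a‖ * ‖T.B a‖ * ‖T.B a‖ * ‖T.Z1 a‖) * ‖T.Z1 a‖
    + 4 * (C * ‖T.W a‖ * ‖T.B a‖ * ‖T.B a‖ * ‖T.Z2 a‖) * ‖T.Z2 a‖ with hD
  have h2 : ∀ j p a, ‖T.V (S.h j) p a‖ ≤ D a := by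
    intro j p a
    refine (norm_add_le _ _).trans ?_
    rw [norm_smul, norm_smul, Real.norm_eq_abs, Real.norm_eq_abs, abs_mul, abs_mul]
    have e : |(-4 : ℝ)| = 4 := by norm_num
    rw [e]
    have a1 := h1 j p a (T.Z1 a)
    have a2 := h1 j p a (T.Z2 a)
    exact add_le_add (mul_le_mul_of_nonneg_right (by linarith) (norm_nonneg _))
      (mul_le_mul_of_nonneg_right (by linarith) (norm_nonneg _))
  have hD0 : ∀ a, 0 ≤ D a := fun a => by positivity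
  refine ⟨∑ a, (|(T.s a : ℝ)| + |(T.r a : ℝ)|) * D a, fun j p => ⟨?_, ?_⟩⟩
  · refine (norm_sum_le _ _).trans (Finset.sum_le_sum fun a _ => ?_)
    rw [norm_smul, Real.norm_eq_abs]
    exact mul_le_mul (by linarith [abs_nonneg (T.r a : ℝ)]) (h2 j p a) (norm_nonneg _)
      (by positivity)
  · refine (norm_sum_le _ _).trans (Finset.sum_le_sum fun a _ => ?_)
    rw [norm_smul, Real.norm_eq_abs, abs_neg]
    exact mul_le_mul (by linarith [abs_nonneg (T.s a : ℝ)]) (h2 j p a) (norm_nonneg _)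
      (by positivity)

omit [FiniteDimensional ℝ 𝔤] in
lemma Av_Q (h : 𝔤 →ₗ[ℝ] 𝔤 →ₗ[ℝ] K.𝒜) : K.Av T.X (K.Av T.Y (K.Q h T.X T.Y)) = 0 := by
  have h1 := K.Av_Av_D T.X T.Y T.brXY T.clX T.clY 1 0 (K.eta h T.Y T.Y T.X)
  have h2 := K.Av_Av_D T.X T.Y T.brXY T.clX T.clY 0 1 (K.eta h T.X T.Y T.X)
  simp only [one_smul, zero_smul, add_zero, zero_add] at h1 h2
  rw [Calc.Q, map_sub, map_sub, h1, h2, sub_zero]

/-- the pointwise inequality -/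
lemma pt_ineq : ∃ C : ℝ, 0 < C ∧ ∀ᶠ j in atTop, ∀ p,
    S.ε * S.t j ^ 2 * ((‖T.X‖ ^ 2 * ‖T.Y‖ ^ 2 - inner ℝ T.X T.Y ^ 2) / 2) ≤
      S.t j * K.ev p (K.Q (S.h j) T.X T.Y) + S.t j ^ 2 * K.ev p (T.F (S.h j)) + C * S.t j ^ 3 := by
  obtain ⟨M, hM⟩ := S.exists_tilt_bound T
  obtain ⟨C, hC, hE⟩ := S.num_expB T.X T.Y T.brXY M
  have hG := S.gram_low T.X T.Y T.ind M
  have hN := S.exists_nabla
  have hg := gram_pos T.ind
  refine ⟨C, hC, ?_⟩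
  filter_upwards [hE, hG, hN] with j h1 h2 h3 p
  have hU := (hM j p).1
  have hV := (hM j p).2
  set U := T.UX (S.h j) p with hUd
  set V := T.UY (S.h j) p with hVd
  obtain ⟨Vuu, a1⟩ := h3 p (T.X + S.t j • U) (T.X + S.t j • U)
  obtain ⟨Vuv, a2⟩ := h3 p (T.X + S.t j • U) (T.Y + S.t j • V)
  obtain ⟨Vvu, a3⟩ := h3 p (T.Y + S.t j • V) (T.X + S.t j • U)
  obtain ⟨Vvv, a4⟩ := h3 p (T.Y + S.t j • V) (T.Y + S.t j • V)
  obtain ⟨EXX, b1⟩ := K.exists_eta (S.h j) p T.X T.X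
  obtain ⟨EXY, b2⟩ := K.exists_eta (S.h j) p T.X T.Y
  obtain ⟨EYY, b3⟩ := K.exists_eta (S.h j) p T.Y T.Y
  have c1 := h1 p U V hU hV Vuu Vuv Vvu Vvv EXX EXY EYY a1 a2 a3 a4 b1 b2 b3
  have c2 := h2 p U V hU hV
  have hi := S.indep_of_gram j p _ _ (lt_of_lt_of_le (by linarith) c2)
  have c3 := S.pos j p _ _ hi Vuu Vuv Vvu Vvv a1 a2 a3 a4
  have c4 := T.tilt_identity (S.h j) (S.symm j) p EXX EXY EYY b1 b2 b3
  have c5 := (abs_le.1 c1).2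
  have c6 : S.ε * S.t j ^ 2 * ((‖T.X‖ ^ 2 * ‖T.Y‖ ^ 2 - inner ℝ T.X T.Y ^ 2) / 2) ≤
      S.ε * S.t j ^ 2 * K.gram (K.met (S.t j) (S.h j)) p (T.X + S.t j • U) (T.Y + S.t j • V) :=
    mul_le_mul_of_nonneg_left c2 (mul_nonneg S.ε_pos.le (sq_nonneg _))
  rw [← hUd, ← hVd] at c4
  rw [c4] at c5
  linarith

/-- There is no sequence of metrics as in `Pert`, if there is a closed torus with primitive
weights. -/
theorem contra {K : Calc P 𝔤} [Nonempty P] (S : Pert K) (T : TorusDatum K) : False := by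
  obtain ⟨C, hC, hpt⟩ := S.pt_ineq T
  have hg := gram_pos T.ind
  set g0 := ‖T.X‖ ^ 2 * ‖T.Y‖ ^ 2 - inner ℝ T.X T.Y ^ 2 with hg0
  have hε := S.ε_pos
  have hF := S.F_le T (S.ε * g0 / 8) (by positivity)
  have ht : ∀ᶠ j in atTop, S.t j < S.ε * g0 / (8 * C) :=
    (tendsto_order.1 S.t_lim).2 _ (by positivity)
  obtain ⟨j, h1, h2, h3⟩ := (hpt.and (hF.and ht)).exists
  obtain ⟨p⟩ := ‹Nonempty P›
  have t0 := S.t_pos j
  set f : K.𝒜 := S.t j • K.Q (S.h j) T.X T.Y + S.t j ^ 2 • T.F (S.h j)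
    + algebraMap ℝ K.𝒜 (C * S.t j ^ 3) with hf
  have k1 : ∀ q, K.ev q (algebraMap ℝ K.𝒜 (S.ε * S.t j ^ 2 * (g0 / 2))) ≤ K.ev q f := by
    intro q
    have := h1 q
    simp only [hf, map_add, map_smul, smul_eq_mul, AlgHom.commutes]
    exact this
  have k2 := K.Av_mono T.X _ _ (fun q => K.Av_mono T.Y _ _ k1 q) p
  rw [K.Av_algebraMap, K.Av_algebraMap] at k2
  simp only [hf, map_add, map_smul, K.Av_algebraMap, Pert.Av_Q T, smul_eq_mul, mul_zero, AlgHom.commutes,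
    smul_zero, map_zero, zero_add] at k2
  have k3 : S.ε * S.t j ^ 2 * (g0 / 2) ≤
      S.t j ^ 2 * K.ev p (K.Av T.X (K.Av T.Y (T.F (S.h j)))) + C * S.t j ^ 3 := k2
  have k4 := h2 p
  rw [lt_div_iff₀ (by positivity)] at h3
  have t2 : 0 < S.t j ^ 2 := by positivity
  have k5 : S.t j ^ 2 * K.ev p (K.Av T.X (K.Av T.Y (T.F (S.h j)))) ≤
      S.t j ^ 2 * (S.ε * g0 / 8) := mul_le_mul_of_nonneg_left k4 t2.le
  have k6 : C * S.t j ^ 3 ≤ S.t j ^ 2 * (S.ε * g0 / 8) := by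
    have : C * S.t j ≤ S.ε * g0 / 8 := by linarith
    calc C * S.t j ^ 3 = S.t j ^ 2 * (C * S.t j) := by ring
      _ ≤ _ := mul_le_mul_of_nonneg_left this t2.le
  have k7 : 0 < S.t j ^ 2 * (S.ε * g0) := by positivity
  nlinarith

end Pert

end Pool.Agent.H842R4
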