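import Pool.Agent.H842R4.Ident

/-!
Uniform bounds, averages, perturbed metrics.
-/

open MeasureTheory Filter Topology

noncomputable section

namespace Pool.Agent.H842R4

/-- a sequence of functions is uniformly bounded -/
def Bd {ι : Type} (f : ℕ → ι → ℝ) : Prop := ∃ C : ℝ, ∀ j i, |f j i| ≤ C

/-- a sequence of functions converges to zero uniformly -/
def Sm {ι : Type} (f : ℕ → ι → ℝ) : Prop := ∀ ε : ℝ, 0 < ε → ∀ᶠ j in atTop, ∀ i, |f j i| ≤ ε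

variable {P 𝔤 : Type} [NormedAddCommGroup 𝔤] [InnerProductSpace ℝ 𝔤]

namespace Calc

variable (K : Calc P 𝔤)

/-- evaluation at a point -/
def ev (p : P) : K.𝒜 →ₐ[ℝ] ℝ := (Pi.evalAlgHom ℝ (fun _ : P => ℝ) p).comp K.𝒜.val

lemma ev_def (p : P) (f : K.𝒜) : K.ev p f = (f : P → ℝ) p := rfl

lemma ext_ev (f g : K.𝒜) (h : ∀ p, K.ev p f = K.ev p g) : f = g := Subtype.ext (funext h)

/-- weighted integral along the flow of `A` over one period -/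
def wInt (A : 𝔤) (w : ℝ → ℝ) (hw : Continuous w) (f : K.𝒜) : K.𝒜 := ⟨_, K.int_mem A f w hw⟩

lemma ev_wInt (A : 𝔤) (w : ℝ → ℝ) (hw : Continuous w) (f : K.𝒜) (p : P) :
    K.ev p (K.wInt A w hw f) = ∫ s in (0 : ℝ)..(2 * Real.pi), w s * K.ev (K.fl A s p) f := rfl

lemma der_ev (A : 𝔤) (f : K.𝒜) (p : P) (s : ℝ) :
    HasDerivAt (fun u => K.ev (K.fl A u p) f) (K.ev (K.fl A s p) (K.D A f)) s := K.der A f p s

lemma cont_ev (A : 𝔤) (f : K.𝒜) (p : P) : Continuous (fun s => K.ev (K.fl A s p) f) :=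
  continuous_iff_continuousAt.2 fun s => (K.der_ev A f p s).continuousAt

/-- weighted integral along the flow, as a linear map -/
def wIntL (A : 𝔤) (w : ℝ → ℝ) (hw : Continuous w) : K.𝒜 →ₗ[ℝ] K.𝒜 where
  toFun := K.wInt A w hw
  map_add' f g := by
    apply K.ext_ev
    intro p
    rw [map_add, ev_wInt, ev_wInt, ev_wInt, ← intervalIntegral.integral_add]
    · simp [mul_add]
    · exact (hw.mul (K.cont_ev A f p)).intervalIntegrable _ _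
    · exact (hw.mul (K.cont_ev A g p)).intervalIntegrable _ _
  map_smul' c f := by
    apply K.ext_ev
    intro p
    rw [RingHom.id_apply, map_smul, ev_wInt, ev_wInt, smul_eq_mul,
      ← intervalIntegral.integral_const_mul]
    simp [mul_left_comm]

/-- average over the flow of `A` (time `0` to `2π`) -/
def Av (A : 𝔤) : K.𝒜 →ₗ[ℝ] K.𝒜 := (1 / (2 * Real.pi)) • K.wIntL A (fun _ => 1) continuous_const

/-- primitive along the flow of `A` -/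
def Pr (A : 𝔤) : K.𝒜 →ₗ[ℝ] K.𝒜 := (1 / (2 * Real.pi)) • K.wIntL A (fun s => s) continuous_id

lemma ev_Av (A : 𝔤) (f : K.𝒜) (p : P) :
    K.ev p (K.Av A f) = (1 / (2 * Real.pi)) * ∫ s in (0 : ℝ)..(2 * Real.pi),
      K.ev (K.fl A s p) f := by
  simp [Av, wIntL, ev_wInt]

lemma ev_Pr (A : 𝔤) (f : K.𝒜) (p : P) :
    K.ev p (K.Pr A f) = (1 / (2 * Real.pi)) * ∫ s in (0 : ℝ)..(2 * Real.pi),
      s * K.ev (K.fl A s p) f := by
  simp [Pr, wIntL, ev_wInt]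

/-- iterated derivatives -/
def Dl (L : List 𝔤) (f : K.𝒜) : K.𝒜 := L.foldr (fun Z f => K.D Z f) f

/-- the constant inner product as a family of functions -/
def base : 𝔤 →ₗ[ℝ] 𝔤 →ₗ[ℝ] K.𝒜 :=
  LinearMap.mk₂ ℝ (fun A B => algebraMap ℝ K.𝒜 (inner ℝ A B))
    (fun A B C => by rw [inner_add_left, map_add])
    (fun c A B => by rw [real_inner_smul_left, map_mul, Algebra.smul_def])
    (fun A B C => by rw [inner_add_right, map_add])
    (fun c A B => by rw [real_inner_smul_right, map_mul, Algebra.smul_def])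

/-- perturbed metric `⟪·,·⟫ + t h` -/
def met (t : ℝ) (h : 𝔤 →ₗ[ℝ] 𝔤 →ₗ[ℝ] K.𝒜) : 𝔤 →ₗ[ℝ] 𝔤 →ₗ[ℝ] K.𝒜 := K.base + t • h

/-- `V` is the value at `p` of the covariant derivative `∇_A B` of the metric `G` -/
def IsNabla (G : 𝔤 →ₗ[ℝ] 𝔤 →ₗ[ℝ] K.𝒜) (p : P) (A B V : 𝔤) : Prop :=
  ∀ C, K.ev p (G V C) = K.ev p (K.eta G A B C)

/-- numerator `⟨R(A,B)B,A⟩` of the sectional curvature, for given values of the covariant
derivatives -/
def num (G : 𝔤 →ₗ[ℝ] 𝔤 →ₗ[ℝ] K.𝒜) (p : P) (A B VAA VAB VBA VBB : 𝔤) : ℝ :=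
  K.ev p (K.D A (K.eta G B B A)) - K.ev p (K.D B (K.eta G A B A))
    - K.ev p (G VBB VAA) + K.ev p (G VAB VBA) - K.ev p (K.eta G (K.br A B) B A)

/-- uniformly bounded sequence in `𝒜` -/
def bd (f : ℕ → K.𝒜) : Prop := Bd (fun j p => K.ev p (f j))

/-- uniformly small sequence in `𝒜` -/
def sm (f : ℕ → K.𝒜) : Prop := Sm (fun j p => K.ev p (f j))

/-- squared area -/
def gram (G : 𝔤 →ₗ[ℝ] 𝔤 →ₗ[ℝ] K.𝒜) (p : P) (A B : 𝔤) : ℝ :=
  K.ev p (G A A) * K.ev p (G B B) - K.ev p (G A B) ^ 2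

end Calc

/-- A sequence of metrics `⟪·,·⟫ + t h`, `t → 0`, with `h` bounded in `C⁴`, all of whose sectional
curvatures are larger than `ε t²`. (The aim is a contradiction.) -/
structure Pert (K : Calc P 𝔤) where
  t : ℕ → ℝ
  t_pos : ∀ j, 0 < t j
  t_lim : Tendsto t atTop (𝓝 0)
  h : ℕ → 𝔤 →ₗ[ℝ] 𝔤 →ₗ[ℝ] K.𝒜
  symm : ∀ j A B, h j A B = h j B A
  bound : ∀ j (L : List 𝔤), L.length ≤ 4 → ∀ A B p,
    |K.ev p (K.Dl L (h j A B))| ≤ (L.map norm).prod * ‖A‖ * ‖B‖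
  ε : ℝ
  ε_pos : 0 < ε
  pos : ∀ j p A B, LinearIndependent ℝ ![A, B] → ∀ VAA VAB VBA VBB,
    K.IsNabla (K.met (t j) (h j)) p A A VAA → K.IsNabla (K.met (t j) (h j)) p A B VAB →
    K.IsNabla (K.met (t j) (h j)) p B A VBA → K.IsNabla (K.met (t j) (h j)) p B B VBB →
    ε * t j ^ 2 * K.gram (K.met (t j) (h j)) p A B <
      K.num (K.met (t j) (h j)) p A B VAA VAB VBA VBB

/-- A closed 2-torus all of whose weights are zero or primitive. -/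
structure TorusDatum (K : Calc P 𝔤) where
  X : 𝔤
  Y : 𝔤
  brXY : K.br X Y = 0
  clX : K.Cl X
  clY : K.Cl Y
  ind : LinearIndependent ℝ ![X, Y]
  q11 : ℝ
  q12 : ℝ
  q22 : ℝ
  ιC : Type
  fC : Fintype ιC
  C : ιC → 𝔤
  w : ιC → ℝ
  clC : ∀ i, K.Cl (C i)
  brXC : ∀ i, K.br X (C i) = 0
  brYC : ∀ i, K.br Y (C i) = 0
  indC : ∀ i, LinearIndependent ℝ ![X, Y, C i]
  ιR : Type
  fR : Fintype ιR
  m : ιR → ℤ
  n : ιR → ℤ
  r : ιR → ℤ
  s : ιR → ℤ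
  unim : ∀ a, r a * m a + s a * n a = 1
  Z1 : ιR → 𝔤
  Z2 : ιR → 𝔤
  brX1 : ∀ a, K.br X (Z1 a) = (m a : ℝ) • Z2 a
  brX2 : ∀ a, K.br X (Z2 a) = -((m a : ℝ) • Z1 a)
  brY1 : ∀ a, K.br Y (Z1 a) = (n a : ℝ) • Z2 a
  brY2 : ∀ a, K.br Y (Z2 a) = -((n a : ℝ) • Z1 a)
  orth : Orthonormal ℝ (Sum.elim Z1 Z2)
  parseval : ∀ u v : 𝔤, inner ℝ u v =
    q11 * (inner ℝ u X * inner ℝ v X) + q12 * (inner ℝ u X * inner ℝ v Y + inner ℝ u Y * inner ℝ v X)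
    + q22 * (inner ℝ u Y * inner ℝ v Y) + ∑ i, w i * (inner ℝ u (C i) * inner ℝ v (C i))
    + ∑ a, (inner ℝ u (Z1 a) * inner ℝ v (Z1 a) + inner ℝ u (Z2 a) * inner ℝ v (Z2 a))

end Pool.Agent.H842R4
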