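import Pool.Agent.H842R4.Lim

/-!
Bounds for the derivatives of the first order Christoffel symbols and of the linearised curvature.
-/

open MeasureTheory Filter Topology

noncomputable section

set_option linter.unusedSectionVars false

namespace Pool.Agent.H842R4

variable {P 𝔤 : Type} [NormedAddCommGroup 𝔤] [InnerProductSpace ℝ 𝔤] [FiniteDimensional ℝ 𝔤]

theorem Calc.br_bound (K : Calc P 𝔤) : ∃ C : ℝ, 0 < C ∧ ∀ A B, ‖K.br A B‖ ≤ C * ‖A‖ * ‖B‖ := by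
  let T : 𝔤 →L[ℝ] (𝔤 →L[ℝ] 𝔤) := LinearMap.toContinuousLinearMap
    ((LinearMap.toContinuousLinearMap : (𝔤 →ₗ[ℝ] 𝔤) ≃ₗ[ℝ] (𝔤 →L[ℝ] 𝔤)).toLinearMap ∘ₗ K.br)
  refine ⟨‖T‖ + 1, by positivity, fun A B => ?_⟩
  have h : K.br A B = T A B := rfl
  rw [h]
  refine (T.le_opNorm₂ A B).trans ?_
  have h1 : 0 ≤ ‖A‖ * ‖B‖ := by positivity
  nlinarith

namespace Calc

omit [FiniteDimensional ℝ 𝔤] in
theorem db_Dl_D (K : Calc P 𝔤) (L : List 𝔤) (A : 𝔤) (f : K.𝒜) :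
    K.Dl L (K.D A f) = K.Dl (L ++ [A]) f := by
  unfold Dl
  rw [List.foldr_append]
  rfl

omit [FiniteDimensional ℝ 𝔤] in
theorem db_Dl_add (K : Calc P 𝔤) (L : List 𝔤) (f g : K.𝒜) :
    K.Dl L (f + g) = K.Dl L f + K.Dl L g := by
  induction L with
  | nil => rfl
  | cons Z L ih =>
    show K.D Z (K.Dl L (f + g)) = K.D Z (K.Dl L f) + K.D Z (K.Dl L g)
    rw [ih, map_add]

omit [FiniteDimensional ℝ 𝔤] in
theorem db_Dl_smul (K : Calc P 𝔤) (L : List 𝔤) (c : ℝ) (f : K.𝒜) :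
    K.Dl L (c • f) = c • K.Dl L f := by
  induction L with
  | nil => rfl
  | cons Z L ih =>
    show K.D Z (K.Dl L (c • f)) = c • K.D Z (K.Dl L f)
    rw [ih, map_smul]

omit [FiniteDimensional ℝ 𝔤] in
theorem db_Dl_neg (K : Calc P 𝔤) (L : List 𝔤) (f : K.𝒜) :
    K.Dl L (-f) = -K.Dl L f := by
  have := K.db_Dl_smul L (-1) f
  simpa using this

omit [FiniteDimensional ℝ 𝔤] in
theorem db_Dl_sub (K : Calc P 𝔤) (L : List 𝔤) (f g : K.𝒜) :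
    K.Dl L (f - g) = K.Dl L f - K.Dl L g := by
  rw [sub_eq_add_neg, db_Dl_add, db_Dl_neg, ← sub_eq_add_neg]

end Calc

theorem db_prod_norm_nonneg {𝔤 : Type} [NormedAddCommGroup 𝔤] (L : List 𝔤) :
    0 ≤ (L.map norm).prod := by
  induction L with
  | nil => simp
  | cons a L ih =>
    rw [List.map_cons, List.prod_cons]
    exact mul_nonneg (norm_nonneg _) ih

theorem db_prod_norm_snoc {𝔤 : Type} [NormedAddCommGroup 𝔤] (L : List 𝔤) (A : 𝔤) :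
    ((L ++ [A]).map norm).prod = (L.map norm).prod * ‖A‖ := by
  simp

namespace Pert

variable {K : Calc P 𝔤} (S : Pert K)

theorem eta_bound : ∃ C : ℝ, 0 < C ∧ ∀ j (L : List 𝔤), L.length ≤ 3 → ∀ A B E p,
    |K.ev p (K.Dl L (K.eta (S.h j) A B E))| ≤ C * (L.map norm).prod * ‖A‖ * ‖B‖ * ‖E‖ := by
  obtain ⟨C, hC, hbr⟩ := K.br_bound
  refine ⟨(3 + 3 * C) / 2, by positivity, fun j L hL A B E p => ?_⟩
  have hP := db_prod_norm_nonneg L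
  -- the derivative terms
  have d : ∀ A B E : 𝔤, |K.ev p (K.Dl L (K.D A (S.h j B E)))| ≤
      (L.map norm).prod * ‖A‖ * ‖B‖ * ‖E‖ := by
    intro A B E
    rw [K.db_Dl_D]
    have h := S.bound j (L ++ [A]) (by simp; omega) B E p
    rwa [db_prod_norm_snoc] at h
  -- the bracket terms
  have b : ∀ A B E : 𝔤, |K.ev p (K.Dl L (S.h j (K.br A B) E))| ≤
      C * ((L.map norm).prod * ‖A‖ * ‖B‖ * ‖E‖) := by
    intro A B E
    refine (S.bound j L (by omega) (K.br A B) E p).trans ?_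
    have h1 := hbr A B
    calc (L.map norm).prod * ‖K.br A B‖ * ‖E‖
        ≤ (L.map norm).prod * (C * ‖A‖ * ‖B‖) * ‖E‖ := by gcongr
      _ = _ := by ring
  have e : K.ev p (K.Dl L (K.eta (S.h j) A B E)) = (1 / 2) *
      (K.ev p (K.Dl L (K.D A (S.h j B E))) + K.ev p (K.Dl L (K.D B (S.h j A E)))
        - K.ev p (K.Dl L (K.D E (S.h j A B))) + K.ev p (K.Dl L (S.h j (K.br A B) E))
        - K.ev p (K.Dl L (S.h j (K.br A E) B)) - K.ev p (K.Dl L (S.h j (K.br B E) A))) := by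
    unfold Calc.eta
    simp only [K.db_Dl_smul, K.db_Dl_add, K.db_Dl_sub, map_smul, map_add, map_sub, smul_eq_mul]
  rw [e]
  have d1 := abs_le.1 (d A B E)
  have d2 := abs_le.1 (d B A E)
  have d3 := abs_le.1 (d E A B)
  have b1 := abs_le.1 (b A B E)
  have b2 := abs_le.1 (b A E B)
  have b3 := abs_le.1 (b B E A)
  have r1 : (L.map norm).prod * ‖B‖ * ‖A‖ * ‖E‖ = (L.map norm).prod * ‖A‖ * ‖B‖ * ‖E‖ := by ring
  have r2 : (L.map norm).prod * ‖E‖ * ‖A‖ * ‖B‖ = (L.map norm).prod * ‖A‖ * ‖B‖ * ‖E‖ := by ring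
  have r3 : (L.map norm).prod * ‖A‖ * ‖E‖ * ‖B‖ = (L.map norm).prod * ‖A‖ * ‖B‖ * ‖E‖ := by ring
  have r4 : (L.map norm).prod * ‖B‖ * ‖E‖ * ‖A‖ = (L.map norm).prod * ‖A‖ * ‖B‖ * ‖E‖ := by ring
  rw [r1] at d2
  rw [r2] at d3
  rw [r3] at b2
  rw [r4] at b3
  have r5 : (3 + 3 * C) / 2 * (L.map norm).prod * ‖A‖ * ‖B‖ * ‖E‖ =
      (3 + 3 * C) / 2 * ((L.map norm).prod * ‖A‖ * ‖B‖ * ‖E‖) := by ring
  rw [r5, abs_le]
  constructor <;> linarith [d1.1, d1.2, d2.1, d2.2, d3.1, d3.2, b1.1, b1.2, b2.1, b2.2, b3.1, b3.2]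

theorem Q_bound : ∃ C : ℝ, 0 < C ∧ ∀ j (L : List 𝔤), L.length ≤ 2 → ∀ A B p,
    |K.ev p (K.Dl L (K.Q (S.h j) A B))| ≤ C * (L.map norm).prod * ‖A‖ ^ 2 * ‖B‖ ^ 2 := by
  obtain ⟨C, hC, h⟩ := S.eta_bound
  refine ⟨2 * C, by positivity, fun j L hL A B p => ?_⟩
  have h1 := h j (L ++ [A]) (by simp; omega) B B A p
  have h2 := h j (L ++ [B]) (by simp; omega) A B A p
  rw [db_prod_norm_snoc] at h1 h2
  have e : K.ev p (K.Dl L (K.Q (S.h j) A B)) =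
      K.ev p (K.Dl (L ++ [A]) (K.eta (S.h j) B B A)) -
        K.ev p (K.Dl (L ++ [B]) (K.eta (S.h j) A B A)) := by
    unfold Calc.Q
    rw [K.db_Dl_sub, map_sub, K.db_Dl_D, K.db_Dl_D]
  rw [e]
  refine (abs_sub _ _).trans ((add_le_add h1 h2).trans (le_of_eq ?_))
  ring

theorem R1_bound : ∃ C : ℝ, 0 < C ∧ ∀ j (L : List 𝔤), L.length ≤ 2 → ∀ A B E Z p,
    |K.ev p (K.Dl L (K.R1 (S.h j) A B E Z))| ≤
      C * (L.map norm).prod * ‖A‖ * ‖B‖ * ‖E‖ * ‖Z‖ := by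
  obtain ⟨C, hC, h⟩ := S.eta_bound
  obtain ⟨C', hC', hbr⟩ := K.br_bound
  refine ⟨2 * C + C * C', by positivity, fun j L hL A B E Z p => ?_⟩
  have hP := db_prod_norm_nonneg L
  have h1 := h j (L ++ [A]) (by simp; omega) B E Z p
  have h3 := h j (L ++ [B]) (by simp; omega) A E Z p
  rw [db_prod_norm_snoc] at h1 h3
  have h2 : |K.ev p (K.Dl L (K.eta (S.h j) B E (K.br A Z)))| ≤
      C * C' * ((L.map norm).prod * ‖A‖ * ‖B‖ * ‖E‖ * ‖Z‖) := by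
    refine (h j L (by omega) B E (K.br A Z) p).trans ?_
    have := hbr A Z
    calc C * (L.map norm).prod * ‖B‖ * ‖E‖ * ‖K.br A Z‖
        ≤ C * (L.map norm).prod * ‖B‖ * ‖E‖ * (C' * ‖A‖ * ‖Z‖) := by gcongr
      _ = _ := by ring
  have h4 : |K.ev p (K.Dl L (K.eta (S.h j) A E (K.br B Z)))| ≤
      C * C' * ((L.map norm).prod * ‖A‖ * ‖B‖ * ‖E‖ * ‖Z‖) := by
    refine (h j L (by omega) A E (K.br B Z) p).trans ?_
    have := hbr B Z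
    calc C * (L.map norm).prod * ‖A‖ * ‖E‖ * ‖K.br B Z‖
        ≤ C * (L.map norm).prod * ‖A‖ * ‖E‖ * (C' * ‖B‖ * ‖Z‖) := by gcongr
      _ = _ := by ring
  have r1 : C * ((L.map norm).prod * ‖A‖) * ‖B‖ * ‖E‖ * ‖Z‖ =
      C * ((L.map norm).prod * ‖A‖ * ‖B‖ * ‖E‖ * ‖Z‖) := by ring
  have r3 : C * ((L.map norm).prod * ‖B‖) * ‖A‖ * ‖E‖ * ‖Z‖ =
      C * ((L.map norm).prod * ‖A‖ * ‖B‖ * ‖E‖ * ‖Z‖) := by ring
  rw [r1] at h1
  rw [r3] at h3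
  have e : K.ev p (K.Dl L (K.R1 (S.h j) A B E Z)) =
      K.ev p (K.Dl (L ++ [A]) (K.eta (S.h j) B E Z))
        - (1 / 2) * K.ev p (K.Dl L (K.eta (S.h j) B E (K.br A Z)))
        - K.ev p (K.Dl (L ++ [B]) (K.eta (S.h j) A E Z))
        + (1 / 2) * K.ev p (K.Dl L (K.eta (S.h j) A E (K.br B Z))) := by
    unfold Calc.R1
    simp only [K.db_Dl_smul, K.db_Dl_add, K.db_Dl_sub, map_smul, map_add, map_sub, smul_eq_mul, K.db_Dl_D]
  rw [e]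
  have r5 : (2 * C + C * C') * (L.map norm).prod * ‖A‖ * ‖B‖ * ‖E‖ * ‖Z‖ =
      2 * (C * ((L.map norm).prod * ‖A‖ * ‖B‖ * ‖E‖ * ‖Z‖)) +
        C * C' * ((L.map norm).prod * ‖A‖ * ‖B‖ * ‖E‖ * ‖Z‖) := by ring
  have a1 := abs_le.1 h1
  have a2 := abs_le.1 h2
  have a3 := abs_le.1 h3
  have a4 := abs_le.1 h4
  rw [r5, abs_le]
  constructor <;> linarith [a1.1, a1.2, a2.1, a2.2, a3.1, a3.2, a4.1, a4.2]

theorem bd_h (L : List 𝔤) (hL : L.length ≤ 4) (A B : 𝔤) :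
    K.bd (fun j => K.Dl L (S.h j A B)) :=
  ⟨_, fun j p => S.bound j L hL A B p⟩

theorem bd_eta (L : List 𝔤) (hL : L.length ≤ 3) (A B E : 𝔤) :
    K.bd (fun j => K.Dl L (K.eta (S.h j) A B E)) := by
  obtain ⟨C, hC, h⟩ := S.eta_bound
  exact ⟨_, fun j p => h j L hL A B E p⟩

theorem bd_Q (L : List 𝔤) (hL : L.length ≤ 2) (A B : 𝔤) :
    K.bd (fun j => K.Dl L (K.Q (S.h j) A B)) := by
  obtain ⟨C, hC, h⟩ := S.Q_bound
  exact ⟨_, fun j p => h j L hL A B p⟩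

theorem bd_R1 (L : List 𝔤) (hL : L.length ≤ 2) (A B E Z : 𝔤) :
    K.bd (fun j => K.Dl L (K.R1 (S.h j) A B E Z)) := by
  obtain ⟨C, hC, h⟩ := S.R1_bound
  exact ⟨_, fun j p => h j L hL A B E Z p⟩

end Pert

end Pool.Agent.H842R4
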