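import Mathlib

/-!
Abstract calculus of left-invariant fields on a compact group with bi-invariant inner product.
-/

open MeasureTheory Filter Topology

noncomputable section

namespace Pool.Agent.H842R4

/-- Left-invariant calculus: a Lie bracket `br` on a Euclidean space `𝔤`, an algebra `𝒜` of smooth
functions on `P`, derivations `D A` (left-invariant fields), flows `fl A`, conjugations `Ad`. -/
structure Calc (P 𝔤 : Type) [NormedAddCommGroup 𝔤] [InnerProductSpace ℝ 𝔤] where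
  br : 𝔤 →ₗ[ℝ] 𝔤 →ₗ[ℝ] 𝔤
  br_self : ∀ A, br A A = 0
  jac : ∀ A B C, br A (br B C) = br (br A B) C + br B (br A C)
  ad_inv : ∀ A B C, inner ℝ (br A B) C = inner ℝ A (br B C)
  𝒜 : Subalgebra ℝ (P → ℝ)
  D : 𝔤 →ₗ[ℝ] 𝒜 →ₗ[ℝ] 𝒜
  D_mul : ∀ A (f g : 𝒜), D A (f * g) = f * D A g + g * D A f
  D_br : ∀ A B (f : 𝒜), D A (D B f) - D B (D A f) = D (br A B) f
  fl : 𝔤 → ℝ → P → P
  fl_zero : ∀ A p, fl A 0 p = p
  fl_add : ∀ A s t p, fl A (s + t) p = fl A s (fl A t p)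
  fl_comm : ∀ A B, br A B = 0 → ∀ s t p, fl A s (fl B t p) = fl B t (fl A s p)
  fl_comb : ∀ A B, br A B = 0 → ∀ a b s p,
    fl (a • A + b • B) s p = fl A (a * s) (fl B (b * s) p)
  der : ∀ A (f : 𝒜) p s,
    HasDerivAt (fun u => (f : P → ℝ) (fl A u p)) ((D A f : P → ℝ) (fl A s p)) s
  cont₂ : ∀ A B (f : 𝒜) p,
    Continuous (fun x : ℝ × ℝ => (f : P → ℝ) (fl A x.1 (fl B x.2 p)))
  bdd : ∀ f : 𝒜, ∃ C, ∀ p, |(f : P → ℝ) p| ≤ C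
  int_mem : ∀ A (f : 𝒜) (w : ℝ → ℝ), Continuous w →
    (fun p => ∫ s in (0 : ℝ)..(2 * Real.pi), w s * (f : P → ℝ) (fl A s p)) ∈ 𝒜
  Ad : 𝔤 → ℝ → 𝔤 → 𝔤
  Ad_zero : ∀ Z A, Ad Z 0 A = A
  Ad_der : ∀ Z A s, HasDerivAt (fun u => Ad Z u A) (br Z (Ad Z s A)) s
  Ad_fix : ∀ Z s A, br Z A = 0 → Ad Z s A = A
  Ad_br : ∀ Z s A B, br (Ad Z s A) (Ad Z s B) = Ad Z s (br A B)
  Ad_inner : ∀ Z s A B, inner ℝ (Ad Z s A) (Ad Z s B) = inner ℝ A B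
  Ad_cl : ∀ Z s A, (∀ p, fl A (2 * Real.pi) p = p) → ∀ p, fl (Ad Z s A) (2 * Real.pi) p = p

variable {P 𝔤 : Type} [NormedAddCommGroup 𝔤] [InnerProductSpace ℝ 𝔤]

namespace Calc

variable (K : Calc P 𝔤)

/-- closed one-parameter groups, with period `2π` -/
def Cl (A : 𝔤) : Prop := ∀ p, K.fl A (2 * Real.pi) p = p

/-- first order Christoffel symbols of a symmetric bilinear form in a left-invariant frame -/
def eta (h : 𝔤 →ₗ[ℝ] 𝔤 →ₗ[ℝ] K.𝒜) (A B C : 𝔤) : K.𝒜 :=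
  (1 / 2 : ℝ) • (K.D A (h B C) + K.D B (h A C) - K.D C (h A B) + h (K.br A B) C
    - h (K.br A C) B - h (K.br B C) A)

/-- linearised curvature `R(A,B,C,Z)` for commuting `A`, `B`, `C` -/
def R1 (h : 𝔤 →ₗ[ℝ] 𝔤 →ₗ[ℝ] K.𝒜) (A B C Z : 𝔤) : K.𝒜 :=
  K.D A (K.eta h B C Z) - (1 / 2 : ℝ) • K.eta h B C (K.br A Z)
    - K.D B (K.eta h A C Z) + (1 / 2 : ℝ) • K.eta h A C (K.br B Z)

/-- linearised curvature of the plane spanned by commuting `A`, `B` -/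
def Q (h : 𝔤 →ₗ[ℝ] 𝔤 →ₗ[ℝ] K.𝒜) (A B : 𝔤) : K.𝒜 :=
  K.D A (K.eta h B B A) - K.D B (K.eta h A B A)

lemma Ad_norm (Z : 𝔤) (s : ℝ) (A : 𝔤) : ‖K.Ad Z s A‖ = ‖A‖ := by
  have h := K.Ad_inner Z s A A
  rw [real_inner_self_eq_norm_sq, real_inner_self_eq_norm_sq] at h
  exact (pow_left_inj₀ (norm_nonneg _) (norm_nonneg _) two_ne_zero).1 h

lemma br_anti (A B : 𝔤) : K.br A B = - K.br B A := by
  have h := K.br_self (A + B)
  simp only [map_add, LinearMap.add_apply, K.br_self, zero_add, add_zero] at h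
  exact eq_neg_of_add_eq_zero_right h

end Calc

end Pool.Agent.H842R4
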