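import Pool.Agent.H842R4.QSmall
import Pool.Agent.H842R4.Landau

/-!
The component `R₁(B,W,W,[Z,B])` of the linearised curvature is small.

PROOF. Let `u(s) = K.Ad Z s B`. It commutes with `W = K.Ad Z s W` (`Ad_fix`, as `br Z W = 0`;
`Ad_br`), is closed (`Ad_cl`), has norm `‖B‖` (`Ad_norm`); `(u(s), W)` is linearly independent
(`LinearIndependent.pair_iff`: by `Ad_inner` and `Ad Z s W = W`,
`‖a • u(s) + b • W‖² = ‖a • B + b • W‖²`).
`Q_small` with `ι = ℝ`, `A = u`, `B = W` says that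
`φ j p s = K.ev p (K.Q (S.h j) (u s) W)` is uniformly small in `(p, s)`. Here
`Q(u,W) = D_u η(W,W,u) - D_W η(u,W,u)` is a quadratic polynomial in `u ∈ 𝔤`, `u' = br Z u`,
`u'' = br Z (br Z u)`:
`φ' = D_{u'} η(W,W,u) + D_u η(W,W,u') - D_W η(u',W,u) - D_W η(u,W,u')`,
`φ''` = the same formula differentiated once more (8 terms), bounded by `S.eta_bound`
(`L = [u]` etc.), `br_bound`, `Ad_norm`. Use `bilin_deriv` for the bilinear forms
`(v, v') ↦ K.ev p (K.D v (K.eta h W W v'))` and `(v, v') ↦ K.ev p (K.D W (K.eta h v W v'))`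
(build them with `LinearMap.mk₂`).
`landau` (index `P`) gives: `φ'(0)` is uniformly small. At `s = 0`, `u = B`, `u' = br Z B =: U`,
and by `K.id1` with `X := B`, `Y := W`, `U`:
`φ'(0) = 2 R1 B W W U + η(br U W, W, B)` and `br U W = 0` (Jacobi: `br_comm_of` or `jac`).
-/

open MeasureTheory Filter Topology

noncomputable section

namespace Pool.Agent.H842R4

variable {P 𝔤 : Type} [NormedAddCommGroup 𝔤] [InnerProductSpace ℝ 𝔤] [FiniteDimensional ℝ 𝔤]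

theorem bilin_deriv (F : 𝔤 →ₗ[ℝ] 𝔤 →ₗ[ℝ] ℝ) (u v : ℝ → 𝔤) (u' v' : 𝔤) (s : ℝ)
    (hu : HasDerivAt u u' s) (hv : HasDerivAt v v' s) :
    HasDerivAt (fun x => F (u x) (v x)) (F u' (v s) + F (u s) v') s := by
  let F1 : 𝔤 →ₗ[ℝ] (𝔤 →L[ℝ] ℝ) :=
    (LinearMap.toContinuousLinearMap : (𝔤 →ₗ[ℝ] ℝ) ≃ₗ[ℝ] (𝔤 →L[ℝ] ℝ)).toLinearMap ∘ₗ F
  let F2 : 𝔤 →L[ℝ] (𝔤 →L[ℝ] ℝ) := LinearMap.toContinuousLinearMap F1
  have h1 : ∀ x y, F2 x y = F x y := fun x y => rfl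
  have h2 : HasDerivAt (fun x => F2 (u x)) (F2 u') s := F2.hasFDerivAt.comp_hasDerivAt s hu
  have h3 := h2.clm_apply hv
  exact h3

theorem Calc.Ad_indep (K : Calc P 𝔤) (Z B W : 𝔤) (hi : LinearIndependent ℝ ![B, W])
    (hZW : K.br Z W = 0) (s : ℝ) : LinearIndependent ℝ ![K.Ad Z s B, W] := by
  rw [LinearIndependent.pair_iff] at hi ⊢
  intro a b hab
  refine hi a b ?_
  have hW : K.Ad Z s W = W := K.Ad_fix Z s W hZW
  have h1 : inner ℝ (K.Ad Z s B) W = inner ℝ B W := by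
    have := K.Ad_inner Z s B W
    rwa [hW] at this
  have h2 : inner ℝ (K.Ad Z s B) (K.Ad Z s B) = inner ℝ B B := K.Ad_inner Z s B B
  have h3 : ∀ x : 𝔤, inner ℝ (a • x + b • W) (a • x + b • W) =
      a * a * inner ℝ x x + 2 * (a * b) * inner ℝ x W + b * b * inner ℝ W W := by
    intro x
    simp only [inner_add_left, inner_add_right, real_inner_smul_left, real_inner_smul_right,
      real_inner_comm W x]
    ring
  have h4 : inner ℝ (a • B + b • W) (a • B + b • W) = (0 : ℝ) := by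
    rw [h3, ← h1, ← h2, ← h3, hab, inner_zero_left]
  exact inner_self_eq_zero.1 h4

namespace Pert

variable {K : Calc P 𝔤} (S : Pert K)

/-- the bilinear form whose diagonal is the linearised curvature -/
def E2F (K : Calc P 𝔤) (h : 𝔤 →ₗ[ℝ] 𝔤 →ₗ[ℝ] K.𝒜) (W : 𝔤) (p : P) : 𝔤 →ₗ[ℝ] 𝔤 →ₗ[ℝ] ℝ :=
  LinearMap.mk₂ ℝ (fun v v' => K.ev p (K.D v (K.eta h W W v')) - K.ev p (K.D W (K.eta h v W v')))
    (fun v₁ v₂ v' => by
      simp only [map_add, LinearMap.add_apply, K.eta_add_left]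
      ring)
    (fun c v v' => by
      simp only [map_smul, LinearMap.smul_apply, K.eta_smul_left, smul_eq_mul]
      ring)
    (fun v v₁ v₂ => by
      simp only [map_add, K.eta_add_right]
      ring)
    (fun c v v' => by
      simp only [map_smul, K.eta_smul_right, smul_eq_mul]
      ring)

lemma E2F_apply (K : Calc P 𝔤) (h : 𝔤 →ₗ[ℝ] 𝔤 →ₗ[ℝ] K.𝒜) (W : 𝔤) (p : P) (v v' : 𝔤) :
    E2F K h W p v v' =
      K.ev p (K.D v (K.eta h W W v')) - K.ev p (K.D W (K.eta h v W v')) := rfl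

include S in
lemma E2F_bound (W : 𝔤) : ∃ C : ℝ, 0 ≤ C ∧ ∀ j p v v',
    |E2F K (S.h j) W p v v'| ≤ C * ‖v‖ * ‖v'‖ := by
  obtain ⟨C, hC, hb⟩ := S.eta_bound
  refine ⟨2 * C * ‖W‖ * ‖W‖, by positivity, ?_⟩
  intro j p v v'
  rw [E2F_apply]
  have h1 := hb j [v] (by simp) W W v' p
  have h2 := hb j [W] (by simp) v W v' p
  simp only [Calc.Dl, List.foldr_cons, List.foldr_nil, List.map_cons, List.map_nil,
    List.prod_cons, List.prod_nil, mul_one] at h1 h2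
  calc _ ≤ |K.ev p (K.D v (K.eta (S.h j) W W v'))| + |K.ev p (K.D W (K.eta (S.h j) v W v'))| :=
        abs_sub _ _
    _ ≤ C * ‖v‖ * ‖W‖ * ‖W‖ * ‖v'‖ + C * ‖W‖ * ‖v‖ * ‖W‖ * ‖v'‖ := add_le_add h1 h2
    _ = _ := by ring

theorem e2_small (B W Z : 𝔤) (hBW : K.br B W = 0) (hB : K.Cl B) (hW : K.Cl W)
    (hi : LinearIndependent ℝ ![B, W]) (hZW : K.br Z W = 0) :
    K.sm (fun j => K.R1 (S.h j) B W W (K.br Z B)) := by
  obtain ⟨C, hC, hFb⟩ := S.E2F_bound W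
  obtain ⟨c, hc, hbr⟩ := K.br_bound
  set u : ℝ → 𝔤 := fun s => K.Ad Z s B with hu
  set F : ℕ → P → 𝔤 →ₗ[ℝ] 𝔤 →ₗ[ℝ] ℝ := fun j p => E2F K (S.h j) W p with hF
  have hun : ∀ s, ‖u s‖ = ‖B‖ := fun s => K.Ad_norm Z s B
  have hd0 : ∀ s, HasDerivAt u (K.br Z (u s)) s := fun s => K.Ad_der Z B s
  have hlin : ∀ (w : ℝ → 𝔤) (w' : 𝔤) (s : ℝ), HasDerivAt w w' s →
      HasDerivAt (fun x => K.br Z (w x)) (K.br Z w') s := fun w w' s hw =>
    (LinearMap.toContinuousLinearMap (K.br Z)).hasFDerivAt.comp_hasDerivAt s hw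
  have hd1 : ∀ s, HasDerivAt (fun x => K.br Z (u x)) (K.br Z (K.br Z (u s))) s := fun s =>
    hlin u _ s (hd0 s)
  -- norms
  have hn1 : ∀ s, ‖K.br Z (u s)‖ ≤ c * ‖Z‖ * ‖B‖ := fun s => by
    have := hbr Z (u s)
    rwa [hun s] at this
  have hn2 : ∀ s, ‖K.br Z (K.br Z (u s))‖ ≤ c * ‖Z‖ * (c * ‖Z‖ * ‖B‖) := fun s =>
    (hbr Z _).trans (mul_le_mul_of_nonneg_left (hn1 s) (by positivity))
  -- smallness of the curvature along the conjugation
  have hcomm : ∀ s, K.br (u s) W = 0 := by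
    intro s
    have h1 := K.Ad_br Z s B W
    rw [K.Ad_fix Z s W hZW, hBW] at h1
    rw [h1]
    exact K.Ad_fix Z s 0 (map_zero _)
  have hQ := S.Q_small u (fun _ => W) (max ‖B‖ ‖W‖) hcomm (fun s => K.Ad_cl Z s B hB)
    (fun _ => hW) (fun s => K.Ad_indep Z B W hi hZW s)
    (fun s => (hun s).le.trans (le_max_left _ _)) (fun _ => le_max_right _ _)
  have hs : Sm (fun j (x : P × ℝ) => F j x.1 (u x.2) (u x.2)) := by
    have := hQ.comp (fun x : P × ℝ => (x.2, x.1))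
    refine this.of_le fun j x => le_of_eq ?_
    simp only [hF, E2F_apply, Calc.Q, map_sub]
  have hL := landau (ι := P) (fun j p s => F j p (u s) (u s))
    (fun j p s => F j p (K.br Z (u s)) (u s) + F j p (u s) (K.br Z (u s)))
    (fun j p s => (F j p (K.br Z (K.br Z (u s))) (u s) + F j p (K.br Z (u s)) (K.br Z (u s))) +
      (F j p (K.br Z (u s)) (K.br Z (u s)) + F j p (u s) (K.br Z (K.br Z (u s)))))
    (fun j p s => bilin_deriv (F j p) u u _ _ s (hd0 s) (hd0 s))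
    (fun j p s => (bilin_deriv (F j p) (fun x => K.br Z (u x)) u _ _ s (hd1 s) (hd0 s)).add
      (bilin_deriv (F j p) u (fun x => K.br Z (u x)) _ _ s (hd0 s) (hd1 s)))
    hs (by
      refine ⟨C * (c * ‖Z‖ * (c * ‖Z‖ * ‖B‖)) * ‖B‖ +
        C * (c * ‖Z‖ * ‖B‖) * (c * ‖Z‖ * ‖B‖) +
        (C * (c * ‖Z‖ * ‖B‖) * (c * ‖Z‖ * ‖B‖) + C * ‖B‖ * (c * ‖Z‖ * (c * ‖Z‖ * ‖B‖))), ?_⟩
      rintro j ⟨p, s⟩
      have hm : ∀ (v v' : 𝔤) (a b : ℝ), ‖v‖ ≤ a → ‖v'‖ ≤ b → |F j p v v'| ≤ C * a * b := by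
        intro v v' a b ha hb
        have ha0 : 0 ≤ a := (norm_nonneg _).trans ha
        calc |F j p v v'| ≤ C * ‖v‖ * ‖v'‖ := hFb j p v v'
          _ ≤ C * a * b := by gcongr
      have k1 := hm _ _ _ _ (hn2 s) (hun s).le
      have k2 := hm _ _ _ _ (hn1 s) (hn1 s)
      have k3 := hm _ _ _ _ (hun s).le (hn2 s)
      exact (abs_add_le _ _).trans (add_le_add ((abs_add_le _ _).trans (add_le_add k1 k2))
        ((abs_add_le _ _).trans (add_le_add k2 k3))))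
  have h0 := hL.comp (fun p : P => (p, (0 : ℝ)))
  have hbr0 : K.br (K.br Z B) W = 0 := by
    have := K.jac Z B W
    rw [hBW, hZW, map_zero, map_zero, add_zero] at this
    exact this.symm
  have hu0 : u 0 = B := K.Ad_zero Z B
  have hfin := h0.const_mul (1 / 2)
  refine hfin.of_le fun j p => le_of_eq ?_
  have hid := congrArg (K.ev p) (K.id1 (S.h j) (S.symm j) B W (K.br Z B) hBW)
  rw [hbr0, K.eta_zero_left] at hid
  simp only [map_sub, map_add, map_smul, map_zero, sub_zero, smul_eq_mul] at hid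
  simp only [hu0, hF, E2F_apply]
  congr 1
  linarith

end Pert

end Pool.Agent.H842R4
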