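import Pool.Agent.H842R4.Nabla

/-!
Second order expansion of the curvature numerator for almost commuting vectors `u`, `v`.
-/

open MeasureTheory Filter Topology

noncomputable section

namespace Pool.Agent.H842R4

variable {P 𝔤 : Type} [NormedAddCommGroup 𝔤] [InnerProductSpace ℝ 𝔤]

namespace Calc

variable (K : Calc P 𝔤)

lemma expA_ev_alg (p : P) (c : ℝ) : K.ev p (algebraMap ℝ K.𝒜 c) = c :=
  (K.ev p).commutes c

lemma expA_ev_eta_met (t : ℝ) (h : 𝔤 →ₗ[ℝ] 𝔤 →ₗ[ℝ] K.𝒜) (p : P) (A B C : 𝔤) :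
    K.ev p (K.eta (K.met t h) A B C) =
      (1 / 2) * inner ℝ (K.br A B) C + t * K.ev p (K.eta h A B C) := by
  rw [K.eta_met, map_add, K.expA_ev_alg, map_smul, smul_eq_mul]

lemma expA_ev_D_eta_met (t : ℝ) (h : 𝔤 →ₗ[ℝ] 𝔤 →ₗ[ℝ] K.𝒜) (p : P) (Z A B C : 𝔤) :
    K.ev p (K.D Z (K.eta (K.met t h) A B C)) = t * K.ev p (K.D Z (K.eta h A B C)) := by
  rw [K.eta_met, map_add, K.D_algebraMap, zero_add, map_smul, map_smul, smul_eq_mul]

/-- the exact expansion of the numerator -/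
lemma expA_num (t : ℝ) (h : 𝔤 →ₗ[ℝ] 𝔤 →ₗ[ℝ] K.𝒜) (hs : ∀ A B, h A B = h B A) (p : P)
    (u v Vuu Vuv Vvu Vvv Euu Euv Evu Evv : 𝔤)
    (nuv : K.IsNabla (K.met t h) p u v Vuv) (nvv : K.IsNabla (K.met t h) p v v Vvv)
    (euv : K.IsEta h p u v Euv) (evu : K.IsEta h p v u Evu) (evv : K.IsEta h p v v Evv) :
    K.num (K.met t h) p u v Vuu Vuv Vvu Vvv -
      (t * (K.ev p (K.D u (K.eta h v v u)) - K.ev p (K.D v (K.eta h u v u))
          - K.ev p (K.eta h (K.br u v) v u))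
        + (1 / 4) * ‖K.br u v‖ ^ 2
        + t ^ 2 * (inner ℝ Euv Evu - inner ℝ Evv Euu)) =
      - t * inner ℝ Evv (Vuu - (1 / 2 : ℝ) • K.br u u - t • Euu)
      + (1 / 2) * inner ℝ (K.br u v) (Vvu - (1 / 2 : ℝ) • K.br v u - t • Evu)
      + t * inner ℝ Euv (Vvu - (1 / 2 : ℝ) • K.br v u - t • Evu)
      - (t / 2) * K.ev p (h (K.br u v) (K.br u v)) := by
  have h1 : K.ev p (K.met t h Vvv Vuu) = t * inner ℝ Evv Vuu := by
    rw [nvv Vuu, K.expA_ev_eta_met, K.br_self, inner_zero_left, evv Vuu]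
    ring
  have h2 : K.ev p (K.met t h Vuv Vvu)
      = (1 / 2) * inner ℝ (K.br u v) Vvu + t * inner ℝ Euv Vvu := by
    rw [nuv Vvu, K.expA_ev_eta_met, euv Vvu]
  have h3 : (inner ℝ (K.br (K.br u v) v) u : ℝ) = - ‖K.br u v‖ ^ 2 := by
    rw [K.ad_inv, K.br_anti v u, inner_neg_right, real_inner_self_eq_norm_sq]
  have h4 : (inner ℝ Evu (K.br u v) : ℝ) - inner ℝ Euv (K.br u v)
      = - K.ev p (h (K.br u v) (K.br u v)) := by
    rw [evu (K.br u v), euv (K.br u v), ← map_sub, K.eta_torsion h v u _ hs, K.br_anti v u,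
      map_neg, LinearMap.neg_apply, map_neg]
  have h5 : (inner ℝ (K.br u v) Evu : ℝ) = inner ℝ Evu (K.br u v) := real_inner_comm _ _
  unfold num
  rw [K.expA_ev_D_eta_met, K.expA_ev_D_eta_met, K.expA_ev_eta_met, h1, h2, h3, K.br_self,
    K.br_anti v u]
  simp only [smul_zero, sub_zero, smul_neg, sub_neg_eq_add, inner_sub_right, inner_add_right,
    real_inner_smul_right]
  rw [real_inner_self_eq_norm_sq, h5]
  linear_combination (t / 2) * h4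

end Calc

variable [FiniteDimensional ℝ 𝔤]

namespace Pert

variable {K : Calc P 𝔤} (S : Pert K)

theorem num_expA (M : ℝ) : ∃ C : ℝ, 0 < C ∧ ∀ᶠ j in atTop, ∀ p u v, ‖u‖ ≤ M → ‖v‖ ≤ M →
    ‖K.br u v‖ ≤ M * S.t j → ∀ Vuu Vuv Vvu Vvv Euu Euv Evu Evv,
    K.IsNabla (K.met (S.t j) (S.h j)) p u u Vuu → K.IsNabla (K.met (S.t j) (S.h j)) p u v Vuv →
    K.IsNabla (K.met (S.t j) (S.h j)) p v u Vvu → K.IsNabla (K.met (S.t j) (S.h j)) p v v Vvv →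
    K.IsEta (S.h j) p u u Euu → K.IsEta (S.h j) p u v Euv → K.IsEta (S.h j) p v u Evu →
    K.IsEta (S.h j) p v v Evv →
    |K.num (K.met (S.t j) (S.h j)) p u v Vuu Vuv Vvu Vvv -
      (S.t j * (K.ev p (K.D u (K.eta (S.h j) v v u)) - K.ev p (K.D v (K.eta (S.h j) u v u))
          - K.ev p (K.eta (S.h j) (K.br u v) v u))
        + (1 / 4) * ‖K.br u v‖ ^ 2
        + S.t j ^ 2 * (inner ℝ Euv Evu - inner ℝ Evv Euu))| ≤ C * S.t j ^ 3 := by
  obtain ⟨C0, hC0, hest⟩ := S.nabla_est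
  refine ⟨2 * (C0 * M ^ 2) ^ 2 + (|M| / 2 + C0 * M ^ 2) * (2 * (C0 * M ^ 2) + |M| / 2)
    + M ^ 2 / 2 + 1, by positivity, ?_⟩
  have ht1 : ∀ᶠ j in atTop, S.t j ≤ 1 := by
    filter_upwards [(tendsto_order.1 S.t_lim).2 1 one_pos] with j hj
    exact hj.le
  filter_upwards [hest, ht1] with j hj hle p u v hu hv hw Vuu Vuv Vvu Vvv Euu Euv Evu Evv
    nuu nuv nvu nvv euu euv evu evv
  have hM : 0 ≤ M := (norm_nonneg u).trans hu
  have ht : 0 < S.t j := S.t_pos j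
  rw [K.expA_num (S.t j) (S.h j) (S.symm j) p u v Vuu Vuv Vvu Vvv Euu Euv Evu Evv
    nuv nvv euv evu evv, abs_of_nonneg hM]
  obtain ⟨v1, e1, d1⟩ := hj p u u Vuu Euu nuu euu
  obtain ⟨v2, e2, d2⟩ := hj p u v Vuv Euv nuv euv
  obtain ⟨v3, e3, d3⟩ := hj p v u Vvu Evu nvu evu
  obtain ⟨v4, e4, d4⟩ := hj p v v Vvv Evv nvv evv
  set t := S.t j with htdef
  set a := Vuu - (1 / 2 : ℝ) • K.br u u - t • Euu with ha
  set b := Vvu - (1 / 2 : ℝ) • K.br v u - t • Evu with hb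
  set w := K.br u v with hwdef
  set k := C0 * M ^ 2 with hk
  have hk0 : 0 ≤ k := by positivity
  have q : ∀ {x y : 𝔤}, ‖x‖ ≤ M → ‖y‖ ≤ M → C0 * ‖x‖ * ‖y‖ ≤ k := by
    intro x y hx hy
    have : ‖x‖ * ‖y‖ ≤ M * M := mul_le_mul hx hy (norm_nonneg _) hM
    calc C0 * ‖x‖ * ‖y‖ = C0 * (‖x‖ * ‖y‖) := by ring
      _ ≤ C0 * (M * M) := mul_le_mul_of_nonneg_left this hC0.le
      _ = k := by rw [hk]; ring
  have nVuu : ‖Vuu‖ ≤ k := v1.trans (q hu hu)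
  have nEuu : ‖Euu‖ ≤ k := e1.trans (q hu hu)
  have nEuv : ‖Euv‖ ≤ k := e2.trans (q hu hv)
  have nVvu : ‖Vvu‖ ≤ k := v3.trans (q hv hu)
  have nEvu : ‖Evu‖ ≤ k := e3.trans (q hv hu)
  have nEvv : ‖Evv‖ ≤ k := e4.trans (q hv hv)
  have nVuu2 : ‖Vuu‖ ≤ 2 * k * t := by
    have e : Vuu = a + t • Euu := by
      rw [ha, K.br_self]; simp
    have n1 : ‖t • Euu‖ ≤ t * k := by
      rw [norm_smul, Real.norm_of_nonneg ht.le]
      exact mul_le_mul_of_nonneg_left nEuu ht.le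
    have n2 : ‖a‖ ≤ t * k := d1.trans (mul_le_mul_of_nonneg_left nVuu ht.le)
    calc ‖Vuu‖ = ‖a + t • Euu‖ := by rw [← e]
      _ ≤ ‖a‖ + ‖t • Euu‖ := norm_add_le _ _
      _ ≤ 2 * k * t := by linarith
  have na : ‖a‖ ≤ 2 * k * t ^ 2 := by
    calc ‖a‖ ≤ t * ‖Vuu‖ := d1
      _ ≤ t * (2 * k * t) := mul_le_mul_of_nonneg_left nVuu2 ht.le
      _ = 2 * k * t ^ 2 := by ring
  have nVvu2 : ‖Vvu‖ ≤ (2 * k + M / 2) * t := by
    have e : Vvu = b - (1 / 2 : ℝ) • w + t • Evu := by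
      rw [hb, K.br_anti v u]
      simp only [smul_neg, sub_neg_eq_add]
      abel
    have n1 : ‖t • Evu‖ ≤ t * k := by
      rw [norm_smul, Real.norm_of_nonneg ht.le]
      exact mul_le_mul_of_nonneg_left nEvu ht.le
    have n2 : ‖b‖ ≤ t * k := d3.trans (mul_le_mul_of_nonneg_left nVvu ht.le)
    have n3 : ‖(1 / 2 : ℝ) • w‖ ≤ (1 / 2) * (M * t) := by
      rw [norm_smul, Real.norm_of_nonneg (by norm_num)]
      exact mul_le_mul_of_nonneg_left hw (by norm_num)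
    calc ‖Vvu‖ = ‖b - (1 / 2 : ℝ) • w + t • Evu‖ := by rw [← e]
      _ ≤ ‖b - (1 / 2 : ℝ) • w‖ + ‖t • Evu‖ := norm_add_le _ _
      _ ≤ ‖b‖ + ‖(1 / 2 : ℝ) • w‖ + ‖t • Evu‖ := by
          have := norm_sub_le b ((1 / 2 : ℝ) • w)
          linarith
      _ ≤ (2 * k + M / 2) * t := by linarith
  have nb : ‖b‖ ≤ (2 * k + M / 2) * t ^ 2 := by
    calc ‖b‖ ≤ t * ‖Vvu‖ := d3
      _ ≤ t * ((2 * k + M / 2) * t) := mul_le_mul_of_nonneg_left nVvu2 ht.le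
      _ = (2 * k + M / 2) * t ^ 2 := by ring
  have i1 : |(inner ℝ Evv a : ℝ)| ≤ k * (2 * k * t ^ 2) :=
    (abs_real_inner_le_norm _ _).trans (mul_le_mul nEvv na (norm_nonneg _) hk0)
  have i2 : |(inner ℝ w b : ℝ)| ≤ (M * t) * ((2 * k + M / 2) * t ^ 2) :=
    (abs_real_inner_le_norm _ _).trans (mul_le_mul hw nb (norm_nonneg _) (by positivity))
  have i3 : |(inner ℝ Euv b : ℝ)| ≤ k * ((2 * k + M / 2) * t ^ 2) :=
    (abs_real_inner_le_norm _ _).trans (mul_le_mul nEuv nb (norm_nonneg _) hk0)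
  have i4 : |K.ev p (S.h j w w)| ≤ (M * t) * (M * t) := by
    have := S.bound j [] (by simp) w w p
    simp only [Calc.Dl, List.foldr_nil, List.map_nil, List.prod_nil, one_mul] at this
    exact this.trans (mul_le_mul hw hw (norm_nonneg _) (by positivity))
  have j1 : |-t * (inner ℝ Evv a : ℝ)| ≤ t * (k * (2 * k * t ^ 2)) := by
    rw [abs_mul, abs_neg, abs_of_pos ht]
    exact mul_le_mul_of_nonneg_left i1 ht.le
  have j2 : |(1 / 2) * (inner ℝ w b : ℝ)| ≤ (1 / 2) * ((M * t) * ((2 * k + M / 2) * t ^ 2)) := by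
    rw [abs_mul, abs_of_pos (by norm_num : (0:ℝ) < 1 / 2)]
    exact mul_le_mul_of_nonneg_left i2 (by norm_num)
  have j3 : |t * (inner ℝ Euv b : ℝ)| ≤ t * (k * ((2 * k + M / 2) * t ^ 2)) := by
    rw [abs_mul, abs_of_pos ht]
    exact mul_le_mul_of_nonneg_left i3 ht.le
  have j4 : |(t / 2) * K.ev p (S.h j w w)| ≤ (t / 2) * ((M * t) * (M * t)) := by
    rw [abs_mul, abs_of_pos (by positivity)]
    exact mul_le_mul_of_nonneg_left i4 (by positivity)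
  have s1 := abs_sub (-t * (inner ℝ Evv a : ℝ) + (1 / 2) * (inner ℝ w b : ℝ)
    + t * (inner ℝ Euv b : ℝ)) ((t / 2) * K.ev p (S.h j w w))
  have s2 := abs_add_le (-t * (inner ℝ Evv a : ℝ) + (1 / 2) * (inner ℝ w b : ℝ))
    (t * (inner ℝ Euv b : ℝ))
  have s3 := abs_add_le (-t * (inner ℝ Evv a : ℝ)) ((1 / 2) * (inner ℝ w b : ℝ))
  have fin : t * (k * (2 * k * t ^ 2)) + (1 / 2) * ((M * t) * ((2 * k + M / 2) * t ^ 2))
      + t * (k * ((2 * k + M / 2) * t ^ 2)) + (t / 2) * ((M * t) * (M * t))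
      ≤ (2 * k ^ 2 + (M / 2 + k) * (2 * k + M / 2) + M ^ 2 / 2 + 1) * t ^ 3 := by
    have : 0 ≤ t ^ 3 := by positivity
    nlinarith
  linarith

end Pert

end Pool.Agent.H842R4
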