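import Pool.Agent.H842R4.Stmt2
import Pool.Agent.H842R4.Final

/-!
Second order rigidity of the bi-invariant metric of `SU(n)`, compact form of the definitions.
-/

open scoped ContDiff Matrix.Norms.Frobenius
open Matrix

noncomputable section

namespace Pool.Agent.H842R4.SUn

variable {n : ℕ}

/-- translation of a metric -/
def toOld (g : Metric n) : H842R4.Metric n where
  val p := LinearMap.mk₂ ℝ (fun A B : su n => g.val p A B)
    (fun A B C => g.add p A B C)
    (fun c A B => g.smul p c A B)
    (fun A B C => by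
      rw [g.symm p A, g.symm p A B, g.symm p A C]
      exact g.add p B C A)
    (fun c A B => by
      rw [g.symm p A, g.symm p A B]
      exact g.smul p c B A)
  symm := g.symm
  pos := g.pos
  smooth := g.smooth

theorem toOld_val (g : Metric n) (p : Pt n) (A B : Alg n) :
    (toOld g).val p A B = g.val p A B := rfl

theorem toOld_koszul (g : Metric n) (A B C : Alg n) (p : Pt n) :
    (toOld g).koszul A B C p = g.koszul A B C p := rfl

theorem toOld_nabla (g : Metric n) (A B : Alg n) (p : Pt n) :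
    (toOld g).nabla A B p = g.nabla A B p := rfl

theorem toOld_sec (g : Metric n) (A B : Alg n) (p : Pt n) :
    (toOld g).sec A B p = g.sec A B p := rfl

theorem toOld_close (g : Metric n) (t : ℝ) (h : g.CloseToBiinvariant t) :
    (toOld g).CloseToBiinvariant t := h

theorem main (n : ℕ) (hn : 3 ≤ n) (ε : ℝ) (hε : 0 < ε) :
    ∃ t₀ : ℝ, 0 < t₀ ∧ ∀ (g : Metric n) (t : ℝ), 0 < t → t ≤ t₀ → g.CloseToBiinvariant t →
      ∃ (p : Pt n) (A B : Alg n), LinearIndependent ℝ ![A, B] ∧ g.sec A B p ≤ ε * t ^ 2 := by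
  obtain ⟨t₀, h0, h⟩ := secondOrderRigid n hn ε hε
  refine ⟨t₀, h0, fun g t h1 h2 h3 => ?_⟩
  obtain ⟨p, A, B, h4, h5⟩ := h (toOld g) t h1 h2 (toOld_close g t h3)
  exact ⟨p, A, B, h4, h5⟩

end Pool.Agent.H842R4.SUn
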