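import Mathlib

/-!
Smoothness of `p ↦ ∫_0^{2π} w(s) F(p exp(s a)) ds` (task GrpInt, helper25).
-/

open MeasureTheory Filter Topology
open scoped ContDiff Convolution

noncomputable section

namespace Pool.Agent.H842R4

variable {𝔸 : Type} [NormedRing 𝔸] [NormedAlgebra ℝ 𝔸] [FiniteDimensional ℝ 𝔸]

theorem contDiff_exp_smul (a : 𝔸) : ContDiff ℝ ∞ (fun s : ℝ => NormedSpace.exp (s • a)) := by
  have : CompleteSpace 𝔸 := FiniteDimensional.complete ℝ 𝔸
  have h1 : ContDiff ℝ ∞ (NormedSpace.exp : 𝔸 → 𝔸) := by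
    rw [contDiff_iff_contDiffAt]
    intro x
    exact (NormedSpace.exp_analytic (𝕂 := ℝ) x).contDiffAt
  exact h1.comp (contDiff_id.smul contDiff_const)

theorem contDiff_int (F : 𝔸 → ℝ) (hF : ContDiff ℝ ∞ F) (a : 𝔸) (w : ℝ → ℝ) (hw : Continuous w) :
    ContDiff ℝ ∞ (fun p : 𝔸 => ∫ s in (0 : ℝ)..(2 * Real.pi),
      w s * F (p * NormedSpace.exp (s • a))) := by
  have hpi : (0 : ℝ) ≤ 2 * Real.pi := by positivity
  have hpi4 : Real.pi ≤ 4 := Real.pi_le_four
  let ψ : ContDiffBump (-Real.pi : ℝ) := ⟨4, 5, by norm_num, by norm_num⟩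
  let f : ℝ → ℝ := Set.indicator (Set.Ioc 0 (2 * Real.pi)) w
  let g : 𝔸 → ℝ → ℝ := fun p x => ψ x * F (p * NormedSpace.exp ((-x) • a))
  have hf : LocallyIntegrable f volume := by
    refine Integrable.locallyIntegrable ?_
    exact (integrable_indicator_iff measurableSet_Ioc).2
      ((hw.integrableOn_Icc (a := 0) (b := 2 * Real.pi)).mono_set Set.Ioc_subset_Icc_self)
  have hg : ContDiff ℝ ∞ (fun q : 𝔸 × ℝ => g q.1 q.2) := by
    have h1 : ContDiff ℝ ∞ (fun q : 𝔸 × ℝ => NormedSpace.exp ((-q.2) • a)) :=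
      (contDiff_exp_smul a).comp contDiff_snd.neg
    exact (ψ.contDiff.comp contDiff_snd).mul (hF.comp (contDiff_fst.mul h1))
  have hconv := contDiffOn_convolution_right_with_param (n := (⊤ : ℕ∞)) (μ := (volume : Measure ℝ))
    (ContinuousLinearMap.mul ℝ ℝ) (f := f) (g := g) (s := Set.univ)
    (k := Metric.closedBall (-Real.pi : ℝ) 5) isOpen_univ (isCompact_closedBall _ _) (by
      intro p x _ hx
      have : ψ x = 0 := by
        apply ψ.zero_of_le_dist
        have := hx
        rw [Metric.mem_closedBall, not_le] at this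
        exact this.le
      simp only [g, this, zero_mul]) hf (by
      rw [Set.univ_prod_univ]
      exact hg.contDiffOn)
  rw [Set.univ_prod_univ, contDiffOn_univ] at hconv
  have h2 : ContDiff ℝ ∞ (fun p : 𝔸 => (f ⋆[ContinuousLinearMap.mul ℝ ℝ, volume] g p) (0 : ℝ)) :=
    hconv.comp (contDiff_id.prodMk contDiff_const)
  suffices h3 : (fun p : 𝔸 => ∫ s in (0 : ℝ)..(2 * Real.pi), w s * F (p * NormedSpace.exp (s • a))) =
      fun p : 𝔸 => (f ⋆[ContinuousLinearMap.mul ℝ ℝ, volume] g p) (0 : ℝ) by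
    rw [h3]
    exact h2
  funext p
  symm
  rw [MeasureTheory.convolution, intervalIntegral.integral_of_le hpi,
    ← integral_indicator measurableSet_Ioc]
  refine integral_congr_ae (Filter.Eventually.of_forall fun t => ?_)
  simp only [f, g, ContinuousLinearMap.mul_apply', zero_sub, neg_neg]
  by_cases ht : t ∈ Set.Ioc 0 (2 * Real.pi)
  · rw [Set.indicator_of_mem ht, Set.indicator_of_mem ht]
    have : ψ (-t) = 1 := by
      apply ψ.one_of_mem_closedBall
      rw [Metric.mem_closedBall, Real.dist_eq, abs_le]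
      show -4 ≤ _ ∧ _ ≤ (4 : ℝ)
      constructor
      · linarith [ht.1, ht.2]
      · linarith [ht.1, ht.2]
    rw [this, one_mul]
  · rw [Set.indicator_of_notMem ht, Set.indicator_of_notMem ht, zero_mul]

end Pool.Agent.H842R4
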