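import Pool.Agent.H842R4.Defs

/-!
Algebraic identities of the linearised curvature.
-/

noncomputable section

set_option linter.unusedSimpArgs false

namespace Pool.Agent.H842R4

variable {P 𝔤 : Type} [NormedAddCommGroup 𝔤] [InnerProductSpace ℝ 𝔤]

namespace Calc

variable (K : Calc P 𝔤)

lemma br_comm_of (X Y V : 𝔤) (hXY : K.br X Y = 0) : K.br X (K.br Y V) = K.br Y (K.br X V) := by
  have h := K.jac X Y V
  rw [hXY] at h
  simpa using h

lemma br_br_left (V Y C : 𝔤) : K.br (K.br V Y) C = K.br C (K.br Y V) := by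
  rw [K.br_anti (K.br V Y) C, K.br_anti V Y]
  simp

lemma D_comm_of (X Y : 𝔤) (hXY : K.br X Y = 0) (f : K.𝒜) : K.D X (K.D Y f) = K.D Y (K.D X f) := by
  have h := K.D_br X Y f
  rw [hXY] at h
  simp only [map_zero, LinearMap.zero_apply] at h
  exact sub_eq_zero.1 h

theorem id1 (h : 𝔤 →ₗ[ℝ] 𝔤 →ₗ[ℝ] K.𝒜) (hs : ∀ A B, h A B = h B A) (X Y U : 𝔤)
    (hXY : K.br X Y = 0) :
    K.D U (K.eta h Y Y X) + K.D X (K.eta h Y Y U) - K.D Y (K.eta h U Y X)
      - K.D Y (K.eta h X Y U) - K.eta h (K.br U Y) Y X = (2 : ℝ) • K.R1 h X Y Y U := by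
  have hYX : K.br Y X = 0 := by rw [K.br_anti, hXY, neg_zero]
  have c1 := K.D_br U Y (h X Y)
  have c2 := K.D_br U X (h Y Y)
  have c3 := K.D_comm_of X Y hXY (h Y U)
  have j1 := K.br_comm_of X Y U hXY
  have a1 := K.br_anti U Y
  have a2 := K.br_anti U X
  have s1 := hs U X
  have s2 := hs U Y
  have s3 := hs X Y
  have s4 := hs (K.br Y U) X
  have s5 := hs (K.br Y U) Y
  have s6 := hs (K.br X U) Y
  have s7 := hs (K.br Y (K.br X U)) Y
  have s8 := hs (K.br Y (K.br Y U)) X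
  rw [a1] at c1
  rw [a2] at c2
  simp only [eta, R1, hXY, hYX, a1, a2, K.br_self, map_add, map_sub, map_neg, map_smul, map_zero,
    LinearMap.zero_apply, LinearMap.neg_apply, K.br_br_left, j1, s1, s2, s3, s4, s5, s6, s7, s8, neg_neg] at *
  linear_combination (norm := module) (1 : ℝ) • c1 - (1 / 2 : ℝ) • c2 - (1 : ℝ) • c3

theorem id2 (h : 𝔤 →ₗ[ℝ] 𝔤 →ₗ[ℝ] K.𝒜) (hs : ∀ A B, h A B = h B A) (X Y V : 𝔤)
    (hXY : K.br X Y = 0) :
    K.D X (K.eta h V Y X) + K.D X (K.eta h Y V X) - K.D V (K.eta h X Y X)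
      - K.D Y (K.eta h X V X) - K.eta h (K.br X V) Y X = (2 : ℝ) • K.R1 h Y X X V := by
  have hYX : K.br Y X = 0 := by rw [K.br_anti, hXY, neg_zero]
  have c1 := K.D_br V Y (h X X)
  have c2 := K.D_br V X (h Y X)
  have c3 := K.D_comm_of X Y hXY (h X V)
  have j1 := K.br_comm_of X Y V hXY
  have a1 := K.br_anti V Y
  have a2 := K.br_anti V X
  have s1 := hs V X
  have s2 := hs V Y
  have s3 := hs Y X
  have s4 := hs (K.br Y V) X
  have s5 := hs (K.br Y V) Y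
  have s6 := hs (K.br X V) Y
  have s7 := hs (K.br Y (K.br X V)) Y
  have s8 := hs (K.br Y (K.br Y V)) X
  have s9 := hs (K.br X V) X
  have s10 := hs (K.br Y (K.br X V)) X
  have s11 := hs (K.br X (K.br X V)) Y
  rw [a1] at c1
  rw [a2] at c2
  simp only [eta, R1, hXY, hYX, a1, a2, K.br_self, map_add, map_sub, map_neg, map_smul, map_zero,
    LinearMap.zero_apply, LinearMap.neg_apply, K.br_br_left, j1, s1, s2, s3, s4, s5, s6, s7, s8,
    s9, s10, s11, neg_neg] at *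
  linear_combination (norm := module) (-1/2 : ℝ) • c1 + (2 : ℝ) • c3

/-- The second Bianchi type identity for a root direction `Z` with `[W, Z] = 0`, `[B, Z] = J`,
`[B, J] = -Z`. -/
theorem idE1 (h : 𝔤 →ₗ[ℝ] 𝔤 →ₗ[ℝ] K.𝒜) (hs : ∀ A B, h A B = h B A) (B W Z J : 𝔤)
    (hBW : K.br B W = 0) (hWZ : K.br W Z = 0) (hWJ : K.br W J = 0) (hBZ : K.br B Z = J)
    (hBJ : K.br B J = - Z) :
    (1 / 4 : ℝ) • K.eta h W W Z =
      K.D W (K.R1 h W B B Z) + (K.D B (K.R1 h B W W Z) - (1 / 2 : ℝ) • K.R1 h B W W J)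
        - K.D Z (K.Q h B W) - K.R1 h B W W J := by
  have hWB : K.br W B = 0 := by rw [K.br_anti, hBW, neg_zero]
  have hZW : K.br Z W = 0 := by rw [K.br_anti, hWZ, neg_zero]
  have hJW : K.br J W = 0 := by rw [K.br_anti, hWJ, neg_zero]
  have hZB : K.br Z B = - J := by rw [K.br_anti, hBZ]
  have hJB : K.br J B = Z := by rw [K.br_anti, hBJ, neg_neg]
  have s1 := hs J W
  have s2 := hs J B
  have s3 := hs Z W
  have s4 := hs Z B
  have s5 := hs W B
  have cBW : ∀ f, K.D W (K.D B f) = K.D B (K.D W f) := fun f => (K.D_comm_of B W hBW f).symm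
  have cWZ : ∀ f, K.D W (K.D Z f) = K.D Z (K.D W f) := fun f => K.D_comm_of W Z hWZ f
  have cWJ : ∀ f, K.D W (K.D J f) = K.D J (K.D W f) := fun f => K.D_comm_of W J hWJ f
  have cBZ : ∀ f, K.D B (K.D Z f) = K.D Z (K.D B f) + K.D J f := fun f => by
    have := K.D_br B Z f
    rw [hBZ] at this
    exact sub_eq_iff_eq_add'.1 this
  have cBJ : ∀ f, K.D B (K.D J f) = K.D J (K.D B f) - K.D Z f := fun f => by
    have := K.D_br B J f
    rw [hBJ, map_neg, LinearMap.neg_apply] at this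
    rw [sub_eq_iff_eq_add'.1 this, sub_eq_add_neg]
  simp only [eta, R1, Q, hBW, hWB, hZW, hWZ, hJW, hWJ, hZB, hJB, hBZ, hBJ, K.br_self, map_add,
    map_sub, map_neg, map_smul, map_zero, LinearMap.zero_apply, LinearMap.neg_apply, s1, s2, s3, s4,
    s5, cBW, cWZ, cWJ, cBZ, cBJ, neg_neg]
  module

end Calc

end Pool.Agent.H842R4
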