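import Pool.Agent.H842R4.E2

/-!
`(1/4) η(W,W,Z) - D_W R₁(W,B,B,Z)` is small for a root vector `Z`. (helper18)
-/

open MeasureTheory Filter Topology

noncomputable section

namespace Pool.Agent.H842R4

variable {P 𝔤 : Type} [NormedAddCommGroup 𝔤] [InnerProductSpace ℝ 𝔤] [FiniteDimensional ℝ 𝔤]

namespace Pert

variable {K : Calc P 𝔤} (S : Pert K)

omit [FiniteDimensional ℝ 𝔤] in
theorem kap_brJ (K : Calc P 𝔤) {B W Z J : 𝔤} (hBW : K.br B W = 0) (hWZ : K.br W Z = 0)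
    (hBZ : K.br B Z = J) : K.br W J = 0 := by
  have hWB : K.br W B = 0 := by rw [K.br_anti, hBW, neg_zero]
  rw [← hBZ, K.jac W B Z, hWB, hWZ, map_zero, LinearMap.zero_apply, map_zero, add_zero]

theorem e2Z (B W Z J : 𝔤) (hBW : K.br B W = 0) (hB : K.Cl B) (hW : K.Cl W)
    (hi : LinearIndependent ℝ ![B, W]) (hWZ : K.br W Z = 0) (hBZ : K.br B Z = J)
    (hBJ : K.br B J = -Z) : K.sm (fun j => K.R1 (S.h j) B W W Z) := by
  have hJW : K.br J W = 0 := by rw [K.br_anti, kap_brJ K hBW hWZ hBZ, neg_zero]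
  have hJB : K.br J B = Z := by rw [K.br_anti, hBJ, neg_neg]
  have h := S.e2_small B W J hBW hB hW hi hJW
  rw [hJB] at h
  exact h

theorem e2J (B W Z J : 𝔤) (hBW : K.br B W = 0) (hB : K.Cl B) (hW : K.Cl W)
    (hi : LinearIndependent ℝ ![B, W]) (hWZ : K.br W Z = 0) (hBZ : K.br B Z = J)
    (hBJ : K.br B J = -Z) : K.sm (fun j => K.R1 (S.h j) B W W J) := by
  have hZW : K.br (-Z) W = 0 := by
    rw [map_neg, LinearMap.neg_apply, K.br_anti Z W, hWZ, neg_zero, neg_zero]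
  have hZB : K.br (-Z) B = J := by
    rw [map_neg, LinearMap.neg_apply, K.br_anti Z B, hBZ, neg_neg]
  have h := S.e2_small B W (-Z) hBW hB hW hi hZW
  rw [hZB] at h
  exact h

theorem kap_small (B W Z J : 𝔤) (hBW : K.br B W = 0) (hB : K.Cl B) (hW : K.Cl W)
    (hi : LinearIndependent ℝ ![B, W]) (hWZ : K.br W Z = 0) (hBZ : K.br B Z = J)
    (hBJ : K.br B J = -Z) :
    K.sm (fun j => (1 / 4 : ℝ) • K.eta (S.h j) W W Z - K.D W (K.R1 (S.h j) W B B Z)) := by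
  have hWJ : K.br W J = 0 := kap_brJ K hBW hWZ hBZ
  have h1 := S.e2Z B W Z J hBW hB hW hi hWZ hBZ hBJ
  have h2 := S.e2J B W Z J hBW hB hW hi hWZ hBZ hBJ
  have h3 : K.sm (fun j => K.D B (K.R1 (S.h j) B W W Z)) :=
    Calc.sm_D B _ h1 (S.bd_R1 [B, B] (by simp) B W W Z)
  have h4 : K.sm (fun j => K.D Z (K.Q (S.h j) B W)) :=
    Calc.sm_D Z _ (S.Q_small₁ B W hBW hB hW hi) (S.bd_Q [Z, Z] (by simp) B W)
  have h5 := (((h3.sub (h2.smul (1 / 2))).sub h4).sub h2)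
  refine h5.congr fun j => ?_
  have h6 := K.idE1 (S.h j) (S.symm j) B W Z J hBW hWZ hWJ hBZ hBJ
  rw [h6]
  module

end Pert

end Pool.Agent.H842R4
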