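import Pool.Agent.H842R4.JCore
import Pool.Agent.H842R4.Kap

/-!
The root part of the second order term.

PROOF. Apply `K.J_core` with `a₁ = η(B,B,Z)`, `a₂ = η(B,B,J)`, `b₁ = η(B,W,Z)`, `b₂ = η(B,W,J)`,
`c₁ = η(W,W,Z)`, `c₂ = η(W,W,J)`, `r₁ = R1 W B B Z`, `r₂ = R1 W B B J`. `br W J = 0` (Jacobi).
`R1 W B B Z = D_W η(B,B,Z) - (1/2) η(B,B,br W Z) - D_B η(W,B,Z) + (1/2) η(W,B,br B Z)` with
`br W Z = 0`, `br B Z = J`, `η(W,B,·) = η(B,W,·)` (`K.eta_comm_of`), so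
`r₁ = D_W a₁ - (D_B b₁ - b₂/2)`; with `J`: `br B J = -Z`, `r₂ = D_W a₂ - (D_B b₂ + b₁/2)`.
`e₁ = D_B c₁ - c₂/2 - D_W b₁ = R1 B W W Z` small by `S.e2Z`, `e₂ = R1 B W W J` small by `S.e2J`.
`κ₁` small by `S.kap_small` for `(Z, J)`; `κ₂` small by `S.kap_small` for `(J, -Z)`
(`br B J = -Z`, `br B (-Z) = -J`).
Bounds: `S.bd_eta` with `L = []`, `[B]`.
-/

open MeasureTheory Filter Topology

noncomputable section

namespace Pool.Agent.H842R4

variable {P 𝔤 : Type} [NormedAddCommGroup 𝔤] [InnerProductSpace ℝ 𝔤] [FiniteDimensional ℝ 𝔤]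

namespace Pert

variable {K : Calc P 𝔤} (S : Pert K)

theorem J_le (X Y B W Z J : 𝔤) (a b c d : ℝ) (hXY : K.br X Y = 0) (hX : K.Cl X) (hY : K.Cl Y)
    (hB : B = a • X + b • Y) (hW : W = c • X + d • Y) (cB : K.Cl B) (cW : K.Cl W)
    (hi : LinearIndependent ℝ ![B, W]) (hWZ : K.br W Z = 0) (hBZ : K.br B Z = J)
    (hBJ : K.br B J = -Z) :
    ∀ ε' : ℝ, 0 < ε' → ∀ᶠ j in atTop, ∀ p,
      K.ev p (K.Av X (K.Av Y (K.eta (S.h j) B W Z ^ 2 + K.eta (S.h j) B W J ^ 2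
        - K.eta (S.h j) B B Z * K.eta (S.h j) W W Z - K.eta (S.h j) B B J * K.eta (S.h j) W W J
        - (4 : ℝ) • (K.R1 (S.h j) W B B Z ^ 2 + K.R1 (S.h j) W B B J ^ 2)))) ≤ ε' := by
  have hYX : K.br Y X = 0 := by rw [K.br_anti, hXY, neg_zero]
  have hBW : K.br B W = 0 := by
    rw [hB, hW]
    simp only [map_add, map_smul, LinearMap.add_apply, LinearMap.smul_apply, K.br_self, hXY, hYX,
      smul_zero, add_zero]
  have hWB : K.br W B = 0 := by rw [K.br_anti, hBW, neg_zero]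
  have hWJ : K.br W J = 0 := by
    have h := K.jac W B Z
    rw [hBZ, hWB, hWZ] at h
    simpa using h
  have hBnZ : K.br B (-Z) = -J := by rw [map_neg, hBZ]
  have bdη : ∀ C D E : 𝔤, K.bd (fun j => K.eta (S.h j) C D E) := fun C D E => by
    have h := S.bd_eta [] (by simp) C D E
    simpa [Calc.Dl] using h
  have bdDη : ∀ A C D E : 𝔤, K.bd (fun j => K.D A (K.eta (S.h j) C D E)) := fun A C D E => by
    have h := S.bd_eta [A] (by simp) C D E
    simpa [Calc.Dl] using h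
  refine K.J_core X Y B W a b c d hXY hX hY hB hW cB cW
    (fun j => K.eta (S.h j) B B Z) (fun j => K.eta (S.h j) B B J)
    (fun j => K.eta (S.h j) B W Z) (fun j => K.eta (S.h j) B W J)
    (fun j => K.eta (S.h j) W W Z) (fun j => K.eta (S.h j) W W J)
    (fun j => K.R1 (S.h j) W B B Z) (fun j => K.R1 (S.h j) W B B J)
    ?_ ?_ (bdη _ _ _) (bdη _ _ _) (bdη _ _ _) (bdη _ _ _) (bdDη _ _ _ _) (bdDη _ _ _ _)
    ?_ ?_ ?_ ?_
  · intro j
    simp only [Calc.R1, Calc.Dt1, hWZ, hBZ, K.eta_zero_right]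
    rw [K.eta_comm_of (S.h j) W B Z (S.symm j) hWB, K.eta_comm_of (S.h j) W B J (S.symm j) hWB]
    module
  · intro j
    simp only [Calc.R1, Calc.Dt2, hWJ, hBJ, K.eta_zero_right, K.eta_neg_right]
    rw [K.eta_comm_of (S.h j) W B Z (S.symm j) hWB, K.eta_comm_of (S.h j) W B J (S.symm j) hWB]
    module
  · refine (S.e2Z B W Z J hBW cB cW hi hWZ hBZ hBJ).congr fun j => ?_
    simp only [Calc.R1, Calc.Dt1, hWZ, hBZ, K.eta_zero_right]
    module
  · refine (S.e2J B W Z J hBW cB cW hi hWZ hBZ hBJ).congr fun j => ?_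
    simp only [Calc.R1, Calc.Dt2, hWJ, hBJ, K.eta_zero_right, K.eta_neg_right]
    module
  · exact S.kap_small B W Z J hBW cB cW hi hWZ hBZ hBJ
  · exact S.kap_small B W J (-Z) hBW cB cW hi hWJ hBJ hBnZ

end Pert

end Pool.Agent.H842R4
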