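import Pool.Agent.H842R4.Wirt

/-!
The main inequality on a closed torus, for one root.

SETTING. `X, Y` closed commuting, `E f := K.Av X (K.Av Y f)` (average over the torus);
`B = a X + b Y`, `W = c X + d Y` closed. Sequences `a₁ a₂ b₁ b₂ c₁ c₂ : ℕ → 𝒜`; write for a pair
`f = (f₁, f₂)`: `Dt f := (D_B f₁ - f₂/2, D_B f₂ + f₁/2)`.
`r := D_W a - Dt b`, `e := Dt c - D_W b`, `κ := c/4 - D_W r`. Hypotheses: `a, b, D_B b` bounded,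
`e`, `κ` small. Claim: `E (∑ᵢ bᵢ² - aᵢ cᵢ - 4 rᵢ²) ≤ ε'` eventually.
-/

open MeasureTheory Filter Topology

noncomputable section

namespace Pool.Agent.H842R4

variable {P 𝔤 : Type} [NormedAddCommGroup 𝔤] [InnerProductSpace ℝ 𝔤]

namespace Calc

variable (K : Calc P 𝔤)

/-- first component of `Dt` -/
def Dt1 (B : 𝔤) (f₁ f₂ : K.𝒜) : K.𝒜 := K.D B f₁ - (1 / 2 : ℝ) • f₂

/-- second component of `Dt` -/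
def Dt2 (B : 𝔤) (f₁ f₂ : K.𝒜) : K.𝒜 := K.D B f₂ + (1 / 2 : ℝ) • f₁

lemma jc_D_comm {B W : 𝔤} (h : K.br B W = 0) (f : K.𝒜) :
    K.D B (K.D W f) = K.D W (K.D B f) := by
  have := K.D_br B W f
  rw [h] at this
  simpa [sub_eq_zero] using this

/-- the average over the torus, evaluated at a point -/
def jcL (X Y : 𝔤) (p : P) : K.𝒜 →ₗ[ℝ] ℝ :=
  ((K.ev p).toLinearMap.comp (K.Av X)).comp (K.Av Y)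

lemma jcL_apply (X Y : 𝔤) (p : P) (f : K.𝒜) :
    K.jcL X Y p f = K.ev p (K.Av X (K.Av Y f)) := rfl

theorem jc_fixed (X Y B W : 𝔤) (a b c d : ℝ) (hXY : K.br X Y = 0) (hX : K.Cl X) (hY : K.Cl Y)
    (hB : B = a • X + b • Y) (hW : W = c • X + d • Y) (cB : K.Cl B) (cW : K.Cl W)
    (a₁ a₂ b₁ b₂ c₁ c₂ r₁ r₂ e₁ e₂ κ₁ κ₂ : K.𝒜)
    (hr₁ : r₁ = K.D W a₁ - K.Dt1 B b₁ b₂) (hr₂ : r₂ = K.D W a₂ - K.Dt2 B b₁ b₂)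
    (he₁ : K.Dt1 B c₁ c₂ - K.D W b₁ = e₁) (he₂ : K.Dt2 B c₁ c₂ - K.D W b₂ = e₂)
    (hκ₁ : (1 / 4 : ℝ) • c₁ - K.D W r₁ = κ₁) (hκ₂ : (1 / 4 : ℝ) • c₂ - K.D W r₂ = κ₂) (p : P) :
    K.jcL X Y p (b₁ ^ 2 + b₂ ^ 2 - a₁ * c₁ - a₂ * c₂ - (4 : ℝ) • (r₁ ^ 2 + r₂ ^ 2)) ≤
    K.jcL X Y p (-(b₁ * K.Pr W e₁ + b₂ * K.Pr W e₂)
      - (4 : ℝ) • (K.Dt1 B b₁ b₂ * K.Pr W κ₁ + K.Dt2 B b₁ b₂ * K.Pr W κ₂)
      - (4 : ℝ) • (a₁ * κ₁ + a₂ * κ₂)) := by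
  have hYX : K.br Y X = 0 := by rw [K.br_anti, hXY, neg_zero]
  have hBW : K.br B W = 0 := by
    rw [hB, hW]
    simp [K.br_self, hXY, hYX]
  have hWB : K.br W B = 0 := by rw [K.br_anti, hBW, neg_zero]
  -- integration by parts
  have pB : ∀ f g : K.𝒜, K.jcL X Y p (f * K.D B g) = - K.jcL X Y p (K.D B f * g) := by
    intro f g
    rw [jcL_apply, jcL_apply, hB, K.Av_Av_parts X Y hXY hX hY a b f g, map_neg]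
  have pW : ∀ f g : K.𝒜, K.jcL X Y p (f * K.D W g) = - K.jcL X Y p (K.D W f * g) := by
    intro f g
    rw [jcL_apply, jcL_apply, hW, K.Av_Av_parts X Y hXY hX hY c d f g, map_neg]
  -- invariance
  have iW : ∀ f : K.𝒜, K.jcL X Y p (K.Av W f) = K.jcL X Y p f := by
    intro f
    rw [jcL_apply, jcL_apply, hW, K.Av_Av_Av X Y hXY hX hY c d f]
  have iB : ∀ f : K.𝒜, K.jcL X Y p (K.Av B f) = K.jcL X Y p f := by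
    intro f
    rw [jcL_apply, jcL_apply, hB, K.Av_Av_Av X Y hXY hX hY a b f]
  -- Dt is skew
  have skew : ∀ f₁ f₂ g₁ g₂ : K.𝒜,
      K.jcL X Y p (K.Dt1 B f₁ f₂ * g₁ + K.Dt2 B f₁ f₂ * g₂) =
      - K.jcL X Y p (f₁ * K.Dt1 B g₁ g₂ + f₂ * K.Dt2 B g₁ g₂) := by
    intro f₁ f₂ g₁ g₂
    have h1 : K.Dt1 B f₁ f₂ * g₁ + K.Dt2 B f₁ f₂ * g₂ =
        K.D B f₁ * g₁ + K.D B f₂ * g₂ + (1 / 2 : ℝ) • (f₁ * g₂ - f₂ * g₁) := by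
      apply K.ext_ev
      intro q
      simp only [Dt1, Dt2, map_add, map_sub, map_mul, map_smul, smul_eq_mul]
      ring
    have h2 : f₁ * K.Dt1 B g₁ g₂ + f₂ * K.Dt2 B g₁ g₂ =
        f₁ * K.D B g₁ + f₂ * K.D B g₂ - (1 / 2 : ℝ) • (f₁ * g₂ - f₂ * g₁) := by
      apply K.ext_ev
      intro q
      simp only [Dt1, Dt2, map_add, map_sub, map_mul, map_smul, smul_eq_mul]
      ring
    rw [h1, h2]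
    simp only [map_add, map_sub, map_smul, smul_eq_mul, pB]
    ring
  -- the commutations
  have DtW1 : ∀ f₁ f₂ : K.𝒜, K.D W (K.Dt1 B f₁ f₂) = K.Dt1 B (K.D W f₁) (K.D W f₂) := by
    intro f₁ f₂
    simp only [Dt1, map_sub, map_smul, K.jc_D_comm hBW]
  have DtW2 : ∀ f₁ f₂ : K.𝒜, K.D W (K.Dt2 B f₁ f₂) = K.Dt2 B (K.D W f₁) (K.D W f₂) := by
    intro f₁ f₂
    simp only [Dt2, map_add, map_smul, K.jc_D_comm hBW]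
  have DtP1 : ∀ f₁ f₂ : K.𝒜, K.Av W (K.Dt1 B f₁ f₂) = K.Dt1 B (K.Av W f₁) (K.Av W f₂) := by
    intro f₁ f₂
    simp only [Dt1, map_sub, map_smul, K.D_Av_comm W B hWB]
  have DtP2 : ∀ f₁ f₂ : K.𝒜, K.Av W (K.Dt2 B f₁ f₂) = K.Dt2 B (K.Av W f₁) (K.Av W f₂) := by
    intro f₁ f₂
    simp only [Dt2, map_add, map_smul, K.D_Av_comm W B hWB]
  have DtQ1 : ∀ f₁ f₂ : K.𝒜, K.Pr W (K.Dt1 B f₁ f₂) = K.Dt1 B (K.Pr W f₁) (K.Pr W f₂) := by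
    intro f₁ f₂
    simp only [Dt1, map_sub, map_smul, K.D_Pr_comm W B hWB]
  have DtQ2 : ∀ f₁ f₂ : K.𝒜, K.Pr W (K.Dt2 B f₁ f₂) = K.Dt2 B (K.Pr W f₁) (K.Pr W f₂) := by
    intro f₁ f₂
    simp only [Dt2, map_add, map_smul, K.D_Pr_comm W B hWB]
  -- step 1, 2
  obtain ⟨q₁, hq₁⟩ : ∃ q, q = b₁ - (4 : ℝ) • K.Dt1 B r₁ r₂ := ⟨_, rfl⟩
  obtain ⟨q₂, hq₂⟩ : ∃ q, q = b₂ - (4 : ℝ) • K.Dt2 B r₁ r₂ := ⟨_, rfl⟩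
  have hc₁ : c₁ = (4 : ℝ) • κ₁ + (4 : ℝ) • K.D W r₁ := by rw [← hκ₁]; module
  have hc₂ : c₂ = (4 : ℝ) • κ₂ + (4 : ℝ) • K.D W r₂ := by rw [← hκ₂]; module
  have hWa₁ : K.D W a₁ = r₁ + K.Dt1 B b₁ b₂ := by rw [hr₁]; abel
  have hWa₂ : K.D W a₂ = r₂ + K.Dt2 B b₁ b₂ := by rw [hr₂]; abel
  have s1 : K.jcL X Y p (b₁ ^ 2 + b₂ ^ 2 - a₁ * c₁ - a₂ * c₂ - (4 : ℝ) • (r₁ ^ 2 + r₂ ^ 2)) =
      K.jcL X Y p (b₁ * q₁ + b₂ * q₂) - 4 * K.jcL X Y p (a₁ * κ₁ + a₂ * κ₂) := by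
    have h1 : b₁ ^ 2 + b₂ ^ 2 - a₁ * c₁ - a₂ * c₂ - (4 : ℝ) • (r₁ ^ 2 + r₂ ^ 2) =
        (b₁ ^ 2 + b₂ ^ 2) - (4 : ℝ) • (a₁ * κ₁ + a₂ * κ₂)
          - (4 : ℝ) • (a₁ * K.D W r₁ + a₂ * K.D W r₂) - (4 : ℝ) • (r₁ ^ 2 + r₂ ^ 2) := by
      apply K.ext_ev
      intro q
      rw [hc₁, hc₂]
      simp only [map_add, map_sub, map_mul, map_smul, map_pow, smul_eq_mul]
      ring
    have h2 : b₁ * q₁ + b₂ * q₂ = (b₁ ^ 2 + b₂ ^ 2)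
        - (4 : ℝ) • (b₁ * K.Dt1 B r₁ r₂ + b₂ * K.Dt2 B r₁ r₂) := by
      apply K.ext_ev
      intro q
      rw [hq₁, hq₂]
      simp only [map_add, map_sub, map_mul, map_smul, map_pow, smul_eq_mul]
      ring
    have h3 : K.jcL X Y p (a₁ * K.D W r₁ + a₂ * K.D W r₂) =
        - K.jcL X Y p (r₁ ^ 2 + r₂ ^ 2)
          - K.jcL X Y p (K.Dt1 B b₁ b₂ * r₁ + K.Dt2 B b₁ b₂ * r₂) := by
      rw [map_add, pW, pW, hWa₁, hWa₂]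
      have : (r₁ ^ 2 + r₂ ^ 2) + (K.Dt1 B b₁ b₂ * r₁ + K.Dt2 B b₁ b₂ * r₂) =
          (r₁ + K.Dt1 B b₁ b₂) * r₁ + (r₂ + K.Dt2 B b₁ b₂) * r₂ := by ring
      have h4 := congrArg (K.jcL X Y p) this
      rw [map_add, map_add _ ((r₁ + K.Dt1 B b₁ b₂) * r₁)] at h4
      linarith
    rw [h1, h2]
    rw [map_sub, map_sub, map_sub, map_sub, map_smul, map_smul, map_smul, map_smul, h3, skew]
    simp only [smul_eq_mul]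
    ring
  -- step 3
  have dq₁ : K.D W q₁ = - e₁ + (4 : ℝ) • K.Dt1 B κ₁ κ₂ := by
    rw [hq₁, map_sub, map_smul, DtW1, ← he₁, ← hκ₁, ← hκ₂]
    simp only [Dt1, map_sub, map_smul]
    module
  have dq₂ : K.D W q₂ = - e₂ + (4 : ℝ) • K.Dt2 B κ₁ κ₂ := by
    rw [hq₂, map_sub, map_smul, DtW2, ← he₂, ← hκ₁, ← hκ₂]
    simp only [Dt2, map_sub, map_smul]
    module
  have qP₁ : q₁ - K.Av W q₁ = - K.Pr W e₁ + (4 : ℝ) • K.Dt1 B (K.Pr W κ₁) (K.Pr W κ₂) := by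
    rw [← K.Pr_D_self W cW, dq₁, map_add, map_neg, map_smul, DtQ1]
  have qP₂ : q₂ - K.Av W q₂ = - K.Pr W e₂ + (4 : ℝ) • K.Dt2 B (K.Pr W κ₁) (K.Pr W κ₂) := by
    rw [← K.Pr_D_self W cW, dq₂, map_add, map_neg, map_smul, DtQ2]
  have s3 : K.jcL X Y p (b₁ * q₁ + b₂ * q₂) = K.jcL X Y p (b₁ * K.Av W q₁ + b₂ * K.Av W q₂)
      - K.jcL X Y p (b₁ * K.Pr W e₁ + b₂ * K.Pr W e₂)
      - 4 * K.jcL X Y p (K.Dt1 B b₁ b₂ * K.Pr W κ₁ + K.Dt2 B b₁ b₂ * K.Pr W κ₂) := by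
    have h1 : b₁ * q₁ + b₂ * q₂ = (b₁ * K.Av W q₁ + b₂ * K.Av W q₂)
        - (b₁ * K.Pr W e₁ + b₂ * K.Pr W e₂)
        + (4 : ℝ) • (b₁ * K.Dt1 B (K.Pr W κ₁) (K.Pr W κ₂)
          + b₂ * K.Dt2 B (K.Pr W κ₁) (K.Pr W κ₂)) := by
      have h2 : q₁ = K.Av W q₁ + (q₁ - K.Av W q₁) := by abel
      have h3 : q₂ = K.Av W q₂ + (q₂ - K.Av W q₂) := by abel
      rw [qP₁] at h2
      rw [qP₂] at h3
      apply K.ext_ev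
      intro q
      have h2' := congrArg (K.ev q) h2
      have h3' := congrArg (K.ev q) h3
      simp only [map_add, map_sub, map_mul, map_smul, map_pow, map_neg, smul_eq_mul] at h2' h3' ⊢
      rw [h2', h3']
      ring
    rw [h1, map_add, map_sub, map_smul, skew]
    simp only [smul_eq_mul]
    ring
  -- step 4
  have s4 : K.jcL X Y p (b₁ * K.Av W q₁ + b₂ * K.Av W q₂) =
      K.jcL X Y p (K.Av W b₁ * K.Av W q₁ + K.Av W b₂ * K.Av W q₂) := by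
    rw [← iW (b₁ * K.Av W q₁ + b₂ * K.Av W q₂), map_add (K.Av W), mul_comm b₁, mul_comm b₂,
      K.Av_mul_Av W cW, K.Av_mul_Av W cW, mul_comm (K.Av W b₁), mul_comm (K.Av W b₂)]
  have Pr₁ : K.Av W r₁ = - K.Dt1 B (K.Av W b₁) (K.Av W b₂) := by
    rw [hr₁, map_sub, K.Av_D W cW, DtP1, zero_sub]
  have Pr₂ : K.Av W r₂ = - K.Dt2 B (K.Av W b₁) (K.Av W b₂) := by
    rw [hr₂, map_sub, K.Av_D W cW, DtP2, zero_sub]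
  obtain ⟨f₁, hf₁⟩ : ∃ f, f = K.Av W b₁ := ⟨_, rfl⟩
  obtain ⟨f₂, hf₂⟩ : ∃ f, f = K.Av W b₂ := ⟨_, rfl⟩
  rw [← hf₁, ← hf₂] at Pr₁ Pr₂ s4
  have Pq₁ : K.Av W q₁ = f₁ + (4 : ℝ) • K.Dt1 B (K.Dt1 B f₁ f₂) (K.Dt2 B f₁ f₂) := by
    rw [hq₁, map_sub, map_smul, DtP1, Pr₁, Pr₂, ← hf₁]
    simp only [Dt1, Dt2, map_neg]
    module
  have Pq₂ : K.Av W q₂ = f₂ + (4 : ℝ) • K.Dt2 B (K.Dt1 B f₁ f₂) (K.Dt2 B f₁ f₂) := by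
    rw [hq₂, map_sub, map_smul, DtP2, Pr₁, Pr₂, ← hf₂]
    simp only [Dt1, Dt2, map_neg]
    module
  have s5 : K.jcL X Y p (f₁ * K.Av W q₁ + f₂ * K.Av W q₂) =
      K.jcL X Y p (f₁ ^ 2 + f₂ ^ 2)
        - 4 * K.jcL X Y p (K.Dt1 B f₁ f₂ ^ 2 + K.Dt2 B f₁ f₂ ^ 2) := by
    have h1 : f₁ * K.Av W q₁ + f₂ * K.Av W q₂ = (f₁ ^ 2 + f₂ ^ 2)
        + (4 : ℝ) • (f₁ * K.Dt1 B (K.Dt1 B f₁ f₂) (K.Dt2 B f₁ f₂)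
          + f₂ * K.Dt2 B (K.Dt1 B f₁ f₂) (K.Dt2 B f₁ f₂)) := by
      rw [Pq₁, Pq₂]
      apply K.ext_ev
      intro q
      simp only [map_add, map_mul, map_smul, map_pow, smul_eq_mul]
      ring
    have h2 := skew f₁ f₂ (K.Dt1 B f₁ f₂) (K.Dt2 B f₁ f₂)
    rw [h1, map_add, map_smul, smul_eq_mul, sq (K.Dt1 B f₁ f₂), sq (K.Dt2 B f₁ f₂)]
    linarith
  have s6 : 0 ≤ K.jcL X Y p (K.Dt1 B f₁ f₂ ^ 2 + K.Dt2 B f₁ f₂ ^ 2)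
      - (1 / 4) * K.jcL X Y p (f₁ ^ 2 + f₂ ^ 2) := by
    have h1 : ∀ q, K.ev q 0 ≤ K.ev q (K.Av B ((K.D B f₁ - (1 / 2 : ℝ) • f₂) ^ 2
        + (K.D B f₂ + (1 / 2 : ℝ) • f₁) ^ 2 - (1 / 4 : ℝ) • (f₁ ^ 2 + f₂ ^ 2))) := by
      intro q
      rw [map_zero]
      exact K.av_wirt B cB f₁ f₂ q
    have h2 := K.Av_mono X _ _ (fun q => K.Av_mono Y _ _ h1 q) p
    rw [map_zero, map_zero, map_zero, ← jcL_apply, iB, map_sub, map_smul, smul_eq_mul] at h2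
    exact h2
  have e0 : K.jcL X Y p (-(b₁ * K.Pr W e₁ + b₂ * K.Pr W e₂)
      - (4 : ℝ) • (K.Dt1 B b₁ b₂ * K.Pr W κ₁ + K.Dt2 B b₁ b₂ * K.Pr W κ₂)
      - (4 : ℝ) • (a₁ * κ₁ + a₂ * κ₂)) =
      - K.jcL X Y p (b₁ * K.Pr W e₁ + b₂ * K.Pr W e₂)
      - 4 * K.jcL X Y p (K.Dt1 B b₁ b₂ * K.Pr W κ₁ + K.Dt2 B b₁ b₂ * K.Pr W κ₂)
      - 4 * K.jcL X Y p (a₁ * κ₁ + a₂ * κ₂) := by
    rw [map_sub, map_sub, map_neg, map_smul, map_smul, smul_eq_mul, smul_eq_mul]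
  rw [e0, s1, s3, s4, s5]
  linarith

theorem J_core (X Y B W : 𝔤) (a b c d : ℝ) (hXY : K.br X Y = 0) (hX : K.Cl X) (hY : K.Cl Y)
    (hB : B = a • X + b • Y) (hW : W = c • X + d • Y) (cB : K.Cl B) (cW : K.Cl W)
    (a₁ a₂ b₁ b₂ c₁ c₂ r₁ r₂ : ℕ → K.𝒜)
    (hr₁ : ∀ j, r₁ j = K.D W (a₁ j) - K.Dt1 B (b₁ j) (b₂ j))
    (hr₂ : ∀ j, r₂ j = K.D W (a₂ j) - K.Dt2 B (b₁ j) (b₂ j))
    (ba₁ : K.bd a₁) (ba₂ : K.bd a₂) (bb₁ : K.bd b₁) (bb₂ : K.bd b₂)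
    (bDb₁ : K.bd (fun j => K.D B (b₁ j))) (bDb₂ : K.bd (fun j => K.D B (b₂ j)))
    (he₁ : K.sm (fun j => K.Dt1 B (c₁ j) (c₂ j) - K.D W (b₁ j)))
    (he₂ : K.sm (fun j => K.Dt2 B (c₁ j) (c₂ j) - K.D W (b₂ j)))
    (hκ₁ : K.sm (fun j => (1 / 4 : ℝ) • c₁ j - K.D W (r₁ j)))
    (hκ₂ : K.sm (fun j => (1 / 4 : ℝ) • c₂ j - K.D W (r₂ j))) :
    ∀ ε' : ℝ, 0 < ε' → ∀ᶠ j in atTop, ∀ p,
      K.ev p (K.Av X (K.Av Y (b₁ j ^ 2 + b₂ j ^ 2 - a₁ j * c₁ j - a₂ j * c₂ j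
        - (4 : ℝ) • (r₁ j ^ 2 + r₂ j ^ 2)))) ≤ ε' := by
  have bD1 : K.bd (fun j => K.Dt1 B (b₁ j) (b₂ j)) := bDb₁.sub (bb₂.smul _)
  have bD2 : K.bd (fun j => K.Dt2 B (b₁ j) (b₂ j)) := bDb₂.add (bb₁.smul _)
  have hs : K.sm (fun j => K.Av X (K.Av Y
      (-(b₁ j * K.Pr W (K.Dt1 B (c₁ j) (c₂ j) - K.D W (b₁ j))
          + b₂ j * K.Pr W (K.Dt2 B (c₁ j) (c₂ j) - K.D W (b₂ j)))
        - (4 : ℝ) • (K.Dt1 B (b₁ j) (b₂ j) * K.Pr W ((1 / 4 : ℝ) • c₁ j - K.D W (r₁ j))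
          + K.Dt2 B (b₁ j) (b₂ j) * K.Pr W ((1 / 4 : ℝ) • c₂ j - K.D W (r₂ j)))
        - (4 : ℝ) • (a₁ j * ((1 / 4 : ℝ) • c₁ j - K.D W (r₁ j))
          + a₂ j * ((1 / 4 : ℝ) • c₂ j - K.D W (r₂ j)))))) := by
    refine sm_Av X (sm_Av Y ?_)
    refine ((sm.neg ?_).sub (sm.smul 4 ?_)).sub (sm.smul 4 ?_)
    · exact (sm.bd_mul bb₁ (sm_Pr W he₁)).add (sm.bd_mul bb₂ (sm_Pr W he₂))
    · exact (sm.bd_mul bD1 (sm_Pr W hκ₁)).add (sm.bd_mul bD2 (sm_Pr W hκ₂))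
    · exact (sm.bd_mul ba₁ hκ₁).add (sm.bd_mul ba₂ hκ₂)
  intro ε' hε'
  filter_upwards [hs ε' hε'] with j hj p
  have h1 := K.jc_fixed X Y B W a b c d hXY hX hY hB hW cB cW (a₁ j) (a₂ j) (b₁ j) (b₂ j)
    (c₁ j) (c₂ j) (r₁ j) (r₂ j) _ _ _ _ (hr₁ j) (hr₂ j) rfl rfl rfl rfl p
  rw [jcL_apply, jcL_apply] at h1
  exact h1.trans ((le_abs_self _).trans (hj p))

end Calc

end Pool.Agent.H842R4
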