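import Pool.Agent.H842R4.Base

/-!
Closure properties of uniformly bounded and uniformly small sequences; linearity of `eta`.
-/

open MeasureTheory Filter Topology

noncomputable section

set_option linter.unusedSimpArgs false

namespace Pool.Agent.H842R4

section lim

variable {ι : Type} {f g : ℕ → ι → ℝ}

lemma Bd.add (hf : Bd f) (hg : Bd g) : Bd (fun j i => f j i + g j i) := by
  obtain ⟨C, hC⟩ := hf
  obtain ⟨C', hC'⟩ := hg
  exact ⟨C + C', fun j i => (abs_add_le _ _).trans (add_le_add (hC j i) (hC' j i))⟩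

lemma Bd.neg (hf : Bd f) : Bd (fun j i => - f j i) := by
  obtain ⟨C, hC⟩ := hf
  exact ⟨C, fun j i => by rw [abs_neg]; exact hC j i⟩

lemma Bd.sub (hf : Bd f) (hg : Bd g) : Bd (fun j i => f j i - g j i) := by
  simpa [sub_eq_add_neg] using hf.add hg.neg

lemma Bd.mul (hf : Bd f) (hg : Bd g) : Bd (fun j i => f j i * g j i) := by
  obtain ⟨C, hC⟩ := hf
  obtain ⟨C', hC'⟩ := hg
  refine ⟨|C| * |C'|, fun j i => ?_⟩
  rw [abs_mul]
  exact mul_le_mul ((hC j i).trans (le_abs_self _)) ((hC' j i).trans (le_abs_self _))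
    (abs_nonneg _) (abs_nonneg _)

lemma Bd.const (c : ℝ) : Bd (fun (_ : ℕ) (_ : ι) => c) := ⟨|c|, fun _ _ => le_rfl⟩

lemma Bd.const_mul (c : ℝ) (hf : Bd f) : Bd (fun j i => c * f j i) := (Bd.const c).mul hf

lemma Bd.comp {κ : Type} (hf : Bd f) (φ : κ → ι) : Bd (fun j k => f j (φ k)) := by
  obtain ⟨C, hC⟩ := hf
  exact ⟨C, fun j k => hC j (φ k)⟩

lemma Bd.exists_pos (hf : Bd f) : ∃ C : ℝ, 0 < C ∧ ∀ j i, |f j i| ≤ C := by
  obtain ⟨C, hC⟩ := hf
  exact ⟨|C| + 1, by positivity, fun j i => (hC j i).trans ((le_abs_self _).trans (by linarith))⟩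

lemma Sm.add (hf : Sm f) (hg : Sm g) : Sm (fun j i => f j i + g j i) := by
  intro ε hε
  filter_upwards [hf (ε / 2) (by linarith), hg (ε / 2) (by linarith)] with j h1 h2 i
  exact (abs_add_le _ _).trans (by linarith [h1 i, h2 i])

lemma Sm.neg (hf : Sm f) : Sm (fun j i => - f j i) := by
  intro ε hε
  filter_upwards [hf ε hε] with j h1 i
  rw [abs_neg]; exact h1 i

lemma Sm.sub (hf : Sm f) (hg : Sm g) : Sm (fun j i => f j i - g j i) := by
  simpa [sub_eq_add_neg] using hf.add hg.neg

lemma Sm.mul_bd (hf : Sm f) (hg : Bd g) : Sm (fun j i => f j i * g j i) := by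
  obtain ⟨C, hC, hg⟩ := hg.exists_pos
  intro ε hε
  filter_upwards [hf (ε / C) (by positivity)] with j h1 i
  rw [abs_mul]
  calc |f j i| * |g j i| ≤ (ε / C) * C := mul_le_mul (h1 i) (hg j i) (abs_nonneg _) (by positivity)
    _ = ε := by field_simp

lemma Sm.bd_mul (hf : Bd f) (hg : Sm g) : Sm (fun j i => f j i * g j i) := by
  simpa [mul_comm] using hg.mul_bd hf

lemma Sm.const_mul (c : ℝ) (hf : Sm f) : Sm (fun j i => c * f j i) := Sm.bd_mul (Bd.const c) hf

lemma Sm.zero : Sm (fun (_ : ℕ) (_ : ι) => (0 : ℝ)) := by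
  intro ε hε
  filter_upwards with j i
  simpa using hε.le

lemma Sm.comp {κ : Type} (hf : Sm f) (φ : κ → ι) : Sm (fun j k => f j (φ k)) := by
  intro ε hε
  filter_upwards [hf ε hε] with j h k
  exact h (φ k)

lemma Sm.of_le (hf : Sm f) (h : ∀ j i, |g j i| ≤ |f j i|) : Sm g := by
  intro ε hε
  filter_upwards [hf ε hε] with j h1 i
  exact (h j i).trans (h1 i)

lemma Sm.of_tendsto {t : ℕ → ℝ} (ht : Tendsto t atTop (𝓝 0)) : Sm (fun j (_ : ι) => t j) := by
  intro ε hε
  have := (tendsto_order.1 (ht.abs)).2 ε (by simpa using hε)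
  filter_upwards [this] with j hj i
  exact hj.le

end lim

variable {P 𝔤 : Type} [NormedAddCommGroup 𝔤] [InnerProductSpace ℝ 𝔤]

namespace Calc

variable {K : Calc P 𝔤} {f g : ℕ → K.𝒜}

lemma bd.add (hf : K.bd f) (hg : K.bd g) : K.bd (fun j => f j + g j) := by
  have := Bd.add hf hg
  simpa [bd] using this

lemma bd.sub (hf : K.bd f) (hg : K.bd g) : K.bd (fun j => f j - g j) := by
  have := Bd.sub hf hg
  simpa [bd] using this

lemma bd.neg (hf : K.bd f) : K.bd (fun j => - f j) := by
  have := Bd.neg hf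
  simpa [bd] using this

lemma bd.mul (hf : K.bd f) (hg : K.bd g) : K.bd (fun j => f j * g j) := by
  have := Bd.mul hf hg
  simpa [bd] using this

lemma bd.smul (c : ℝ) (hf : K.bd f) : K.bd (fun j => c • f j) := by
  have := Bd.const_mul c hf
  simpa [bd] using this

lemma sm.add (hf : K.sm f) (hg : K.sm g) : K.sm (fun j => f j + g j) := by
  have := Sm.add hf hg
  simpa [sm] using this

lemma sm.sub (hf : K.sm f) (hg : K.sm g) : K.sm (fun j => f j - g j) := by
  have := Sm.sub hf hg
  simpa [sm] using this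

lemma sm.neg (hf : K.sm f) : K.sm (fun j => - f j) := by
  have := Sm.neg hf
  simpa [sm] using this

lemma sm.smul (c : ℝ) (hf : K.sm f) : K.sm (fun j => c • f j) := by
  have := Sm.const_mul c hf
  simpa [sm] using this

lemma sm.mul_bd (hf : K.sm f) (hg : K.bd g) : K.sm (fun j => f j * g j) := by
  have := Sm.mul_bd hf hg
  simpa [sm] using this

lemma sm.bd_mul (hf : K.bd f) (hg : K.sm g) : K.sm (fun j => f j * g j) := by
  have := Sm.bd_mul hf hg
  simpa [sm] using this

lemma sm.zero : K.sm (fun _ => 0) := by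
  have := Sm.zero (ι := P)
  simpa [sm] using this

lemma sm.congr (hf : K.sm f) (h : ∀ j, g j = f j) : K.sm g := by
  have : g = f := funext h
  rwa [this]

lemma bd.congr (hf : K.bd f) (h : ∀ j, g j = f j) : K.bd g := by
  have : g = f := funext h
  rwa [this]

variable (K)

section eta

variable (h : 𝔤 →ₗ[ℝ] 𝔤 →ₗ[ℝ] K.𝒜) (A A' B B' C C' Z Z' : 𝔤) (c : ℝ)

lemma eta_add_left : K.eta h (A + A') B C = K.eta h A B C + K.eta h A' B C := by
  simp only [eta, map_add, LinearMap.add_apply]; module

lemma eta_add_mid : K.eta h A (B + B') C = K.eta h A B C + K.eta h A B' C := by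
  simp only [eta, map_add, LinearMap.add_apply]; module

lemma eta_add_right : K.eta h A B (C + C') = K.eta h A B C + K.eta h A B C' := by
  simp only [eta, map_add, LinearMap.add_apply]; module

lemma eta_smul_left : K.eta h (c • A) B C = c • K.eta h A B C := by
  simp only [eta, map_smul, LinearMap.smul_apply]; module

lemma eta_smul_mid : K.eta h A (c • B) C = c • K.eta h A B C := by
  simp only [eta, map_smul, LinearMap.smul_apply]; module

lemma eta_smul_right : K.eta h A B (c • C) = c • K.eta h A B C := by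
  simp only [eta, map_smul, LinearMap.smul_apply]; module

lemma eta_zero_left : K.eta h 0 B C = 0 := by simp [eta]

lemma eta_zero_mid : K.eta h A 0 C = 0 := by simp [eta]

lemma eta_zero_right : K.eta h A B 0 = 0 := by simp [eta]

lemma eta_neg_left : K.eta h (-A) B C = - K.eta h A B C := by
  simpa using K.eta_smul_left h A B C (-1)

lemma eta_neg_mid : K.eta h A (-B) C = - K.eta h A B C := by
  simpa using K.eta_smul_mid h A B C (-1)

lemma eta_neg_right : K.eta h A B (-C) = - K.eta h A B C := by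
  simpa using K.eta_smul_right h A B C (-1)

/-- no torsion -/
lemma eta_torsion (hs : ∀ A B, h A B = h B A) :
    K.eta h A B C - K.eta h B A C = h (K.br A B) C := by
  simp only [eta, K.br_anti B A, map_neg, LinearMap.neg_apply, hs B A]
  module

lemma eta_comm_of (hs : ∀ A B, h A B = h B A) (hAB : K.br A B = 0) :
    K.eta h A B C = K.eta h B A C := by
  have := K.eta_torsion h A B C hs
  rw [hAB] at this
  simpa [sub_eq_zero] using this

lemma R1_add_right : K.R1 h A B C (Z + Z') = K.R1 h A B C Z + K.R1 h A B C Z' := by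
  simp only [R1, map_add, eta_add_right]; module

lemma R1_smul_right : K.R1 h A B C (c • Z) = c • K.R1 h A B C Z := by
  simp only [R1, map_smul, eta_smul_right]; module

lemma R1_anti : K.R1 h A B C Z = - K.R1 h B A C Z := by
  simp only [R1]; module

/-- `R1` as a linear map in the last variable -/
def R1L (A B C : 𝔤) : 𝔤 →ₗ[ℝ] K.𝒜 where
  toFun := K.R1 h A B C
  map_add' Z Z' := K.R1_add_right h A B C Z Z'
  map_smul' c Z := K.R1_smul_right h A B C Z c

lemma D_algebraMap (A : 𝔤) (c : ℝ) : K.D A (algebraMap ℝ K.𝒜 c) = 0 := by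
  have h1 : K.D A (1 : K.𝒜) = 0 := by
    have := K.D_mul A 1 1
    simp only [mul_one, one_mul] at this
    simpa using this
  rw [Algebra.algebraMap_eq_smul_one, map_smul, h1, smul_zero]

lemma inner_br (A B C : 𝔤) : inner ℝ (K.br A C) B + inner ℝ (K.br B C) A = 0 := by
  rw [K.ad_inv A C B, K.br_anti C B, inner_neg_right, real_inner_comm A]
  ring

lemma base_apply (A B : 𝔤) : K.base A B = algebraMap ℝ K.𝒜 (inner ℝ A B) := rfl

lemma eta_base : K.eta K.base A B C = algebraMap ℝ K.𝒜 ((1 / 2) * inner ℝ (K.br A B) C) := by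
  have h1 : inner ℝ (K.br A C) B = - inner ℝ (K.br B C) A := by
    linarith [K.inner_br A B C]
  simp only [eta, base_apply, D_algebraMap, h1, map_mul, map_neg, map_inv₀]
  simp only [Algebra.algebraMap_eq_smul_one, smul_mul_assoc, one_mul]
  module

lemma eta_met (t : ℝ) : K.eta (K.met t h) A B C =
    algebraMap ℝ K.𝒜 ((1 / 2) * inner ℝ (K.br A B) C) + t • K.eta h A B C := by
  rw [← eta_base]
  simp only [eta, met, LinearMap.add_apply, LinearMap.smul_apply, map_add, map_smul]
  module

end eta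

end Calc

end Pool.Agent.H842R4
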