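import Pool.Agent.H842R4.DBound

/-!
Covariant derivatives of the perturbed metrics; lower bound for the linearised curvature of
commuting pairs.

NOTATION: `G = K.met t h`, so `K.ev p (G u v) = ⟪u, v⟫ + t h(u,v)(p)` and by `K.eta_met`
`K.ev p (eta G A B C) = (1/2) ⟪br A B, C⟫ + t η(A,B,C)(p)`.  `S.bound` with `L = []` gives
`|h(u,v)(p)| ≤ ‖u‖ ‖v‖`; `S.eta_bound` bounds `η`. Eventually `t ≤ 1/4`.

PROOFS. `exists_eta`: Riesz (`InnerProductSpace.toDual` or an orthonormal basis;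
`C ↦ K.ev p (eta h A B C)` is linear: `K.eta_add_right`, `K.eta_smul_right`).
`exists_nabla`: for `t ≤ 1/4` the bilinear form `(u, v) ↦ K.ev p (G u v)` is positive definite
(`≥ (3/4) ‖u‖²` on the diagonal), so `V ↦ K.ev p (G V ·)` is an injective linear map from `𝔤` to
its dual, hence surjective (`LinearMap.injective_iff_surjective_of_finrank_eq_finrank` or
`LinearMap.BilinForm`).
`nabla_est`: `IsNabla` says `⟪V,C⟫ + t h(V,C) = (1/2)⟪br A B,C⟫ + t⟪E,C⟫`; with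
`C = V - (1/2) br A B - t E` : `‖C‖² = - t h(V,C) ≤ t ‖V‖ ‖C‖`, so `‖C‖ ≤ t ‖V‖`; `‖E‖² = η(A,B,E)
≤ C₀ ‖A‖‖B‖‖E‖`; and `‖V‖ ≤ t‖V‖ + (1/2)‖br A B‖ + t‖E‖`.
`Q_low`: take nabla vectors; `S.pos` and `gram ≥ 0` (Cauchy-Schwarz for the positive definite form
`K.ev p (G · ·)`) give `0 ≤ num`. As `br A B = 0`:
`num = t Q - ev (G VBB VAA) + ev (G VAB VBA)` (`K.eta_met`, `K.D_algebraMap`, `K.eta_zero_left`),
and by `nabla_est` with `br A A = 0`, etc.: `‖VAA‖ ≤ t (‖E‖ + ‖V‖) ≤ C t ‖A‖²`, the same for the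
others, so `|num - t Q| ≤ C t² ‖A‖² ‖B‖²`. Divide by `t > 0`.
-/

open MeasureTheory Filter Topology

noncomputable section

namespace Pool.Agent.H842R4

variable {P 𝔤 : Type} [NormedAddCommGroup 𝔤] [InnerProductSpace ℝ 𝔤] [FiniteDimensional ℝ 𝔤]

/-- `E` represents `η(A,B,·)` at `p` -/
def Calc.IsEta (K : Calc P 𝔤) (h : 𝔤 →ₗ[ℝ] 𝔤 →ₗ[ℝ] K.𝒜) (p : P) (A B E : 𝔤) : Prop :=
  ∀ C, inner ℝ E C = K.ev p (K.eta h A B C)

theorem Calc.exists_eta (K : Calc P 𝔤) (h : 𝔤 →ₗ[ℝ] 𝔤 →ₗ[ℝ] K.𝒜) (p : P) (A B : 𝔤) :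
    ∃ E, K.IsEta h p A B E := by
  let φ : 𝔤 →ₗ[ℝ] ℝ :=
    { toFun := fun C => K.ev p (K.eta h A B C)
      map_add' := fun C C' => by rw [K.eta_add_right, map_add]
      map_smul' := fun c C => by rw [K.eta_smul_right, map_smul, RingHom.id_apply] }
  refine ⟨(InnerProductSpace.toDual ℝ 𝔤).symm (LinearMap.toContinuousLinearMap φ), fun C => ?_⟩
  rw [InnerProductSpace.toDual_symm_apply]
  rfl

omit [FiniteDimensional ℝ 𝔤] in
theorem Calc.nab_ev_met (K : Calc P 𝔤) (t : ℝ) (h : 𝔤 →ₗ[ℝ] 𝔤 →ₗ[ℝ] K.𝒜) (p : P) (u v : 𝔤) :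
    K.ev p (K.met t h u v) = inner ℝ u v + t * K.ev p (h u v) := by
  simp only [Calc.met, LinearMap.add_apply, LinearMap.smul_apply, map_add, map_smul, smul_eq_mul,
    Calc.base_apply, AlgHom.commutes]
  rfl

omit [FiniteDimensional ℝ 𝔤] in
theorem Calc.nab_ev_eta_met (K : Calc P 𝔤) (t : ℝ) (h : 𝔤 →ₗ[ℝ] 𝔤 →ₗ[ℝ] K.𝒜) (p : P) (A B C : 𝔤) :
    K.ev p (K.eta (K.met t h) A B C) =
      (1 / 2) * inner ℝ (K.br A B) C + t * K.ev p (K.eta h A B C) := by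
  rw [K.eta_met]
  simp only [map_add, map_smul, smul_eq_mul, AlgHom.commutes]
  rfl

namespace Pert

variable {K : Calc P 𝔤} (S : Pert K)

omit [FiniteDimensional ℝ 𝔤] in
theorem nab_h_le (j : ℕ) (A B : 𝔤) (p : P) : |K.ev p (S.h j A B)| ≤ ‖A‖ * ‖B‖ := by
  have := S.bound j [] (by simp) A B p
  simpa [Calc.Dl] using this

omit [FiniteDimensional ℝ 𝔤] in
theorem nab_t_small : ∀ᶠ j in atTop, S.t j ≤ 1 / 4 := by
  have := (tendsto_order.1 S.t_lim).2 (1 / 4) (by norm_num)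
  filter_upwards [this] with j hj
  exact hj.le

omit [FiniteDimensional ℝ 𝔤] in
/-- the perturbed metric is uniformly equivalent to the base metric -/
theorem met_est : ∀ᶠ j in atTop, ∀ p u v,
    (3 / 4) * ‖u‖ ^ 2 ≤ K.ev p (K.met (S.t j) (S.h j) u u) ∧
      |K.ev p (K.met (S.t j) (S.h j) u v)| ≤ 2 * ‖u‖ * ‖v‖ := by
  filter_upwards [S.nab_t_small] with j ht p u v
  have t0 := S.t_pos j
  rw [K.nab_ev_met, K.nab_ev_met, real_inner_self_eq_norm_sq]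
  have h1 := abs_le.1 (S.nab_h_le j u u p)
  have h2 := S.nab_h_le j u v p
  constructor
  · have : -(‖u‖ * ‖u‖) * S.t j ≤ K.ev p (S.h j u u) * S.t j :=
      mul_le_mul_of_nonneg_right h1.1 t0.le
    nlinarith [mul_nonneg (norm_nonneg u) (norm_nonneg u)]
  · have h3 : |inner ℝ u v| ≤ ‖u‖ * ‖v‖ := abs_real_inner_le_norm u v
    have h4 : |S.t j * K.ev p (S.h j u v)| ≤ 1 / 4 * (‖u‖ * ‖v‖) := by
      rw [abs_mul, abs_of_pos t0]
      exact mul_le_mul ht h2 (abs_nonneg _) (by norm_num)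
    have h5 := abs_add_le (inner ℝ u v) (S.t j * K.ev p (S.h j u v))
    nlinarith [mul_nonneg (norm_nonneg u) (norm_nonneg v)]

theorem exists_nabla : ∀ᶠ j in atTop, ∀ p A B, ∃ V, K.IsNabla (K.met (S.t j) (S.h j)) p A B V := by
  filter_upwards [S.met_est] with j hj p A B
  let T : 𝔤 →ₗ[ℝ] (𝔤 →ₗ[ℝ] ℝ) := (K.met (S.t j) (S.h j)).compr₂ (K.ev p).toLinearMap
  have hT : Function.Injective T := by
    rw [injective_iff_map_eq_zero]
    intro V hV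
    have h1 : K.ev p (K.met (S.t j) (S.h j) V V) = 0 := by
      have := LinearMap.congr_fun hV V
      simpa [T] using this
    have h2 := (hj p V V).1
    rw [h1] at h2
    have h3 : ‖V‖ ^ 2 = 0 := le_antisymm (by linarith) (by positivity)
    have h4 : ‖V‖ = 0 := by simpa using h3
    simpa using h4
  have hS : Function.Surjective T :=
    (LinearMap.injective_iff_surjective_of_finrank_eq_finrank
      (by rw [Subspace.dual_finrank_eq])).1 hT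
  let φ : 𝔤 →ₗ[ℝ] ℝ :=
    { toFun := fun C => K.ev p (K.eta (K.met (S.t j) (S.h j)) A B C)
      map_add' := fun C C' => by rw [K.eta_add_right, map_add]
      map_smul' := fun c C => by rw [K.eta_smul_right, map_smul, RingHom.id_apply] }
  obtain ⟨V, hV⟩ := hS φ
  exact ⟨V, fun C => LinearMap.congr_fun hV C⟩

theorem nabla_est : ∃ C : ℝ, 0 < C ∧ ∀ᶠ j in atTop, ∀ p A B V E,
    K.IsNabla (K.met (S.t j) (S.h j)) p A B V → K.IsEta (S.h j) p A B E →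
    ‖V‖ ≤ C * ‖A‖ * ‖B‖ ∧ ‖E‖ ≤ C * ‖A‖ * ‖B‖ ∧
      ‖V - (1 / 2 : ℝ) • K.br A B - S.t j • E‖ ≤ S.t j * ‖V‖ := by
  obtain ⟨C₀, hC₀, hη⟩ := S.eta_bound
  obtain ⟨C₁, hC₁, hbr⟩ := K.br_bound
  refine ⟨C₀ + C₁, by positivity, ?_⟩
  filter_upwards [S.nab_t_small] with j ht p A B V E hV hE
  have t0 := S.t_pos j
  have hAB : 0 ≤ ‖A‖ * ‖B‖ := mul_nonneg (norm_nonneg _) (norm_nonneg _)
  have e1 : ‖E‖ ≤ C₀ * (‖A‖ * ‖B‖) := by
    have h1 := hE E
    rw [real_inner_self_eq_norm_sq] at h1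
    have h2 := hη j [] (by simp) A B E p
    simp only [Calc.Dl, List.foldr_nil, List.map_nil, List.prod_nil, mul_one] at h2
    rw [← h1, abs_of_nonneg (by positivity)] at h2
    rcases (norm_nonneg E).eq_or_lt with h0 | h0
    · rw [← h0]; positivity
    · have h3 : ‖E‖ * ‖E‖ ≤ (C₀ * (‖A‖ * ‖B‖)) * ‖E‖ := by nlinarith
      exact le_of_mul_le_mul_right h3 h0
  set R : 𝔤 := V - (1 / 2 : ℝ) • K.br A B - S.t j • E with hR
  have e2 : ‖R‖ ≤ S.t j * ‖V‖ := by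
    have h1 := hV R
    rw [K.nab_ev_met, K.nab_ev_eta_met, ← hE R] at h1
    have h2 : inner ℝ R R = - (S.t j * K.ev p (S.h j V R)) := by
      have : inner ℝ R R = inner ℝ V R - (1 / 2) * inner ℝ (K.br A B) R - S.t j * inner ℝ E R := by
        conv_lhs => rw [hR]
        rw [inner_sub_left, inner_sub_left, real_inner_smul_left, real_inner_smul_left]
      rw [this]
      linarith
    rw [real_inner_self_eq_norm_sq] at h2
    have h3 := abs_le.1 (S.nab_h_le j V R p)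
    rcases (norm_nonneg R).eq_or_lt with h0 | h0
    · rw [← h0]; positivity
    · have h4 : ‖R‖ * ‖R‖ ≤ (S.t j * ‖V‖) * ‖R‖ := by
        have h5 : -(‖V‖ * ‖R‖) * S.t j ≤ K.ev p (S.h j V R) * S.t j :=
          mul_le_mul_of_nonneg_right h3.1 t0.le
        nlinarith
      exact le_of_mul_le_mul_right h4 h0
  have e3 : ‖V‖ ≤ ‖R‖ + (1 / 2) * ‖K.br A B‖ + S.t j * ‖E‖ := by
    have h1 : V = R + (1 / 2 : ℝ) • K.br A B + S.t j • E := by rw [hR]; module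
    calc ‖V‖ = ‖R + (1 / 2 : ℝ) • K.br A B + S.t j • E‖ := by rw [← h1]
      _ ≤ ‖R‖ + ‖(1 / 2 : ℝ) • K.br A B‖ + ‖S.t j • E‖ := norm_add₃_le
      _ = _ := by
        rw [norm_smul, norm_smul, Real.norm_eq_abs, Real.norm_eq_abs, abs_of_pos t0,
          abs_of_pos (by norm_num : (0 : ℝ) < 1 / 2)]
  have e4 := hbr A B
  have e5 : S.t j * ‖V‖ ≤ 1 / 4 * ‖V‖ := mul_le_mul_of_nonneg_right ht (norm_nonneg _)
  have e6 : S.t j * ‖E‖ ≤ 1 / 4 * ‖E‖ := mul_le_mul_of_nonneg_right ht (norm_nonneg _)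
  have e7 : 0 ≤ C₁ * (‖A‖ * ‖B‖) := by positivity
  have e8 : 0 ≤ C₀ * (‖A‖ * ‖B‖) := by positivity
  refine ⟨?_, ?_, e2⟩
  · nlinarith
  · nlinarith

omit [FiniteDimensional ℝ 𝔤] in
theorem nab_gram_nonneg {G : 𝔤 →ₗ[ℝ] 𝔤 →ₗ[ℝ] K.𝒜} {p : P} (hs : ∀ A B, G A B = G B A)
    (hp : ∀ u, (3 / 4) * ‖u‖ ^ 2 ≤ K.ev p (G u u)) (A B : 𝔤) (hB : B ≠ 0) :
    0 ≤ K.gram G p A B := by
  have hBB : 0 < K.ev p (G B B) := by
    have := hp B
    have h1 : 0 < ‖B‖ := norm_pos_iff.2 hB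
    nlinarith [pow_pos h1 2]
  set a := K.ev p (G A A)
  set b := K.ev p (G B B)
  set c := K.ev p (G A B)
  have h1 : K.ev p (G (b • A - c • B) (b • A - c • B)) = b * (a * b - c ^ 2) := by
    simp only [map_sub, map_smul, LinearMap.sub_apply, LinearMap.smul_apply, smul_eq_mul,
      hs B A]
    change b * (b * a - c * c) - c * (b * c - c * b) = _
    ring
  have h2 : 0 ≤ b * (a * b - c ^ 2) := by
    rw [← h1]
    exact (by positivity : (0 : ℝ) ≤ (3 / 4) * ‖b • A - c • B‖ ^ 2).trans (hp _)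
  change 0 ≤ a * b - c ^ 2
  exact nonneg_of_mul_nonneg_right h2 hBB

theorem Q_low : ∃ C : ℝ, 0 < C ∧ ∀ᶠ j in atTop, ∀ p A B, LinearIndependent ℝ ![A, B] →
    K.br A B = 0 →
    - (C * S.t j * ‖A‖ ^ 2 * ‖B‖ ^ 2) ≤ K.ev p (K.Q (S.h j) A B) := by
  obtain ⟨C, hC, hN⟩ := S.nabla_est
  refine ⟨16 * C ^ 2, by positivity, ?_⟩
  filter_upwards [hN, S.exists_nabla, S.met_est, S.nab_t_small] with j hN hE hM ht p A B hLI hAB
  have t0 := S.t_pos j
  obtain ⟨VAA, hAA⟩ := hE p A A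
  obtain ⟨VAB, hAB'⟩ := hE p A B
  obtain ⟨VBA, hBA'⟩ := hE p B A
  obtain ⟨VBB, hBB⟩ := hE p B B
  have key : ∀ X Y V, K.br X Y = 0 → K.IsNabla (K.met (S.t j) (S.h j)) p X Y V →
      ‖V‖ ≤ 2 * S.t j * C * ‖X‖ * ‖Y‖ := by
    intro X Y V hXY hV
    obtain ⟨E, hE⟩ := K.exists_eta (S.h j) p X Y
    obtain ⟨h1, h2, h3⟩ := hN p X Y V E hV hE
    rw [hXY, smul_zero, sub_zero] at h3
    have h4 : ‖V‖ ≤ ‖V - S.t j • E‖ + ‖S.t j • E‖ := by
      calc ‖V‖ = ‖(V - S.t j • E) + S.t j • E‖ := by rw [sub_add_cancel]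
        _ ≤ _ := norm_add_le _ _
    rw [norm_smul, Real.norm_eq_abs, abs_of_pos t0] at h4
    have h5 : S.t j * ‖V‖ ≤ S.t j * (C * ‖X‖ * ‖Y‖) := mul_le_mul_of_nonneg_left h1 t0.le
    have h6 : S.t j * ‖E‖ ≤ S.t j * (C * ‖X‖ * ‖Y‖) := mul_le_mul_of_nonneg_left h2 t0.le
    nlinarith
  have hBA : K.br B A = 0 := by rw [K.br_anti, hAB, neg_zero]
  have kAA := key A A VAA (K.br_self A) hAA
  have kAB := key A B VAB hAB hAB'
  have kBA := key B A VBA hBA hBA'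
  have kBB := key B B VBB (K.br_self B) hBB
  have hpos := S.pos j p A B hLI VAA VAB VBA VBB hAA hAB' hBA' hBB
  have hB0 : B ≠ 0 := by
    have := hLI.ne_zero 1
    simpa using this
  have hsym : ∀ X Y, K.met (S.t j) (S.h j) X Y = K.met (S.t j) (S.h j) Y X := by
    intro X Y
    apply K.ext_ev
    intro q
    rw [K.nab_ev_met, K.nab_ev_met, real_inner_comm, S.symm]
  have hgram := nab_gram_nonneg (K := K) hsym (fun u => (hM p u u).1) A B hB0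
  have hnum : 0 < K.num (K.met (S.t j) (S.h j)) p A B VAA VAB VBA VBB := by
    refine lt_of_le_of_lt ?_ hpos
    have := S.ε_pos
    positivity
  have g1 := abs_le.1 (hM p VBB VAA).2
  have g2 := abs_le.1 (hM p VAB VBA).2
  have n1 : ‖VBB‖ * ‖VAA‖ ≤ (2 * S.t j * C * ‖B‖ * ‖B‖) * (2 * S.t j * C * ‖A‖ * ‖A‖) :=
    mul_le_mul kBB kAA (norm_nonneg _) (by positivity)
  have n2 : ‖VAB‖ * ‖VBA‖ ≤ (2 * S.t j * C * ‖A‖ * ‖B‖) * (2 * S.t j * C * ‖B‖ * ‖A‖) :=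
    mul_le_mul kAB kBA (norm_nonneg _) (by positivity)
  have hQ : K.num (K.met (S.t j) (S.h j)) p A B VAA VAB VBA VBB =
      S.t j * K.ev p (K.Q (S.h j) A B) - K.ev p (K.met (S.t j) (S.h j) VBB VAA)
        + K.ev p (K.met (S.t j) (S.h j) VAB VBA) := by
    simp only [Calc.num, Calc.Q, K.eta_met, map_add, map_sub, map_smul, K.D_algebraMap, hAB,
      K.eta_zero_left, LinearMap.zero_apply, smul_eq_mul, map_zero, inner_zero_left, mul_zero,
      add_zero, zero_add, smul_zero]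
    ring
  rw [hQ] at hnum
  have fin : 0 < S.t j * (K.ev p (K.Q (S.h j) A B) + 16 * C ^ 2 * S.t j * ‖A‖ ^ 2 * ‖B‖ ^ 2) := by
    nlinarith
  have := (mul_pos_iff_of_pos_left t0).1 fin
  linarith

end Pert

end Pool.Agent.H842R4
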