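import Pool.Agent.H842R4.SULie
import Pool.Agent.H842R4.SUAd
import Pool.Agent.H842R4.Base

/-!
The calculus of left-invariant fields on `SU(n)` as an instance of `Calc`.
-/

open scoped ContDiff Matrix.Norms.Frobenius
open Matrix

noncomputable section

namespace Pool.Agent.H842R4

variable {n : ℕ}

/-- the algebra of smooth functions on `SU(n)` -/
def smoothAlg (n : ℕ) : Subalgebra ℝ (SU n → ℝ) where
  carrier := {f | Smooth f}
  mul_mem' hf hg := smooth_mul _ _ hf hg
  add_mem' hf hg := smooth_add _ _ hf hg
  algebraMap_mem' c := smooth_const c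

/-- the derivations -/
def lieL (n : ℕ) : su n →ₗ[ℝ] smoothAlg n →ₗ[ℝ] smoothAlg n :=
  LinearMap.mk₂ ℝ (fun A f => ⟨lie A f.1, smooth_lie f.1 f.2 A⟩)
    (fun A B f => by
      apply Subtype.ext; funext p
      exact lie_add_left f.1 f.2 A B p)
    (fun c A f => by
      apply Subtype.ext; funext p
      exact lie_smul_left f.1 f.2 c A p)
    (fun A f g => by
      apply Subtype.ext; funext p
      exact lie_add f.1 g.1 f.2 g.2 A p)
    (fun c A f => by
      apply Subtype.ext; funext p
      exact lie_smul f.1 f.2 c A p)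

instance : FiniteDimensional ℝ (su n) := inferInstance

/-- `SU(n)` as an instance of `Calc` -/
def suCalc (n : ℕ) : Calc (SU n) (su n) where
  br := brkL n
  br_self := brk_self
  jac := brk_jac
  ad_inv := ip_brk
  𝒜 := smoothAlg n
  D := lieL n
  D_mul A f g := by
    apply Subtype.ext; funext p
    exact lie_mul f.1 g.1 f.2 g.2 A p
  D_br A B f := by
    apply Subtype.ext; funext p
    exact lie_brk f.1 f.2 A B p
  fl A s p := move p A s
  fl_zero A p := move_zero p A
  fl_add A s t p := move_add p A s t
  fl_comm A B h s t p := move_comm A B h p s t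
  fl_comb A B h a b s p := move_comb A B h a b s p
  der A f p s := hasDerivAt_move f.1 f.2 A p s
  cont₂ A B f p := continuous_move₂ f.1 f.2 A B p
  bdd f := bounded f.1 f.2
  int_mem A f w hw := smooth_int f.1 f.2 A w hw
  Ad := ad
  Ad_zero := ad_zero
  Ad_der Z A s := ad_der Z A s
  Ad_fix Z s A h := ad_fix Z s A h
  Ad_br Z s A B := ad_brk Z s A B
  Ad_inner Z s A B := ad_inner Z s A B
  Ad_cl Z s A h p := ad_move Z s A h p

end Pool.Agent.H842R4
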