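import Pool.Agent.H842R4.SUTorus

/-!
The torus datum of `SU(n)`.
-/

open scoped ContDiff Matrix.Norms.Frobenius
open Matrix

noncomputable section

namespace Pool.Agent.H842R4

variable {n : ℕ}

theorem inner_su (A B : su n) : inner ℝ A B = ip A B := rfl

theorem ip_add_right (A B C : su n) : ip A (B + C) = ip A B + ip A C := inner_add_right A B C

theorem ip_smul_right (A B : su n) (c : ℝ) : ip A (c • B) = c * ip A B :=
  real_inner_smul_right A B c

theorem ip_add_left (A B C : su n) : ip (A + B) C = ip A C + ip B C := inner_add_left A B C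

theorem ip_smul_left (A B : su n) (c : ℝ) : ip (c • A) B = c * ip A B :=
  real_inner_smul_left A B c

theorem ip_zero_right (A : su n) : ip A 0 = 0 := inner_zero_right A

theorem ip_zero_left (A : su n) : ip 0 A = 0 := inner_zero_left A

theorem brk_X_S (hn : 3 ≤ n) (j k : Fin n) (h : j ≠ k) :
    brk (tX hn) (Sm' j k) = ((xv j - xv k : ℤ) : ℝ) • Tm' j k h := by
  rw [tX, brk_Dg_S _ _ j k h, Int.cast_sub]

theorem brk_X_T (hn : 3 ≤ n) (j k : Fin n) (h : j ≠ k) :
    brk (tX hn) (Tm' j k h) = -(((xv j - xv k : ℤ) : ℝ) • Sm' j k) := by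
  rw [tX, brk_Dg_T _ _ j k h, Int.cast_sub]

theorem brk_Y_S (hn : 3 ≤ n) (j k : Fin n) (h : j ≠ k) :
    brk (tY hn) (Sm' j k) = ((yv j - yv k : ℤ) : ℝ) • Tm' j k h := by
  rw [tY, brk_Dg_S _ _ j k h, Int.cast_sub]

theorem brk_Y_T (hn : 3 ≤ n) (j k : Fin n) (h : j ≠ k) :
    brk (tY hn) (Tm' j k h) = -(((yv j - yv k : ℤ) : ℝ) • Sm' j k) := by
  rw [tY, brk_Dg_T _ _ j k h, Int.cast_sub]

theorem brk_smul_right' (c : ℝ) (A B : su n) : brk A (c • B) = c • brk A B :=
  (brkL n A).map_smul c B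

theorem ip_tX (hn : 3 ≤ n) (A : su n) : ip A (tX hn) = ∑ l, (xv l : ℝ) * ((A : Mat n) l l).im :=
  ip_Dg _ _ _

theorem ip_tY (hn : 3 ≤ n) (A : su n) : ip A (tY hn) = ∑ l, (yv l : ℝ) * ((A : Mat n) l l).im :=
  ip_Dg _ _ _

theorem Dg_diag_im (θ : Fin n → ℝ) (h : ∑ l, θ l = 0) (l : Fin n) :
    ((Dg θ h : Mat n) l l).im = θ l := by
  simp [Dg]

theorem Dg_off (θ : Fin n → ℝ) (h : ∑ l, θ l = 0) (j k : Fin n) (hjk : j ≠ k) :
    (Dg θ h : Mat n) j k = 0 := by
  simp [Dg, Matrix.diagonal_apply_ne _ hjk]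

theorem Sm_diag (j k l : Fin n) (hjk : j ≠ k) : (Sm' j k : Mat n) l l = 0 := by
  simp only [Sm', Matrix.sub_apply, Matrix.single_apply]
  have h1 : ¬ (j = l ∧ k = l) := fun h => hjk (h.1.trans h.2.symm)
  have h2 : ¬ (k = l ∧ j = l) := fun h => hjk (h.2.trans h.1.symm)
  simp [h1, h2]

theorem Tm_diag (j k l : Fin n) (hjk : j ≠ k) : (Tm' j k hjk : Mat n) l l = 0 := by
  simp only [Tm', Matrix.smul_apply, Matrix.add_apply, Matrix.single_apply]
  have h1 : ¬ (j = l ∧ k = l) := fun h => hjk (h.1.trans h.2.symm)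
  have h2 : ¬ (k = l ∧ j = l) := fun h => hjk (h.2.trans h.1.symm)
  simp [h1, h2]

/-- values of the inner products of the diagonal elements -/
theorem ip_XX (hn : 3 ≤ n) : ip (tX hn) (tX hn) = 2 := by
  rw [ip_tX]
  simp only [tX, Dg_diag_im]
  obtain ⟨m, rfl⟩ := Nat.exists_eq_add_of_le' hn
  simp [Fin.sum_univ_succ, xv]
  norm_num

theorem ip_YY (hn : 3 ≤ n) : ip (tY hn) (tY hn) = 2 := by
  rw [ip_tY]
  simp only [tY, Dg_diag_im]
  obtain ⟨m, rfl⟩ := Nat.exists_eq_add_of_le' hn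
  simp [Fin.sum_univ_succ, yv]
  norm_num

theorem ip_XY (hn : 3 ≤ n) : ip (tX hn) (tY hn) = -1 := by
  rw [ip_tY]
  simp only [tX, Dg_diag_im]
  obtain ⟨m, rfl⟩ := Nat.exists_eq_add_of_le' hn
  simp [Fin.sum_univ_succ, yv, xv]

theorem indep_XY (hn : 3 ≤ n) : LinearIndependent ℝ ![tX hn, tY hn] := by
  rw [LinearIndependent.pair_iff]
  intro a b hab
  have h1 : ip (tX hn) (a • tX hn + b • tY hn) = (0 : ℝ) := by rw [hab, ip_zero_right]
  have h2 : ip (tY hn) (a • tX hn + b • tY hn) = (0 : ℝ) := by rw [hab, ip_zero_right]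
  rw [ip_add_right, ip_smul_right, ip_smul_right] at h1 h2
  rw [ip_comm (tY hn) (tX hn)] at h2
  simp only [ip_XX, ip_YY, ip_XY] at h1 h2
  constructor <;> linarith

theorem ip_C (hn : 3 ≤ n) (i : IC n) :
    ip (tX hn) (tC i) = 0 ∧ ip (tY hn) (tC i) = 0 ∧ tC i ≠ 0 := by
  rcases i with k | x | x
  · have hk : 3 ≤ k.1.val := k.2
    refine ⟨?_, ?_, ?_⟩
    · have : ip (tX hn) (tC (Sum.inl k)) = ∑ l, hv k.1 l * (xv l : ℝ) := by
        simp only [tC, Sum.elim_inl, Hd, ip_Dg, tX, Dg_diag_im]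
      rw [this]
      have h1 : ∀ l : Fin n, hv k.1 l * (xv l : ℝ) = (xv l : ℝ) := by
        intro l
        by_cases h : l.val < 3
        · have : l < k.1 := by rw [Fin.lt_def]; omega
          simp [hv, this]
        · have e0 : ¬ l.val = 0 := by omega
          have e1 : ¬ l.val = 1 := by omega
          simp [xv, e0, e1]
      simp only [h1]
      exact xv_sum hn
    · have : ip (tY hn) (tC (Sum.inl k)) = ∑ l, hv k.1 l * (yv l : ℝ) := by
        simp only [tC, Sum.elim_inl, Hd, ip_Dg, tY, Dg_diag_im]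
      rw [this]
      have h1 : ∀ l : Fin n, hv k.1 l * (yv l : ℝ) = (yv l : ℝ) := by
        intro l
        by_cases h : l.val < 3
        · have : l < k.1 := by rw [Fin.lt_def]; omega
          simp [hv, this]
        · have e0 : ¬ l.val = 2 := by omega
          have e1 : ¬ l.val = 1 := by omega
          simp [yv, e0, e1]
      simp only [h1]
      exact yv_sum hn
    · intro h0
      have h1 := congrArg (fun A : su n => ((A : Mat n) k.1 k.1).im) h0
      simp only [tC, Sum.elim_inl, Hd, Dg_diag_im] at h1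
      have h2 : hv k.1 k.1 = -(k.1.val : ℝ) := by simp [hv]
      rw [h2] at h1
      have h3 : (0 : ℝ) < k.1.val := by exact_mod_cast (by omega : 0 < k.1.val)
      simp at h1
      rw [h1] at hk
      simp at hk
  · have hx := x.2.1.ne
    refine ⟨?_, ?_, ?_⟩
    · simp only [tC, Sum.elim_inr, Sum.elim_inl, ip_S, tX, Dg_off _ _ _ _ hx]; simp
    · simp only [tC, Sum.elim_inr, Sum.elim_inl, ip_S, tY, Dg_off _ _ _ _ hx]; simp
    · intro h0
      have h1 := congrArg (fun A : su n => ((A : Mat n) x.1.1 x.1.2)) h0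
      simp [tC, Sm', Matrix.single_apply, hx, hx.symm] at h1
  · have hx := x.2.1.ne
    refine ⟨?_, ?_, ?_⟩
    · simp only [tC, Sum.elim_inr, ip_T, tX, Dg_off _ _ _ _ hx]; simp
    · simp only [tC, Sum.elim_inr, ip_T, tY, Dg_off _ _ _ _ hx]; simp
    · intro h0
      have h1 := congrArg (fun A : su n => ((A : Mat n) x.1.1 x.1.2)) h0
      simp [tC, Tm', Matrix.single_apply, hx, hx.symm] at h1

theorem indep_XYC (hn : 3 ≤ n) (i : IC n) : LinearIndependent ℝ ![tX hn, tY hn, tC i] := by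
  obtain ⟨h1, h2, h3⟩ := ip_C hn i
  rw [Fintype.linearIndependent_iff]
  intro g hg
  simp only [Fin.sum_univ_three, Matrix.cons_val_zero, Matrix.cons_val_one, Matrix.cons_val] at hg
  have e1 : ip (g 0 • tX hn + g 1 • tY hn + g 2 • tC i) (tC i) = (0 : ℝ) := by
    rw [hg, ip_zero_left]
  rw [ip_add_left, ip_add_left, ip_smul_left, ip_smul_left,
    ip_smul_left, h1, h2, ip_self] at e1
  have e2 : 0 < ‖tC i‖ ^ 2 := by
    have := norm_pos_iff.2 h3
    positivity
  have e3 : g 2 = 0 := by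
    have : g 2 * ‖tC i‖ ^ 2 = 0 := by linarith
    exact (mul_eq_zero.1 this).resolve_right e2.ne'
  rw [e3, zero_smul, add_zero] at hg
  obtain ⟨e4, e5⟩ := (LinearIndependent.pair_iff.1 (indep_XY hn)) _ _ hg
  intro i
  fin_cases i
  · exact e4
  · exact e5
  · exact e3

theorem closed_C (i : IC n) (p : SU n) : move p (tC i) (2 * Real.pi) = p := by
  rcases i with k | x | x
  · refine closed_Dg (hv k.1) (hv_sum k.1) (fun l => ?_) p
    unfold hv
    split_ifs
    · exact ⟨1, by simp⟩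
    · exact ⟨-(k.1.val : ℤ), by simp⟩
    · exact ⟨0, by simp⟩
  · exact closed_S _ _ x.2.1.ne p
  · exact closed_T _ _ x.2.1.ne p

theorem brk_XC (hn : 3 ≤ n) (i : IC n) : brk (tX hn) (tC i) = 0 := by
  rcases i with k | x | x
  · exact brk_Dg_Dg _ _ _ (hv_sum k.1)
  · obtain ⟨⟨j, k⟩, h1, h2⟩ := x
    simp only [Fin.lt_def] at h1 h2
    have e1 : xv j = 0 := by simp only [xv]; rw [if_neg (by omega), if_neg (by omega)]
    have e2 : xv k = 0 := by simp only [xv]; rw [if_neg (by omega), if_neg (by omega)]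
    have := brk_X_S hn j k (Fin.ne_of_lt h1)
    simpa [tC, e1, e2] using this
  · obtain ⟨⟨j, k⟩, h1, h2⟩ := x
    simp only [Fin.lt_def] at h1 h2
    have e1 : xv j = 0 := by simp only [xv]; rw [if_neg (by omega), if_neg (by omega)]
    have e2 : xv k = 0 := by simp only [xv]; rw [if_neg (by omega), if_neg (by omega)]
    have := brk_X_T hn j k (Fin.ne_of_lt h1)
    simpa [tC, e1, e2] using this

theorem brk_YC (hn : 3 ≤ n) (i : IC n) : brk (tY hn) (tC i) = 0 := by
  rcases i with k | x | x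
  · exact brk_Dg_Dg _ _ _ (hv_sum k.1)
  · obtain ⟨⟨j, k⟩, h1, h2⟩ := x
    simp only [Fin.lt_def] at h1 h2
    have e1 : yv j = 0 := by simp only [yv]; rw [if_neg (by omega), if_neg (by omega)]
    have e2 : yv k = 0 := by simp only [yv]; rw [if_neg (by omega), if_neg (by omega)]
    have := brk_Y_S hn j k (Fin.ne_of_lt h1)
    simpa [tC, e1, e2] using this
  · obtain ⟨⟨j, k⟩, h1, h2⟩ := x
    simp only [Fin.lt_def] at h1 h2
    have e1 : yv j = 0 := by simp only [yv]; rw [if_neg (by omega), if_neg (by omega)]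
    have e2 : yv k = 0 := by simp only [yv]; rw [if_neg (by omega), if_neg (by omega)]
    have := brk_Y_T hn j k (Fin.ne_of_lt h1)
    simpa [tC, e1, e2] using this

theorem orth_Z : Orthonormal ℝ (Sum.elim (tZ1 (n := n)) tZ2) := by
  have hs : (1 / √2 : ℝ) * (1 / √2) * 2 = 1 := by
    have : √2 * √2 = (2 : ℝ) := Real.mul_self_sqrt (by norm_num)
    field_simp
    linarith
  have hSS : ∀ x y : IR n, ip (Sm' x.1.1 x.1.2) (Sm' y.1.1 y.1.2) = if x = y then 2 else 0 := by
    intro x y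
    rw [ip_S]
    obtain ⟨⟨j, k⟩, h1, h2⟩ := x
    obtain ⟨⟨j', k'⟩, h1', h2'⟩ := y
    simp only [Fin.lt_def] at h1 h1'
    have e1 : ¬ (k = j' ∧ j = k') := by
      rintro ⟨rfl, rfl⟩
      omega
    simp only [Sm', Matrix.sub_apply, Matrix.single_apply, e1, if_false, sub_zero, Subtype.mk.injEq,
      Prod.mk.injEq]
    split_ifs <;> simp
  have hTT : ∀ x y : IR n, ip (Tm' x.1.1 x.1.2 x.2.1.ne) (Tm' y.1.1 y.1.2 y.2.1.ne) =
      if x = y then 2 else 0 := by
    intro x y
    rw [ip_T]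
    obtain ⟨⟨j, k⟩, h1, h2⟩ := x
    obtain ⟨⟨j', k'⟩, h1', h2'⟩ := y
    simp only [Fin.lt_def] at h1 h1'
    have e1 : ¬ (k = j' ∧ j = k') := by
      rintro ⟨rfl, rfl⟩
      omega
    simp only [Tm', Matrix.smul_apply, Matrix.add_apply, Matrix.single_apply, e1, if_false, add_zero,
      Subtype.mk.injEq, Prod.mk.injEq]
    split_ifs <;> simp
  have hST : ∀ x y : IR n, ip (Sm' x.1.1 x.1.2) (Tm' y.1.1 y.1.2 y.2.1.ne) = 0 := by
    intro x y
    rw [ip_T]
    simp only [Sm', Matrix.sub_apply, Matrix.single_apply]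
    split_ifs <;> simp
  rw [orthonormal_iff_ite]
  rintro (x | x) (y | y)
  · have : inner ℝ (tZ1 x) (tZ1 y) = if x = y then (1 : ℝ) else 0 := by
      rw [inner_su, tZ1, tZ1, ip_smul_left, ip_smul_right, hSS]
      split_ifs
      · rw [← mul_assoc]; exact hs
      · simp
    simpa using this
  · have : inner ℝ (tZ1 x) (tZ2 y) = (0 : ℝ) := by
      rw [inner_su, tZ1, tZ2, ip_smul_left, ip_smul_right, hST]
      simp
    simpa using this
  · have : inner ℝ (tZ2 x) (tZ1 y) = (0 : ℝ) := by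
      rw [inner_su, ip_comm, tZ1, tZ2, ip_smul_left, ip_smul_right, hST]
      simp
    simpa using this
  · have : inner ℝ (tZ2 x) (tZ2 y) = if x = y then (1 : ℝ) else 0 := by
      rw [inner_su, tZ2, tZ2, ip_smul_left, ip_smul_right, hTT]
      split_ifs
      · rw [← mul_assoc]; exact hs
      · simp
    simpa using this

end Pool.Agent.H842R4
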