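import Pool.Agent.H842R4.SUDatum
import Pool.Agent.H842R4.Asm4

/-!
The torus datum of `SU(n)` and the final theorem.
-/

open scoped ContDiff Matrix.Norms.Frobenius
open Matrix

noncomputable section

namespace Pool.Agent.H842R4

variable {n : ℕ}

theorem ip_Hd1 (hn : 3 ≤ n) (u : su n) : ip u (Hd ⟨1, by omega⟩) = ip u (tX hn) := by
  rw [Hd, ip_Dg, ip_tX]
  refine Finset.sum_congr rfl fun l _ => ?_
  rw [hv_eq_xv _ rfl]

theorem ip_Hd2 (hn : 3 ≤ n) (u : su n) :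
    ip u (Hd ⟨2, by omega⟩) = ip u (tX hn) + 2 * ip u (tY hn) := by
  rw [Hd, ip_Dg, ip_tX, ip_tY, Finset.mul_sum, ← Finset.sum_add_distrib]
  refine Finset.sum_congr rfl fun l _ => ?_
  rw [hv_eq_yv _ rfl]
  ring

theorem sum_pairs (G : Fin n × Fin n → ℝ) (hG : ∀ x, ¬ x.1 < x.2 → G x = 0) :
    ∑ x, G x = ∑ x : IR n, G x.1
      + ∑ x : {x : Fin n × Fin n // x.1 < x.2 ∧ 3 ≤ x.1.val}, G x.1 := by
  classical
  have h1 : ∑ x : IR n, G x.1 = ∑ x : Fin n × Fin n, if x.1 < x.2 ∧ x.1.val < 3 then G x else 0 := by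
    rw [← Finset.sum_filter]
    exact (Finset.sum_subtype (Finset.univ.filter fun x : Fin n × Fin n =>
      x.1 < x.2 ∧ x.1.val < 3) (by simp) G).symm
  have h2 : ∑ x : {x : Fin n × Fin n // x.1 < x.2 ∧ 3 ≤ x.1.val}, G x.1 =
      ∑ x : Fin n × Fin n, if x.1 < x.2 ∧ 3 ≤ x.1.val then G x else 0 := by
    rw [← Finset.sum_filter]
    exact (Finset.sum_subtype (Finset.univ.filter fun x : Fin n × Fin n =>
      x.1 < x.2 ∧ 3 ≤ x.1.val) (by simp) G).symm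
  rw [h1, h2, ← Finset.sum_add_distrib]
  refine Finset.sum_congr rfl fun x _ => ?_
  by_cases h : x.1 < x.2
  · by_cases h' : x.1.val < 3
    · simp [h, h', not_le.2 h']
    · simp [h, h', not_lt.1 h']
  · simp [h, hG x h]

theorem sum_diag (hn : 3 ≤ n) (G : Fin n → ℝ) :
    (∑ k : Fin n, if 1 ≤ k.val then G k else 0) = G ⟨1, by omega⟩ + G ⟨2, by omega⟩
      + ∑ k : {k : Fin n // 3 ≤ k.val}, G k.1 := by
  classical
  have h2 : ∑ k : {k : Fin n // 3 ≤ k.val}, G k.1 =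
      ∑ k : Fin n, if 3 ≤ k.val then G k else 0 := by
    rw [← Finset.sum_filter]
    exact (Finset.sum_subtype (Finset.univ.filter fun k : Fin n => 3 ≤ k.val) (by simp) G).symm
  rw [h2]
  obtain ⟨m, rfl⟩ := Nat.exists_eq_add_of_le' hn
  have e1 : (⟨1, by omega⟩ : Fin (m + 3)) = Fin.succ 0 := rfl
  have e2 : (⟨2, by omega⟩ : Fin (m + 3)) = Fin.succ (Fin.succ 0) := rfl
  rw [e1, e2]
  have e3 : 2 % (m + 3) = 2 := Nat.mod_eq_of_lt (by omega)
  simp only [Fin.sum_univ_succ]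
  simp [add_assoc, e3]

theorem parseval_datum (hn : 3 ≤ n) (u v : su n) : ip u v =
    2 / 3 * (ip u (tX hn) * ip v (tX hn))
    + 1 / 3 * (ip u (tX hn) * ip v (tY hn) + ip u (tY hn) * ip v (tX hn))
    + 2 / 3 * (ip u (tY hn) * ip v (tY hn))
    + ∑ i : IC n, tw i * (ip u (tC i) * ip v (tC i))
    + ∑ a : IR n, (ip u (tZ1 a) * ip v (tZ1 a) + ip u (tZ2 a) * ip v (tZ2 a)) := by
  have hs : (1 / √2 : ℝ) * (1 / √2) = 1 / 2 := by
    have : √2 * √2 = (2 : ℝ) := Real.mul_self_sqrt (by norm_num)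
    rw [div_mul_div_comm, this, one_mul]
  rw [parseval_su u v, sum_diag hn (fun k => 1 / ((k : ℝ) * (k + 1)) * (ip u (Hd k) * ip v (Hd k))),
    sum_pairs _ (fun x hx => by rw [dif_neg hx]), ip_Hd1 hn, ip_Hd1 hn, ip_Hd2 hn, ip_Hd2 hn]
  rw [Fintype.sum_sum_type, Fintype.sum_sum_type]
  have e1 : ∑ x : IR n, (if h : x.1.1 < x.1.2 then
      (1 / 2) * (ip u (Sm' x.1.1 x.1.2) * ip v (Sm' x.1.1 x.1.2)
        + ip u (Tm' x.1.1 x.1.2 h.ne) * ip v (Tm' x.1.1 x.1.2 h.ne)) else 0) =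
      ∑ a : IR n, (ip u (tZ1 a) * ip v (tZ1 a) + ip u (tZ2 a) * ip v (tZ2 a)) := by
    refine Finset.sum_congr rfl fun x _ => ?_
    rw [dif_pos x.2.1, tZ1, tZ2, ip_smul_right, ip_smul_right, ip_smul_right, ip_smul_right]
    linear_combination -(ip u (Sm' x.1.1 x.1.2) * ip v (Sm' x.1.1 x.1.2)
        + ip u (Tm' x.1.1 x.1.2 x.2.1.ne) * ip v (Tm' x.1.1 x.1.2 x.2.1.ne)) * hs
  have e2 : ∑ x : {x : Fin n × Fin n // x.1 < x.2 ∧ 3 ≤ x.1.val}, (if h : x.1.1 < x.1.2 then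
      (1 / 2) * (ip u (Sm' x.1.1 x.1.2) * ip v (Sm' x.1.1 x.1.2)
        + ip u (Tm' x.1.1 x.1.2 h.ne) * ip v (Tm' x.1.1 x.1.2 h.ne)) else 0) =
      ∑ x : {x : Fin n × Fin n // x.1 < x.2 ∧ 3 ≤ x.1.val},
        tw (Sum.inr (Sum.inl x) : IC n) * (ip u (tC (Sum.inr (Sum.inl x))) *
          ip v (tC (Sum.inr (Sum.inl x))))
      + ∑ x : {x : Fin n × Fin n // x.1 < x.2 ∧ 3 ≤ x.1.val},
        tw (Sum.inr (Sum.inr x) : IC n) * (ip u (tC (Sum.inr (Sum.inr x))) *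
          ip v (tC (Sum.inr (Sum.inr x)))) := by
    rw [← Finset.sum_add_distrib]
    refine Finset.sum_congr rfl fun x _ => ?_
    rw [dif_pos x.2.1]
    simp only [tw, tC, Sum.elim_inr, Sum.elim_inl]
    ring
  rw [e1, e2]
  have e3 : ∑ k : {k : Fin n // 3 ≤ k.val},
      (1 / ((k.1 : ℝ) * (k.1 + 1)) * (ip u (Hd k.1) * ip v (Hd k.1))) =
      ∑ k : {k : Fin n // 3 ≤ k.val}, tw (Sum.inl k : IC n) * (ip u (tC (Sum.inl k)) *
        ip v (tC (Sum.inl k))) := rfl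
  rw [e3]
  push_cast
  ring

/-- The closed 2-torus of `SU(n)`, `n ≥ 3`. -/
def suTorus (hn : 3 ≤ n) : TorusDatum (suCalc n) where
  X := tX hn
  Y := tY hn
  brXY := brk_Dg_Dg _ _ _ _
  clX := fun p => closed_Dg _ _ (fun l => ⟨xv l, rfl⟩) p
  clY := fun p => closed_Dg _ _ (fun l => ⟨yv l, rfl⟩) p
  ind := indep_XY hn
  q11 := 2 / 3
  q12 := 1 / 3
  q22 := 2 / 3
  ιC := IC n
  fC := inferInstance
  C := tC
  w := tw
  clC := closed_C
  brXC := brk_XC hn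
  brYC := brk_YC hn
  indC := indep_XYC hn
  ιR := IR n
  fR := inferInstance
  m := tm
  n := tn
  r := fun x => (exists_rs x).choose.1
  s := fun x => (exists_rs x).choose.2
  unim := fun x => (exists_rs x).choose_spec
  Z1 := tZ1
  Z2 := tZ2
  brX1 x := by
    show brk (tX hn) (tZ1 x) = _
    rw [tZ1, tZ2, brk_smul_right', brk_X_S hn _ _ x.2.1.ne, smul_comm]
    rfl
  brX2 x := by
    show brk (tX hn) (tZ2 x) = _
    rw [tZ1, tZ2, brk_smul_right', brk_X_T hn _ _ x.2.1.ne, smul_neg, smul_comm]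
    rfl
  brY1 x := by
    show brk (tY hn) (tZ1 x) = _
    rw [tZ1, tZ2, brk_smul_right', brk_Y_S hn _ _ x.2.1.ne, smul_comm]
    rfl
  brY2 x := by
    show brk (tY hn) (tZ2 x) = _
    rw [tZ1, tZ2, brk_smul_right', brk_Y_T hn _ _ x.2.1.ne, smul_neg, smul_comm]
    rfl
  orth := orth_Z
  parseval := parseval_datum hn

end Pool.Agent.H842R4
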