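import Pool.Agent.H842R4.Stmt
import Pool.Agent.H842R4.GrpInt

/-!
Calculus of left-invariant fields on `SU(n)` (task SULie, helper793).
-/

open scoped ContDiff Matrix.Norms.Frobenius
open Matrix

noncomputable section

namespace Pool.Agent.H842R4

section abstract

variable {𝔸 : Type} [NormedRing 𝔸] [NormedAlgebra ℝ 𝔸]

theorem sulie_smooth (F : 𝔸 → ℝ) (hF : ContDiff ℝ ∞ F) (C : 𝔸) :
    ContDiff ℝ ∞ (fun q => fderiv ℝ F q (q * C)) := by
  have h1 : ContDiff ℝ ∞ (fderiv ℝ F) := hF.fderiv_right (by simp)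
  exact h1.clm_apply (contDiff_id.mul contDiff_const)

theorem sulie_second (F : 𝔸 → ℝ) (hF : ContDiff ℝ ∞ F) (p C v : 𝔸) :
    fderiv ℝ (fun q => fderiv ℝ F q (q * C)) p v =
      fderiv ℝ F p (v * C) + fderiv ℝ (fderiv ℝ F) p v (p * C) := by
  have h1 : ContDiff ℝ ∞ (fderiv ℝ F) := hF.fderiv_right (by simp)
  have e1 : HasFDerivAt (fderiv ℝ F) (fderiv ℝ (fderiv ℝ F) p) p :=
    (h1.differentiable (by simp)).differentiableAt.hasFDerivAt
  have e2 : HasFDerivAt (fun q : 𝔸 => q * C)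
      ((ContinuousLinearMap.mul ℝ 𝔸).flip C) p :=
    ((ContinuousLinearMap.mul ℝ 𝔸).flip C).hasFDerivAt
  have e3 := (e1.clm_apply e2).fderiv
  rw [e3]
  rfl

theorem sulie_brk (F : 𝔸 → ℝ) (hF : ContDiff ℝ ∞ F) (p A B : 𝔸) :
    fderiv ℝ (fun q => fderiv ℝ F q (q * B)) p (p * A) -
      fderiv ℝ (fun q => fderiv ℝ F q (q * A)) p (p * B) =
      fderiv ℝ F p (p * (A * B - B * A)) := by
  rw [sulie_second F hF, sulie_second F hF]
  have hs : IsSymmSndFDerivAt ℝ F p :=
    hF.contDiffAt.isSymmSndFDerivAt (by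
      rw [minSmoothness_of_isRCLikeNormedField]
      exact WithTop.coe_le_coe.2 le_top)
  have hs2 := hs.eq (p * A) (p * B)
  rw [hs2, mul_sub, map_sub, ← mul_assoc, ← mul_assoc]
  ring

end abstract

variable {n : ℕ}

theorem coe_move (p : SU n) (A : su n) (s : ℝ) :
    ((move p A s : SU n) : Mat n) = (p : Mat n) * NormedSpace.exp (s • (A : Mat n)) := by
  rfl

theorem sulie_exp_add (X Y : Mat n) (h : Commute X Y) :
    NormedSpace.exp (X + Y) = NormedSpace.exp X * NormedSpace.exp Y :=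
  Matrix.exp_add_of_commute X Y h

theorem sulie_commute (A B : su n) (h : brk A B = 0) : Commute (A : Mat n) (B : Mat n) := by
  have h1 := congrArg (fun Z : su n => (Z : Mat n)) h
  exact sub_eq_zero.1 h1

theorem move_zero (p : SU n) (A : su n) : move p A 0 = p := by
  apply Subtype.ext
  rw [coe_move, zero_smul, NormedSpace.exp_zero, mul_one]

theorem move_add (p : SU n) (A : su n) (s t : ℝ) : move p A (s + t) = move (move p A t) A s := by
  apply Subtype.ext
  rw [coe_move, coe_move, coe_move, mul_assoc, add_comm s t, add_smul, sulie_exp_add]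
  exact ((Commute.refl (A : Mat n)).smul_left t).smul_right s

theorem move_comm (A B : su n) (h : brk A B = 0) (p : SU n) (s t : ℝ) :
    move (move p B t) A s = move (move p A s) B t := by
  have hc := sulie_commute A B h
  have h1 : Commute (s • (A : Mat n)) (t • (B : Mat n)) := (hc.smul_left s).smul_right t
  apply Subtype.ext
  rw [coe_move, coe_move, coe_move, coe_move, mul_assoc, mul_assoc, ← sulie_exp_add _ _ h1,
    ← sulie_exp_add _ _ h1.symm, add_comm]

theorem move_comb (A B : su n) (h : brk A B = 0) (a b s : ℝ) (p : SU n) :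
    move p (a • A + b • B) s = move (move p B (b * s)) A (a * s) := by
  have hc := sulie_commute A B h
  have h1 : Commute ((b * s) • (B : Mat n)) ((a * s) • (A : Mat n)) :=
    (hc.symm.smul_left _).smul_right _
  apply Subtype.ext
  rw [coe_move, coe_move, coe_move, mul_assoc, ← sulie_exp_add _ _ h1]
  congr 2
  have h2 : ((a • A + b • B : su n) : Mat n) = a • (A : Mat n) + b • (B : Mat n) := rfl
  rw [h2, smul_add, smul_smul, smul_smul, add_comm, mul_comm s a, mul_comm s b]

theorem hasDerivAt_F (F : Mat n → ℝ) (hF : ContDiff ℝ ∞ F) (A p : Mat n) (s : ℝ) :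
    HasDerivAt (fun u : ℝ => F (p * NormedSpace.exp (u • A)))
      (fderiv ℝ F (p * NormedSpace.exp (s • A)) (p * NormedSpace.exp (s • A) * A)) s := by
  have : CompleteSpace (Mat n) := FiniteDimensional.complete ℝ (Mat n)
  have h1 : HasDerivAt (fun u : ℝ => NormedSpace.exp (u • A)) (NormedSpace.exp (s • A) * A) s :=
    hasDerivAt_exp_smul_const A s
  have h2 := h1.const_mul p
  have h3 : HasFDerivAt F (fderiv ℝ F (p * NormedSpace.exp (s • A)))
      (p * NormedSpace.exp (s • A)) :=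
    (hF.differentiable (by simp)).differentiableAt.hasFDerivAt
  have h4 := h3.comp_hasDerivAt s h2
  rw [← mul_assoc] at h4
  exact h4

theorem lie_eq (f : SU n → ℝ) (F : Mat n → ℝ) (hF : ContDiff ℝ ∞ F) (hf : ∀ p : SU n, f p = F p)
    (A : su n) (p : SU n) : lie A f p = fderiv ℝ F p ((p : Mat n) * A) := by
  unfold lie
  have h1 := hasDerivAt_F F hF (A : Mat n) (p : Mat n) 0
  rw [zero_smul, NormedSpace.exp_zero, mul_one] at h1
  have h2 : (fun s => f (move p A s)) =
      fun u : ℝ => F ((p : Mat n) * NormedSpace.exp (u • (A : Mat n))) := by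
    funext u
    rw [hf, coe_move]
  rw [h2]
  exact h1.deriv

theorem smooth_lie (f : SU n → ℝ) (hf : Smooth f) (A : su n) : Smooth (lie A f) := by
  obtain ⟨F, hF, hfF⟩ := hf
  exact ⟨fun q => fderiv ℝ F q (q * (A : Mat n)), sulie_smooth F hF (A : Mat n),
    fun p => lie_eq f F hF hfF A p⟩

theorem hasDerivAt_move (f : SU n → ℝ) (hf : Smooth f) (A : su n) (p : SU n) (s : ℝ) :
    HasDerivAt (fun u => f (move p A u)) (lie A f (move p A s)) s := by
  obtain ⟨F, hF, hfF⟩ := hf
  have h1 := hasDerivAt_F F hF (A : Mat n) (p : Mat n) s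
  have h2 : (fun s => f (move p A s)) =
      fun u : ℝ => F ((p : Mat n) * NormedSpace.exp (u • (A : Mat n))) := by
    funext u
    rw [hfF, coe_move]
  rw [h2, lie_eq f F hF hfF A (move p A s), coe_move]
  exact h1

theorem sulie_deriv0 (f : SU n → ℝ) (hf : Smooth f) (A : su n) (p : SU n) :
    HasDerivAt (fun u => f (move p A u)) (lie A f p) 0 := by
  have h := hasDerivAt_move f hf A p 0
  rw [move_zero] at h
  exact h

theorem lie_add_left (f : SU n → ℝ) (hf : Smooth f) (A B : su n) (p : SU n) :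
    lie (A + B) f p = lie A f p + lie B f p := by
  obtain ⟨F, hF, hfF⟩ := hf
  rw [lie_eq f F hF hfF, lie_eq f F hF hfF, lie_eq f F hF hfF]
  have h2 : ((A + B : su n) : Mat n) = (A : Mat n) + (B : Mat n) := rfl
  rw [h2, mul_add, map_add]

theorem lie_smul_left (f : SU n → ℝ) (hf : Smooth f) (c : ℝ) (A : su n) (p : SU n) :
    lie (c • A) f p = c * lie A f p := by
  obtain ⟨F, hF, hfF⟩ := hf
  rw [lie_eq f F hF hfF, lie_eq f F hF hfF]
  have h2 : ((c • A : su n) : Mat n) = c • (A : Mat n) := rfl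
  rw [h2, mul_smul_comm, map_smul, smul_eq_mul]

theorem lie_add (f g : SU n → ℝ) (hf : Smooth f) (hg : Smooth g) (A : su n) (p : SU n) :
    lie A (f + g) p = lie A f p + lie A g p :=
  ((sulie_deriv0 f hf A p).add (sulie_deriv0 g hg A p)).deriv

theorem lie_smul (f : SU n → ℝ) (hf : Smooth f) (c : ℝ) (A : su n) (p : SU n) :
    lie A (c • f) p = c * lie A f p :=
  ((sulie_deriv0 f hf A p).const_mul c).deriv

theorem lie_mul (f g : SU n → ℝ) (hf : Smooth f) (hg : Smooth g) (A : su n) (p : SU n) :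
    lie A (f * g) p = f p * lie A g p + g p * lie A f p := by
  have h := ((sulie_deriv0 f hf A p).mul (sulie_deriv0 g hg A p)).deriv
  rw [move_zero] at h
  refine Eq.trans h ?_
  ring

theorem lie_brk (f : SU n → ℝ) (hf : Smooth f) (A B : su n) (p : SU n) :
    lie A (lie B f) p - lie B (lie A f) p = lie (brk A B) f p := by
  obtain ⟨F, hF, hfF⟩ := hf
  have hG : ∀ C : su n, ContDiff ℝ ∞ (fun q : Mat n => fderiv ℝ F q (q * (C : Mat n))) :=
    fun C => sulie_smooth F hF (C : Mat n)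
  have hlie : ∀ C : su n, ∀ q : SU n, lie C f q = fderiv ℝ F q ((q : Mat n) * C) :=
    fun C q => lie_eq f F hF hfF C q
  rw [lie_eq (lie B f) _ (hG B) (hlie B), lie_eq (lie A f) _ (hG A) (hlie A),
    lie_eq f F hF hfF]
  exact sulie_brk F hF (p : Mat n) (A : Mat n) (B : Mat n)

theorem continuous_move₂ (f : SU n → ℝ) (hf : Smooth f) (A B : su n) (p : SU n) :
    Continuous (fun x : ℝ × ℝ => f (move (move p B x.2) A x.1)) := by
  obtain ⟨F, hF, hfF⟩ := hf
  have h2 : (fun x : ℝ × ℝ => f (move (move p B x.2) A x.1)) =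
      fun x : ℝ × ℝ => F ((p : Mat n) * NormedSpace.exp (x.2 • (B : Mat n)) *
        NormedSpace.exp (x.1 • (A : Mat n))) := by
    funext x
    rw [hfF, coe_move, coe_move]
  rw [h2]
  have : CompleteSpace (Mat n) := FiniteDimensional.complete ℝ (Mat n)
  have hc : Continuous (NormedSpace.exp : Mat n → Mat n) := NormedSpace.exp_continuous
  refine hF.continuous.comp ?_
  exact (continuous_const.mul (hc.comp (continuous_snd.smul continuous_const))).mul
    (hc.comp (continuous_fst.smul continuous_const))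

theorem sulie_norm_le (p : SU n) : ‖(p : Mat n)‖ ≤ (∑ _i : Fin n, ∑ _j : Fin n, (1 : ℝ)) ^ (1 / 2 : ℝ) := by
  rw [Matrix.frobenius_norm_def]
  apply Real.rpow_le_rpow
  · exact Finset.sum_nonneg fun i _ => Finset.sum_nonneg fun j _ => by positivity
  · refine Finset.sum_le_sum fun i _ => Finset.sum_le_sum fun j _ => ?_
    have h1 : ‖(p : Mat n) i j‖ ≤ 1 :=
      entry_norm_bound_of_unitary (Matrix.mem_specialUnitaryGroup_iff.1 p.2).1 i j
    have h2 : ‖(p : Mat n) i j‖ ^ (2 : ℝ) ≤ 1 := Real.rpow_le_one (norm_nonneg _) h1 (by norm_num)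
    exact h2
  · norm_num

theorem bounded (f : SU n → ℝ) (hf : Smooth f) : ∃ C, ∀ p, |f p| ≤ C := by
  obtain ⟨F, hF, hfF⟩ := hf
  have : ProperSpace (Mat n) := FiniteDimensional.proper ℝ (Mat n)
  obtain ⟨C, hC⟩ := (isCompact_closedBall (0 : Mat n)
    ((∑ _i : Fin n, ∑ _j : Fin n, (1 : ℝ)) ^ (1 / 2 : ℝ))).exists_bound_of_continuousOn
    hF.continuous.continuousOn
  refine ⟨C, fun p => ?_⟩
  rw [hfF, ← Real.norm_eq_abs]
  apply hC
  rw [mem_closedBall_zero_iff]
  exact sulie_norm_le p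

theorem smooth_int (f : SU n → ℝ) (hf : Smooth f) (A : su n) (w : ℝ → ℝ) (hw : Continuous w) :
    Smooth (fun p => ∫ s in (0 : ℝ)..(2 * Real.pi), w s * f (move p A s)) := by
  obtain ⟨F, hF, hfF⟩ := hf
  refine ⟨fun p => ∫ s in (0 : ℝ)..(2 * Real.pi), w s * F (p * NormedSpace.exp (s • (A : Mat n))),
    contDiff_int F hF (A : Mat n) w hw, fun p => ?_⟩
  simp only [hfF, coe_move]

theorem smooth_add (f g : SU n → ℝ) (hf : Smooth f) (hg : Smooth g) : Smooth (f + g) := by
  obtain ⟨F, hF, hfF⟩ := hf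
  obtain ⟨G, hG, hgG⟩ := hg
  refine ⟨fun q => F q + G q, hF.add hG, fun p => ?_⟩
  rw [Pi.add_apply, hfF, hgG]

theorem smooth_mul (f g : SU n → ℝ) (hf : Smooth f) (hg : Smooth g) : Smooth (f * g) := by
  obtain ⟨F, hF, hfF⟩ := hf
  obtain ⟨G, hG, hgG⟩ := hg
  refine ⟨fun q => F q * G q, hF.mul hG, fun p => ?_⟩
  rw [Pi.mul_apply, hfF, hgG]

theorem smooth_const (c : ℝ) : Smooth (fun _ : SU n => c) :=
  ⟨fun _ => c, contDiff_const, fun _ => rfl⟩

end Pool.Agent.H842R4
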