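import Pool.Agent.H842R4.Stmt

/-!
Basis matrices of `su(n)` and their properties.
-/

open scoped ContDiff Matrix.Norms.Frobenius
open Matrix

noncomputable section

namespace Pool.Agent.H842R4

variable {n : ℕ}

/-- `E_jk - E_kj` -/
def Sm' (j k : Fin n) : su n :=
  ⟨Matrix.single j k 1 - Matrix.single k j 1, by
    refine ⟨?_, ?_⟩
    · rw [conjTranspose_sub, Matrix.conjTranspose_single, Matrix.conjTranspose_single, star_one,
        neg_sub]
    · rw [trace_sub]
      by_cases h : j = k
      · subst h; simp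
      · rw [Matrix.trace_single_eq_of_ne _ _ _ h, Matrix.trace_single_eq_of_ne _ _ _ (Ne.symm h),
          sub_self]⟩

/-- `i (E_jk + E_kj)`, for `j ≠ k` -/
def Tm' (j k : Fin n) (h : j ≠ k) : su n :=
  ⟨Complex.I • (Matrix.single j k 1 + Matrix.single k j 1), by
    refine ⟨?_, ?_⟩
    · rw [conjTranspose_smul, conjTranspose_add, Matrix.conjTranspose_single,
        Matrix.conjTranspose_single, star_one, add_comm (Matrix.single k j (1 : ℂ))]
      rw [show star Complex.I = -Complex.I from Complex.conj_I, neg_smul]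
    · rw [trace_smul, trace_add, Matrix.trace_single_eq_of_ne _ _ _ h,
        Matrix.trace_single_eq_of_ne _ _ _ (Ne.symm h), add_zero, smul_zero]⟩

/-- `diag (i θ)` -/
def Dg (θ : Fin n → ℝ) (h : ∑ l, θ l = 0) : su n :=
  ⟨Matrix.diagonal (fun l => Complex.I * (θ l : ℂ)), by
    refine ⟨?_, ?_⟩
    · rw [Matrix.diagonal_conjTranspose]
      ext a b
      by_cases hab : a = b
      · subst hab
        simp
      · simp [Matrix.diagonal_apply_ne _ hab]
    · rw [Matrix.trace_diagonal, ← Finset.mul_sum, ← Complex.ofReal_sum, h, Complex.ofReal_zero,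
        mul_zero]⟩

/-- the vector `(1, .., 1, -k, 0, ..)` -/
def hv (k : Fin n) (l : Fin n) : ℝ := if l < k then 1 else if l = k then - (k : ℝ) else 0

theorem sumat_hv (x : ℕ → ℝ) (k : Fin n) :
    ∑ l : Fin n, hv k l * x l = ∑ l ∈ Finset.range k, x l - (k : ℝ) * x k := by
  have h1 : ∀ l : Fin n, hv k l * x l =
      (fun l : ℕ => (if l < (k : ℕ) then x l else 0) + (if l = (k : ℕ) then -((k : ℝ) * x k) else 0)) l := by
    intro l
    simp only [hv, Fin.lt_def, Fin.ext_iff]
    by_cases h : (l : ℕ) < k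
    · rw [if_pos h, if_pos h, if_neg (by omega), one_mul, add_zero]
    · rw [if_neg h, if_neg h]
      by_cases h2 : (l : ℕ) = k
      · rw [if_pos h2, if_pos h2, h2]; ring
      · rw [if_neg h2, if_neg h2]; ring
  rw [Finset.sum_congr rfl (fun l _ => h1 l), ← Finset.sum_range (fun l : ℕ =>
    (if l < (k : ℕ) then x l else 0) + (if l = (k : ℕ) then -((k : ℝ) * x k) else 0)),
    Finset.sum_add_distrib, ← Finset.sum_filter, Finset.sum_ite_eq' (Finset.range n) (k : ℕ),
    if_pos (Finset.mem_range.2 k.2)]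
  have h2 : (Finset.range n).filter (fun l => l < (k : ℕ)) = Finset.range k := by
    ext l
    simp only [Finset.mem_filter, Finset.mem_range]
    have := k.2
    omega
  rw [h2]
  ring

theorem hv_sum (k : Fin n) : ∑ l, hv k l = 0 := by
  have h := sumat_hv (n := n) (fun _ => 1) k
  simp only [mul_one, Finset.sum_const, Finset.card_range, nsmul_eq_mul, sub_self] at h
  exact h

/-- `diag i (1, .., 1, -k, 0, ..)` -/
def Hd (k : Fin n) : su n := Dg (hv k) (hv_sum k)

theorem brk_Dg_Dg (θ φ : Fin n → ℝ) (h : ∑ l, θ l = 0) (h' : ∑ l, φ l = 0) :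
    brk (Dg θ h) (Dg φ h') = 0 := by
  apply Subtype.ext
  simp only [brk, Dg, Matrix.diagonal_mul_diagonal, Submodule.coe_zero]
  rw [sub_eq_zero]
  congr 1
  funext l
  ring

theorem brk_Dg_S (θ : Fin n → ℝ) (h : ∑ l, θ l = 0) (j k : Fin n) (hjk : j ≠ k) :
    brk (Dg θ h) (Sm' j k) = (θ j - θ k) • Tm' j k hjk := by
  apply Subtype.ext
  simp only [brk, Dg, Sm', Tm', Submodule.coe_smul]
  ext a b
  simp only [Matrix.sub_apply, Matrix.diagonal_mul, Matrix.mul_diagonal, Matrix.single_apply,
    Matrix.smul_apply, Matrix.add_apply, smul_eq_mul, Complex.real_smul]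
  by_cases h1 : j = a ∧ k = b
  · obtain ⟨rfl, rfl⟩ := h1
    simp only [and_self, if_true, hjk, hjk.symm, if_false]
    push_cast
    ring
  · by_cases h2 : k = a ∧ j = b
    · obtain ⟨rfl, rfl⟩ := h2
      simp only [and_self, if_true, hjk, hjk.symm, if_false]
      push_cast
      ring
    · rw [if_neg h1, if_neg h2]
      ring

theorem brk_Dg_T (θ : Fin n → ℝ) (h : ∑ l, θ l = 0) (j k : Fin n) (hjk : j ≠ k) :
    brk (Dg θ h) (Tm' j k hjk) = -((θ j - θ k) • Sm' j k) := by
  apply Subtype.ext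
  simp only [brk, Dg, Sm', Tm', Submodule.coe_neg, Submodule.coe_smul]
  ext a b
  simp only [Matrix.sub_apply, Matrix.neg_apply, Matrix.diagonal_mul, Matrix.mul_diagonal,
    Matrix.single_apply, Matrix.smul_apply, Matrix.add_apply, smul_eq_mul, Complex.real_smul]
  have hI : Complex.I * Complex.I = -1 := Complex.I_mul_I
  by_cases h1 : j = a ∧ k = b
  · obtain ⟨rfl, rfl⟩ := h1
    simp only [and_self, if_true, hjk, hjk.symm, if_false]
    push_cast
    linear_combination ((θ j : ℂ) - θ k) * hI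
  · by_cases h2 : k = a ∧ j = b
    · obtain ⟨rfl, rfl⟩ := h2
      simp only [and_self, if_true, hjk, hjk.symm, if_false]
      push_cast
      linear_combination ((θ k : ℂ) - θ j) * hI
    · rw [if_neg h1, if_neg h2]
      ring

/-- entries of a skew-Hermitian matrix -/
theorem sumat_skew (A : su n) (j k : Fin n) : (A : Mat n) k j = -star ((A : Mat n) j k) := by
  have h := A.2.1
  have h2 := congrFun (congrFun h k) j
  rw [conjTranspose_apply, Matrix.neg_apply] at h2
  rw [h2, neg_neg]

theorem sumat_tr_single (A : Mat n) (j k : Fin n) :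
    (A * Matrix.single j k (1 : ℂ)).trace = A k j := by
  simp [Matrix.trace, Matrix.mul_apply, Matrix.single_apply, Matrix.diag, ite_and]

theorem ip_S (A : su n) (j k : Fin n) : ip A (Sm' j k) = 2 * ((A : Mat n) j k).re := by
  simp only [ip, Sm']
  rw [Matrix.mul_sub, trace_sub, sumat_tr_single, sumat_tr_single, sumat_skew A j k]
  simp
  ring

theorem ip_T (A : su n) (j k : Fin n) (hjk : j ≠ k) :
    ip A (Tm' j k hjk) = 2 * ((A : Mat n) j k).im := by
  simp only [ip, Tm']
  rw [Matrix.mul_smul, Matrix.mul_add, trace_smul, trace_add, sumat_tr_single, sumat_tr_single,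
    sumat_skew A j k]
  simp
  ring

theorem ip_Dg (A : su n) (θ : Fin n → ℝ) (h : ∑ l, θ l = 0) :
    ip A (Dg θ h) = ∑ l, θ l * ((A : Mat n) l l).im := by
  simp only [ip, Dg, Matrix.trace, Matrix.diag, Matrix.mul_diagonal]
  rw [Complex.re_sum, ← Finset.sum_neg_distrib]
  refine Finset.sum_congr rfl fun l _ => ?_
  simp [Complex.mul_re]
  ring

theorem sumat_ident (x y : ℕ → ℝ) (m : ℕ) : ∑ l ∈ Finset.range (m + 1), x l * y l =
    ∑ k ∈ Finset.range (m + 1), (if 1 ≤ k then (1 / ((k : ℝ) * (k + 1))) *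
      ((∑ l ∈ Finset.range k, x l - k * x k) * (∑ l ∈ Finset.range k, y l - k * y k)) else 0) +
    (1 / ((m : ℝ) + 1)) * ((∑ l ∈ Finset.range (m + 1), x l) *
      (∑ l ∈ Finset.range (m + 1), y l)) := by
  induction m with
  | zero => simp
  | succ m ih =>
    rw [Finset.sum_range_succ, ih, Finset.sum_range_succ _ (m + 1), if_pos (by omega),
      Finset.sum_range_succ x (m + 1), Finset.sum_range_succ y (m + 1)]
    generalize ∑ l ∈ Finset.range (m + 1), x l = a
    generalize ∑ l ∈ Finset.range (m + 1), y l = b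
    have h1 : (m : ℝ) + 1 ≠ 0 := by positivity
    have h2 : (m : ℝ) + 1 + 1 ≠ 0 := by positivity
    push_cast
    field_simp
    ring

theorem sumat_diag (x y : ℕ → ℝ) (hx : ∑ l ∈ Finset.range n, x l = 0) :
    ∑ l : Fin n, x l * y l =
    ∑ k : Fin n, (if 1 ≤ k.val then (1 / ((k : ℝ) * (k + 1))) *
      ((∑ l ∈ Finset.range k, x l - k * x k) * (∑ l ∈ Finset.range k, y l - k * y k)) else 0) := by
  rw [← Finset.sum_range (fun l : ℕ => x l * y l), ← Finset.sum_range (fun k : ℕ =>
    (if 1 ≤ k then (1 / ((k : ℝ) * (k + 1))) *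
      ((∑ l ∈ Finset.range k, x l - k * x k) * (∑ l ∈ Finset.range k, y l - k * y k)) else 0))]
  rcases n with _ | m
  · simp
  · rw [sumat_ident, hx, zero_mul, mul_zero, add_zero]

theorem sumat_offdiag (F : Fin n × Fin n → ℝ) (hF : ∀ j k, F (j, k) = F (k, j)) :
    ∑ x : Fin n × Fin n, F x = ∑ l : Fin n, F (l, l) +
      ∑ x : Fin n × Fin n, (if x.1 < x.2 then 2 * F x else 0) := by
  have h1 : ∀ x : Fin n × Fin n, F x = (if x.1 = x.2 then F x else 0) +
      ((if x.1 < x.2 then F x else 0) + (if x.2 < x.1 then F x else 0)) := by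
    intro x
    rcases lt_trichotomy x.1 x.2 with h | h | h
    · rw [if_neg h.ne, if_pos h, if_neg h.not_gt]; ring
    · rw [if_pos h, if_neg h.not_lt, if_neg h.symm.not_lt]; ring
    · rw [if_neg h.ne', if_neg h.not_gt, if_pos h]; ring
  have h2 : ∑ x : Fin n × Fin n, (if x.2 < x.1 then F x else 0) =
      ∑ x : Fin n × Fin n, (if x.1 < x.2 then F x else 0) := by
    rw [← Equiv.sum_comp (Equiv.prodComm (Fin n) (Fin n))]
    refine Finset.sum_congr rfl ?_
    rintro ⟨j, k⟩ _
    show (if j < k then F (k, j) else 0) = if j < k then F (j, k) else 0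
    rw [hF j k]
  have h3 : ∑ x : Fin n × Fin n, (if x.1 = x.2 then F x else 0) = ∑ l : Fin n, F (l, l) := by
    rw [Fintype.sum_prod_type]
    refine Finset.sum_congr rfl fun j _ => ?_
    simp only
    rw [Finset.sum_ite_eq Finset.univ j, if_pos (Finset.mem_univ _)]
  rw [Finset.sum_congr rfl (fun x _ => h1 x), Finset.sum_add_distrib, Finset.sum_add_distrib, h2,
    h3, ← Finset.sum_add_distrib]
  congr 1
  refine Finset.sum_congr rfl fun x _ => ?_
  split_ifs <;> ring

theorem sumat_ip (u v : su n) : ip u v = ∑ x : Fin n × Fin n,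
    (((u : Mat n) x.1 x.2).re * ((v : Mat n) x.1 x.2).re +
      ((u : Mat n) x.1 x.2).im * ((v : Mat n) x.1 x.2).im) := by
  simp only [ip, Matrix.trace, Matrix.diag, Matrix.mul_apply]
  rw [Complex.re_sum, ← Finset.sum_neg_distrib, Fintype.sum_prod_type]
  refine Finset.sum_congr rfl fun j _ => ?_
  rw [Complex.re_sum, ← Finset.sum_neg_distrib]
  refine Finset.sum_congr rfl fun k _ => ?_
  rw [sumat_skew v j k]
  simp [Complex.mul_re]

theorem sumat_re_diag (u : su n) (l : Fin n) : ((u : Mat n) l l).re = 0 := by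
  have h := congrArg Complex.re (sumat_skew u l l)
  simp at h
  linarith

theorem sumat_tr (u : su n) : ∑ l : Fin n, ((u : Mat n) l l).im = 0 := by
  have h := congrArg Complex.im u.2.2
  simpa [Matrix.trace, Matrix.diag, Complex.im_sum] using h

theorem parseval_su (u v : su n) : ip u v =
    ∑ k : Fin n, (if 1 ≤ k.val then (1 / ((k : ℝ) * (k + 1))) * (ip u (Hd k) * ip v (Hd k)) else 0)
    + ∑ x : Fin n × Fin n, (if h : x.1 < x.2 then
      (1 / 2) * (ip u (Sm' x.1 x.2) * ip v (Sm' x.1 x.2)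
        + ip u (Tm' x.1 x.2 h.ne) * ip v (Tm' x.1 x.2 h.ne)) else 0) := by
  rw [sumat_ip, sumat_offdiag]
  · congr 1
    · set x : (w : su n) → ℕ → ℝ := fun w l => if h : l < n then ((w : Mat n) ⟨l, h⟩ ⟨l, h⟩).im else 0
        with hx
      have hxl : ∀ (w : su n) (l : Fin n), ((w : Mat n) l l).im = x w l := by
        intro w l
        simp only [hx]
        rw [dif_pos l.2]
      have h0 : ∑ l ∈ Finset.range n, x u l = 0 := by
        rw [Finset.sum_range, ← sumat_tr u]
        exact Finset.sum_congr rfl fun l _ => (hxl u l).symm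
      have h1 : ∀ (w : su n) (k : Fin n), ip w (Hd k) =
          ∑ l ∈ Finset.range k, x w l - (k : ℝ) * x w k := by
        intro w k
        rw [Hd, ip_Dg, ← sumat_hv]
        exact Finset.sum_congr rfl fun l _ => by rw [hxl]
      simp only [h1]
      rw [← sumat_diag (x u) (x v) h0]
      refine Finset.sum_congr rfl fun l _ => ?_
      rw [sumat_re_diag, hxl, hxl]
      ring
    · refine Finset.sum_congr rfl fun x _ => ?_
      split_ifs with h
      · rw [ip_S, ip_S, ip_T, ip_T]
        ring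
      · rfl
  · intro j k
    simp only
    rw [sumat_skew u j k, sumat_skew v j k]
    simp

theorem closed_of_exp (A : su n) (hA : NormedSpace.exp ((2 * Real.pi) • (A : Mat n)) = 1)
    (p : SU n) : move p A (2 * Real.pi) = p := by
  apply Subtype.ext
  simp only [move, Submodule.coe_smul, Submonoid.coe_mul]
  rw [hA, mul_one]

theorem closed_Dg (θ : Fin n → ℝ) (h : ∑ l, θ l = 0) (hi : ∀ l, ∃ m : ℤ, θ l = m) (p : SU n) :
    move p (Dg θ h) (2 * Real.pi) = p := by
  apply closed_of_exp
  simp only [Dg]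
  rw [← Matrix.diagonal_smul, Matrix.exp_diagonal, ← Matrix.diagonal_one]
  congr 1
  funext l
  rw [Pi.coe_exp, ← Complex.exp_eq_exp_ℂ]
  obtain ⟨m, hm⟩ := hi l
  simp only [Pi.smul_apply, Complex.real_smul]
  rw [Complex.exp_eq_one_iff]
  refine ⟨m, ?_⟩
  rw [hm]
  push_cast
  ring

/-- `exp (s A) = 1 + sin s A + (1 - cos s) A²` if `A³ = -A` -/
theorem sumat_exp (A : Mat n) (hA : A * A * A = -A) (s : ℝ) :
    NormedSpace.exp (s • A) = 1 + Real.sin s • A + (1 - Real.cos s) • (A * A) := by
  have hd : ∀ t : ℝ, HasDerivAt (fun u : ℝ => (1 + Real.sin u • A + (1 - Real.cos u) • (A * A)) *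
      NormedSpace.exp (u • (-A))) 0 t := by
    intro t
    have h1 : HasDerivAt (fun u : ℝ => 1 + Real.sin u • A + (1 - Real.cos u) • (A * A))
        (0 + Real.cos t • A + (0 - -Real.sin t) • (A * A)) t :=
      ((hasDerivAt_const t (1 : Mat n)).add ((Real.hasDerivAt_sin t).smul_const A)).add
        (((hasDerivAt_const t (1 : ℝ)).sub (Real.hasDerivAt_cos t)).smul_const (A * A))
    have h2 : HasDerivAt (fun u : ℝ => NormedSpace.exp (u • (-A)))
        ((-A) * NormedSpace.exp (t • (-A))) t := hasDerivAt_exp_smul_const' (-A) t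
    have h3 := h1.mul h2
    refine HasDerivAt.congr_deriv h3 ?_
    rw [← mul_assoc, ← add_mul]
    have h4 : 0 + Real.cos t • A + (0 - -Real.sin t) • (A * A) +
        (1 + Real.sin t • A + (1 - Real.cos t) • (A * A)) * -A = 0 := by
      rw [mul_neg, add_mul, add_mul, one_mul, smul_mul_assoc, smul_mul_assoc, hA]
      simp only [sub_neg_eq_add, zero_add, smul_neg, sub_smul, one_smul]
      abel
    rw [h4, zero_mul]
  have h5 : ∀ t u : ℝ, (fun u : ℝ => (1 + Real.sin u • A + (1 - Real.cos u) • (A * A)) *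
      NormedSpace.exp (u • (-A))) t = (fun u : ℝ => (1 + Real.sin u • A +
      (1 - Real.cos u) • (A * A)) * NormedSpace.exp (u • (-A))) u :=
    is_const_of_deriv_eq_zero (fun t => (hd t).differentiableAt) (fun t => (hd t).deriv)
  have h6 := h5 s 0
  simp only [Real.sin_zero, Real.cos_zero, zero_smul, sub_self, add_zero, mul_one,
    NormedSpace.exp_zero] at h6
  have h7 : NormedSpace.exp (s • (-A)) * NormedSpace.exp (s • A) = 1 := by
    rw [smul_neg, Matrix.exp_neg]
    exact Matrix.nonsing_inv_mul _ ((Matrix.isUnit_iff_isUnit_det _).1 (Matrix.isUnit_exp _))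
  calc NormedSpace.exp (s • A) = (1 + Real.sin s • A + (1 - Real.cos s) • (A * A)) *
        NormedSpace.exp (s • (-A)) * NormedSpace.exp (s • A) := by rw [h6, one_mul]
    _ = _ := by rw [mul_assoc, h7, mul_one]

theorem sumat_exp_two_pi (A : Mat n) (hA : A * A * A = -A) :
    NormedSpace.exp ((2 * Real.pi) • A) = 1 := by
  rw [sumat_exp A hA, Real.sin_two_pi, Real.cos_two_pi]
  simp

theorem closed_S (j k : Fin n) (hjk : j ≠ k) (p : SU n) :
    move p (Sm' j k) (2 * Real.pi) = p := by
  apply closed_of_exp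
  apply sumat_exp_two_pi
  simp only [Sm', Matrix.sub_mul, Matrix.mul_sub]
  simp [hjk, hjk.symm]
  abel

theorem closed_T (j k : Fin n) (hjk : j ≠ k) (p : SU n) :
    move p (Tm' j k hjk) (2 * Real.pi) = p := by
  apply closed_of_exp
  apply sumat_exp_two_pi
  simp only [Tm', Matrix.add_mul, Matrix.mul_add, Matrix.smul_mul, Matrix.mul_smul]
  simp [hjk, hjk.symm]
  ext a b
  simp only [Matrix.add_apply, Matrix.neg_apply, Matrix.single_apply]
  split_ifs <;> simp

end Pool.Agent.H842R4
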