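import Pool.Agent.H842R4.SUCalc
import Pool.Agent.H842R4.SUMat

/-!
The closed 2-torus of `SU(n)`, `n ≥ 3`: `X = diag i (1,-1,0,..)`, `Y = diag i (0,1,-1,0,..)`.
-/

open scoped ContDiff Matrix.Norms.Frobenius
open Matrix

noncomputable section

namespace Pool.Agent.H842R4

variable {n : ℕ}

/-- `(1,-1,0,..)` -/
def xv (l : Fin n) : ℤ := if l.val = 0 then 1 else if l.val = 1 then -1 else 0

/-- `(0,1,-1,0,..)` -/
def yv (l : Fin n) : ℤ := if l.val = 1 then 1 else if l.val = 2 then -1 else 0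

theorem xv_sum (hn : 3 ≤ n) : ∑ l : Fin n, (xv l : ℝ) = 0 := by
  obtain ⟨m, rfl⟩ := Nat.exists_eq_add_of_le' hn
  simp [Fin.sum_univ_succ, xv]

theorem yv_sum (hn : 3 ≤ n) : ∑ l : Fin n, (yv l : ℝ) = 0 := by
  obtain ⟨m, rfl⟩ := Nat.exists_eq_add_of_le' hn
  simp [Fin.sum_univ_succ, yv]

/-- `X` -/
def tX (hn : 3 ≤ n) : su n := Dg (fun l => (xv l : ℝ)) (xv_sum hn)

/-- `Y` -/
def tY (hn : 3 ≤ n) : su n := Dg (fun l => (yv l : ℝ)) (yv_sum hn)

/-- zero weights -/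
abbrev IC (n : ℕ) := {k : Fin n // 3 ≤ k.val} ⊕
  ({x : Fin n × Fin n // x.1 < x.2 ∧ 3 ≤ x.1.val} ⊕ {x : Fin n × Fin n // x.1 < x.2 ∧ 3 ≤ x.1.val})

/-- roots -/
abbrev IR (n : ℕ) := {x : Fin n × Fin n // x.1 < x.2 ∧ x.1.val < 3}

/-- zero weight vectors -/
def tC : IC n → su n :=
  Sum.elim (fun k => Hd k.1) (Sum.elim (fun x => Sm' x.1.1 x.1.2) (fun x => Tm' x.1.1 x.1.2 x.2.1.ne))

/-- weights of the zero weight vectors in the Parseval identity -/
def tw : IC n → ℝ :=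
  Sum.elim (fun k => 1 / ((k.1 : ℝ) * (k.1 + 1))) (Sum.elim (fun _ => 1 / 2) (fun _ => 1 / 2))

/-- `m` -/
def tm (x : IR n) : ℤ := xv x.1.1 - xv x.1.2

/-- `n` -/
def tn (x : IR n) : ℤ := yv x.1.1 - yv x.1.2

theorem exists_rs (x : IR n) : ∃ rs : ℤ × ℤ, rs.1 * tm x + rs.2 * tn x = 1 := by
  obtain ⟨⟨j, k⟩, h1, h2⟩ := x
  simp only [Fin.lt_def] at h1 h2
  have hj : j.val = 0 ∨ j.val = 1 ∨ j.val = 2 := by omega
  have hk : k.val = 1 ∨ k.val = 2 ∨ 3 ≤ k.val := by omega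
  simp only [tm, tn, xv, yv]
  rcases hj with hj | hj | hj <;> rcases hk with hk | hk | hk
  · exact ⟨(1, 1), by simp [hj, hk]⟩
  · exact ⟨(1, 0), by simp [hj, hk]⟩
  · exact ⟨(1, 0), by
      have e1 : ¬ k.val = 0 := by omega
      have e2 : ¬ k.val = 1 := by omega
      simp [hj, e1, e2]⟩
  · omega
  · exact ⟨(1, 1), by simp [hj, hk]⟩
  · exact ⟨(0, 1), by
      have e1 : ¬ k.val = 2 := by omega
      have e2 : ¬ k.val = 1 := by omega
      simp [hj, e1, e2]⟩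
  · omega
  · omega
  · exact ⟨(0, -1), by
      have e1 : ¬ k.val = 2 := by omega
      have e2 : ¬ k.val = 1 := by omega
      simp [hj, e1, e2]⟩

/-- `Z₁` -/
def tZ1 (x : IR n) : su n := (1 / √2 : ℝ) • Sm' x.1.1 x.1.2

/-- `Z₂` -/
def tZ2 (x : IR n) : su n := (1 / √2 : ℝ) • Tm' x.1.1 x.1.2 x.2.1.ne

theorem hv_eq_xv (k : Fin n) (hk : k.val = 1) (l : Fin n) : hv k l = xv l := by
  unfold hv xv
  by_cases h0 : l.val = 0
  · have : l < k := by rw [Fin.lt_def]; omega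
    simp [this, h0]
  · by_cases h1 : l.val = 1
    · have e : l = k := Fin.ext (by omega)
      have : ¬ l < k := by rw [Fin.lt_def]; omega
      subst e
      simp [hk]
    · have e : ¬ l = k := fun h => h1 (by rw [h, hk])
      have : ¬ l < k := by rw [Fin.lt_def]; omega
      simp [this, h0, h1, e]

theorem hv_eq_yv (k : Fin n) (hk : k.val = 2) (l : Fin n) : hv k l = xv l + 2 * yv l := by
  unfold hv xv yv
  by_cases h0 : l.val = 0
  · have : l < k := by rw [Fin.lt_def]; omega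
    simp [this, h0]
  · by_cases h1 : l.val = 1
    · have : l < k := by rw [Fin.lt_def]; omega
      simp [this, h1]
      norm_num
    · by_cases h2 : l.val = 2
      · have e : l = k := Fin.ext (by omega)
        have : ¬ l < k := by rw [Fin.lt_def]; omega
        subst e
        simp [hk]
      · have e : ¬ l = k := fun h => h2 (by rw [h, hk])
        have : ¬ l < k := by rw [Fin.lt_def]; omega
        simp [this, h0, h1, h2, e]

end Pool.Agent.H842R4
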