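import Mathlib

/-!
Riemannian metrics on the special unitary group `SU(n)`, in the left-invariant frame.
-/

open scoped ContDiff Matrix.Norms.Frobenius
open Matrix

noncomputable section

namespace Pool.Agent.H842R4

/-- complex `n × n` matrices -/
abbrev Mat (n : ℕ) := Matrix (Fin n) (Fin n) ℂ

/-- the special unitary group `SU(n)` -/
abbrev SU (n : ℕ) := Matrix.specialUnitaryGroup (Fin n) ℂ

theorem su_add {n : ℕ} {A B : Mat n} (hA : Aᴴ = -A ∧ A.trace = 0) (hB : Bᴴ = -B ∧ B.trace = 0) :
    (A + B)ᴴ = -(A + B) ∧ (A + B).trace = 0 :=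
  ⟨by rw [conjTranspose_add, hA.1, hB.1, neg_add], by rw [trace_add, hA.2, hB.2, add_zero]⟩

theorem su_zero {n : ℕ} : (0 : Mat n)ᴴ = -0 ∧ (0 : Mat n).trace = 0 := ⟨by simp, by simp⟩

theorem su_smul {n : ℕ} (c : ℝ) {A : Mat n} (hA : Aᴴ = -A ∧ A.trace = 0) :
    (c • A)ᴴ = -(c • A) ∧ (c • A).trace = 0 :=
  ⟨by rw [conjTranspose_smul, hA.1, star_trivial, smul_neg], by rw [trace_smul, hA.2, smul_zero]⟩

/-- The Lie algebra `su(n)`: skew-Hermitian matrices of trace `0`. The tangent space of `SU(n)` at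
`p` consists of the matrices `p A` with `A ∈ su(n)`. -/
def su (n : ℕ) : Submodule ℝ (Mat n) where
  carrier := {A | Aᴴ = -A ∧ A.trace = 0}
  add_mem' := su_add
  zero_mem' := su_zero
  smul_mem' c _ hA := su_smul c hA

theorem brk_mem {n : ℕ} (A B : su n) : (A : Mat n) * B - B * A ∈ su n := by
  refine ⟨?_, ?_⟩
  · rw [conjTranspose_sub, conjTranspose_mul, conjTranspose_mul, A.2.1, B.2.1]
    simp only [Matrix.neg_mul, Matrix.mul_neg, neg_neg]
    exact (neg_sub _ _).symm
  · rw [trace_sub, trace_mul_comm, sub_self]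

/-- the commutator of two elements of `su(n)` -/
def brk {n : ℕ} (A B : su n) : su n := ⟨(A : Mat n) * B - B * A, brk_mem A B⟩

/-- the bi-invariant inner product `⟨A, B⟩ = - Re tr (A B)` on `su(n)` -/
def ip {n : ℕ} (A B : su n) : ℝ := -((A : Mat n) * B).trace.re

theorem exp_mem {n : ℕ} (A : su n) : NormedSpace.exp (A : Mat n) ∈ SU n := by
  rw [Matrix.mem_specialUnitaryGroup_iff]
  have hA1 := A.2.1
  have hA2 := A.2.2
  refine ⟨?_, ?_⟩
  · rw [Matrix.mem_unitaryGroup_iff, star_eq_conjTranspose, ← Matrix.exp_conjTranspose, hA1,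
      Matrix.exp_neg]
    exact Matrix.mul_nonsing_inv _ ((Matrix.isUnit_iff_isUnit_det _).1 (Matrix.isUnit_exp _))
  · have hH : ((Complex.I) • (A : Mat n)).IsHermitian := by
      rw [Matrix.IsHermitian, conjTranspose_smul, hA1, smul_neg]
      simp
    have hA : (A : Mat n) = (hH.eigenvectorUnitary : Mat n) *
        diagonal (fun i => (-Complex.I) * (hH.eigenvalues i : ℂ)) *
        star (hH.eigenvectorUnitary : Mat n) := by
      have h0 : (A : Mat n) = (-Complex.I) • (Complex.I • (A : Mat n)) := by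
        rw [smul_smul]
        simp
      have h1 := hH.spectral_theorem
      rw [Unitary.conjStarAlgAut_apply] at h1
      conv_lhs => rw [h0, h1]
      rw [← Matrix.smul_mul, ← Matrix.mul_smul, ← Matrix.diagonal_smul]
      rfl
    have h2 := Matrix.exp_units_conj (Unitary.toUnits hH.eigenvectorUnitary)
      (diagonal (fun i => (-Complex.I) * (hH.eigenvalues i : ℂ)))
    have h3 : ((Unitary.toUnits hH.eigenvectorUnitary : (Mat n)ˣ) : Mat n) =
      (hH.eigenvectorUnitary : Mat n) := rfl
    have h4 : (((Unitary.toUnits hH.eigenvectorUnitary)⁻¹ : (Mat n)ˣ) : Mat n) =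
      star (hH.eigenvectorUnitary : Mat n) := rfl
    rw [h3, h4, ← hA, Matrix.exp_diagonal] at h2
    rw [h2, Matrix.det_mul, Matrix.det_mul, Matrix.det_diagonal, mul_comm, ← mul_assoc,
      ← Matrix.det_mul]
    have h5 : star (hH.eigenvectorUnitary : Mat n) * (hH.eigenvectorUnitary : Mat n) = 1 := by simp
    rw [h5, Matrix.det_one, one_mul]
    have h6 : ∑ i, (hH.eigenvalues i : ℂ) = 0 := by
      have := hH.trace_eq_sum_eigenvalues
      rw [trace_smul, hA2, smul_zero] at this
      simpa using this.symm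
    have h7 : ∀ i, NormedSpace.exp (fun i => (-Complex.I) * (hH.eigenvalues i : ℂ)) i =
        Complex.exp ((-Complex.I) * (hH.eigenvalues i : ℂ)) := by
      intro i
      rw [Pi.coe_exp, Complex.exp_eq_exp_ℂ]
    simp only [h7]
    rw [← Complex.exp_sum, ← Finset.mul_sum, h6, mul_zero, Complex.exp_zero]

/-- the point `p exp(s A)` of `SU(n)` -/
def move {n : ℕ} (p : SU n) (A : su n) (s : ℝ) : SU n :=
  p * ⟨NormedSpace.exp ((s • A : su n) : Mat n), exp_mem (s • A)⟩

/-- Smooth functions on the submanifold `SU(n)` of the space of matrices: restrictions of smooth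
functions. -/
def Smooth {n : ℕ} (f : SU n → ℝ) : Prop :=
  ∃ F : Mat n → ℝ, ContDiff ℝ ∞ F ∧ ∀ p : SU n, f p = F p

/-- derivative of a function on `SU(n)` along the left-invariant field `p ↦ p A` -/
def lie {n : ℕ} (A : su n) (f : SU n → ℝ) (p : SU n) : ℝ := deriv (fun s => f (move p A s)) 0

/-- A smooth Riemannian metric on `SU(n)`, given in the left-invariant frame: `g.val p A B` is the
inner product of the tangent vectors `p A` and `p B` at `p`. -/
structure Metric (n : ℕ) where
  val : SU n → su n →ₗ[ℝ] su n →ₗ[ℝ] ℝ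
  symm : ∀ p A B, val p A B = val p B A
  pos : ∀ p A, A ≠ 0 → 0 < val p A A
  smooth : ∀ A B, Smooth (fun p => val p A B)

namespace Metric

variable {n : ℕ} (g : Metric n)

/-- Koszul's formula for `g(∇_A B, C)`, for left-invariant fields `A`, `B`, `C` -/
def koszul (A B C : su n) (p : SU n) : ℝ :=
  (lie A (fun q => g.val q B C) p + lie B (fun q => g.val q A C) p
    - lie C (fun q => g.val q A B) p + g.val p (brk A B) C - g.val p (brk A C) B
    - g.val p (brk B C) A) / 2

/-- the covariant derivative `∇_A B` of left-invariant fields at `p`: the unique element `V` of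
`su(n)` with `g_p(V, C) = g_p(∇_A B, C)` (Koszul's formula) for all `C` -/
def nabla (A B : su n) (p : SU n) : su n :=
  Classical.epsilon fun V => ∀ C, g.val p V C = g.koszul A B C p

/-- The curvature `g(R(A,B)B, A) = g(∇_A ∇_B B - ∇_B ∇_A B - ∇_[A,B] B, A)` at `p`, in the form
`A g(∇_B B, A) - g(∇_B B, ∇_A A) - B g(∇_A B, A) + g(∇_A B, ∇_B A) - g(∇_[A,B] B, A)`. -/
def curv (A B : su n) (p : SU n) : ℝ :=
  lie A (g.koszul B B A) p - g.val p (g.nabla B B p) (g.nabla A A p)
    - lie B (g.koszul A B A) p + g.val p (g.nabla A B p) (g.nabla B A p)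
    - g.koszul (brk A B) B A p

/-- sectional curvature of the plane spanned by the tangent vectors `p A`, `p B` at `p` -/
def sec (A B : su n) (p : SU n) : ℝ :=
  g.curv A B p / (g.val p A A * g.val p B B - g.val p A B ^ 2)

/-- `‖g - g₀‖_{C⁴} ≤ t`, where `g₀` is the bi-invariant metric `⟨A, B⟩ = - Re tr (A B)`: the
components of `g - g₀` in the left-invariant frame and all their derivatives of order at most four
along left-invariant fields of length at most one are bounded by `t`. -/
def CloseToBiinvariant (t : ℝ) : Prop :=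
  ∀ L : List (su n), L.length ≤ 4 → (∀ Z ∈ L, ip Z Z ≤ 1) →
    ∀ A B : su n, ip A A ≤ 1 → ip B B ≤ 1 →
      ∀ p, |(L.foldr lie (fun q => g.val q A B - ip A B)) p| ≤ t

end Metric

/-- Second order rigidity of the bi-invariant metric of `SU(n)`: for every `ε > 0` there is
`t₀ > 0` such that every smooth Riemannian metric at `C⁴` distance at most `t ≤ t₀` from the
bi-invariant metric has a plane of sectional curvature at most `ε t²`. -/
def SecondOrderRigid (n : ℕ) : Prop :=
  ∀ ε : ℝ, 0 < ε → ∃ t₀ : ℝ, 0 < t₀ ∧ ∀ (g : Metric n) (t : ℝ), 0 < t → t ≤ t₀ →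
    g.CloseToBiinvariant t →
      ∃ (p : SU n) (A B : su n), LinearIndependent ℝ ![A, B] ∧ g.sec A B p ≤ ε * t ^ 2

end Pool.Agent.H842R4
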