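import Pool.Agent.H842R4.Stmt

/-!
Riemannian metrics on the special unitary group `SU(n)`, in the left-invariant frame.
-/

open scoped ContDiff Matrix.Norms.Frobenius
open Matrix

noncomputable section

namespace Pool.Agent.H842R4.SUn

/-- the points of the special unitary group `SU(n)` -/
def Pt (n : ℕ) : Type := {p : Mat n // p ∈ Matrix.specialUnitaryGroup (Fin n) ℂ}

/-- The Lie algebra `su(n)`: skew-Hermitian matrices of trace `0`. The tangent space of `SU(n)` at
`p` consists of the matrices `p A`, `A ∈ su(n)`. -/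
def Alg (n : ℕ) : Type := {A : Mat n // Aᴴ = -A ∧ A.trace = 0}

instance (n : ℕ) : AddCommGroup (Alg n) := inferInstanceAs (AddCommGroup (su n))

instance (n : ℕ) : Module ℝ (Alg n) := inferInstanceAs (Module ℝ (su n))

/-- the commutator on `su(n)` -/
def brk {n : ℕ} (A B : Alg n) : Alg n := ⟨A.1 * B.1 - B.1 * A.1, brk_mem (n := n) A B⟩

/-- the bi-invariant inner product `⟨A, B⟩ = - Re tr (A B)` on `su(n)` -/
def ip {n : ℕ} (A B : Alg n) : ℝ := -(A.1 * B.1).trace.re

theorem move_mem {n : ℕ} (p : Pt n) (A : Alg n) (s : ℝ) :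
    p.1 * NormedSpace.exp (s • A.1) ∈ Matrix.specialUnitaryGroup (Fin n) ℂ :=
  mul_mem p.2 (exp_mem (s • (show su n from A)))

/-- the point `p exp(s A)` of `SU(n)` -/
def move {n : ℕ} (p : Pt n) (A : Alg n) (s : ℝ) : Pt n :=
  ⟨p.1 * NormedSpace.exp (s • A.1), move_mem p A s⟩

/-- Smooth functions on the submanifold `SU(n)` of the space of matrices: restrictions of smooth
functions. -/
def Smooth {n : ℕ} (f : Pt n → ℝ) : Prop := ∃ F : Mat n → ℝ, ContDiff ℝ ∞ F ∧ ∀ p, f p = F p.1

/-- derivative of a function on `SU(n)` along the left-invariant field `p ↦ p A` -/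
def lie {n : ℕ} (A : Alg n) (f : Pt n → ℝ) (p : Pt n) : ℝ := deriv (fun s => f (move p A s)) 0

/-- A smooth Riemannian metric on `SU(n)`, given in the left-invariant frame: `g.val p A B` is the
inner product of the tangent vectors `p A` and `p B` at `p`. -/
structure Metric (n : ℕ) where
  val : Pt n → Alg n → Alg n → ℝ
  add : ∀ p A B C, val p (A + B) C = val p A C + val p B C
  smul : ∀ p (c : ℝ) A B, val p (c • A) B = c * val p A B
  symm : ∀ p A B, val p A B = val p B A
  pos : ∀ p A, A ≠ 0 → 0 < val p A A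
  smooth : ∀ A B, Smooth (fun p => val p A B)

namespace Metric

variable {n : ℕ} (g : Metric n)

/-- Koszul's formula for `g(∇_A B, C)`, for left-invariant fields `A`, `B`, `C` -/
def koszul (A B C : Alg n) (p : Pt n) : ℝ :=
  (lie A (fun q => g.val q B C) p + lie B (fun q => g.val q A C) p
    - lie C (fun q => g.val q A B) p + g.val p (brk A B) C - g.val p (brk A C) B
    - g.val p (brk B C) A) / 2

/-- the covariant derivative `∇_A B` of left-invariant fields at `p`: the unique element `V` of
`su(n)` with `g_p(V, C) = g_p(∇_A B, C)` (Koszul's formula) for all `C` -/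
def nabla (A B : Alg n) (p : Pt n) : Alg n :=
  Classical.epsilon fun V => ∀ C, g.val p V C = g.koszul A B C p

/-- The curvature `g(R(A,B)B, A) = g(∇_A ∇_B B - ∇_B ∇_A B - ∇_[A,B] B, A)` at `p`, in the form
`A g(∇_B B, A) - g(∇_B B, ∇_A A) - B g(∇_A B, A) + g(∇_A B, ∇_B A) - g(∇_[A,B] B, A)`. -/
def curv (A B : Alg n) (p : Pt n) : ℝ :=
  lie A (g.koszul B B A) p - g.val p (g.nabla B B p) (g.nabla A A p)
    - lie B (g.koszul A B A) p + g.val p (g.nabla A B p) (g.nabla B A p)
    - g.koszul (brk A B) B A p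

/-- sectional curvature of the plane spanned by the tangent vectors `p A`, `p B` at `p` -/
def sec (A B : Alg n) (p : Pt n) : ℝ :=
  g.curv A B p / (g.val p A A * g.val p B B - g.val p A B ^ 2)

/-- `‖g - g₀‖_{C⁴} ≤ t`, where `g₀` is the bi-invariant metric `⟨A, B⟩ = - Re tr (A B)`: the
components of `g - g₀` in the left-invariant frame and all their derivatives of order at most four
along left-invariant fields of length at most one are bounded by `t`. -/
def CloseToBiinvariant (t : ℝ) : Prop :=
  ∀ L : List (Alg n), L.length ≤ 4 → (∀ Z ∈ L, ip Z Z ≤ 1) →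
    ∀ A B : Alg n, ip A A ≤ 1 → ip B B ≤ 1 →
      ∀ p, |(L.foldr lie (fun q => g.val q A B - ip A B)) p| ≤ t

end Metric

end Pool.Agent.H842R4.SUn
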