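import Pool.Agent.H842R4.Avg
import Pool.Agent.H821R3.Wirt

/-!
Wirtinger type inequality `∫ |F' + i F / 2|² ≥ (1/4) ∫ |F|²` for `2π`-periodic `F = f₁ + i f₂`.
-/

open MeasureTheory Filter Topology

noncomputable section

namespace Pool.Agent.H842R4

theorem wirt_pair (f g f' g' : ℝ → ℝ) (hf : ∀ x, HasDerivAt f (f' x) x)
    (hg : ∀ x, HasDerivAt g (g' x) x) (hf' : Continuous f') (hg' : Continuous g')
    (pf : ∀ x, f (x + 2 * Real.pi) = f x) (pg : ∀ x, g (x + 2 * Real.pi) = g x) :
    0 ≤ ∫ x in (0 : ℝ)..(2 * Real.pi),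
      ((f' x - (1 / 2) * g x) ^ 2 + (g' x + (1 / 2) * f x) ^ 2 - (1 / 4) * (f x ^ 2 + g x ^ 2)) := by
  have hpi := Real.pi_pos
  have hfc : Continuous f := continuous_iff_continuousAt.2 fun x => (hf x).continuousAt
  have hgc : Continuous g := continuous_iff_continuousAt.2 fun x => (hg x).continuousAt
  have pf' : ∀ x, f' (x + 2 * Real.pi) = f' x := by
    intro x
    have h1 : HasDerivAt (fun y => f (y + 2 * Real.pi)) (f' (x + 2 * Real.pi)) x :=
      (hf (x + 2 * Real.pi)).comp_add_const x (2 * Real.pi)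
    rw [funext pf] at h1
    exact h1.unique (hf x)
  have hw := Pool.Agent.H821R3.wirtinger f f' hf hf' pf pf'
  set T : ℝ := 2 * Real.pi with hT
  have hT0 : 0 < T := by positivity
  set m : ℝ := 1 / T * ∫ θ in (0 : ℝ)..T, f θ with hm
  have e1 : ∫ x in (0 : ℝ)..T, (f' x * g x + f x * g' x) = 0 := by
    have h1 : ∀ x ∈ Set.uIcc (0 : ℝ) T, HasDerivAt (fun y => f y * g y)
        (f' x * g x + f x * g' x) x := fun x _ => (hf x).mul (hg x)
    rw [intervalIntegral.integral_eq_sub_of_hasDerivAt h1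
      (((hf'.mul hgc).add (hfc.mul hg')).intervalIntegrable _ _)]
    have h2 := pf 0
    have h3 := pg 0
    rw [zero_add] at h2 h3
    rw [h2, h3, sub_self]
  have e2 : ∫ x in (0 : ℝ)..T, g' x = 0 := by
    rw [intervalIntegral.integral_eq_sub_of_hasDerivAt (fun x _ => hg x)
      (hg'.intervalIntegrable _ _)]
    have h3 := pg 0
    rw [zero_add] at h3
    rw [h3, sub_self]
  have e3 : ∫ x in (0 : ℝ)..T, (f' x ^ 2 - (f x - m) ^ 2) =
      (∫ x in (0 : ℝ)..T, f' x ^ 2) + 1 / T * (∫ x in (0 : ℝ)..T, f x) ^ 2 -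
        ∫ x in (0 : ℝ)..T, f x ^ 2 := by
    have h1 : ∀ x, f' x ^ 2 - (f x - m) ^ 2 = ((f' x ^ 2 - f x ^ 2) + (2 * m) * f x) - m ^ 2 := by
      intro x; ring
    rw [intervalIntegral.integral_congr (fun x _ => h1 x),
      intervalIntegral.integral_sub, intervalIntegral.integral_add, intervalIntegral.integral_sub,
      intervalIntegral.integral_const_mul, intervalIntegral.integral_const, sub_zero, smul_eq_mul]
    · have h2 : ∫ θ in (0 : ℝ)..T, f θ = T * m := by
        rw [hm]
        field_simp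
      rw [h2]
      field_simp
      ring
    · exact (hf'.pow 2).intervalIntegrable _ _
    · exact (hfc.pow 2).intervalIntegrable _ _
    · exact ((hf'.pow 2).sub (hfc.pow 2)).intervalIntegrable _ _
    · exact (hfc.const_mul _).intervalIntegrable _ _
    · exact (((hf'.pow 2).sub (hfc.pow 2)).add (hfc.const_mul _)).intervalIntegrable _ _
    · exact continuous_const.intervalIntegrable _ _
  have e4 : ∀ x, ((f' x - (1 / 2) * g x) ^ 2 + (g' x + (1 / 2) * f x) ^ 2 -
      (1 / 4) * (f x ^ 2 + g x ^ 2)) = (((g' x + (f x - m)) ^ 2 + (f' x ^ 2 - (f x - m) ^ 2)) -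
        (f' x * g x + f x * g' x)) + (2 * m) * g' x := by
    intro x; ring
  rw [intervalIntegral.integral_congr (fun x _ => e4 x), intervalIntegral.integral_add,
    intervalIntegral.integral_sub, intervalIntegral.integral_add,
    intervalIntegral.integral_const_mul, e1, e2, e3]
  · have h1 : 0 ≤ ∫ x in (0 : ℝ)..T, (g' x + (f x - m)) ^ 2 :=
      intervalIntegral.integral_nonneg hT0.le fun x _ => sq_nonneg _
    linarith
  · exact ((hg'.add (hfc.sub continuous_const)).pow 2).intervalIntegrable _ _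
  · exact ((hf'.pow 2).sub ((hfc.sub continuous_const).pow 2)).intervalIntegrable _ _
  · exact (((hg'.add (hfc.sub continuous_const)).pow 2).add
      ((hf'.pow 2).sub ((hfc.sub continuous_const).pow 2))).intervalIntegrable _ _
  · exact ((hf'.mul hgc).add (hfc.mul hg')).intervalIntegrable _ _
  · exact ((((hg'.add (hfc.sub continuous_const)).pow 2).add
      ((hf'.pow 2).sub ((hfc.sub continuous_const).pow 2))).sub
        ((hf'.mul hgc).add (hfc.mul hg'))).intervalIntegrable _ _
  · exact (hg'.const_mul _).intervalIntegrable _ _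

variable {P 𝔤 : Type} [NormedAddCommGroup 𝔤] [InnerProductSpace ℝ 𝔤]

theorem Calc.av_wirt (K : Calc P 𝔤) (B : 𝔤) (hB : K.Cl B) (f₁ f₂ : K.𝒜) (p : P) :
    0 ≤ K.ev p (K.Av B ((K.D B f₁ - (1 / 2 : ℝ) • f₂) ^ 2 + (K.D B f₂ + (1 / 2 : ℝ) • f₁) ^ 2
      - (1 / 4 : ℝ) • (f₁ ^ 2 + f₂ ^ 2))) := by
  rw [K.ev_Av]
  have hper : ∀ s, K.fl B (s + 2 * Real.pi) p = K.fl B s p := by
    intro s
    rw [K.fl_add, hB p]
  refine mul_nonneg (by have := Real.pi_pos; positivity) ?_
  have h := wirt_pair (fun s => K.ev (K.fl B s p) f₁) (fun s => K.ev (K.fl B s p) f₂)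
    (fun s => K.ev (K.fl B s p) (K.D B f₁)) (fun s => K.ev (K.fl B s p) (K.D B f₂))
    (fun s => K.der_ev B f₁ p s) (fun s => K.der_ev B f₂ p s) (K.cont_ev B _ p) (K.cont_ev B _ p)
    (fun s => by simp only [hper]) (fun s => by simp only [hper])
  refine h.trans (le_of_eq (intervalIntegral.integral_congr fun s _ => ?_))
  simp only [map_sub, map_add, map_pow, map_smul, smul_eq_mul]

end Pool.Agent.H842R4
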