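import Pool.Agent.H842R4.Avg

/-!
Zero weight directions: the averaging argument.

Let `E f = K.Av X (K.Av Y f)`. If `D_Y a - D_X b`, `D_Y b - D_X c`, `E a`, `E b` are small and
`a, b, c` bounded, then `E (b² - a c)` is small.
-/

open MeasureTheory Filter Topology

noncomputable section

namespace Pool.Agent.H842R4

variable {P 𝔤 : Type} [NormedAddCommGroup 𝔤] [InnerProductSpace ℝ 𝔤]

/-- the exact identity behind `zero_core` -/
theorem Calc.zero_core_id (K : Calc P 𝔤) (X Y : 𝔤) (hXY : K.br X Y = 0) (hX : K.Cl X)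
    (hY : K.Cl Y) (a b c : K.𝒜) :
    K.Av X (K.Av Y (b ^ 2 - a * c)) =
      K.Av X (K.Av Y ((K.D Y a - K.D X b) * K.Pr X b)) + K.Av X (K.Av Y (b * K.Av X b)) +
        K.Av X (K.Av Y (a * K.Pr X (K.D Y b - K.D X c))) -
        K.Av Y (K.Av X c * K.Av X a) := by
  have e1 : K.D X (K.Pr X b) = b - K.Av X b := K.D_Pr_self X hX b
  have e2 : c = K.D Y (K.Pr X b) - K.Pr X (K.D Y b - K.D X c) + K.Av X c := by
    rw [K.D_Pr_comm X Y hXY, map_sub, K.Pr_D_self X hX c]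
    ring
  have p1 : K.Av X (K.Av Y (b * K.D X (K.Pr X b))) = - K.Av X (K.Av Y (K.D X b * K.Pr X b)) := by
    have := K.Av_Av_parts X Y hXY hX hY 1 0 b (K.Pr X b)
    simpa only [one_smul, zero_smul, add_zero] using this
  have p2 : K.Av X (K.Av Y (a * K.D Y (K.Pr X b))) = - K.Av X (K.Av Y (K.D Y a * K.Pr X b)) := by
    have := K.Av_Av_parts X Y hXY hX hY 0 1 a (K.Pr X b)
    simpa only [one_smul, zero_smul, zero_add] using this
  have p3 : K.Av X (K.Av Y (a * K.Av X c)) = K.Av Y (K.Av X c * K.Av X a) := by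
    rw [K.Av_comm X Y hXY, mul_comm a, K.Av_mul_Av X hX a c]
  have f1 : b ^ 2 = b * K.D X (K.Pr X b) + b * K.Av X b := by
    rw [e1]; ring
  have f2 : a * c = a * K.D Y (K.Pr X b) - a * K.Pr X (K.D Y b - K.D X c) + a * K.Av X c := by
    calc a * c = a * (K.D Y (K.Pr X b) - K.Pr X (K.D Y b - K.D X c) + K.Av X c) := by
          rw [← e2]
      _ = _ := by ring
  rw [f1, f2, sub_mul]
  simp only [map_add, map_sub, p1, p2, p3]
  ring

theorem Calc.zero_core (K : Calc P 𝔤) (X Y : 𝔤) (hXY : K.br X Y = 0) (hX : K.Cl X) (hY : K.Cl Y)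
    (a b c : ℕ → K.𝒜) (ba : K.bd a) (bb : K.bd b) (bc : K.bd c)
    (h1 : K.sm (fun j => K.D Y (a j) - K.D X (b j)))
    (h2 : K.sm (fun j => K.D Y (b j) - K.D X (c j)))
    (ha : K.sm (fun j => K.Av X (K.Av Y (a j)))) (hb : K.sm (fun j => K.Av X (K.Av Y (b j)))) :
    K.sm (fun j => K.Av X (K.Av Y (b j ^ 2 - a j * c j))) := by
  -- `P a` and `P b` are small
  have small : ∀ f g : ℕ → K.𝒜, K.sm (fun j => K.D Y (f j) - K.D X (g j)) →
      K.sm (fun j => K.Av X (K.Av Y (f j))) → K.sm (fun j => K.Av X (f j)) := by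
    intro f g hfg hf
    have h3 := Calc.sm_Pr Y (Calc.sm_Av X hfg)
    refine (h3.add hf).congr ?_
    intro j
    have e1 : K.Pr Y (K.D Y (K.Av X (f j))) = K.Av X (f j) - K.Av Y (K.Av X (f j)) :=
      K.Pr_D_self Y hY _
    have e2 : K.D Y (K.Av X (f j)) = K.Av X (K.D Y (f j) - K.D X (g j)) := by
      rw [K.D_Av_comm X Y hXY, map_sub, K.Av_D X hX, sub_zero]
    rw [e2] at e1
    rw [e1, K.Av_comm X Y hXY]
    ring
  have hPa : K.sm (fun j => K.Av X (a j)) := small a b h1 ha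
  have hPb : K.sm (fun j => K.Av X (b j)) := small b c h2 hb
  have s1 : K.sm (fun j => K.Av X (K.Av Y ((K.D Y (a j) - K.D X (b j)) * K.Pr X (b j)))) :=
    Calc.sm_Av X (Calc.sm_Av Y (h1.mul_bd (Calc.bd_Pr X bb)))
  have s2 : K.sm (fun j => K.Av X (K.Av Y (b j * K.Av X (b j)))) :=
    Calc.sm_Av X (Calc.sm_Av Y (Calc.sm.bd_mul bb hPb))
  have s3 : K.sm (fun j => K.Av X (K.Av Y (a j * K.Pr X (K.D Y (b j) - K.D X (c j))))) :=
    Calc.sm_Av X (Calc.sm_Av Y (Calc.sm.bd_mul ba (Calc.sm_Pr X h2)))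
  have s4 : K.sm (fun j => K.Av Y (K.Av X (c j) * K.Av X (a j))) :=
    Calc.sm_Av Y (Calc.sm.bd_mul (Calc.bd_Av X bc) hPa)
  exact (((s1.add s2).add s3).sub s4).congr fun j => K.zero_core_id X Y hXY hX hY _ _ _

end Pool.Agent.H842R4
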